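import Pool.Agent.Helper850.RC.Defs

set_option autoImplicit false

namespace RC
open Finset BigOperators

/-- super-lacunary growth of `X` on `T` -/
def Lac (K : ℝ) (X : ℕ → ℝ) (T : Finset ℕ) : Prop :=
  (∀ i ∈ T, K ≤ X i) ∧ ∀ i ∈ T, ∀ i' ∈ T, i < i' → K * X i ≤ X i'

/-- `G` is a flag on `T` at the scale `X` (sorted by magnitude) -/
def Flagd {t : ℕ} (ε S : ℝ) (X : ℕ → ℝ) (G : Fin t → ℕ → ℝ) (T : Finset ℕ) : Prop :=
  (∀ j, ∀ i ∈ T, G j i ≠ 0 ∧ |Real.log (G j i)| ≤ S * X i) ∧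
  ∀ j l : Fin t, j < l → ∀ i ∈ T, Real.log (G j i) + ε * X i ≤ Real.log (G l i)

/-- `|F|` is `exp h` up to a factor `exp (± S X)` -/
def Tame (S : ℝ) (X : ℕ → ℝ) (F : ℕ → ℝ) (h : ℝ) (T : Finset ℕ) : Prop :=
  ∀ i ∈ T, F i ≠ 0 ∧ |Real.log (F i) - h| ≤ S * X i

/-- no element of `F + span G` vanishing at `t` points of `T` is very small at a later point -/
def NoDep {t : ℕ} (K : ℝ) (X : ℕ → ℝ) (G : Fin t → ℕ → ℝ) (F : ℕ → ℝ) (h : ℝ)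
    (T : Finset ℕ) : Prop :=
  ∀ J ⊆ T, J.card = t → ∀ i ∈ T, (∀ q ∈ J, q < i) → ∀ c : Fin t → ℝ,
    (∀ q ∈ J, F q + comb G c q = 0) → Real.exp (h - K * X i) ≤ |F i + comb G c i|

/-- the values of `log |F|` are pairwise separated on `Q` -/
def Wild (S : ℝ) (X : ℕ → ℝ) (F : ℕ → ℝ) (Q : Finset ℕ) : Prop :=
  (∀ i ∈ Q, F i ≠ 0) ∧ ∀ i ∈ Q, ∀ i' ∈ Q, i < i' →
    S * (X i + X i') ≤ |Real.log (F i) - Real.log (F i')|

/-- the ratios `F / G` are moderate and pairwise separated on `Q` -/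
def Sprd (ε : ℝ) (X : ℕ → ℝ) (F G : ℕ → ℝ) (Q : Finset ℕ) : Prop :=
  (∀ i ∈ Q, G i ≠ 0 ∧ |F i / G i| ≤ Real.exp (ε * X i)) ∧ ∀ i ∈ Q, ∀ i' ∈ Q, i < i' →
    Real.exp (-(ε * X i)) ≤ |F i / G i - F i' / G i'|

/-- the possible outcomes of adding `F` to the flag `G`: dependent, extended flag, wild, spread -/
def Out {t : ℕ} (S ε : ℝ) (X : ℕ → ℝ) (G : Fin t → ℕ → ℝ) (F : ℕ → ℝ) (T : Finset ℕ)
    (ν R : ℕ) : Prop :=
  (∃ T' ⊆ T, T'.card = ν ∧ ∃ c : Fin t → ℝ, ∀ i ∈ T', F i + comb G c i = 0) ∨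
  (∃ T' ⊆ T, T'.card = ν ∧ ∃ (s : ℝ) (c : Fin t → ℝ), s ≠ 0 ∧
    (∀ i ∈ T', s * F i + comb G c i ≠ 0 ∧ |Real.log (s * F i + comb G c i)| ≤ 2 * S * X i) ∧
    ∀ j, (∀ i ∈ T', Real.log (G j i) + ε / 8 * X i ≤ Real.log (s * F i + comb G c i)) ∨
      (∀ i ∈ T', Real.log (s * F i + comb G c i) + ε / 8 * X i ≤ Real.log (G j i))) ∨
  (∃ Q ⊆ T, Q.card = R ∧ ∃ c : Fin t → ℝ, Wild S X (fun i => F i + comb G c i) Q) ∨
  (∃ T' ⊆ T, T'.card = ν ∧ ∃ (s : ℝ) (c : Fin t → ℝ) (j : Fin t), s ≠ 0 ∧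
    Sprd ε X (fun i => s * F i + comb G c i) (G j) T')

/-- all nonzero integer combinations of `A`, `B` with coefficients of modulus at most `N` are
monotone on `T` with increments at least `Λ` -/
def GenAB (N : ℕ) (Λ : ℝ) (A B : ℕ → ℝ) (T : Finset ℕ) : Prop :=
  ∀ α β : ℤ, |α| ≤ (N : ℤ) → |β| ≤ (N : ℤ) → (α ≠ 0 ∨ β ≠ 0) →
    (∀ i ∈ T, ∀ i' ∈ T, i < i' →
      (α : ℝ) * A i + (β : ℝ) * B i + Λ ≤ (α : ℝ) * A i' + (β : ℝ) * B i') ∨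
    (∀ i ∈ T, ∀ i' ∈ T, i < i' →
      (α : ℝ) * A i' + (β : ℝ) * B i' + Λ ≤ (α : ℝ) * A i + (β : ℝ) * B i)

/-- evaluation of a polynomial in two variables (inner variable `s`, outer variable `y`) -/
noncomputable def ev2 (F : Polynomial (Polynomial ℝ)) (s y : ℝ) : ℝ :=
  (F.map (Polynomial.evalRingHom s)).eval y

/-- degree at most `D` in both variables -/
def Bdeg (D : ℕ) (F : Polynomial (Polynomial ℝ)) : Prop :=
  F.natDegree ≤ D ∧ ∀ n, (F.coeff n).natDegree ≤ D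

/-- the Wronskian with respect to the outer variable -/
noncomputable def wr (F G : Polynomial (Polynomial ℝ)) : Polynomial (Polynomial ℝ) :=
  Polynomial.derivative F * G - F * Polynomial.derivative G

/-- polynomial in `2k` variables `s l, t l` with degree `≤ N` in each variable -/
noncomputable def qev {k N : ℕ} (c : (Fin k → Fin (N + 1)) → (Fin k → Fin (N + 1)) → ℝ)
    (s t : Fin k → ℝ) : ℝ :=
  ∑ α : Fin k → Fin (N + 1), ∑ β : Fin k → Fin (N + 1),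
    c α β * ∏ l, (s l ^ (α l : ℕ) * t l ^ (β l : ℕ))

/-- the monomials `x^a y^b`, `a, b ≤ D`, along two sequences -/
noncomputable def mon (D : ℕ) (x y : ℕ → ℝ) (j : Fin ((D + 1) * (D + 1))) (i : ℕ) : ℝ :=
  x i ^ ((j : ℕ) / (D + 1)) * y i ^ ((j : ℕ) % (D + 1))

/-- polynomial in `k` points `(s l, y l)` of the plane, degree `≤ D` in each variable -/
noncomputable def fev {k : ℕ} (D : ℕ) (c : (Fin k → Fin ((D + 1) * (D + 1))) → ℝ)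
    (s y : Fin k → ℝ) : ℝ :=
  ∑ J : Fin k → Fin ((D + 1) * (D + 1)),
    c J * ∏ l, (s l ^ ((J l : ℕ) / (D + 1)) * y l ^ ((J l : ℕ) % (D + 1)))

end RC
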