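import Pool.Agent.Helper850.RF.Defs

set_option autoImplicit false

namespace RC
open Finset BigOperators


theorem abs_track_le (c : ℝ) (hc : 0 < c) : ∀ᶠ δ in nhdsWithin (0 : ℝ) (Set.Ioi 0), δ ≤ c :=
  nhdsWithin_le_nhds (Iic_mem_nhds hc)

theorem abs_track_loc (Z : ℝ → Set ℝ) (hfin : ∀ τ ∈ Set.Icc (0 : ℝ) 1, (Z τ).Finite)
    (h1 : ∀ τ₀ ∈ Set.Icc (0 : ℝ) 1, ∀ y₀ ∈ Z τ₀, ∃ δ₀ : ℝ, 0 < δ₀ ∧ ∀ δ : ℝ, 0 < δ → δ ≤ δ₀ →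
      ∀ᶠ τ in nhdsWithin τ₀ (Set.Icc (0 : ℝ) 1), ∃! y : ℝ, y ∈ Z τ ∧ |y - y₀| < δ)
    (h2 : ∀ τ₀ ∈ Set.Icc (0 : ℝ) 1, ∀ δ : ℝ, 0 < δ →
      ∀ᶠ τ in nhdsWithin τ₀ (Set.Icc (0 : ℝ) 1), ∀ y ∈ Z τ, ∃ y₀ ∈ Z τ₀, |y - y₀| < δ)
    (τ₀ : ℝ) (hτ : τ₀ ∈ Set.Icc (0 : ℝ) 1) (ε : ℝ) (hε : 0 < ε) :
    ∀ᶠ τ in nhdsWithin τ₀ (Set.Icc (0 : ℝ) 1), ∃ φ : ℝ → ℝ,
      (∀ y ∈ Z τ₀, φ y ∈ Z τ ∧ |φ y - y| < ε) ∧ StrictMonoOn φ (Z τ₀) ∧ φ '' Z τ₀ = Z τ := by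
  have hZ := hfin τ₀ hτ
  have hd := h1 τ₀ hτ
  choose! d hd0 hd1 using hd
  have e1 : ∀ᶠ δ in nhdsWithin (0 : ℝ) (Set.Ioi 0), ∀ y ∈ Z τ₀, δ ≤ d y :=
    (Filter.eventually_all_finite hZ).2 fun y hy => abs_track_le _ (hd0 y hy)
  have e2 : ∀ᶠ δ in nhdsWithin (0 : ℝ) (Set.Ioi 0), ∀ y ∈ Z τ₀, ∀ y' ∈ Z τ₀, y < y' →
      y + δ ≤ y' - δ := by
    refine (Filter.eventually_all_finite hZ).2 fun y hy => ?_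
    refine (Filter.eventually_all_finite hZ).2 fun y' hy' => ?_
    by_cases h : y < y'
    · filter_upwards [abs_track_le ((y' - y) / 2) (by linarith)] with δ hδ _
      linarith
    · exact Filter.Eventually.of_forall fun δ h' => absurd h' h
  have e3 : ∀ᶠ δ in nhdsWithin (0 : ℝ) (Set.Ioi 0), 0 < δ := self_mem_nhdsWithin
  obtain ⟨δ, ⟨⟨hδ1, hδ2⟩, hδ0⟩, hδε⟩ := (((e1.and e2).and e3).and (abs_track_le ε hε)).exists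
  have f1 : ∀ᶠ τ in nhdsWithin τ₀ (Set.Icc (0 : ℝ) 1), ∀ y ∈ Z τ₀,
      ∃! y' : ℝ, y' ∈ Z τ ∧ |y' - y| < δ :=
    (Filter.eventually_all_finite hZ).2 fun y hy => hd1 y hy δ hδ0 (hδ1 y hy)
  filter_upwards [f1, h2 τ₀ hτ δ hδ0] with τ hτ1 hτ2
  choose! φ hφ hφu using hτ1
  simp only [and_imp] at hφu
  refine ⟨φ, fun y hy => ⟨(hφ y hy).1, lt_of_lt_of_le (hφ y hy).2 hδε⟩, ?_, ?_⟩
  · intro y hy y' hy' hlt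
    have g1 := abs_lt.1 (hφ y hy).2
    have g2 := abs_lt.1 (hφ y' hy').2
    have g3 := hδ2 y hy y' hy' hlt
    linarith [g1.2, g2.1]
  · ext z
    constructor
    · rintro ⟨y, hy, rfl⟩
      exact (hφ y hy).1
    · intro hz
      obtain ⟨y, hy, hyz⟩ := hτ2 z hz
      exact ⟨y, hy, (hφu y hy z hz hyz).symm⟩

theorem abs_track_rank {S T : Set ℝ} (φ : ℝ → ℝ) (hm : StrictMonoOn φ S) (hi : φ '' S = T)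
    (y : ℝ) (hy : y ∈ S) :
    {z : ℝ | z ∈ T ∧ z < φ y}.ncard = {z : ℝ | z ∈ S ∧ z < y}.ncard := by
  have h : {z : ℝ | z ∈ T ∧ z < φ y} = φ '' {z : ℝ | z ∈ S ∧ z < y} := by
    ext z
    constructor
    · rintro ⟨hz, hlt⟩
      rw [← hi] at hz
      obtain ⟨w, hw, rfl⟩ := hz
      exact ⟨w, ⟨hw, (hm.lt_iff_lt hw hy).1 hlt⟩, rfl⟩
    · rintro ⟨w, ⟨hw, hlt⟩, rfl⟩
      exact ⟨hi ▸ ⟨w, hw, rfl⟩, hm hw hy hlt⟩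
  rw [h]
  exact Set.ncard_image_of_injOn (hm.injOn.mono fun z hz => hz.1)

theorem abs_track_uniq {S : Set ℝ} (hS : S.Finite) {y y' : ℝ} (hy : y ∈ S) (hy' : y' ∈ S)
    (h : {z : ℝ | z ∈ S ∧ z < y}.ncard = {z : ℝ | z ∈ S ∧ z < y'}.ncard) : y = y' := by
  have key : ∀ a b : ℝ, a ∈ S → b ∈ S → a < b →
      {z : ℝ | z ∈ S ∧ z < a}.ncard < {z : ℝ | z ∈ S ∧ z < b}.ncard := by
    intro a b ha hb hab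
    refine Set.ncard_lt_ncard ?_ (hS.subset fun z hz => hz.1)
    refine ⟨fun z hz => ⟨hz.1, hz.2.trans hab⟩, fun hsub => ?_⟩
    have := hsub (show a ∈ {z : ℝ | z ∈ S ∧ z < b} from ⟨ha, hab⟩)
    exact lt_irrefl _ this.2
  rcases lt_trichotomy y y' with hlt | heq | hlt
  · exact absurd h (key _ _ hy hy' hlt).ne
  · exact heq
  · exact absurd h (key _ _ hy' hy hlt).ne'

theorem abs_track (Z : ℝ → Set ℝ) (hfin : ∀ τ ∈ Set.Icc (0 : ℝ) 1, (Z τ).Finite)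
    (h1 : ∀ τ₀ ∈ Set.Icc (0 : ℝ) 1, ∀ y₀ ∈ Z τ₀, ∃ δ₀ : ℝ, 0 < δ₀ ∧ ∀ δ : ℝ, 0 < δ → δ ≤ δ₀ →
      ∀ᶠ τ in nhdsWithin τ₀ (Set.Icc (0 : ℝ) 1), ∃! y : ℝ, y ∈ Z τ ∧ |y - y₀| < δ)
    (h2 : ∀ τ₀ ∈ Set.Icc (0 : ℝ) 1, ∀ δ : ℝ, 0 < δ →
      ∀ᶠ τ in nhdsWithin τ₀ (Set.Icc (0 : ℝ) 1), ∀ y ∈ Z τ, ∃ y₀ ∈ Z τ₀, |y - y₀| < δ)
    (y₀ y₁ : ℝ) (hy0 : y₀ ∈ Z 0) (hy1 : y₁ ∈ Z 1)
    (hb : {y : ℝ | y ∈ Z 0 ∧ y < y₀}.ncard = {y : ℝ | y ∈ Z 1 ∧ y < y₁}.ncard) :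
    ∃ Y : ℝ → ℝ, ContinuousOn Y (Set.Icc (0 : ℝ) 1) ∧ Y 0 = y₀ ∧ Y 1 = y₁ ∧
      ∀ τ ∈ Set.Icc (0 : ℝ) 1, Y τ ∈ Z τ := by
  classical
  set b : ℕ := {y : ℝ | y ∈ Z 0 ∧ y < y₀}.ncard with hbdef
  set P : ℝ → Prop := fun τ => ∃ y, y ∈ Z τ ∧ {z : ℝ | z ∈ Z τ ∧ z < y}.ncard = b with hP
  have loc := abs_track_loc Z hfin h1 h2
  have hPloc : ∀ τ₀ ∈ Set.Icc (0 : ℝ) 1,
      ∀ᶠ τ in nhdsWithin τ₀ (Set.Icc (0 : ℝ) 1), P τ = P τ₀ := by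
    intro τ₀ hτ
    filter_upwards [loc τ₀ hτ 1 one_pos] with τ ⟨φ, hφ1, hφ2, hφ3⟩
    refine propext ⟨?_, ?_⟩
    · rintro ⟨y, hy, hyb⟩
      rw [← hφ3] at hy
      obtain ⟨w, hw, rfl⟩ := hy
      exact ⟨w, hw, by rw [← hyb, abs_track_rank φ hφ2 hφ3 w hw]⟩
    · rintro ⟨y, hy, hyb⟩
      exact ⟨φ y, (hφ1 y hy).1, by rw [abs_track_rank φ hφ2 hφ3 y hy, hyb]⟩
  have h0 : (0 : ℝ) ∈ Set.Icc (0 : ℝ) 1 := ⟨le_refl _, zero_le_one⟩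
  have h1' : (1 : ℝ) ∈ Set.Icc (0 : ℝ) 1 := ⟨zero_le_one, le_refl _⟩
  have hPall : ∀ τ ∈ Set.Icc (0 : ℝ) 1, P τ := by
    intro τ hτ
    have hlc : IsLocallyConstant (fun t : Set.Icc (0 : ℝ) 1 => P t.1) := by
      rw [IsLocallyConstant.iff_eventually_eq]
      intro t
      exact (eventually_nhds_subtype_iff _ t (fun x => P x = P t.1)).2 (hPloc t.1 t.2)
    have := hlc.apply_eq_of_preconnectedSpace ⟨τ, hτ⟩ ⟨0, h0⟩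
    simp only at this
    rw [this]
    exact ⟨y₀, hy0, rfl⟩
  set Y : ℝ → ℝ := fun τ => if h : P τ then Classical.choose h else 0 with hYdef
  have hY : ∀ τ ∈ Set.Icc (0 : ℝ) 1, Y τ ∈ Z τ ∧ {z : ℝ | z ∈ Z τ ∧ z < Y τ}.ncard = b := by
    intro τ hτ
    have : Y τ = Classical.choose (hPall τ hτ) := by
      rw [hYdef]; simp only; rw [dif_pos (hPall τ hτ)]
    rw [this]
    exact Classical.choose_spec (hPall τ hτ)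
  have hYu : ∀ τ ∈ Set.Icc (0 : ℝ) 1, ∀ y ∈ Z τ, {z : ℝ | z ∈ Z τ ∧ z < y}.ncard = b → Y τ = y :=
    fun τ hτ y hy hyb => abs_track_uniq (hfin τ hτ) (hY τ hτ).1 hy ((hY τ hτ).2.trans hyb.symm)
  refine ⟨Y, ?_, hYu 0 h0 y₀ hy0 rfl, hYu 1 h1' y₁ hy1 hb.symm, fun τ hτ => (hY τ hτ).1⟩
  intro τ₀ hτ
  rw [ContinuousWithinAt, Metric.tendsto_nhds]
  intro ε hε
  filter_upwards [loc τ₀ hτ ε hε, self_mem_nhdsWithin] with τ ⟨φ, hφ1, hφ2, hφ3⟩ hτI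
  have hy := (hY τ₀ hτ).1
  have hYτ : Y τ = φ (Y τ₀) := by
    refine hYu τ hτI _ (hφ1 _ hy).1 ?_
    rw [abs_track_rank φ hφ2 hφ3 _ hy]
    exact (hY τ₀ hτ).2
  rw [hYτ, Real.dist_eq]
  exact (hφ1 _ hy).2

end RC
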