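import Pool.Agent.Helper850.RF.Defs

set_option autoImplicit false

namespace RC
open Finset BigOperators


theorem lac_mono (K K' : ℝ) (h1 : 1 ≤ K) (h : K ≤ K') (X : ℕ → ℝ) (T T' : Finset ℕ)
    (hT : T' ⊆ T) (hL : Lac K' X T) : Lac K X T' := by
  refine ⟨fun i hi => h.trans (hL.1 i (hT hi)), fun i hi i' hi' hlt => ?_⟩
  have h2 := hL.1 i (hT hi)
  have h3 : 0 ≤ X i := by linarith
  exact (mul_le_mul_of_nonneg_right h h3).trans (hL.2 i (hT hi) i' (hT hi') hlt)

end RC
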