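import Pool.Agent.Helper850.RF.Defs
import Pool.Agent.Helper850.RF.P_lac_mono

set_option autoImplicit false

namespace RC
open Finset BigOperators


theorem interp_coeff (t : ℕ) (ε S : ℝ) (hε : 0 < ε) (hε1 : ε ≤ 1) (hS : 1 ≤ S) :
    ∃ K₀ : ℝ, 1 ≤ K₀ ∧ ∀ (X : ℕ → ℝ) (G : Fin t → ℕ → ℝ) (T : Finset ℕ),
      Lac K₀ X T → Flagd ε (2 * S) X G T →
      ∀ J ⊆ T, J.card = t → ∀ r ∈ T, (∀ q ∈ J, q ≤ r) → ∀ (c : Fin t → ℝ) (M : ℝ), 0 ≤ M →
        (∀ q ∈ J, |comb G c q| ≤ M) → ∀ j, |c j| ≤ M * Real.exp ((2 * S + 2) * X r) := by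
  classical
  rcases Nat.eq_zero_or_pos t with ht0 | htpos
  · subst ht0
    exact ⟨1, le_refl _, fun X G T _ _ J _ _ r _ _ c M _ _ j => j.elim0⟩
  have ht1 : (1 : ℝ) ≤ t := by exact_mod_cast htpos
  have hlog : 0 ≤ Real.log (2 * t) := Real.log_nonneg (by linarith)
  set K₀ : ℝ := 2 / ε * (4 * S + 2 + Real.log (2 * t)) with hK
  have hKε : ε / 2 * K₀ = 4 * S + 2 + Real.log (2 * t) := by
    rw [hK]
    field_simp
  have hK1 : 1 ≤ K₀ := by
    have h1 : (2 : ℝ) ≤ 2 / ε := by
      rw [le_div_iff₀ hε]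
      linarith
    have h2 : (6 : ℝ) ≤ 4 * S + 2 + Real.log (2 * t) := by linarith
    nlinarith
  refine ⟨K₀, hK1, ?_⟩
  intro X G T hL hF J hJT hJc r hr hJr c M hM hcomb
  set q : Fin t → ℕ := fun s => J.orderEmbOfFin hJc s with hq
  have hqJ : ∀ s, q s ∈ J := fun s => J.orderEmbOfFin_mem hJc s
  have hqT : ∀ s, q s ∈ T := fun s => hJT (hqJ s)
  have hqm : ∀ s s', s < s' → q s < q s' := fun s s' h => (J.orderEmbOfFin hJc).strictMono h
  have hX1 : ∀ s, K₀ ≤ X (q s) := fun s => hL.1 _ (hqT s)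
  have hX0 : ∀ s, 1 ≤ X (q s) := fun s => hK1.trans (hX1 s)
  have : Nonempty (Fin t) := ⟨⟨0, htpos⟩⟩
  obtain ⟨s, hs⟩ := Finite.exists_max (fun s : Fin t => Real.exp (ε / 2 * X (q s)) * |c s|)
  set m : ℝ := Real.exp (ε / 2 * X (q s)) * |c s| with hm
  have hm0 : 0 ≤ m := mul_nonneg (Real.exp_pos _).le (abs_nonneg _)
  have hcj : ∀ j, |c j| ≤ m * Real.exp (-(ε / 2 * X (q j))) := by
    intro j
    have h1 := hs j
    rw [Real.exp_neg, ← div_eq_mul_inv, le_div_iff₀ (Real.exp_pos _), mul_comm]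
    exact h1
  -- logs
  set L : Fin t → ℝ := fun j => Real.log (G j (q s)) with hLdef
  have hGL : ∀ j, |G j (q s)| = Real.exp (L j) := fun j =>
    (Real.exp_log_eq_abs (hF.1 j _ (hqT s)).1).symm
  have hLb : ∀ j, |L j| ≤ 2 * S * X (q s) := fun j => (hF.1 j _ (hqT s)).2
  have hLs := abs_le.1 (hLb s)
  -- the equation at `q s`
  have hsum : c s * G s (q s) = comb G c (q s) - ∑ j ∈ Finset.univ.erase s, c j * G j (q s) := by
    have h1 : comb G c (q s) = c s * G s (q s) + ∑ j ∈ Finset.univ.erase s, c j * G j (q s) := by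
      unfold comb
      exact (Finset.add_sum_erase Finset.univ (fun j => c j * G j (q s)) (Finset.mem_univ s)).symm
    rw [h1]
    ring
  have h1 : |c s| * Real.exp (L s) ≤ M + ∑ j ∈ Finset.univ.erase s, |c j| * Real.exp (L j) := by
    rw [← hGL s, ← abs_mul, hsum]
    refine (abs_sub _ _).trans (add_le_add (hcomb _ (hqJ s)) ?_)
    refine (Finset.abs_sum_le_sum_abs _ _).trans (Finset.sum_le_sum fun j _ => ?_)
    rw [abs_mul, hGL j]
  have h2 : m ≤ M * Real.exp (ε / 2 * X (q s) - L s) +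
      ∑ j ∈ Finset.univ.erase s, |c j| * Real.exp (ε / 2 * X (q s) + L j - L s) := by
    have h3 : m = |c s| * Real.exp (L s) * Real.exp (ε / 2 * X (q s) - L s) := by
      rw [hm, mul_assoc, ← Real.exp_add, mul_comm]
      congr 2
      ring
    rw [h3]
    refine (mul_le_mul_of_nonneg_right h1 (Real.exp_pos _).le).trans (le_of_eq ?_)
    rw [add_mul, Finset.sum_mul]
    congr 1
    refine Finset.sum_congr rfl fun j _ => ?_
    rw [mul_assoc, ← Real.exp_add]
    congr 2
    ring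
  have h4 : ∀ j ∈ Finset.univ.erase s,
      |c j| * Real.exp (ε / 2 * X (q s) + L j - L s) ≤ m * (1 / (2 * t)) := by
    intro j hj
    have hjs : j ≠ s := Finset.ne_of_mem_erase hj
    have h5 : |c j| * Real.exp (ε / 2 * X (q s) + L j - L s) ≤
        m * Real.exp (-(ε / 2 * X (q j)) + (ε / 2 * X (q s) + L j - L s)) := by
      rw [Real.exp_add, ← mul_assoc]
      exact mul_le_mul_of_nonneg_right (hcj j) (Real.exp_pos _).le
    refine h5.trans (mul_le_mul_of_nonneg_left ?_ hm0)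
    have h6 : (1 / (2 * t) : ℝ) = Real.exp (-Real.log (2 * t)) := by
      rw [Real.exp_neg, Real.exp_log (by linarith), one_div]
    rw [h6]
    apply Real.exp_le_exp.2
    have hXs := hX1 s
    have hXs0 := hX0 s
    have hXj0 := hX0 j
    rcases lt_or_gt_of_ne hjs with hlt | hgt
    · have h7 := hF.2 j s hlt _ (hqT s)
      have h8 : ε / 2 * K₀ ≤ ε / 2 * X (q s) := mul_le_mul_of_nonneg_left hXs (by linarith)
      have h9 : 0 ≤ ε / 2 * X (q j) := by positivity
      show -(ε / 2 * X (q j)) + (ε / 2 * X (q s) + L j - L s) ≤ -Real.log (2 * t)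
      have h7' : L j + ε * X (q s) ≤ L s := h7
      linarith
    · have h7 := hL.2 _ (hqT s) _ (hqT j) (hqm s j hgt)
      have h8 : ε / 2 * (K₀ * X (q s)) ≤ ε / 2 * X (q j) :=
        mul_le_mul_of_nonneg_left h7 (by linarith)
      have h9 := (abs_le.1 (hLb j)).2
      have h10 : ε / 2 * (K₀ * X (q s)) = (4 * S + 2 + Real.log (2 * t)) * X (q s) := by
        rw [← mul_assoc, hKε]
      have h11 : ε / 2 * X (q s) ≤ 1 * X (q s) :=
        mul_le_mul_of_nonneg_right (by linarith) (by linarith)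
      have h12 : Real.log (2 * t) ≤ Real.log (2 * t) * X (q s) :=
        le_mul_of_one_le_right hlog hXs0
      nlinarith [hLs.1]
  have h5 : ∑ j ∈ Finset.univ.erase s, |c j| * Real.exp (ε / 2 * X (q s) + L j - L s) ≤ m / 2 := by
    refine (Finset.sum_le_sum h4).trans ?_
    rw [Finset.sum_const, nsmul_eq_mul]
    have h6 : ((Finset.univ.erase s).card : ℝ) ≤ t := by
      have : (Finset.univ.erase s).card ≤ t := by
        refine (Finset.card_le_card (Finset.erase_subset _ _)).trans ?_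
        simp
      exact_mod_cast this
    have h7 : 0 ≤ m * (1 / (2 * t)) := by positivity
    refine (mul_le_mul_of_nonneg_right h6 h7).trans (le_of_eq ?_)
    field_simp
  have h6 : M * Real.exp (ε / 2 * X (q s) - L s) ≤ M * Real.exp ((2 * S + 1 / 2) * X (q s)) := by
    refine mul_le_mul_of_nonneg_left (Real.exp_le_exp.2 ?_) hM
    have hXs0 := hX0 s
    nlinarith [hLs.1]
  have h7 : m ≤ 2 * (M * Real.exp ((2 * S + 1 / 2) * X (q s))) := by linarith
  intro j
  have h8 : |c j| ≤ m := by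
    refine (hcj j).trans (mul_le_of_le_one_right hm0 ?_)
    apply Real.exp_le_one_iff.2
    have := hX0 j
    have : 0 ≤ ε / 2 * X (q j) := by positivity
    linarith
  have hXr : X (q s) ≤ X r := by
    rcases (hJr _ (hqJ s)).eq_or_lt with h | h
    · rw [h]
    · have h9 := hL.2 _ (hqT s) _ hr h
      have h10 : 1 * X (q s) ≤ K₀ * X (q s) := mul_le_mul_of_nonneg_right hK1 (by linarith [hX0 s])
      linarith
  have h9 : 1 ≤ X r := hK1.trans (hL.1 r hr)
  have h10 : (2 : ℝ) ≤ Real.exp (X r) := by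
    have := Real.add_one_le_exp (X r)
    linarith
  calc |c j| ≤ m := h8
    _ ≤ 2 * (M * Real.exp ((2 * S + 1 / 2) * X (q s))) := h7
    _ ≤ Real.exp (X r) * (M * Real.exp ((2 * S + 1 / 2) * X r)) := by
        refine mul_le_mul h10 ?_ (by positivity) (Real.exp_pos _).le
        refine mul_le_mul_of_nonneg_left (Real.exp_le_exp.2 ?_) hM
        exact mul_le_mul_of_nonneg_left hXr (by linarith)
    _ = M * Real.exp (X r + (2 * S + 1 / 2) * X r) := by
        rw [Real.exp_add]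
        ring
    _ ≤ M * Real.exp ((2 * S + 2) * X r) := by
        refine mul_le_mul_of_nonneg_left (Real.exp_le_exp.2 ?_) hM
        nlinarith

end RC
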