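import Pool.Agent.Helper850.RF.Defs
import Pool.Agent.Helper850.RF.P_lac_mono
import Pool.Agent.Helper850.RF.P_interp_coeff

set_option autoImplicit false

namespace RC
open Finset BigOperators


theorem interp_val (t : ℕ) (ε S : ℝ) (hε : 0 < ε) (hε1 : ε ≤ 1) (hS : 1 ≤ S) :
    ∃ K₀ : ℝ, 1 ≤ K₀ ∧ ∀ (X : ℕ → ℝ) (G : Fin t → ℕ → ℝ) (T : Finset ℕ),
      Lac K₀ X T → Flagd ε (2 * S) X G T →
      ∀ J ⊆ T, J.card = t → ∀ r ∈ T, (∀ q ∈ J, q ≤ r) → ∀ (c : Fin t → ℝ) (M : ℝ), 0 ≤ M →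
        (∀ q ∈ J, |comb G c q| ≤ M) → ∀ p ∈ T, p ≤ r →
          |comb G c p| ≤ M * Real.exp (7 * S * X r) := by
  obtain ⟨K₀, hK0, hI⟩ := interp_coeff t ε S hε hε1 hS
  refine ⟨max K₀ (t : ℝ), hK0.trans (le_max_left _ _), ?_⟩
  intro X G T hL hF J hJ hJt r hr hJr c M hM hc p hp hpr
  have hL0 : Lac K₀ X T := lac_mono K₀ _ hK0 (le_max_left _ _) X T T (Finset.Subset.refl T) hL
  have hcj := hI X G T hL0 hF J hJ hJt r hr hJr c M hM hc
  have hXp1 : 1 ≤ X p := hK0.trans (hL0.1 p hp)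
  have hXr1 : 1 ≤ X r := hK0.trans (hL0.1 r hr)
  have hXpr : X p ≤ X r := by
    rcases hpr.lt_or_eq with h | h
    · have h1 := hL0.2 p hp r hr h
      nlinarith
    · rw [h]
  have ht : (t : ℝ) ≤ Real.exp (X r) := by
    have h1 := hL.1 r hr
    have h2 := (le_max_right K₀ (t : ℝ)).trans h1
    have h3 := Real.add_one_le_exp (X r)
    linarith
  have hG : ∀ j, |G j p| ≤ Real.exp (2 * S * X r) := by
    intro j
    obtain ⟨h1, h2⟩ := hF.1 j p hp
    have h3 : |G j p| = Real.exp (Real.log (G j p)) := by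
      rw [← Real.log_abs, Real.exp_log (abs_pos.2 h1)]
    rw [h3]
    apply Real.exp_le_exp.2
    have h4 := le_abs_self (Real.log (G j p))
    have h5 : 2 * S * X p ≤ 2 * S * X r := mul_le_mul_of_nonneg_left hXpr (by linarith)
    linarith
  have hsum : |comb G c p| ≤ ∑ j : Fin t, (M * Real.exp ((2 * S + 2) * X r)) *
      Real.exp (2 * S * X r) := by
    unfold comb
    refine (Finset.abs_sum_le_sum_abs _ _).trans (Finset.sum_le_sum fun j _ => ?_)
    rw [abs_mul]
    exact mul_le_mul (hcj j) (hG j) (abs_nonneg _) (by positivity)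
  rw [Finset.sum_const, Finset.card_univ, Fintype.card_fin, nsmul_eq_mul] at hsum
  refine hsum.trans ?_
  calc (t : ℝ) * ((M * Real.exp ((2 * S + 2) * X r)) * Real.exp (2 * S * X r))
      ≤ Real.exp (X r) * ((M * Real.exp ((2 * S + 2) * X r)) * Real.exp (2 * S * X r)) :=
        mul_le_mul_of_nonneg_right ht (by positivity)
    _ = M * (Real.exp (X r) * Real.exp ((2 * S + 2) * X r) * Real.exp (2 * S * X r)) := by ring
    _ = M * Real.exp (X r + (2 * S + 2) * X r + 2 * S * X r) := by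
        rw [Real.exp_add, Real.exp_add]
    _ ≤ M * Real.exp (7 * S * X r) := by
        apply mul_le_mul_of_nonneg_left _ hM
        apply Real.exp_le_exp.2
        have h1 : 3 * X r ≤ 3 * S * X r := by nlinarith
        nlinarith

end RC
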