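import Pool.Agent.Helper850.RF.Defs
import Pool.Agent.Helper850.RF.P_lac_mono
import Pool.Agent.Helper850.RF.P_interp_val

set_option autoImplicit false

namespace RC
open Finset BigOperators


theorem chain_glue (t : ℕ) (ht : 1 ≤ t) (ε S : ℝ) (hε : 0 < ε) (hε1 : ε ≤ 1) (hS : 1 ≤ S) :
    ∃ K₀ : ℝ, 1 ≤ K₀ ∧ ∀ (X : ℕ → ℝ) (G : Fin t → ℕ → ℝ) (T : Finset ℕ),
      Lac K₀ X T → Flagd ε (2 * S) X G T →
      ∀ (F : ℕ → ℝ) (h h' : ℝ) (J T' Q E : Finset ℕ) (c : Fin t → ℝ),
        J ⊆ T → J.card = t → T' ⊆ T → (∀ q ∈ J, ∀ i ∈ T', q < i) → (∀ q ∈ J, F q = 0) →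
        Tame S X F h' T' → (∀ i ∈ T', h' ≤ h - 71 * S * X i) →
        Q ⊆ T' → E ⊆ T' → E.card = t →
        (∀ p ∈ E, |F p + comb G c p| ≤ Real.exp (h' + S * X p)) →
        (∀ q ∈ Q, |F q + comb G c q| ≤ Real.exp (h' - 18 * S * X q)) →
        (∀ q ∈ Q, ∀ q' ∈ Q, q < q' → F q + comb G c q ≠ 0 ∧
          |F q' + comb G c q'| * Real.exp (9 * S * X q') ≤ |F q + comb G c q|) →
        ∃ q₀ ∈ J, (∀ p ∈ E, |F p + comb G c p| ≤ Real.exp (h + S * X p)) ∧
          (∀ q ∈ insert q₀ Q, |F q + comb G c q| ≤ Real.exp (h - 18 * S * X q)) ∧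
          (∀ q ∈ insert q₀ Q, ∀ q' ∈ insert q₀ Q, q < q' → F q + comb G c q ≠ 0 ∧
            |F q' + comb G c q'| * Real.exp (9 * S * X q') ≤ |F q + comb G c q|) := by
  obtain ⟨K₁, hK₁, hint⟩ := interp_val t ε S hε hε1 hS
  refine ⟨K₁, hK₁, ?_⟩
  intro X G T hL hFl F h h' J T' Q E c hJT hJc hT' hJT' hFJ hTame hh' hQ hE hEc hEb hQb hQp
  have hI := hint X G T hL hFl
  have hX1 : ∀ i ∈ T, 1 ≤ X i := fun i hi => hK₁.trans (hL.1 i hi)
  have hXm : ∀ i ∈ T, ∀ i' ∈ T, i ≤ i' → X i ≤ X i' := by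
    intro i hi i' hi' hii'
    rcases eq_or_lt_of_le hii' with h0 | h0
    · rw [h0]
    · have h1 := hL.2 i hi i' hi' h0
      have h2 := hX1 i hi
      nlinarith
  have hS0 : 0 < S := by linarith
  have h2e : ∀ u : ℝ, 1 ≤ u → 2 ≤ Real.exp u := by
    intro u hu
    have := Real.add_one_le_exp u
    linarith
  have hSX : ∀ i ∈ T, 1 ≤ S * X i := by
    intro i hi
    have := hX1 i hi
    nlinarith
  have hFup : ∀ i ∈ T', |F i| ≤ Real.exp (h' + S * X i) := by
    intro i hi
    obtain ⟨h0, h1⟩ := hTame i hi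
    rw [← Real.exp_log_eq_abs h0]
    apply Real.exp_le_exp.2
    linarith [(abs_le.1 h1).2]
  have hFlow : ∀ i ∈ T', Real.exp (h' - S * X i) ≤ |F i| := by
    intro i hi
    obtain ⟨h0, h1⟩ := hTame i hi
    rw [← Real.exp_log_eq_abs h0]
    apply Real.exp_le_exp.2
    linarith [(abs_le.1 h1).1]
  have hE0 : E.Nonempty := by
    rw [← Finset.card_pos, hEc]; omega
  have hJ0 : J.Nonempty := by
    rw [← Finset.card_pos, hJc]; omega
  have hh : h' ≤ h := by
    obtain ⟨p, hp⟩ := hE0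
    have h1 := hh' p (hE hp)
    have h2 := hSX p (hT' (hE hp))
    nlinarith
  -- the bound at the points of `J`
  set r := E.max' hE0 with hr
  have hrE : r ∈ E := E.max'_mem hE0
  have hrT' : r ∈ T' := hE hrE
  have hrT : r ∈ T := hT' hrT'
  have hJb : ∀ q ∈ J, |F q + comb G c q| ≤ Real.exp (h - 18 * S * X q) := by
    intro q hq
    have hqr : q < r := hJT' q hq r hrT'
    have hqT := hJT hq
    have h1 : |comb G c q| ≤ (2 * Real.exp (h' + S * X r)) * Real.exp (7 * S * X r) := by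
      refine hI E (hE.trans hT') hEc r hrT (fun p hp => E.le_max' p hp) c _ (by positivity) ?_ q hqT
        hqr.le
      intro p hp
      have h2 := hEb p hp
      have h3 := hFup p (hE hp)
      have h4 : |comb G c p| ≤ |F p + comb G c p| + |F p| := by
        have : comb G c p = (F p + comb G c p) - F p := by ring
        calc |comb G c p| = |(F p + comb G c p) - F p| := by rw [← this]
          _ ≤ _ := abs_sub _ _
      have h5 : Real.exp (h' + S * X p) ≤ Real.exp (h' + S * X r) := by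
        apply Real.exp_le_exp.2
        have := hXm p (hT' (hE hp)) r hrT (E.le_max' p hp)
        nlinarith
      linarith
    have h6 : (2 * Real.exp (h' + S * X r)) * Real.exp (7 * S * X r) ≤
        Real.exp (h - 18 * S * X q) := by
      have h7 : (2 : ℝ) ≤ Real.exp (S * X r) := h2e _ (hSX r hrT)
      calc (2 * Real.exp (h' + S * X r)) * Real.exp (7 * S * X r)
          ≤ (Real.exp (S * X r) * Real.exp (h' + S * X r)) * Real.exp (7 * S * X r) := by
            gcongr
        _ = Real.exp (S * X r + (h' + S * X r) + 7 * S * X r) := by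
            rw [← Real.exp_add, ← Real.exp_add]
        _ ≤ _ := by
            apply Real.exp_le_exp.2
            have h8 := hh' r hrT'
            have h9 := hXm q hqT r hrT hqr.le
            have h10 := hSX r hrT
            have h11 : S * X q ≤ S * X r := by nlinarith
            nlinarith
    rw [hFJ q hq, zero_add]
    exact h1.trans h6
  have hEfin : ∀ p ∈ E, |F p + comb G c p| ≤ Real.exp (h + S * X p) := by
    intro p hp
    refine (hEb p hp).trans (Real.exp_le_exp.2 (by linarith))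
  have hQfin : ∀ q ∈ Q, |F q + comb G c q| ≤ Real.exp (h - 18 * S * X q) := by
    intro p hp
    refine (hQb p hp).trans (Real.exp_le_exp.2 (by linarith))
  -- it suffices to treat the pairs `q₀ < q'`
  suffices hs : ∃ q₀ ∈ J, ∀ q' ∈ Q, F q₀ + comb G c q₀ ≠ 0 ∧
      |F q' + comb G c q'| * Real.exp (9 * S * X q') ≤ |F q₀ + comb G c q₀| by
    obtain ⟨q₀, hq₀, hq⟩ := hs
    refine ⟨q₀, hq₀, hEfin, ?_, ?_⟩
    · intro q hq'
      rcases Finset.mem_insert.1 hq' with h0 | h0
      · rw [h0]; exact hJb q₀ hq₀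
      · exact hQfin q h0
    · intro q hq1 q' hq2 hlt
      rcases Finset.mem_insert.1 hq1 with h0 | h0
      · rcases Finset.mem_insert.1 hq2 with h3 | h3
        · exfalso; omega
        · rw [h0]; exact hq q' h3
      · rcases Finset.mem_insert.1 hq2 with h3 | h3
        · exfalso
          have := hJT' q₀ hq₀ q (hQ h0)
          omega
        · exact hQp q h0 q' h3 hlt
  rcases Q.eq_empty_or_nonempty with hQe | hQe
  · obtain ⟨q₀, hq₀⟩ := hJ0
    refine ⟨q₀, hq₀, ?_⟩
    rw [hQe]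
    intro q' hq'
    simp at hq'
  · set q₁ := Q.min' hQe with hq₁
    have hq₁Q : q₁ ∈ Q := Q.min'_mem hQe
    have hq₁T' : q₁ ∈ T' := hQ hq₁Q
    have hq₁T : q₁ ∈ T := hT' hq₁T'
    obtain ⟨q₀, hq₀, hmax⟩ := J.exists_max_image (fun q => |comb G c q|) hJ0
    have h1 : |comb G c q₁| ≤ |comb G c q₀| * Real.exp (7 * S * X q₁) :=
      hI J hJT hJc q₁ hq₁T (fun q hq => (hJT' q hq q₁ hq₁T').le) c _ (abs_nonneg _) hmax q₁ hq₁T
        le_rfl
    have hu := hSX q₁ hq₁T
    have h2 : Real.exp (h' - 2 * (S * X q₁)) ≤ |comb G c q₁| := by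
      have h3 := hFlow q₁ hq₁T'
      have h4 := hQb q₁ hq₁Q
      have h5 : |F q₁| ≤ |F q₁ + comb G c q₁| + |comb G c q₁| := by
        have : F q₁ = (F q₁ + comb G c q₁) - comb G c q₁ := by ring
        calc |F q₁| = |(F q₁ + comb G c q₁) - comb G c q₁| := by rw [← this]
          _ ≤ _ := abs_sub _ _
      have h6 : 2 * Real.exp (h' - 2 * (S * X q₁)) ≤ Real.exp (h' - S * X q₁) := by
        calc 2 * Real.exp (h' - 2 * (S * X q₁))
            ≤ Real.exp (S * X q₁) * Real.exp (h' - 2 * (S * X q₁)) := by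
              gcongr; exact h2e _ hu
          _ = Real.exp (h' - S * X q₁) := by rw [← Real.exp_add]; congr 1; ring
      have h7 : Real.exp (h' - 18 * S * X q₁) ≤ Real.exp (h' - 2 * (S * X q₁)) := by
        apply Real.exp_le_exp.2
        nlinarith
      linarith
    have h3 : Real.exp (h' - 9 * (S * X q₁)) ≤ |comb G c q₀| := by
      have h4 : Real.exp (h' - 2 * (S * X q₁)) ≤ |comb G c q₀| * Real.exp (7 * S * X q₁) :=
        h2.trans h1
      have h5 : Real.exp (h' - 9 * (S * X q₁)) * Real.exp (7 * S * X q₁) =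
          Real.exp (h' - 2 * (S * X q₁)) := by
        rw [← Real.exp_add]; congr 1; ring
      rw [← h5] at h4
      exact le_of_mul_le_mul_right h4 (Real.exp_pos _)
    have h4 : F q₀ + comb G c q₀ = comb G c q₀ := by rw [hFJ q₀ hq₀, zero_add]
    refine ⟨q₀, hq₀, ?_⟩
    intro q' hq'
    rw [h4]
    refine ⟨?_, ?_⟩
    · intro h0
      rw [h0, abs_zero] at h3
      linarith [Real.exp_pos (h' - 9 * (S * X q₁))]
    · have h5 := hQb q₁ hq₁Q
      rcases eq_or_lt_of_le (Q.min'_le q' hq') with h0 | h0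
      · have h0' : q' = q₁ := by rw [hq₁, h0]
        rw [h0']
        calc |F q₁ + comb G c q₁| * Real.exp (9 * S * X q₁)
            ≤ Real.exp (h' - 18 * S * X q₁) * Real.exp (9 * S * X q₁) := by gcongr
          _ = Real.exp (h' - 9 * (S * X q₁)) := by rw [← Real.exp_add]; congr 1; ring
          _ ≤ _ := h3
      · have h6 := (hQp q₁ hq₁Q q' hq' h0).2
        have h7 : Real.exp (h' - 18 * S * X q₁) ≤ Real.exp (h' - 9 * (S * X q₁)) := by
          apply Real.exp_le_exp.2
          nlinarith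
        linarith

end RC
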