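import Pool.Agent.Helper850.RF.Defs

set_option autoImplicit false

namespace RC
open Finset BigOperators


theorem indep_step (t ν N : ℕ) (T : Finset ℕ) (Bad : Finset ℕ → ℕ → Prop)
    (hbad : ∀ J ⊆ T, J.card = t → ∃ E : Finset ℕ, E.card ≤ N ∧
      ∀ i ∈ T, (∀ q ∈ J, q < i) → Bad J i → i ∈ E)
    (hT : ν * (1 + ν ^ t * N) < T.card) (s : ℕ) (hs : s ≤ ν) :
    ∃ P ⊆ T, P.card = s ∧ (∀ J ⊆ P, J.card = t → ∀ i ∈ P, (∀ q ∈ J, q < i) → ¬ Bad J i) ∧
      (T.filter (fun i => ∃ p ∈ P, i ≤ p)).card ≤ s * (1 + ν ^ t * N) := by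
  classical
  induction s with
  | zero =>
    refine ⟨∅, Finset.empty_subset _, rfl, fun J _ _ i hi => absurd hi (Finset.notMem_empty _), ?_⟩
    simp
  | succ s ih =>
    obtain ⟨P, hPT, hPc, hPi, hPd⟩ := ih (by omega)
    choose! E hE1 hE2 using hbad
    set D := T.filter (fun i => ∃ p ∈ P, i ≤ p) with hD
    set Bd := (P.powersetCard t).biUnion E with hBd
    have hBdc : Bd.card ≤ ν ^ t * N := by
      refine (Finset.card_biUnion_le_card_mul _ _ N ?_).trans ?_
      · intro J hJ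
        rw [Finset.mem_powersetCard] at hJ
        exact hE1 J (hJ.1.trans hPT) hJ.2
      · rw [Finset.card_powersetCard, hPc]
        exact Nat.mul_le_mul_right _ ((Nat.choose_le_pow s t).trans
          (Nat.pow_le_pow_left (by omega) t))
    have hU : (D ∪ Bd).card ≤ s * (1 + ν ^ t * N) + ν ^ t * N :=
      (Finset.card_union_le _ _).trans (add_le_add hPd hBdc)
    have hlt : s * (1 + ν ^ t * N) + ν ^ t * N < T.card := by
      refine lt_of_le_of_lt ?_ hT
      have h1 : (s + 1) * (1 + ν ^ t * N) ≤ ν * (1 + ν ^ t * N) := Nat.mul_le_mul_right _ hs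
      have h2 : (s + 1) * (1 + ν ^ t * N) = s * (1 + ν ^ t * N) + ν ^ t * N + 1 := by ring
      omega
    have hne : (T \ (D ∪ Bd)).Nonempty := by
      rw [Finset.nonempty_iff_ne_empty]
      intro h0
      have h1 : T ⊆ D ∪ Bd := Finset.sdiff_eq_empty_iff_subset.1 h0
      have h2 := Finset.card_le_card h1
      omega
    set i := (T \ (D ∪ Bd)).min' hne with hi
    have himem : i ∈ T \ (D ∪ Bd) := Finset.min'_mem _ _
    rw [Finset.mem_sdiff, Finset.mem_union, not_or] at himem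
    obtain ⟨hiT, hiD, hiB⟩ := himem
    have hiP : ∀ p ∈ P, p < i := by
      intro p hp
      by_contra hcon
      exact hiD (Finset.mem_filter.2 ⟨hiT, p, hp, not_lt.1 hcon⟩)
    have hinP : i ∉ P := fun h => lt_irrefl _ (hiP i h)
    refine ⟨insert i P, ?_, ?_, ?_, ?_⟩
    · exact Finset.insert_subset hiT hPT
    · rw [Finset.card_insert_of_notMem hinP, hPc]
    · intro J hJ hJc i' hi' hq hbadi
      have hJP : J ⊆ P := by
        intro q hqJ
        have h1 := hq q hqJ
        rcases Finset.mem_insert.1 (hJ hqJ) with h2 | h2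
        · exfalso
          rcases Finset.mem_insert.1 hi' with h3 | h3
          · rw [h2, h3] at h1
            exact lt_irrefl _ h1
          · have := hiP i' h3
            omega
        · exact h2
      rcases Finset.mem_insert.1 hi' with h3 | h3
      · apply hiB
        rw [hBd, Finset.mem_biUnion]
        refine ⟨J, Finset.mem_powersetCard.2 ⟨hJP, hJc⟩, ?_⟩
        rw [h3] at hq hbadi
        exact hE2 J (hJP.trans hPT) hJc i hiT hq hbadi
      · exact hPi J hJP hJc i' h3 hq hbadi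
    · have hsub : T.filter (fun j => ∃ p ∈ insert i P, j ≤ p) ⊆ insert i (D ∪ Bd) := by
        intro j hj
        obtain ⟨hjT, p, hp, hjp⟩ := Finset.mem_filter.1 hj
        rcases Finset.mem_insert.1 hp with h2 | h2
        · by_cases hjU : j ∈ D ∪ Bd
          · exact Finset.mem_insert_of_mem hjU
          · have h4 : i ≤ j := Finset.min'_le _ _ (Finset.mem_sdiff.2 ⟨hjT, hjU⟩)
            have h5 : j = i := by omega
            rw [h5]
            exact Finset.mem_insert_self _ _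
        · exact Finset.mem_insert_of_mem (Finset.mem_union_left _
            (Finset.mem_filter.2 ⟨hjT, p, h2, hjp⟩))
      refine (Finset.card_le_card hsub).trans ((Finset.card_insert_le _ _).trans ?_)
      have h2 : (s + 1) * (1 + ν ^ t * N) = s * (1 + ν ^ t * N) + ν ^ t * N + 1 := by ring
      omega

theorem indep (t : ℕ) : ∃ b : ℕ, ∀ (ν N : ℕ) (T : Finset ℕ) (Bad : Finset ℕ → ℕ → Prop),
    (ν + 2) ^ b * (N + 1) ≤ T.card →
    (∃ T' ⊆ T, T'.card = ν ∧
      ∀ J ⊆ T', J.card = t → ∀ i ∈ T', (∀ q ∈ J, q < i) → ¬ Bad J i) ∨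
    (∃ J ⊆ T, J.card = t ∧ ∃ T' ⊆ T, T'.card = N ∧ ∀ i ∈ T', (∀ q ∈ J, q < i) ∧ Bad J i) := by
  classical
  refine ⟨t + 2, fun ν N T Bad hT => ?_⟩
  by_cases hex : ∃ J ⊆ T, J.card = t ∧ ∃ T' ⊆ T, T'.card = N ∧ ∀ i ∈ T', (∀ q ∈ J, q < i) ∧ Bad J i
  · exact Or.inr hex
  · left
    have hbad : ∀ J ⊆ T, J.card = t → ∃ E : Finset ℕ, E.card ≤ N ∧
        ∀ i ∈ T, (∀ q ∈ J, q < i) → Bad J i → i ∈ E := by
      intro J hJ hJc
      refine ⟨T.filter (fun i => (∀ q ∈ J, q < i) ∧ Bad J i), ?_, ?_⟩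
      · by_contra hcon
        obtain ⟨T', hT', hT'c⟩ := Finset.exists_subset_card_eq (not_le.1 hcon).le
        exact hex ⟨J, hJ, hJc, T', hT'.trans (Finset.filter_subset _ _), hT'c,
          fun i hi => (Finset.mem_filter.1 (hT' hi)).2⟩
      · intro i hi h1 h2
        exact Finset.mem_filter.2 ⟨hi, h1, h2⟩
    have hcount : ν * (1 + ν ^ t * N) < T.card := by
      refine lt_of_lt_of_le ?_ hT
      have h1 : ν ^ t ≤ (ν + 2) ^ t := Nat.pow_le_pow_left (by omega) t
      have h2 : 1 ≤ (ν + 2) ^ t := Nat.one_le_pow _ _ (by omega)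
      have h3 : (ν + 2) ^ (t + 2) = (ν + 2) ^ t * ((ν + 2) * (ν + 2)) := by ring
      rw [h3]
      have h4 : ν * (1 + ν ^ t * N) ≤ ν * ((ν + 2) ^ t * (N + 1)) := by
        refine Nat.mul_le_mul_left _ ?_
        have := Nat.mul_le_mul_right N h1
        nlinarith
      have h5 : 0 < (ν + 2) ^ t * (N + 1) := by positivity
      have h6 : ν * ((ν + 2) ^ t * (N + 1)) < ((ν + 2) * (ν + 2)) * ((ν + 2) ^ t * (N + 1)) := by
        refine Nat.mul_lt_mul_of_pos_right ?_ h5
        nlinarith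
      calc ν * (1 + ν ^ t * N) ≤ ν * ((ν + 2) ^ t * (N + 1)) := h4
        _ < ((ν + 2) * (ν + 2)) * ((ν + 2) ^ t * (N + 1)) := h6
        _ = (ν + 2) ^ t * ((ν + 2) * (ν + 2)) * (N + 1) := by ring
    obtain ⟨P, h1, h2, h3, -⟩ := indep_step t ν N T Bad hbad hcount ν le_rfl
    exact ⟨P, h1, h2, h3⟩

end RC
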