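import Pool.Agent.Helper850.RF.Defs

set_option autoImplicit false

namespace RC
open Finset BigOperators


theorem ivl_aux (b : ℕ) (u r : ℕ → ℝ) (a : ℕ) : ∀ (T : Finset ℕ), (∀ i ∈ T, 0 ≤ r i) →
    a * b ≤ T.card →
    (∃ T' ⊆ T, T'.card = a ∧ ∀ i ∈ T', ∀ i' ∈ T', i ≠ i' → r i + r i' ≤ |u i - u i'|) ∨
    (∃ T' ⊆ T, T'.card = b ∧ ∃ h : ℝ, ∀ i ∈ T', |u i - h| ≤ r i) := by
  classical
  induction a with
  | zero =>
    intro T _ _
    left
    exact ⟨∅, by simp, by simp, by simp⟩
  | succ a ih =>
    intro T hr h
    rcases T.eq_empty_or_nonempty with hT | hT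
    · subst hT
      have hb : b = 0 := by
        have h1 : (a + 1) * b = 0 := by simpa using h
        rcases Nat.mul_eq_zero.1 h1 with h2 | h2
        · omega
        · exact h2
      right
      exact ⟨∅, by simp, by simp [hb], 0, by simp⟩
    · obtain ⟨i0, hi0, hmin⟩ := Finset.exists_min_image T (fun i => u i + r i) hT
      set p : ℝ := u i0 + r i0 with hp
      set P : Finset ℕ := T.filter (fun i => |u i - p| ≤ r i) with hP
      have hPT : P ⊆ T := Finset.filter_subset _ _
      by_cases hb : b ≤ P.card
      · right
        obtain ⟨T', hT', hc⟩ := Finset.exists_subset_card_eq hb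
        refine ⟨T', hT'.trans hPT, hc, p, ?_⟩
        intro i hi
        exact (Finset.mem_filter.1 (hT' hi)).2
      · push Not at hb
        have hcard : (T \ P).card + P.card = T.card := Finset.card_sdiff_add_card_eq_card hPT
        have h1 : a * b ≤ (T \ P).card := by
          have h2 : (a + 1) * b = a * b + b := by ring
          omega
        have hfar : ∀ i ∈ T \ P, r i + r i0 < u i - u i0 := by
          intro i hi
          have hiT := (Finset.mem_sdiff.1 hi).1
          have hiP := (Finset.mem_sdiff.1 hi).2
          have h3 : r i < |u i - p| := by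
            by_contra hcon
            exact hiP (Finset.mem_filter.2 ⟨hiT, not_lt.1 hcon⟩)
          have h4 : p ≤ u i + r i := hmin i hiT
          have h5 : r i < u i - p := by
            rcases le_or_gt (u i - p) 0 with h6 | h6
            · rw [abs_of_nonpos h6] at h3
              linarith
            · rwa [abs_of_pos h6] at h3
          have h7 : p = u i0 + r i0 := hp
          linarith
        rcases ih (T \ P) (fun i hi => hr i (Finset.mem_sdiff.1 hi).1) h1 with
          ⟨T', hT', hc, hsep⟩ | ⟨T', hT', hc, hx⟩
        · left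
          have hi0P : i0 ∈ P := by
            refine Finset.mem_filter.2 ⟨hi0, ?_⟩
            have h8 : u i0 - p = - r i0 := by rw [hp]; ring
            rw [h8, abs_neg, abs_of_nonneg (hr i0 hi0)]
          have hi0T' : i0 ∉ T' := fun hmem => (Finset.mem_sdiff.1 (hT' hmem)).2 hi0P
          refine ⟨insert i0 T', ?_, ?_, ?_⟩
          · intro i hi
            rcases Finset.mem_insert.1 hi with h9 | h9
            · rw [h9]; exact hi0
            · exact (Finset.mem_sdiff.1 (hT' h9)).1
          · rw [Finset.card_insert_of_notMem hi0T', hc]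
          · intro i hi i' hi' hne
            rcases Finset.mem_insert.1 hi with h9 | h9
            · rcases Finset.mem_insert.1 hi' with h10 | h10
              · exact absurd (h9.trans h10.symm) hne
              · have h11 := hfar i' (hT' h10)
                rw [h9, abs_sub_comm]
                exact le_trans (by linarith) (le_abs_self _)
            · rcases Finset.mem_insert.1 hi' with h10 | h10
              · have h11 := hfar i (hT' h9)
                rw [h10]
                exact le_trans (by linarith) (le_abs_self _)
              · exact hsep i h9 i' h10 hne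
        · right
          exact ⟨T', hT'.trans Finset.sdiff_subset, hc, hx⟩

theorem ivl (a b : ℕ) (T : Finset ℕ) (u r : ℕ → ℝ) (hr : ∀ i ∈ T, 0 ≤ r i)
    (h : a * b ≤ T.card) :
    (∃ T' ⊆ T, T'.card = a ∧ ∀ i ∈ T', ∀ i' ∈ T', i < i' → r i + r i' ≤ |u i - u i'|) ∨
    (∃ T' ⊆ T, T'.card = b ∧ ∃ h : ℝ, ∀ i ∈ T', |u i - h| ≤ r i) := by
  rcases ivl_aux b u r a T hr h with ⟨T', h1, h2, h3⟩ | h1
  · left
    exact ⟨T', h1, h2, fun i hi i' hi' hlt => h3 i hi i' hi' (ne_of_lt hlt)⟩
  · right
    exact h1

end RC
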