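import Pool.Agent.Helper850.RF.Defs
import Pool.Agent.Helper850.RF.P_lac_mono
import Pool.Agent.Helper850.RF.P_ivl
import Pool.Agent.Helper850.RF.P_indep
import Pool.Agent.Helper850.RF.P_interp_coeff

set_option autoImplicit false

namespace RC
open Finset BigOperators


theorem chain_step (t : ℕ) (ε S : ℝ) (hε : 0 < ε) (hε1 : ε ≤ 1) (hS : 1 ≤ S) :
    ∃ (K₀ : ℝ) (b : ℕ), 1 ≤ K₀ ∧ ∀ (ν N : ℕ) (X : ℕ → ℝ) (G : Fin t → ℕ → ℝ) (T : Finset ℕ)
      (F : ℕ → ℝ) (h : ℝ), Lac K₀ X T → Flagd ε (2 * S) X G T → Tame S X F h T →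
      (ν + 2) ^ b * (N + 1) ≤ T.card →
      (∃ T' ⊆ T, T'.card = ν ∧ NoDep (72 * S) X G F h T') ∨
      (∃ T' ⊆ T, T'.card = ν ∧ ∃ c : Fin t → ℝ, ∀ i ∈ T', F i + comb G c i = 0) ∨
      (∃ T' ⊆ T, T'.card = ν ∧ ∃ c : Fin t → ℝ, Wild S X (fun i => F i + comb G c i) T') ∨
      (∃ J ⊆ T, J.card = t ∧ ∃ T' ⊆ T, T'.card = N ∧ (∀ q ∈ J, ∀ i ∈ T', q < i) ∧
        ∃ (c : Fin t → ℝ) (h' : ℝ), (∀ q ∈ J, F q + comb G c q = 0) ∧
          Tame S X (fun i => F i + comb G c i) h' T' ∧
          ∀ i ∈ T', h' ≤ h - 71 * S * X i) := by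
  classical
  obtain ⟨b0, hindep⟩ := indep t
  obtain ⟨K0, hK0, hint⟩ := interp_coeff t ε S hε hε1 hS
  refine ⟨K0, b0 + 2, hK0, ?_⟩
  intro ν N X G T F h hL hfl hTame hcard
  have hXpos : ∀ i ∈ T, 0 ≤ X i := fun i hi => by have := hL.1 i hi; linarith
  have hN1 : (ν + 2) ^ b0 * ((ν + ν * N + 1) + 1) ≤ T.card := by
    refine le_trans ?_ hcard
    have e : (ν + 2) ^ (b0 + 2) * (N + 1) = (ν + 2) ^ b0 * ((ν + 2) ^ 2 * (N + 1)) := by ring
    rw [e]
    refine Nat.mul_le_mul_left _ ?_
    nlinarith [Nat.zero_le ν, Nat.zero_le N, Nat.zero_le (ν * N), Nat.zero_le (ν * ν * N)]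
  rcases hindep ν (ν + ν * N + 1) T (fun J i => ∃ c : Fin t → ℝ,
    (∀ q ∈ J, F q + comb G c q = 0) ∧ |F i + comb G c i| < Real.exp (h - 72 * S * X i)) hN1 with
    ⟨T', hT', hc', hno⟩ | ⟨J, hJ, hJc, T1, hT1, hT1c, hbad⟩
  · left
    refine ⟨T', hT', hc', ?_⟩
    intro J hJ hJc i hi hlt c hc
    by_contra hcon
    exact hno J hJ hJc i hi hlt ⟨c, hc, not_le.1 hcon⟩
  · right
    have hne : T1.Nonempty := by
      rw [← Finset.card_pos, hT1c]; omega
    obtain ⟨i0, hi0⟩ := hne
    obtain ⟨hJlt, c0, hc0, hc0'⟩ := hbad i0 hi0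
    have hall : ∀ i ∈ T1, |F i + comb G c0 i| < Real.exp (h - 72 * S * X i) := by
      intro i hi
      obtain ⟨-, c, hc, hc'⟩ := hbad i hi
      have hz : ∀ q ∈ J, |comb G (c - c0) q| ≤ 0 := by
        intro q hq
        have e : comb G (c - c0) q = comb G c q - comb G c0 q := by
          unfold comb
          rw [← Finset.sum_sub_distrib]
          exact Finset.sum_congr rfl fun j _ => by rw [Pi.sub_apply]; ring
        have h1 := hc q hq
        have h2 := hc0 q hq
        rw [e, show comb G c q - comb G c0 q = 0 by linarith, abs_zero]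
      have heq := hint X G T hL hfl J hJ hJc i0 (hT1 hi0) (fun q hq => (hJlt q hq).le)
        (c - c0) 0 le_rfl hz
      have hcc : c = c0 := by
        funext j
        have h1 := heq j
        rw [zero_mul] at h1
        have h2 := abs_eq_zero.1 (le_antisymm h1 (abs_nonneg _))
        rw [Pi.sub_apply] at h2
        linarith
      rw [hcc] at hc'
      exact hc'
    by_cases hA : ν ≤ (T1.filter (fun i => F i + comb G c0 i = 0)).card
    · left
      obtain ⟨T', hT', hc'⟩ := Finset.exists_subset_card_eq hA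
      refine ⟨T', (hT'.trans (Finset.filter_subset _ _)).trans hT1, hc', c0, fun i hi => ?_⟩
      exact (Finset.mem_filter.1 (hT' hi)).2
    · right
      have hsum := Finset.card_filter_add_card_filter_not (s := T1)
        (fun i => F i + comb G c0 i = 0)
      have hB : ν * N ≤ (T1.filter (fun i => ¬(F i + comb G c0 i = 0))).card := by omega
      have hBT : T1.filter (fun i => ¬(F i + comb G c0 i = 0)) ⊆ T :=
        (Finset.filter_subset _ _).trans hT1
      rcases ivl ν N (T1.filter (fun i => ¬(F i + comb G c0 i = 0)))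
        (fun i => Real.log (F i + comb G c0 i)) (fun i => S * X i)
        (fun i hi => mul_nonneg (by linarith) (hXpos i (hBT hi))) hB with
        ⟨T', hT', hc', hsep⟩ | ⟨T', hT', hc', h', hh'⟩
      · left
        refine ⟨T', hT'.trans hBT, hc', c0, fun i hi => (Finset.mem_filter.1 (hT' hi)).2, ?_⟩
        intro i hi i' hi' hlt
        have := hsep i hi i' hi' hlt
        rw [mul_add]
        exact this
      · right
        refine ⟨J, hJ, hJc, T', hT'.trans hBT, hc', ?_, c0, h', hc0, ?_, ?_⟩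
        · intro q hq i hi
          exact (hbad i (Finset.mem_filter.1 (hT' hi)).1).1 q hq
        · intro i hi
          exact ⟨(Finset.mem_filter.1 (hT' hi)).2, hh' i hi⟩
        · intro i hi
          have h1 := (abs_le.1 (hh' i hi)).1
          have hne0 : F i + comb G c0 i ≠ 0 := (Finset.mem_filter.1 (hT' hi)).2
          have h2 := hall i (Finset.mem_filter.1 (hT' hi)).1
          have h3 : Real.log (F i + comb G c0 i) < h - 72 * S * X i := by
            rw [← Real.log_abs]
            exact (Real.log_lt_iff_lt_exp (abs_pos.2 hne0)).2 h2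
          linarith

end RC
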