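import Pool.Agent.Helper850.RF.Defs
import Pool.Agent.Helper850.RF.P_lac_mono
import Pool.Agent.Helper850.RF.P_chain_step
import Pool.Agent.Helper850.RF.P_chain_glue

set_option autoImplicit false

namespace RC
open Finset BigOperators


theorem chain_comb_add {m : ℕ} (G : Fin m → ℕ → ℝ) (c₁ c₂ : Fin m → ℝ) (i : ℕ) :
    comb G (c₁ + c₂) i = comb G c₁ i + comb G c₂ i := by
  unfold comb
  rw [← Finset.sum_add_distrib]
  exact Finset.sum_congr rfl fun j _ => by rw [Pi.add_apply]; ring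

theorem chain_comb_zero {m : ℕ} (G : Fin m → ℕ → ℝ) (i : ℕ) : comb G 0 i = 0 := by
  unfold comb
  simp

theorem chain (t : ℕ) (ht : 1 ≤ t) (ε S : ℝ) (hε : 0 < ε) (hε1 : ε ≤ 1) (hS : 1 ≤ S) :
    ∃ (K₀ : ℝ) (b : ℕ), 1 ≤ K₀ ∧ ∀ (R ν : ℕ) (X : ℕ → ℝ) (G : Fin t → ℕ → ℝ) (T : Finset ℕ)
      (F : ℕ → ℝ) (h : ℝ), Lac K₀ X T → Flagd ε (2 * S) X G T → Tame S X F h T →
      (ν + 2) ^ (b * (R + 1)) ≤ T.card →
      (∃ T' ⊆ T, T'.card = ν ∧ ∃ (c : Fin t → ℝ) (h' : ℝ),
        Tame S X (fun i => F i + comb G c i) h' T' ∧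
        NoDep (72 * S) X G (fun i => F i + comb G c i) h' T') ∨
      (∃ T' ⊆ T, T'.card = ν ∧ ∃ c : Fin t → ℝ, ∀ i ∈ T', F i + comb G c i = 0) ∨
      (∃ T' ⊆ T, T'.card = ν ∧ ∃ c : Fin t → ℝ, Wild S X (fun i => F i + comb G c i) T') ∨
      (∃ Q ⊆ T, ∃ E ⊆ T, Q.card = R ∧ E.card = t ∧ ∃ c : Fin t → ℝ,
        (∀ p ∈ E, |F p + comb G c p| ≤ Real.exp (h + S * X p)) ∧
        (∀ q ∈ Q, |F q + comb G c q| ≤ Real.exp (h - 18 * S * X q)) ∧
        (∀ q ∈ Q, ∀ q' ∈ Q, q < q' → F q + comb G c q ≠ 0 ∧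
          |F q' + comb G c q'| * Real.exp (9 * S * X q') ≤ |F q + comb G c q|)) := by
  obtain ⟨Ks, bs, hKs, hstep⟩ := chain_step t ε S hε hε1 hS
  obtain ⟨Kg, hKg, hglue⟩ := chain_glue t ht ε S hε hε1 hS
  refine ⟨max Ks Kg, bs + t + 2, le_trans hKs (le_max_left _ _), ?_⟩
  intro R
  induction R with
  | zero =>
    intro ν X G T F h hLac hFlag hTame hcard
    right; right; right
    have h1 : t ≤ T.card := by
      have h2 : t ≤ (ν + 2) ^ ((bs + t + 2) * (0 + 1)) := by
        have h3 : t < 2 ^ t := Nat.lt_two_pow_self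
        have h4 : 2 ^ t ≤ (ν + 2) ^ t := Nat.pow_le_pow_left (by omega) t
        have h5 : (ν + 2) ^ t ≤ (ν + 2) ^ ((bs + t + 2) * (0 + 1)) :=
          Nat.pow_le_pow_right (by omega) (by omega)
        omega
      omega
    obtain ⟨E, hE, hEc⟩ := Finset.exists_subset_card_eq h1
    refine ⟨∅, Finset.empty_subset _, E, hE, rfl, hEc, 0, ?_, ?_, ?_⟩
    · intro p hp
      rw [chain_comb_zero, add_zero]
      obtain ⟨h2, h3⟩ := hTame p (hE hp)
      have h4 : Real.log |F p| ≤ h + S * X p := by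
        rw [Real.log_abs]
        have := (abs_le.1 h3).2
        linarith
      rw [← Real.log_le_iff_le_exp (abs_pos.2 h2)]
      exact h4
    · intro q hq
      exact absurd hq (Finset.notMem_empty q)
    · intro q hq
      exact absurd hq (Finset.notMem_empty q)
  | succ R ih =>
    intro ν X G T F h hLac hFlag hTame hcard
    have hLs : Lac Ks X T := lac_mono Ks _ hKs (le_max_left _ _) X T T (Finset.Subset.refl _) hLac
    have hLg : Lac Kg X T := lac_mono Kg _ hKg (le_max_right _ _) X T T (Finset.Subset.refl _) hLac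
    have hthr : (ν + 2) ^ bs * ((ν + 2) ^ ((bs + t + 2) * (R + 1)) + 1) ≤ T.card := by
      refine le_trans ?_ hcard
      set N := (ν + 2) ^ ((bs + t + 2) * (R + 1)) with hN
      have hN1 : 1 ≤ N := Nat.one_le_pow _ _ (by omega)
      have h1 : N + 1 ≤ (ν + 2) ^ (t + 2) * N := by
        have h2 : 2 ≤ (ν + 2) ^ (t + 2) := by
          calc 2 ≤ ν + 2 := by omega
            _ = (ν + 2) ^ 1 := (pow_one _).symm
            _ ≤ (ν + 2) ^ (t + 2) := Nat.pow_le_pow_right (by omega) (by omega)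
        nlinarith
      calc (ν + 2) ^ bs * (N + 1) ≤ (ν + 2) ^ bs * ((ν + 2) ^ (t + 2) * N) :=
            Nat.mul_le_mul_left _ h1
        _ = (ν + 2) ^ ((bs + t + 2) * (R + 1 + 1)) := by
            rw [hN, ← mul_assoc, ← pow_add, ← pow_add]
            congr 1
            ring
    rcases hstep ν _ X G T F h hLs hFlag hTame hthr with h1 | h1 | h1 | h1
    · obtain ⟨T', hT', hc', hND⟩ := h1
      left
      refine ⟨T', hT', hc', 0, h, ?_, ?_⟩
      · intro i hi
        simp only [chain_comb_zero, add_zero]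
        exact hTame i (hT' hi)
      · have : (fun i => F i + comb G 0 i) = F := by
          funext i
          rw [chain_comb_zero, add_zero]
        rw [this]
        exact hND
    · right; left; exact h1
    · right; right; left; exact h1
    · obtain ⟨J, hJ, hJc, T', hT', hT'c, hJT, c₁, h', hJ0, hTame', hh'⟩ := h1
      have hLac' : Lac (max Ks Kg) X T' :=
        lac_mono _ _ (le_trans hKs (le_max_left _ _)) le_rfl X T T' hT' hLac
      have hFlag' : Flagd ε (2 * S) X G T' :=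
        ⟨fun j i hi => hFlag.1 j i (hT' hi), fun j l hjl i hi => hFlag.2 j l hjl i (hT' hi)⟩
      have hadd : ∀ c₂ : Fin t → ℝ, ∀ i, F i + comb G (c₁ + c₂) i =
          (F i + comb G c₁ i) + comb G c₂ i := by
        intro c₂ i
        rw [chain_comb_add]
        ring
      have hfun : ∀ c₂ : Fin t → ℝ, (fun i => F i + comb G (c₁ + c₂) i) =
          fun i => (fun i => F i + comb G c₁ i) i + comb G c₂ i := fun c₂ => funext (hadd c₂)
      rcases ih ν X G T' (fun i => F i + comb G c₁ i) h' hLac' hFlag' hTame' (by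
        rw [hT'c]) with h2 | h2 | h2 | h2
      · obtain ⟨T'', hT'', hc'', c₂, h'', a1, a2⟩ := h2
        left
        refine ⟨T'', hT''.trans hT', hc'', c₁ + c₂, h'', ?_, ?_⟩
        · rw [hfun c₂]; exact a1
        · rw [hfun c₂]; exact a2
      · obtain ⟨T'', hT'', hc'', c₂, a1⟩ := h2
        right; left
        refine ⟨T'', hT''.trans hT', hc'', c₁ + c₂, ?_⟩
        intro i hi
        rw [hadd c₂]
        exact a1 i hi
      · obtain ⟨T'', hT'', hc'', c₂, a1⟩ := h2
        right; right; left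
        refine ⟨T'', hT''.trans hT', hc'', c₁ + c₂, ?_⟩
        rw [hfun c₂]
        exact a1
      · obtain ⟨Q, hQ, E, hE, hQc, hEc, c₂, a1, a2, a3⟩ := h2
        right; right; right
        obtain ⟨q₀, hq₀, b1, b2, b3⟩ := hglue X G T hLg hFlag (fun i => F i + comb G c₁ i) h h'
          J T' Q E c₂ hJ hJc hT' hJT hJ0 hTame' hh' hQ hE hEc a1 a2 a3
        have hnot : q₀ ∉ Q := fun hq => lt_irrefl _ (hJT q₀ hq₀ q₀ (hQ hq))
        refine ⟨insert q₀ Q, ?_, E, hE.trans hT', ?_, hEc, c₁ + c₂, ?_, ?_, ?_⟩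
        · intro x hx
          rcases Finset.mem_insert.1 hx with rfl | hx
          · exact hJ hq₀
          · exact hT' (hQ hx)
        · rw [Finset.card_insert_of_notMem hnot, hQc]
        · intro p hp
          rw [hadd c₂]
          exact b1 p hp
        · intro q hq
          rw [hadd c₂]
          exact b2 q hq
        · intro q hq q' hq' hqq
          rw [hadd c₂, hadd c₂]
          exact b3 q hq q' hq' hqq

end RC
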