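import Pool.Agent.Helper850.RF.Defs

set_option autoImplicit false

namespace RC
open Finset BigOperators


theorem conv (D : ℕ) (p : Fin ((D + 1) * (D + 1)) → ℝ) :
    ∃ F : Polynomial (Polynomial ℝ), Bdeg D F ∧ ∀ (ξ y : ℕ → ℝ) (i : ℕ),
      comb (mon D ξ y) p i = ev2 F (ξ i) (y i) := by
  have hdiv : ∀ j : Fin ((D + 1) * (D + 1)), (j : ℕ) / (D + 1) ≤ D := fun j => by
    have := (Nat.div_lt_iff_lt_mul (show 0 < D + 1 from Nat.succ_pos D)).mpr j.2
    omega
  have hmod : ∀ j : Fin ((D + 1) * (D + 1)), (j : ℕ) % (D + 1) ≤ D := fun j => by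
    have := Nat.mod_lt (j : ℕ) (show D + 1 > 0 from Nat.succ_pos D)
    omega
  refine ⟨∑ j, Polynomial.C (Polynomial.C (p j) * Polynomial.X ^ ((j : ℕ) / (D + 1))) *
    Polynomial.X ^ ((j : ℕ) % (D + 1)), ⟨?_, ?_⟩, ?_⟩
  · refine Polynomial.natDegree_sum_le_of_forall_le _ _ fun j _ => ?_
    exact (Polynomial.natDegree_C_mul_X_pow_le _ _).trans (hmod j)
  · intro n
    rw [Polynomial.finsetSum_coeff]
    refine Polynomial.natDegree_sum_le_of_forall_le _ _ fun j _ => ?_
    rw [Polynomial.coeff_C_mul_X_pow]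
    split_ifs
    · exact (Polynomial.natDegree_C_mul_X_pow_le _ _).trans (hdiv j)
    · simp
  · intro ξ y i
    unfold ev2 comb mon
    rw [Polynomial.map_sum, Polynomial.eval_finsetSum]
    refine Finset.sum_congr rfl fun j _ => ?_
    simp only [Polynomial.map_mul, Polynomial.map_C, Polynomial.map_pow, Polynomial.map_X,
      Polynomial.eval_mul, Polynomial.eval_C, Polynomial.eval_pow, Polynomial.eval_X,
      Polynomial.coe_evalRingHom]
    ring

end RC
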