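import Pool.Agent.Helper850.RF.Defs

set_option autoImplicit false

namespace RC
open Finset BigOperators


theorem flag_grow (t : ℕ) (ε S K : ℝ) (hε : 0 < ε) (hS : 1 ≤ S) (hK : 1 ≤ K) :
    ∃ K₀ : ℝ, 1 ≤ K₀ ∧ ∀ (X : ℕ → ℝ) (G : Fin t → ℕ → ℝ) (T : Finset ℕ),
      Lac K₀ X T → Flagd ε S X G T →
      (∀ j, (∀ i ∈ T, 0 < G j i) ∨ (∀ i ∈ T, G j i < 0)) → Grow K G T := by
  refine ⟨max K ((2 * S + 1) / ε), hK.trans (le_max_left _ _), ?_⟩
  intro X G T hL hF hs
  set K₀ : ℝ := max K ((2 * S + 1) / ε) with hK₀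
  have hKK : K ≤ K₀ := le_max_left _ _
  have hεK : 2 * S + 1 ≤ ε * K₀ := by
    have h1 : (2 * S + 1) / ε ≤ K₀ := le_max_right _ _
    rw [div_le_iff₀ hε] at h1
    linarith
  obtain ⟨hL1, hL2⟩ := hL
  obtain ⟨hF1, hF2⟩ := hF
  refine ⟨fun r i hi => (hF1 r i hi).1, ?_⟩
  intro p q hpq i hi i' hi' hii
  have hpos : ∀ (r : Fin t) (a b : ℕ), a ∈ T → b ∈ T → 0 < G r a / G r b := by
    intro r a b ha hb
    rcases hs r with h | h
    · exact div_pos (h a ha) (h b hb)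
    · exact div_pos_of_neg_of_neg (h a ha) (h b hb)
  have hp : 0 < (G q i' / G q i) * (G p i / G p i') :=
    mul_pos (hpos q i' i hi' hi) (hpos p i i' hi hi')
  have hne : ∀ (r : Fin t) (a : ℕ), a ∈ T → G r a ≠ 0 := fun r a ha => (hF1 r a ha).1
  have hlog : Real.log ((G q i' / G q i) * (G p i / G p i')) =
      (Real.log (G q i') - Real.log (G q i)) + (Real.log (G p i) - Real.log (G p i')) := by
    rw [Real.log_mul (hpos q i' i hi' hi).ne' (hpos p i i' hi hi').ne',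
      Real.log_div (hne q i' hi') (hne q i hi), Real.log_div (hne p i hi) (hne p i' hi')]
  have h1 := hF2 p q hpq i' hi'
  have h2 := (abs_le.1 (hF1 q i hi).2).2
  have h3 := (abs_le.1 (hF1 p i hi).2).1
  have h4 := hL1 i hi
  have h5 := hL2 i hi i' hi' hii
  have hX : 0 < X i := by linarith
  have h6 : ε * (K₀ * X i) ≤ ε * X i' := mul_le_mul_of_nonneg_left h5 hε.le
  have h7 : (2 * S + 1) * X i ≤ (ε * K₀) * X i := mul_le_mul_of_nonneg_right hεK hX.le
  have h8 : K ≤ Real.log ((G q i' / G q i) * (G p i / G p i')) := by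
    rw [hlog]
    nlinarith
  calc K ≤ Real.exp K := by
        have := Real.add_one_le_exp K
        linarith
    _ ≤ Real.exp (Real.log ((G q i' / G q i) * (G p i / G p i'))) := Real.exp_le_exp.2 h8
    _ = _ := Real.exp_log hp

end RC
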