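import Pool.Agent.Helper850.RF.Defs

set_option autoImplicit false

namespace RC
open Finset BigOperators


theorem span_change (m t k : ℕ) (Φ : Fin m → ℕ → ℝ) (G : Fin t → ℕ → ℝ) (T : Finset ℕ)
    (c : (Fin k → Fin m) → ℝ) (h : ∀ r, ∃ p : Fin t → ℝ, ∀ i ∈ T, Φ r i = comb G p i) :
    ∃ c' : (Fin k → Fin t) → ℝ, ∀ x : Fin k → ℕ, (∀ l, x l ∈ T) →
      kval Φ c x = kval G c' x := by
  choose p hp using h
  refine ⟨fun J' => ∑ J, c J * ∏ l, p (J l) (J' l), fun x hx => ?_⟩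
  have key : ∀ J : Fin k → Fin m, ∏ l, Φ (J l) (x l) =
      ∑ J' : Fin k → Fin t, (∏ l, p (J l) (J' l)) * ∏ l, G (J' l) (x l) := by
    intro J
    have h1 : ∏ l, Φ (J l) (x l) = ∏ l, ∑ j, p (J l) j * G j (x l) :=
      Finset.prod_congr rfl fun l _ => hp (J l) (x l) (hx l)
    rw [h1, Finset.prod_univ_sum, Fintype.piFinset_univ]
    exact Finset.sum_congr rfl fun J' _ => Finset.prod_mul_distrib
  unfold kval
  simp only [key, Finset.mul_sum, Finset.sum_mul]
  rw [Finset.sum_comm]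
  refine Finset.sum_congr rfl fun J' _ => Finset.sum_congr rfl fun J _ => ?_
  ring

end RC
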