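import Pool.Agent.Helper850.RF.Defs
import Pool.Agent.Helper850.RC.P_tow_mono
import Pool.Agent.Helper850.RC.P_tow_add
import Pool.Agent.Helper850.RC.P_tow_absorb
import Pool.Agent.Helper850.RC.P_tow_le_add
import Pool.Agent.Helper850.RC.P_stage2
import Pool.Agent.Helper850.RF.P_flag_grow
import Pool.Agent.Helper850.RF.P_span_change

set_option autoImplicit false

namespace RC
open Finset BigOperators


theorem flag_hom : ∃ C : ℕ, ∀ (m k : ℕ) (ε S : ℝ), 0 < ε → 1 ≤ S →
    ∃ (K₀ : ℝ) (a : ℕ), 1 ≤ K₀ ∧ ∀ (n t : ℕ), t ≤ m + 1 → ∀ (X : ℕ → ℝ) (G : Fin t → ℕ → ℝ)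
      (Φ : Fin m → ℕ → ℝ) (T : Finset ℕ) (c : (Fin k → Fin m) → ℝ),
      Lac K₀ X T → Flagd ε S X G T → (∀ r, ∃ p : Fin t → ℝ, ∀ i ∈ T, Φ r i = comb G p i) →
      tow C (a * (n + 1)) ≤ T.card →
      ∃ T' ⊆ T, T'.card = n ∧ SignHom (kval Φ c) T' := by
  classical
  obtain ⟨C, hC⟩ := stage2
  refine ⟨C, ?_⟩
  intro m k ε S hε hS
  choose aF KF hK1 hmain using fun t => hC t k
  choose K0 h01 hgrow using fun t => flag_grow t ε S (KF t) hε hS (hK1 t)
  obtain ⟨a', ha'⟩ := tow_absorb C (2 ^ (m + 1)) (∑ t ∈ range (m + 2), aF t)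
  have hKle : ∀ t ≤ m + 1, K0 t ≤ ∑ t ∈ range (m + 2), K0 t := by
    intro t ht
    exact Finset.single_le_sum (f := K0) (fun i _ => le_trans zero_le_one (h01 i))
      (mem_range.mpr (by omega))
  refine ⟨∑ t ∈ range (m + 2), K0 t, a', (h01 0).trans (hKle 0 (Nat.zero_le _)), ?_⟩
  intro n t ht X G Φ T c hLac hFlag hspan hcard
  have hT0 : 2 ^ t * tow C (aF t * (n + 1)) ≤ T.card := by
    refine le_trans ?_ ((ha' n).trans hcard)
    refine Nat.mul_le_mul (Nat.pow_le_pow_right (by norm_num) ht) ?_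
    refine le_trans (tow_mono C _ _ (Nat.mul_le_mul_right _ ?_)) (Nat.le_succ _)
    exact Finset.single_le_sum (f := aF) (fun i _ => Nat.zero_le _) (mem_range.mpr (by omega))
  obtain ⟨σ, -, hσ⟩ := Finset.exists_le_card_fiber_of_mul_le_card_of_maps_to
    (s := T) (t := (Finset.univ : Finset (Fin t → Bool)))
    (f := fun i j => decide (0 < G j i)) (n := tow C (aF t * (n + 1)))
    (fun _ _ => Finset.mem_univ _) Finset.univ_nonempty (by
      rw [Finset.card_univ, Fintype.card_fun, Fintype.card_bool, Fintype.card_fin]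
      exact hT0)
  set T₁ := {x ∈ T | (fun j => decide (0 < G j x)) = σ} with hT₁
  have hsub : T₁ ⊆ T := Finset.filter_subset _ _
  have hLac1 : Lac (K0 t) X T₁ := by
    constructor
    · intro i hi
      exact (hKle t ht).trans (hLac.1 i (hsub hi))
    · intro i hi i' hi' hii
      refine le_trans ?_ (hLac.2 i (hsub hi) i' (hsub hi') hii)
      refine mul_le_mul_of_nonneg_right (hKle t ht) ?_
      have h1 := hLac.1 i (hsub hi)
      have h2 := (h01 0).trans (hKle 0 (Nat.zero_le _))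
      linarith
  have hFlag1 : Flagd ε S X G T₁ := by
    constructor
    · intro j i hi
      exact hFlag.1 j i (hsub hi)
    · intro j l hjl i hi
      exact hFlag.2 j l hjl i (hsub hi)
  have hsign : ∀ j, (∀ i ∈ T₁, 0 < G j i) ∨ (∀ i ∈ T₁, G j i < 0) := by
    intro j
    cases hb : σ j with
    | true =>
      left
      intro i hi
      have h1 := (Finset.mem_filter.mp hi).2
      have h2 := congrFun h1 j
      rw [hb] at h2
      exact of_decide_eq_true h2
    | false =>
      right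
      intro i hi
      have h1 := (Finset.mem_filter.mp hi).2
      have h2 := congrFun h1 j
      rw [hb] at h2
      have h3 : ¬ 0 < G j i := of_decide_eq_false h2
      exact lt_of_le_of_ne (not_lt.mp h3) (hFlag.1 j i (hsub hi)).1
  have hG := hgrow t X G T₁ hLac1 hFlag1 hsign
  obtain ⟨c', hc'⟩ := span_change m t k Φ G T₁ c (by
    intro r
    obtain ⟨p, hp⟩ := hspan r
    exact ⟨p, fun i hi => hp i (hsub hi)⟩)
  obtain ⟨T', hT'sub, hT'card, s, hs⟩ := hmain t n T₁ G c' hG hσ
  refine ⟨T', hT'sub.trans hsub, hT'card, s, ?_⟩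
  intro x hx hxT
  rw [hc' x (fun l => hT'sub (hxT l))]
  exact hs x hx hxT

end RC
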