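import Pool.Agent.Helper850.RF.Defs

set_option autoImplicit false

namespace RC
open Finset BigOperators


theorem dimcount (σ : Type) [Fintype σ] (ι : Type) [Fintype ι] (M E N : ℕ)
    (P : ι → MvPolynomial σ ℝ) (z : MvPolynomial σ ℝ)
    (hP : ∀ a v, (P a).degreeOf v ≤ M) (hz : ∀ v, z.degreeOf v ≤ E) (hz0 : z ≠ 0)
    (hc : (M + N * E + 1) ^ Fintype.card σ < Fintype.card ι * (N + 1)) :
    ∃ c : ℕ → ι → ℝ, c 0 ≠ 0 ∧
      ∑ j ∈ Finset.range (N + 1), ∑ a : ι, MvPolynomial.C (c j a) * P a * z ^ j = 0 := by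
  classical
  obtain ⟨D, hD⟩ : ∃ D, D = M + N * E := ⟨_, rfl⟩
  rw [← hD] at hc
  let L : MvPolynomial σ ℝ →ₗ[ℝ] ((σ → Fin (D + 1)) → ℝ) :=
    { toFun := fun p u => MvPolynomial.coeff
        (Finsupp.equivFunOnFinite.symm (fun v => (u v : ℕ))) p
      map_add' := fun p q => by funext u; simp
      map_smul' := fun r p => by funext u; simp }
  have hLinj : ∀ p : MvPolynomial σ ℝ, (∀ v, p.degreeOf v ≤ D) → L p = 0 → p = 0 := by
    intro p hp h0
    ext m
    rw [MvPolynomial.coeff_zero]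
    by_cases hm : ∀ v, m v ≤ D
    · have h1 := congrFun h0 (fun v => ⟨m v, Nat.lt_succ_of_le (hm v)⟩)
      have h2 : (Finsupp.equivFunOnFinite.symm
          (fun v => ((⟨m v, Nat.lt_succ_of_le (hm v)⟩ : Fin (D + 1)) : ℕ)) : σ →₀ ℕ) = m := by
        ext v
        simp
      change MvPolynomial.coeff (Finsupp.equivFunOnFinite.symm
          (fun v => ((⟨m v, Nat.lt_succ_of_le (hm v)⟩ : Fin (D + 1)) : ℕ))) p = 0 at h1
      rw [h2] at h1
      exact h1
    · push Not at hm
      obtain ⟨v, hv⟩ := hm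
      by_contra hne
      have h1 : m ∈ p.support := MvPolynomial.mem_support_iff.2 hne
      have h2 := MvPolynomial.monomial_le_degreeOf v h1
      have h3 := hp v
      omega
  let w : Fin (N + 1) × ι → ((σ → Fin (D + 1)) → ℝ) := fun x => L (P x.2 * z ^ (x.1 : ℕ))
  have hnl : ¬ LinearIndependent ℝ w := by
    intro hli
    have h1 := hli.fintype_card_le_finrank
    rw [Fintype.card_prod, Fintype.card_fin, Module.finrank_fintype_fun_eq_card,
      Fintype.card_fun, Fintype.card_fin, mul_comm] at h1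
    omega
  obtain ⟨g, hg0, ⟨j1, a1⟩, hg1⟩ := Fintype.not_linearIndependent_iff.1 hnl
  have hp0 : ∑ x : Fin (N + 1) × ι, MvPolynomial.C (g x) * (P x.2 * z ^ (x.1 : ℕ)) = 0 := by
    apply hLinj
    · intro v
      refine le_trans (MvPolynomial.degreeOf_sum_le _ _ _) ?_
      apply Finset.sup_le
      rintro ⟨j, a⟩ -
      refine le_trans (MvPolynomial.degreeOf_C_mul_le _ _ _) ?_
      refine le_trans (MvPolynomial.degreeOf_mul_le _ _ _) ?_
      have h1 := MvPolynomial.degreeOf_pow_le v z (j : ℕ)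
      have h2 : (j : ℕ) * MvPolynomial.degreeOf v z ≤ N * E :=
        Nat.mul_le_mul (Nat.lt_succ_iff.1 j.2) (hz v)
      have h3 := hP a v
      simp only
      omega
    · rw [map_sum, ← hg0]
      apply Finset.sum_congr rfl
      intro x _
      rw [← MvPolynomial.smul_eq_C_mul, map_smul]
  let c' : ℕ → ι → ℝ := fun j a => if h : j < N + 1 then g (⟨j, h⟩, a) else 0
  have hc'0 : ∀ j, N + 1 ≤ j → c' j = 0 := by
    intro j hj
    funext a
    exact dif_neg (by omega)
  let T : ℕ → MvPolynomial σ ℝ := fun j => ∑ a : ι, MvPolynomial.C (c' j a) * P a * z ^ j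
  have hT : ∑ j ∈ Finset.range (N + 1), T j = 0 := by
    rw [← hp0, Finset.sum_range, Fintype.sum_prod_type]
    apply Finset.sum_congr rfl
    intro j _
    apply Finset.sum_congr rfl
    intro a _
    have : c' (j : ℕ) a = g (j, a) := dif_pos j.2
    rw [this]
    ring
  have hex : ∃ j, c' j ≠ 0 := by
    refine ⟨j1, fun h => hg1 ?_⟩
    have h1 := congrFun h a1
    have h2 : c' (j1 : ℕ) a1 = g (j1, a1) := dif_pos j1.2
    rw [← h2, h1]
    rfl
  obtain ⟨j0, hj0, hmin⟩ : ∃ j0, c' j0 ≠ 0 ∧ ∀ j < j0, c' j = 0 :=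
    ⟨Nat.find hex, Nat.find_spec hex, fun j hj => not_not.1 (Nat.find_min hex hj)⟩
  refine ⟨fun j a => c' (j0 + j) a, ?_, ?_⟩
  · simpa using hj0
  have hTz : ∀ j, c' j = 0 → T j = 0 := by
    intro j hj
    simp [T, hj]
  have e1 := Finset.sum_range_add T j0 (N + 1)
  have e2 := Finset.sum_range_add T (N + 1) j0
  have e3 : ∑ x ∈ Finset.range j0, T x = 0 :=
    Finset.sum_eq_zero (fun j hj => hTz j (hmin j (Finset.mem_range.1 hj)))
  have e4 : ∑ x ∈ Finset.range j0, T (N + 1 + x) = 0 :=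
    Finset.sum_eq_zero (fun j _ => hTz _ (hc'0 _ (by omega)))
  rw [hT, e4, add_comm (N + 1) j0, e1, e3] at e2
  simp only [zero_add, add_zero] at e2
  have e5 : z ^ j0 * ∑ j ∈ Finset.range (N + 1),
      ∑ a : ι, MvPolynomial.C (c' (j0 + j) a) * P a * z ^ j = 0 := by
    rw [← e2, Finset.mul_sum]
    apply Finset.sum_congr rfl
    intro j _
    simp only [T]
    rw [Finset.mul_sum]
    apply Finset.sum_congr rfl
    intro a _
    rw [pow_add]
    ring
  rcases mul_eq_zero.1 e5 with h | h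
  · exact absurd h (pow_ne_zero _ hz0)
  · exact h

end RC
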