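import Pool.Agent.Helper850.RF.Defs
import Pool.Agent.Helper850.RF.P_dimcount

set_option autoImplicit false

namespace RC
open Finset BigOperators


theorem rk_degX {σ : Type} (v w : σ) :
    (MvPolynomial.X w : MvPolynomial σ ℝ).degreeOf v ≤ 1 := by
  classical
  rw [MvPolynomial.degreeOf_X]
  split_ifs <;> simp

theorem rk_degXpow {σ : Type} (v w : σ) (n : ℕ) :
    ((MvPolynomial.X w : MvPolynomial σ ℝ) ^ n).degreeOf v ≤ n := by
  refine (MvPolynomial.degreeOf_pow_le _ _ _).trans ?_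
  calc n * (MvPolynomial.X w : MvPolynomial σ ℝ).degreeOf v ≤ n * 1 :=
        Nat.mul_le_mul_left _ (rk_degX v w)
    _ = n := mul_one n

theorem rk_degaeval {σ : Type} (v w : σ) (p : Polynomial ℝ) :
    (Polynomial.aeval (MvPolynomial.X w : MvPolynomial σ ℝ) p).degreeOf v ≤ p.natDegree := by
  rw [Polynomial.aeval_eq_sum_range]
  refine (MvPolynomial.degreeOf_sum_le _ _ _).trans (Finset.sup_le fun i hi => ?_)
  rw [MvPolynomial.smul_eq_C_mul]
  refine (MvPolynomial.degreeOf_C_mul_le _ _ _).trans ?_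
  refine (rk_degXpow v w i).trans ?_
  have := Finset.mem_range.1 hi
  omega

/-- two-variable polynomial as an `MvPolynomial` -/
noncomputable def rkP {σ : Type} (w w' : σ) (F : Polynomial (Polynomial ℝ)) : MvPolynomial σ ℝ :=
  F.eval₂ (Polynomial.aeval (MvPolynomial.X w : MvPolynomial σ ℝ) :
    Polynomial ℝ →ₐ[ℝ] MvPolynomial σ ℝ).toRingHom (MvPolynomial.X w')

theorem rkP_deg {σ : Type} (v w w' : σ) (D : ℕ) (F : Polynomial (Polynomial ℝ)) (h : Bdeg D F) :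
    (rkP w w' F).degreeOf v ≤ 2 * D := by
  unfold rkP
  rw [Polynomial.eval₂_eq_sum_range]
  refine (MvPolynomial.degreeOf_sum_le _ _ _).trans (Finset.sup_le fun i hi => ?_)
  refine (MvPolynomial.degreeOf_mul_le _ _ _).trans ?_
  have h1 : ((Polynomial.aeval (MvPolynomial.X w : MvPolynomial σ ℝ) :
    Polynomial ℝ →ₐ[ℝ] MvPolynomial σ ℝ).toRingHom (F.coeff i)).degreeOf v ≤ D :=
    (rk_degaeval v w (F.coeff i)).trans (h.2 i)
  have h2 := rk_degXpow v w' i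
  have h3 := Finset.mem_range.1 hi
  have h4 := h.1
  omega

theorem rkP_eval {σ : Type} (w w' : σ) (ρ : σ → ℝ) (F : Polynomial (Polynomial ℝ)) :
    MvPolynomial.eval ρ (rkP w w' F) = ev2 F (ρ w) (ρ w') := by
  unfold rkP ev2
  rw [Polynomial.hom_eval₂, Polynomial.eval_map, MvPolynomial.eval_X]
  congr 1
  apply Polynomial.ringHom_ext
  · intro a
    simp
  · simp

/-- exponent vector -/
noncomputable def rkE {k : ℕ} (D : ℕ) (J : Fin k → Fin ((D + 1) * (D + 1))) : (Fin k × Fin 2) →₀ ℕ :=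
  Finsupp.equivFunOnFinite.symm
    (fun v => if v.2 = 0 then (J v.1 : ℕ) / (D + 1) else (J v.1 : ℕ) % (D + 1))

theorem rkE_inj {k : ℕ} (D : ℕ) : Function.Injective (rkE (k := k) D) := by
  intro J J' h
  funext l
  have h0 : rkE D J (l, 0) = rkE D J' (l, 0) := by rw [h]
  have h1 : rkE D J (l, 1) = rkE D J' (l, 1) := by rw [h]
  have h0' : (J l : ℕ) / (D + 1) = (J' l : ℕ) / (D + 1) := by simpa [rkE] using h0
  have h1' : (J l : ℕ) % (D + 1) = (J' l : ℕ) % (D + 1) := by simpa [rkE] using h1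
  apply Fin.ext
  rw [← Nat.div_add_mod (J l : ℕ) (D + 1), ← Nat.div_add_mod (J' l : ℕ) (D + 1), h0', h1']

theorem rkE_le {k : ℕ} (D : ℕ) (J : Fin k → Fin ((D + 1) * (D + 1))) (v : Fin k × Fin 2) :
    rkE D J v ≤ D := by
  have h : rkE D J v = if v.2 = 0 then (J v.1 : ℕ) / (D + 1) else (J v.1 : ℕ) % (D + 1) := by
    simp [rkE]
  rw [h]
  split_ifs
  · have h1 : (J v.1 : ℕ) / (D + 1) < D + 1 :=
      Nat.div_lt_of_lt_mul (J v.1).2
    omega
  · have h1 : (J v.1 : ℕ) % (D + 1) < D + 1 := Nat.mod_lt _ (Nat.succ_pos _)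
    omega

/-- the polynomial `z` -/
noncomputable def rkZ {k : ℕ} (D : ℕ) (c : (Fin k → Fin ((D + 1) * (D + 1))) → ℝ) :
    MvPolynomial (Fin k × Fin 2) ℝ :=
  ∑ J : Fin k → Fin ((D + 1) * (D + 1)), MvPolynomial.monomial (rkE D J) (c J)

theorem rkZ_coeff {k : ℕ} (D : ℕ) (c : (Fin k → Fin ((D + 1) * (D + 1))) → ℝ)
    (J : Fin k → Fin ((D + 1) * (D + 1))) : (rkZ D c).coeff (rkE D J) = c J := by
  classical
  unfold rkZ
  rw [MvPolynomial.coeff_sum]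
  rw [Finset.sum_eq_single J]
  · rw [MvPolynomial.coeff_monomial, if_pos rfl]
  · intro J' _ hJ'
    rw [MvPolynomial.coeff_monomial, if_neg]
    intro h
    exact hJ' (rkE_inj D h)
  · intro h
    exact absurd (Finset.mem_univ _) h

theorem rkZ_ne {k : ℕ} (D : ℕ) (c : (Fin k → Fin ((D + 1) * (D + 1))) → ℝ) (hc : c ≠ 0) :
    rkZ D c ≠ 0 := by
  intro h
  apply hc
  funext J
  rw [← rkZ_coeff D c J, h]
  simp

theorem rkZ_deg {k : ℕ} (D : ℕ) (c : (Fin k → Fin ((D + 1) * (D + 1))) → ℝ) (v : Fin k × Fin 2) :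
    (rkZ D c).degreeOf v ≤ D := by
  unfold rkZ
  refine (MvPolynomial.degreeOf_sum_le _ _ _).trans (Finset.sup_le fun J _ => ?_)
  classical
  rw [MvPolynomial.degreeOf_le_iff]
  intro m hm
  have h1 := MvPolynomial.support_monomial_subset hm
  rw [Finset.mem_singleton] at h1
  rw [h1]
  exact rkE_le D J v

theorem rkZ_eval {k : ℕ} (D : ℕ) (c : (Fin k → Fin ((D + 1) * (D + 1))) → ℝ)
    (ρ : Fin k × Fin 2 → ℝ) :
    MvPolynomial.eval ρ (rkZ D c) = fev D c (fun l => ρ (l, 0)) (fun l => ρ (l, 1)) := by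
  unfold rkZ fev
  rw [map_sum]
  refine Finset.sum_congr rfl fun J _ => ?_
  rw [MvPolynomial.eval_monomial]
  congr 1
  rw [Finsupp.prod_fintype _ _ (fun v => pow_zero _), Fintype.prod_prod_type]
  refine Finset.prod_congr rfl fun l _ => ?_
  rw [Fin.prod_univ_two]
  simp [rkE]

/-- the polynomials `P` -/
noncomputable def rkPab {k : ℕ} (N : ℕ) (F G : Polynomial (Polynomial ℝ))
    (a : (Fin k → Fin (N + 1)) × (Fin k → Fin (N + 1))) : MvPolynomial (Fin k × Fin 2) ℝ :=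
  ∏ l, (MvPolynomial.X (l, 0) ^ (a.1 l : ℕ) *
    (rkP (l, 0) (l, 1) F ^ (a.2 l : ℕ) * rkP (l, 0) (l, 1) G ^ (N - (a.2 l : ℕ))))

theorem rkPab_deg {k : ℕ} (N D : ℕ) (F G : Polynomial (Polynomial ℝ)) (hF : Bdeg D F)
    (hG : Bdeg D G) (a : (Fin k → Fin (N + 1)) × (Fin k → Fin (N + 1))) (v : Fin k × Fin 2) :
    (rkPab N F G a).degreeOf v ≤ k * (N * (1 + 4 * D)) := by
  unfold rkPab
  refine (MvPolynomial.degreeOf_prod_le _ _ _).trans ?_
  have h : ∀ l ∈ (Finset.univ : Finset (Fin k)), (MvPolynomial.X (l, 0) ^ (a.1 l : ℕ) *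
    (rkP (l, 0) (l, 1) F ^ (a.2 l : ℕ) * rkP (l, 0) (l, 1) G ^ (N - (a.2 l : ℕ))) :
      MvPolynomial (Fin k × Fin 2) ℝ).degreeOf v ≤ N * (1 + 4 * D) := by
    intro l _
    have h1 := rk_degXpow v ((l, 0) : Fin k × Fin 2) (a.1 l : ℕ)
    have h2 : (rkP ((l, 0) : Fin k × Fin 2) (l, 1) F ^ (a.2 l : ℕ)).degreeOf v ≤ N * (2 * D) :=
      (MvPolynomial.degreeOf_pow_le _ _ _).trans
        (Nat.mul_le_mul (Nat.lt_succ_iff.1 (a.2 l).2) (rkP_deg v _ _ D F hF))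
    have h3 : (rkP ((l, 0) : Fin k × Fin 2) (l, 1) G ^ (N - (a.2 l : ℕ))).degreeOf v ≤
        N * (2 * D) :=
      (MvPolynomial.degreeOf_pow_le _ _ _).trans
        (Nat.mul_le_mul (Nat.sub_le _ _) (rkP_deg v _ _ D G hG))
    refine (MvPolynomial.degreeOf_mul_le _ _ _).trans ?_
    have h4 := MvPolynomial.degreeOf_mul_le v (rkP ((l, 0) : Fin k × Fin 2) (l, 1) F ^ (a.2 l : ℕ))
      (rkP ((l, 0) : Fin k × Fin 2) (l, 1) G ^ (N - (a.2 l : ℕ)))
    have h5 := Nat.lt_succ_iff.1 (a.1 l).2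
    calc _ ≤ N + (N * (2 * D) + N * (2 * D)) :=
          Nat.add_le_add (h1.trans h5) (h4.trans (Nat.add_le_add h2 h3))
      _ = N * (1 + 4 * D) := by ring
  refine (Finset.sum_le_sum h).trans ?_
  simp

theorem rkPab_eval {k : ℕ} (N : ℕ) (F G : Polynomial (Polynomial ℝ))
    (a : (Fin k → Fin (N + 1)) × (Fin k → Fin (N + 1))) (ρ : Fin k × Fin 2 → ℝ)
    (hG : ∀ l, ev2 G (ρ (l, 0)) (ρ (l, 1)) ≠ 0) :
    MvPolynomial.eval ρ (rkPab N F G a) = (∏ l, ev2 G (ρ (l, 0)) (ρ (l, 1)) ^ N) *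
      ∏ l, (ρ (l, 0) ^ (a.1 l : ℕ) *
        (ev2 F (ρ (l, 0)) (ρ (l, 1)) / ev2 G (ρ (l, 0)) (ρ (l, 1))) ^ (a.2 l : ℕ)) := by
  unfold rkPab
  rw [map_prod, ← Finset.prod_mul_distrib]
  refine Finset.prod_congr rfl fun l _ => ?_
  rw [map_mul, map_mul, map_pow, map_pow, map_pow, MvPolynomial.eval_X, rkP_eval, rkP_eval, div_pow]
  have h1 := Nat.lt_succ_iff.1 (a.2 l).2
  have h2 : ev2 G (ρ (l, 0)) (ρ (l, 1)) ^ N = ev2 G (ρ (l, 0)) (ρ (l, 1)) ^ (a.2 l : ℕ) *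
      ev2 G (ρ (l, 0)) (ρ (l, 1)) ^ (N - (a.2 l : ℕ)) := by
    rw [← pow_add, Nat.add_sub_cancel' h1]
  rw [h2]
  have h3 : ev2 G (ρ (l, 0)) (ρ (l, 1)) ^ (a.2 l : ℕ) ≠ 0 := pow_ne_zero _ (hG l)
  field_simp

theorem rel_k (D k : ℕ) : ∃ N : ℕ, ∀ F G : Polynomial (Polynomial ℝ), Bdeg D F → Bdeg D G →
    G ≠ 0 → ∀ c : (Fin k → Fin ((D + 1) * (D + 1))) → ℝ, c ≠ 0 →
      ∃ g : ℕ → (Fin k → Fin (N + 1)) → (Fin k → Fin (N + 1)) → ℝ, g 0 ≠ 0 ∧
        ∀ s y : Fin k → ℝ, (∀ l, ev2 G (s l) (y l) ≠ 0) →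
          ∑ j ∈ Finset.range (N + 1),
            qev (g j) s (fun l => ev2 F (s l) (y l) / ev2 G (s l) (y l)) * fev D c s y ^ j = 0 := by
  obtain ⟨C, hC⟩ : ∃ C, C = k * (1 + 4 * D) + D + 1 := ⟨_, rfl⟩
  obtain ⟨N, hN⟩ : ∃ N, N = C ^ (k * 2) := ⟨_, rfl⟩
  refine ⟨N, fun F G hF hG _ c hc => ?_⟩
  obtain ⟨c', hc', hrel⟩ := dimcount (Fin k × Fin 2)
    ((Fin k → Fin (N + 1)) × (Fin k → Fin (N + 1))) (k * (N * (1 + 4 * D))) D N
    (rkPab N F G) (rkZ D c) (fun a v => rkPab_deg N D F G hF hG a v)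
    (fun v => rkZ_deg D c v) (rkZ_ne D c hc) (by
      rw [Fintype.card_prod, Fintype.card_prod, Fintype.card_fun, Fintype.card_fin,
        Fintype.card_fin, Fintype.card_fin]
      have h1 : k * (N * (1 + 4 * D)) + N * D + 1 ≤ (N + 1) * C := by
        rw [hC]
        nlinarith [Nat.zero_le (k * (1 + 4 * D)), Nat.zero_le D, Nat.zero_le N]
      calc (k * (N * (1 + 4 * D)) + N * D + 1) ^ (k * 2) ≤ ((N + 1) * C) ^ (k * 2) :=
            Nat.pow_le_pow_left h1 _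
        _ = (N + 1) ^ k * (N + 1) ^ k * N := by
            rw [mul_pow, ← hN]
            ring
        _ < (N + 1) ^ k * (N + 1) ^ k * (N + 1) :=
            Nat.mul_lt_mul_of_pos_left (Nat.lt_succ_self N) (by positivity))
  refine ⟨fun j α β => c' j (α, β), ?_, ?_⟩
  · intro h
    apply hc'
    funext a
    exact congrFun (congrFun h a.1) a.2
  · intro s y hsy
    obtain ⟨ρ, hρ⟩ : ∃ ρ : Fin k × Fin 2 → ℝ, ρ = fun v => if v.2 = 0 then s v.1 else y v.1 :=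
      ⟨_, rfl⟩
    have hρ0 : ∀ l, ρ (l, 0) = s l := by
      intro l
      rw [hρ]
      simp
    have hρ1 : ∀ l, ρ (l, 1) = y l := by
      intro l
      rw [hρ]
      simp
    have h1 := congrArg (MvPolynomial.eval ρ) hrel
    rw [map_sum, map_zero] at h1
    have hG' : ∀ l, ev2 G (ρ (l, 0)) (ρ (l, 1)) ≠ 0 := by
      intro l
      rw [hρ0, hρ1]
      exact hsy l
    have hprod : (∏ l, ev2 G (ρ (l, 0)) (ρ (l, 1)) ^ N) ≠ 0 :=
      Finset.prod_ne_zero_iff.2 fun l _ => pow_ne_zero _ (hG' l)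
    have h2 : ∀ j ∈ Finset.range (N + 1), MvPolynomial.eval ρ
        (∑ a : (Fin k → Fin (N + 1)) × (Fin k → Fin (N + 1)),
          MvPolynomial.C (c' j a) * rkPab N F G a * rkZ D c ^ j) =
        (∏ l, ev2 G (ρ (l, 0)) (ρ (l, 1)) ^ N) *
        (qev (fun α β => c' j (α, β)) s (fun l => ev2 F (s l) (y l) / ev2 G (s l) (y l)) *
          fev D c s y ^ j) := by
      intro j _
      rw [map_sum]
      unfold qev
      rw [← Fintype.sum_prod_type' (f := fun α β => c' j (α, β) *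
        ∏ l, (s l ^ (α l : ℕ) * (ev2 F (s l) (y l) / ev2 G (s l) (y l)) ^ (β l : ℕ))),
        Finset.sum_mul, Finset.mul_sum]
      refine Finset.sum_congr rfl fun a _ => ?_
      rw [map_mul, map_mul, map_pow, MvPolynomial.eval_C, rkPab_eval N F G a ρ hG', rkZ_eval]
      simp only [hρ0, hρ1]
      ring
    rw [Finset.sum_congr rfl h2, ← Finset.mul_sum] at h1
    exact (mul_eq_zero.1 h1).resolve_left hprod

end RC
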