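import Pool.Agent.Helper850.RF.Defs
import Pool.Agent.Helper850.RF.P_rel_k

set_option autoImplicit false

namespace RC
open Finset BigOperators


theorem rl_sum1 {X : Type} [Fintype X] (f : (Fin 1 → X) → ℝ) :
    ∑ J : Fin 1 → X, f J = ∑ x : X, f (fun _ => x) := by
  refine Fintype.sum_equiv (Equiv.funUnique (Fin 1) X) f (fun x => f (fun _ => x)) (fun J => ?_)
  congr 1
  funext l
  rw [Subsingleton.elim l default]
  rfl

theorem rl_fev (E : ℕ) (z : Polynomial (Polynomial ℝ)) (hz : Bdeg E z) (s y : Fin 1 → ℝ) :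
    fev E (fun J : Fin 1 → Fin ((E + 1) * (E + 1)) =>
      (z.coeff ((J 0 : ℕ) % (E + 1))).coeff ((J 0 : ℕ) / (E + 1))) s y = ev2 z (s 0) (y 0) := by
  unfold fev
  rw [rl_sum1]
  simp only [Finset.univ_unique, Fin.default_eq_zero, Finset.prod_singleton]
  have h1 : ∑ x : Fin ((E + 1) * (E + 1)), (z.coeff ((x : ℕ) % (E + 1))).coeff ((x : ℕ) / (E + 1)) *
      (s 0 ^ ((x : ℕ) / (E + 1)) * y 0 ^ ((x : ℕ) % (E + 1))) =
      ∑ p : Fin (E + 1) × Fin (E + 1), (z.coeff (p.2 : ℕ)).coeff (p.1 : ℕ) *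
      (s 0 ^ (p.1 : ℕ) * y 0 ^ (p.2 : ℕ)) :=
    finProdFinEquiv.symm.sum_comp (fun p : Fin (E + 1) × Fin (E + 1) =>
      (z.coeff (p.2 : ℕ)).coeff (p.1 : ℕ) * (s 0 ^ (p.1 : ℕ) * y 0 ^ (p.2 : ℕ)))
  rw [h1, Fintype.sum_prod_type, Finset.sum_comm]
  unfold ev2
  rw [Polynomial.eval_eq_sum_range' (n := E + 1)
    (lt_of_le_of_lt (Polynomial.natDegree_map_le) (Nat.lt_succ_of_le hz.1)), Finset.sum_range]
  refine Finset.sum_congr rfl fun b _ => ?_
  rw [Polynomial.coeff_map, Polynomial.coe_evalRingHom,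
    Polynomial.eval_eq_sum_range' (n := E + 1) (Nat.lt_succ_of_le (hz.2 b)), Finset.sum_range,
    Finset.sum_mul]
  refine Finset.sum_congr rfl fun a _ => ?_
  ring

/-- polynomial in two variables from a coefficient table -/
noncomputable def rlP (N : ℕ) (c : Fin (N + 1) → Fin (N + 1) → ℝ) : Polynomial (Polynomial ℝ) :=
  ∑ α : Fin (N + 1), ∑ β : Fin (N + 1),
    Polynomial.C (Polynomial.C (c α β) * Polynomial.X ^ (α : ℕ)) * Polynomial.X ^ (β : ℕ)

theorem rl_coeff (N : ℕ) (c : Fin (N + 1) → Fin (N + 1) → ℝ) (n : ℕ) :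
    (rlP N c).coeff n = ∑ α : Fin (N + 1), ∑ β : Fin (N + 1),
      if n = (β : ℕ) then Polynomial.C (c α β) * Polynomial.X ^ (α : ℕ) else 0 := by
  unfold rlP
  rw [Polynomial.finset_sum_coeff]
  refine Finset.sum_congr rfl fun α _ => ?_
  rw [Polynomial.finset_sum_coeff]
  refine Finset.sum_congr rfl fun β _ => ?_
  rw [Polynomial.coeff_C_mul_X_pow]

theorem rl_Bdeg (N : ℕ) (c : Fin (N + 1) → Fin (N + 1) → ℝ) : Bdeg N (rlP N c) := by
  constructor
  · unfold rlP
    refine Polynomial.natDegree_sum_le_of_forall_le _ _ fun α _ => ?_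
    refine Polynomial.natDegree_sum_le_of_forall_le _ _ fun β _ => ?_
    exact (Polynomial.natDegree_C_mul_X_pow_le _ _).trans (Nat.le_of_lt_succ β.2)
  · intro n
    rw [rl_coeff]
    refine Polynomial.natDegree_sum_le_of_forall_le _ _ fun α _ => ?_
    refine Polynomial.natDegree_sum_le_of_forall_le _ _ fun β _ => ?_
    split_ifs
    · exact (Polynomial.natDegree_C_mul_X_pow_le _ _).trans (Nat.le_of_lt_succ α.2)
    · simp

theorem rl_ne (N : ℕ) (c : Fin (N + 1) → Fin (N + 1) → ℝ) (a b : Fin (N + 1)) (h : c a b ≠ 0) :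
    rlP N c ≠ 0 := by
  intro h0
  apply h
  have h1 : ((rlP N c).coeff (b : ℕ)).coeff (a : ℕ) = c a b := by
    rw [rl_coeff, Polynomial.finset_sum_coeff]
    rw [Finset.sum_eq_single a]
    · rw [Polynomial.finset_sum_coeff, Finset.sum_eq_single b]
      · rw [if_pos rfl, Polynomial.coeff_C_mul_X_pow, if_pos rfl]
      · intro b' _ hb'
        rw [if_neg (fun hh => hb' (Fin.ext hh.symm))]
        simp
      · simp
    · intro a' _ ha'
      rw [Polynomial.finset_sum_coeff]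
      refine Finset.sum_eq_zero fun b' _ => ?_
      split_ifs
      · rw [Polynomial.coeff_C_mul_X_pow, if_neg (fun hh => ha' (Fin.ext hh.symm))]
      · simp
    · simp
  rw [← h1, h0]
  simp

theorem rl_ev2 (N : ℕ) (c : Fin (N + 1) → Fin (N + 1) → ℝ) (s t : ℝ) :
    ev2 (rlP N c) s t = ∑ α : Fin (N + 1), ∑ β : Fin (N + 1), c α β * (s ^ (α : ℕ) * t ^ (β : ℕ)) := by
  unfold ev2 rlP
  simp only [Polynomial.map_sum, Polynomial.eval_finset_sum, Polynomial.map_mul, Polynomial.map_C,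
    Polynomial.map_pow, Polynomial.map_X, Polynomial.eval_mul, Polynomial.eval_C,
    Polynomial.eval_pow, Polynomial.eval_X, Polynomial.coe_evalRingHom]
  refine Finset.sum_congr rfl fun α _ => Finset.sum_congr rfl fun β _ => ?_
  ring

theorem rl_qev (N : ℕ) (c : (Fin 1 → Fin (N + 1)) → (Fin 1 → Fin (N + 1)) → ℝ) (s t : Fin 1 → ℝ) :
    qev c s t = ev2 (rlP N (fun a b => c (fun _ => a) (fun _ => b))) (s 0) (t 0) := by
  rw [rl_ev2]
  unfold qev
  rw [rl_sum1]
  refine Finset.sum_congr rfl fun α _ => ?_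
  rw [rl_sum1]
  simp only [Finset.univ_unique, Fin.default_eq_zero, Finset.prod_singleton]

theorem rl_mono {D E : ℕ} (h : D ≤ E) {F : Polynomial (Polynomial ℝ)} (hF : Bdeg D F) : Bdeg E F :=
  ⟨hF.1.trans h, fun n => (hF.2 n).trans h⟩

theorem rel_low (D : ℕ) : ∃ N : ℕ, ∀ F G z : Polynomial (Polynomial ℝ), Bdeg D F → Bdeg D G →
    Bdeg (2 * D + 1) z → G ≠ 0 → z ≠ 0 →
      ∃ g : ℕ → Polynomial (Polynomial ℝ), g 0 ≠ 0 ∧ (∀ j, Bdeg N (g j)) ∧
        ∀ s y : ℝ, ev2 G s y ≠ 0 →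
          ∑ j ∈ Finset.range (N + 1),
            ev2 (g j) s (ev2 F s y / ev2 G s y) * ev2 z s y ^ j = 0 := by
  obtain ⟨N, hN⟩ := rel_k (2 * D + 1) 1
  refine ⟨N, ?_⟩
  intro F G z hF hG hz hG0 hz0
  set E := 2 * D + 1 with hE
  have hc : (fun J : Fin 1 → Fin ((E + 1) * (E + 1)) =>
      (z.coeff ((J 0 : ℕ) % (E + 1))).coeff ((J 0 : ℕ) / (E + 1))) ≠ 0 := by
    intro h0
    apply hz0
    ext n m
    rw [Polynomial.coeff_zero, Polynomial.coeff_zero]
    by_cases hn : n ≤ E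
    · by_cases hm : m ≤ E
      · have hlt : m * (E + 1) + n < (E + 1) * (E + 1) := by nlinarith
        have h1 := congrFun h0 (fun _ => ⟨m * (E + 1) + n, hlt⟩)
        simp only [Pi.zero_apply] at h1
        have e1 : (m * (E + 1) + n) % (E + 1) = n := by
          rw [Nat.add_comm, Nat.add_mul_mod_self_right, Nat.mod_eq_of_lt (Nat.lt_succ_of_le hn)]
        have e2 : (m * (E + 1) + n) / (E + 1) = m := by
          rw [Nat.add_comm, Nat.add_mul_div_right _ _ (Nat.succ_pos E),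
            Nat.div_eq_of_lt (Nat.lt_succ_of_le hn), Nat.zero_add]
        rwa [e1, e2] at h1
      · exact Polynomial.coeff_eq_zero_of_natDegree_lt (lt_of_le_of_lt (hz.2 n) (not_le.1 hm))
    · rw [Polynomial.coeff_eq_zero_of_natDegree_lt (lt_of_le_of_lt hz.1 (not_le.1 hn))]
      simp
  obtain ⟨g, hg0, hg⟩ := hN F G (rl_mono (by omega) hF) (rl_mono (by omega) hG) hG0 _ hc
  refine ⟨fun j => rlP N (fun a b => g j (fun _ => a) (fun _ => b)), ?_, fun j => rl_Bdeg N _, ?_⟩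
  · have h2 : ∃ α β, g 0 α β ≠ 0 := by
      by_contra hcon
      push Not at hcon
      exact hg0 (funext fun α => funext fun β => hcon α β)
    obtain ⟨α, β, hab⟩ := h2
    refine rl_ne N _ (α 0) (β 0) ?_
    have ea : (fun _ => α 0 : Fin 1 → Fin (N + 1)) = α := by
      funext l; rw [Subsingleton.elim l 0]
    have eb : (fun _ => β 0 : Fin 1 → Fin (N + 1)) = β := by
      funext l; rw [Subsingleton.elim l 0]
    rw [ea, eb]
    exact hab
  · intro s y hsy
    have h3 := hg (fun _ => s) (fun _ => y) (fun _ => hsy)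
    rw [← h3]
    refine Finset.sum_congr rfl fun j _ => ?_
    rw [rl_qev, rl_fev E z hz]

end RC
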