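import Pool.Agent.Helper850.RF.Defs

set_option autoImplicit false

namespace RC
open Finset BigOperators


private theorem j28404_one (r q : Polynomial ℝ) (y : ℝ) (hq : q.eval y ≠ 0)
    (hr0 : r.eval y = 0) (h : Polynomial.derivative r * q = r * Polynomial.derivative q) :
    r = 0 := by
  by_contra hr
  obtain ⟨u, hu, hdvd⟩ := Polynomial.exists_eq_pow_rootMultiplicity_mul_and_not_dvd r hr y
  have hm : 0 < r.rootMultiplicity y := (Polynomial.rootMultiplicity_pos hr).mpr hr0
  obtain ⟨m, hm2⟩ : ∃ m, r.rootMultiplicity y = m + 1 := ⟨r.rootMultiplicity y - 1, by omega⟩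
  rw [hm2] at hu
  have huy : u.eval y ≠ 0 := fun h0 => hdvd (Polynomial.dvd_iff_isRoot.mpr h0)
  have hX : (Polynomial.X - Polynomial.C y : Polynomial ℝ) ^ m ≠ 0 :=
    pow_ne_zero m (Polynomial.X_sub_C_ne_zero y)
  have hder : Polynomial.derivative r = (Polynomial.X - Polynomial.C y) ^ m *
      (((m : Polynomial ℝ) + 1) * u + (Polynomial.X - Polynomial.C y) * Polynomial.derivative u) := by
    rw [hu, Polynomial.derivative_mul, Polynomial.derivative_pow, Polynomial.derivative_sub,
      Polynomial.derivative_X, Polynomial.derivative_C, Nat.add_sub_cancel, pow_succ]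
    have : Polynomial.C (((m + 1 : ℕ)) : ℝ) = (m : Polynomial ℝ) + 1 := by
      rw [Polynomial.C_eq_natCast]; push_cast; rfl
    rw [this]
    ring
  have h2 : (Polynomial.X - Polynomial.C y : Polynomial ℝ) ^ m *
      ((((m : Polynomial ℝ) + 1) * u + (Polynomial.X - Polynomial.C y) * Polynomial.derivative u) * q) =
      (Polynomial.X - Polynomial.C y) ^ m *
        ((Polynomial.X - Polynomial.C y) * u * Polynomial.derivative q) := by
    have h3 := h
    rw [hder] at h3
    rw [← mul_assoc, h3]
    conv_lhs => rw [hu]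
    rw [pow_succ]
    ring
  have h4 := mul_left_cancel₀ hX h2
  have h5 := congrArg (Polynomial.eval y) h4
  simp only [Polynomial.eval_mul, Polynomial.eval_add, Polynomial.eval_sub, Polynomial.eval_X,
    Polynomial.eval_C, sub_self, zero_mul, Polynomial.eval_natCast, Polynomial.eval_one,
    add_zero] at h5
  have h6 : ((m : ℝ) + 1) * Polynomial.eval y u * Polynomial.eval y q ≠ 0 :=
    mul_ne_zero (mul_ne_zero (by positivity) huy) hq
  exact h6 h5

theorem wr_zero (D : ℕ) (F G : Polynomial (Polynomial ℝ)) (hF : Bdeg D F) (hG : Bdeg D G)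
    (hG0 : G ≠ 0) (h : wr F G = 0) :
    ∃ g : Polynomial (Polynomial ℝ), g ≠ 0 ∧ Bdeg (D + 1) g ∧
      ∀ s y : ℝ, ev2 G s y ≠ 0 → ev2 g s (ev2 F s y / ev2 G s y) = 0 := by
  obtain ⟨b, hb⟩ : ∃ b, G.coeff b ≠ 0 := by
    by_contra hcon
    push Not at hcon
    exact hG0 (Polynomial.ext fun n => by rw [hcon n, Polynomial.coeff_zero])
  have hcoef : ∀ n, (Polynomial.C (G.coeff b) * Polynomial.X - Polynomial.C (F.coeff b) :
      Polynomial (Polynomial ℝ)).coeff n =
      (if n = 1 then G.coeff b else 0) - (if n = 0 then F.coeff b else 0) := by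
    intro n
    rw [Polynomial.coeff_sub, Polynomial.coeff_C_mul, Polynomial.coeff_X, Polynomial.coeff_C]
    congr 1
    by_cases h1 : n = 1
    · rw [if_pos h1, if_pos h1.symm, mul_one]
    · rw [if_neg h1, if_neg (Ne.symm h1), mul_zero]
  refine ⟨Polynomial.C (G.coeff b) * Polynomial.X - Polynomial.C (F.coeff b), ?_, ⟨?_, ?_⟩, ?_⟩
  · intro h0
    have h1 := hcoef 1
    rw [h0, Polynomial.coeff_zero, if_pos rfl, if_neg one_ne_zero, sub_zero] at h1
    exact hb h1.symm
  · rw [Polynomial.natDegree_le_iff_coeff_eq_zero]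
    intro n hn
    rw [hcoef, if_neg (by omega), if_neg (by omega), sub_zero]
  · intro n
    rw [hcoef]
    refine (Polynomial.natDegree_sub_le _ _).trans (max_le ?_ ?_)
    · split_ifs
      · exact (hG.2 b).trans (Nat.le_succ D)
      · rw [Polynomial.natDegree_zero]; exact Nat.zero_le _
    · split_ifs
      · exact (hF.2 b).trans (Nat.le_succ D)
      · rw [Polynomial.natDegree_zero]; exact Nat.zero_le _
  · intro s y hy
    obtain ⟨p, hp⟩ : ∃ p, p = F.map (Polynomial.evalRingHom s) := ⟨_, rfl⟩
    obtain ⟨q, hq⟩ : ∃ q, q = G.map (Polynomial.evalRingHom s) := ⟨_, rfl⟩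
    have hpe : ev2 F s y = p.eval y := by rw [hp]; rfl
    have hqe : ev2 G s y = q.eval y := by rw [hq]; rfl
    rw [hqe] at hy
    have hpq : Polynomial.derivative p * q = p * Polynomial.derivative q := by
      have h1 := congrArg (Polynomial.map (Polynomial.evalRingHom s)) h
      unfold wr at h1
      rw [Polynomial.map_sub, Polynomial.map_mul, Polynomial.map_mul, Polynomial.map_zero,
        ← Polynomial.derivative_map, ← Polynomial.derivative_map, ← hp, ← hq] at h1
      exact sub_eq_zero.mp h1
    obtain ⟨c, hc⟩ : ∃ c, c = ev2 F s y / ev2 G s y := ⟨_, rfl⟩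
    have hcy : p.eval y = c * q.eval y := by
      rw [hc, hpe, hqe, div_mul_cancel₀ _ hy]
    have hr : p - Polynomial.C c * q = 0 := by
      refine j28404_one _ q y hy ?_ ?_
      · rw [Polynomial.eval_sub, Polynomial.eval_mul, Polynomial.eval_C, hcy, sub_self]
      · rw [Polynomial.derivative_sub, Polynomial.derivative_C_mul, sub_mul, sub_mul, hpq]
        ring
    have hcb : (F.coeff b).eval s = c * (G.coeff b).eval s := by
      have h1 : p.coeff b = (Polynomial.C c * q).coeff b := by rw [sub_eq_zero.mp hr]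
      rw [Polynomial.coeff_C_mul, hp, hq, Polynomial.coeff_map, Polynomial.coeff_map] at h1
      exact h1
    rw [← hc]
    unfold ev2
    rw [Polynomial.map_sub, Polynomial.map_mul, Polynomial.map_C, Polynomial.map_C,
      Polynomial.map_X, Polynomial.eval_sub, Polynomial.eval_mul, Polynomial.eval_C,
      Polynomial.eval_C, Polynomial.eval_X]
    show (G.coeff b).eval s * c - (F.coeff b).eval s = 0
    rw [hcb]
    ring

end RC
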