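import Pool.Agent.Helper850.RF.Defs
import Pool.Agent.Helper850.RF.P_rel_low
import Pool.Agent.Helper850.RF.P_wr_zero

set_option autoImplicit false

namespace RC
open Finset BigOperators


theorem good_bd_mono {a b : ℕ} {F : Polynomial (Polynomial ℝ)} (h : Bdeg a F) (hab : a ≤ b) :
    Bdeg b F := ⟨h.1.trans hab, fun n => (h.2 n).trans hab⟩

theorem good_bd_mul {a b : ℕ} {F G : Polynomial (Polynomial ℝ)} (hF : Bdeg a F) (hG : Bdeg b G) :
    Bdeg (a + b) (F * G) := by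
  refine ⟨Polynomial.natDegree_mul_le.trans (add_le_add hF.1 hG.1), fun n => ?_⟩
  rw [Polynomial.coeff_mul]
  refine Polynomial.natDegree_sum_le_of_forall_le _ _ (fun x _ => ?_)
  exact Polynomial.natDegree_mul_le.trans (add_le_add (hF.2 _) (hG.2 _))

theorem good_bd_der {a : ℕ} {F : Polynomial (Polynomial ℝ)} (hF : Bdeg a F) :
    Bdeg a (Polynomial.derivative F) := by
  refine ⟨(Polynomial.natDegree_derivative_le F).trans (by have := hF.1; omega), fun n => ?_⟩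
  rw [Polynomial.coeff_derivative]
  refine Polynomial.natDegree_mul_le.trans ?_
  have h1 : ((n : Polynomial ℝ) + 1).natDegree = 0 := by
    have h2 := Polynomial.natDegree_natCast (R := ℝ) (n + 1)
    push_cast at h2
    exact h2
  rw [h1, add_zero]
  exact hF.2 _

theorem good_bd_sub {a : ℕ} {F G : Polynomial (Polynomial ℝ)} (hF : Bdeg a F) (hG : Bdeg a G) :
    Bdeg a (F - G) := by
  refine ⟨(Polynomial.natDegree_sub_le _ _).trans (max_le hF.1 hG.1), fun n => ?_⟩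
  rw [Polynomial.coeff_sub]
  exact (Polynomial.natDegree_sub_le _ _).trans (max_le (hF.2 n) (hG.2 n))

theorem good_bd_X {a : ℕ} (ha : 1 ≤ a) : Bdeg a (Polynomial.X : Polynomial (Polynomial ℝ)) := by
  refine ⟨Polynomial.natDegree_X_le.trans ha, fun n => ?_⟩
  rw [Polynomial.coeff_X]
  split_ifs <;> simp

theorem good_bd_wr {D : ℕ} {F G : Polynomial (Polynomial ℝ)} (hF : Bdeg D F) (hG : Bdeg D G) :
    Bdeg (2 * D + 1) (wr F G) := by
  unfold wr
  refine good_bd_mono (b := 2 * D + 1) (good_bd_sub (good_bd_mul (good_bd_der hF) hG)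
    (good_bd_mul hF (good_bd_der hG))) (by omega)

theorem good_ev2_mul (F G : Polynomial (Polynomial ℝ)) (s y : ℝ) :
    ev2 (F * G) s y = ev2 F s y * ev2 G s y := by
  unfold ev2
  rw [Polynomial.map_mul, Polynomial.eval_mul]

theorem good_ev2_X (s y : ℝ) : ev2 Polynomial.X s y = y := by
  unfold ev2
  rw [Polynomial.map_X, Polynomial.eval_X]

theorem good_ev2_zero (s y : ℝ) : ev2 0 s y = 0 := by
  unfold ev2
  rw [Polynomial.map_zero, Polynomial.eval_zero]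

theorem good_ev2_cont (F : Polynomial (Polynomial ℝ)) :
    Continuous (fun p : ℝ × ℝ => ev2 F p.1 p.2) := by
  have h : (fun p : ℝ × ℝ => ev2 F p.1 p.2) = fun p : ℝ × ℝ =>
      ∑ i ∈ Finset.range (F.natDegree + 1), (F.coeff i).eval p.1 * p.2 ^ i := by
    funext p
    unfold ev2
    rw [Polynomial.eval_map, Polynomial.eval₂_eq_sum_range]
    rfl
  rw [h]
  refine continuous_finsetSum _ (fun i _ => ?_)
  exact ((F.coeff i).continuous.comp continuous_fst).mul (continuous_snd.pow i)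

theorem good_lower (Kc : Set (ℝ × ℝ)) (hK : IsCompact Kc) (F : Polynomial (Polynomial ℝ))
    (h : ∀ p ∈ Kc, ev2 F p.1 p.2 ≠ 0) : ∃ η : ℝ, 0 < η ∧ ∀ p ∈ Kc, η ≤ |ev2 F p.1 p.2| := by
  have h1 : ContinuousOn (fun p : ℝ × ℝ => (ev2 F p.1 p.2)⁻¹) Kc :=
    (good_ev2_cont F).continuousOn.inv₀ h
  obtain ⟨C, hC⟩ := hK.exists_bound_of_continuousOn h1
  refine ⟨1 / (|C| + 1), by positivity, fun p hp => ?_⟩
  have h2 := hC p hp
  have h3 : 0 < |ev2 F p.1 p.2| := abs_pos.2 (h p hp)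
  rw [norm_inv, Real.norm_eq_abs] at h2
  rw [div_le_iff₀ (by positivity)]
  have h4 : 1 = |ev2 F p.1 p.2| * |ev2 F p.1 p.2|⁻¹ := (mul_inv_cancel₀ h3.ne').symm
  calc (1 : ℝ) = |ev2 F p.1 p.2| * |ev2 F p.1 p.2|⁻¹ := h4
    _ ≤ |ev2 F p.1 p.2| * (|C| + 1) :=
      mul_le_mul_of_nonneg_left (by linarith [le_abs_self C]) h3.le

theorem good_upper (Kc : Set (ℝ × ℝ)) (hK : IsCompact Kc) (g : ℕ → Polynomial (Polynomial ℝ))
    (n : ℕ) : ∃ M : ℝ, 0 ≤ M ∧ ∀ p ∈ Kc, ∀ j ≤ n, |ev2 (g j) p.1 p.2| ≤ M := by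
  have h1 : Continuous (fun p : ℝ × ℝ => ∑ j ∈ Finset.range (n + 1), |ev2 (g j) p.1 p.2|) :=
    continuous_finsetSum _ (fun j _ => (good_ev2_cont (g j)).abs)
  obtain ⟨C, hC⟩ := hK.exists_bound_of_continuousOn h1.continuousOn
  refine ⟨|C|, abs_nonneg _, fun p hp j hj => ?_⟩
  have h2 := hC p hp
  rw [Real.norm_eq_abs] at h2
  have h3 : |ev2 (g j) p.1 p.2| ≤ ∑ j ∈ Finset.range (n + 1), |ev2 (g j) p.1 p.2| :=
    Finset.single_le_sum (f := fun j => |ev2 (g j) p.1 p.2|) (fun _ _ => abs_nonneg _)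
      (Finset.mem_range.2 (by omega))
  exact h3.trans ((le_abs_self _).trans (h2.trans (le_abs_self C)))

theorem good_root (c : ℕ → ℝ) (e : ℕ) (η M y : ℝ) (hη : 0 < η) (hM : 0 ≤ M) (he : η ≤ |c e|)
    (hc : ∀ j < e, |c j| ≤ M) (hs : ∑ j ∈ Finset.range (e + 1), c j * y ^ j = 0) :
    |y| ≤ 1 + e * M / η := by
  by_contra hcon
  rw [not_le] at hcon
  have hpos : 0 ≤ e * M / η := by positivity
  have hy1 : 1 ≤ |y| := by linarith
  rw [Finset.sum_range_succ] at hs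
  rcases e with _ | k
  · simp only [Finset.range_zero, Finset.sum_empty, pow_zero, mul_one, zero_add] at hs
    rw [hs, abs_zero] at he
    linarith
  · have h1 : c (k + 1) * y ^ (k + 1) = -∑ j ∈ Finset.range (k + 1), c j * y ^ j := by linarith
    have h2 : |c (k + 1)| * |y| ^ (k + 1) ≤ ((k : ℝ) + 1) * M * |y| ^ k := by
      calc |c (k + 1)| * |y| ^ (k + 1) = |c (k + 1) * y ^ (k + 1)| := by rw [abs_mul, abs_pow]
        _ = |∑ j ∈ Finset.range (k + 1), c j * y ^ j| := by rw [h1, abs_neg]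
        _ ≤ ∑ j ∈ Finset.range (k + 1), |c j * y ^ j| := Finset.abs_sum_le_sum_abs _ _
        _ ≤ ∑ j ∈ Finset.range (k + 1), M * |y| ^ k := by
          refine Finset.sum_le_sum (fun j hj => ?_)
          rw [Finset.mem_range] at hj
          rw [abs_mul, abs_pow]
          exact mul_le_mul (hc j hj) (pow_le_pow_right₀ hy1 (by omega)) (by positivity) hM
        _ = ((k : ℝ) + 1) * M * |y| ^ k := by
          rw [Finset.sum_const, Finset.card_range, nsmul_eq_mul]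
          push_cast
          ring
    have hyk : 0 < |y| ^ k := by positivity
    have h3 : η * |y| ≤ ((k : ℝ) + 1) * M := by
      have h4 : η * |y| * |y| ^ k ≤ ((k : ℝ) + 1) * M * |y| ^ k := by
        calc η * |y| * |y| ^ k = η * |y| ^ (k + 1) := by ring
          _ ≤ |c (k + 1)| * |y| ^ (k + 1) := mul_le_mul_of_nonneg_right he (by positivity)
          _ ≤ _ := h2
      exact le_of_mul_le_mul_right h4 hyk
    have h5 : |y| ≤ ((k + 1 : ℕ) : ℝ) * M / η := by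
      rw [le_div_iff₀ hη]
      push_cast
      linarith
    linarith

theorem good_low (c : ℕ → ℝ) (n : ℕ) (η M y : ℝ) (hη : 0 < η) (hM : 0 ≤ M) (he : η ≤ |c 0|)
    (hc : ∀ j ≤ n, |c j| ≤ M) (hs : ∑ j ∈ Finset.range (n + 1), c j * y ^ j = 0) :
    min 1 (η / (n * M + 1)) ≤ |y| := by
  rcases le_total 1 |y| with h1 | h1
  · exact (min_le_left _ _).trans h1
  · refine (min_le_right _ _).trans ?_
    rw [Finset.sum_range_succ'] at hs
    have h2 : c 0 = -∑ j ∈ Finset.range n, c (j + 1) * y ^ (j + 1) := by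
      rw [pow_zero, mul_one] at hs
      linarith
    have h3 : |c 0| ≤ n * M * |y| := by
      calc |c 0| = |∑ j ∈ Finset.range n, c (j + 1) * y ^ (j + 1)| := by rw [h2, abs_neg]
        _ ≤ ∑ j ∈ Finset.range n, |c (j + 1) * y ^ (j + 1)| := Finset.abs_sum_le_sum_abs _ _
        _ ≤ ∑ j ∈ Finset.range n, M * |y| := by
          refine Finset.sum_le_sum (fun j hj => ?_)
          rw [Finset.mem_range] at hj
          rw [abs_mul, abs_pow]
          refine mul_le_mul (hc (j + 1) (by omega)) ?_ (by positivity) hM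
          calc |y| ^ (j + 1) = |y| ^ j * |y| := pow_succ _ _
            _ ≤ 1 * |y| := mul_le_mul_of_nonneg_right (pow_le_one₀ (abs_nonneg y) h1)
              (abs_nonneg y)
            _ = |y| := one_mul _
        _ = n * M * |y| := by
          rw [Finset.sum_const, Finset.card_range, nsmul_eq_mul]
          ring
    rw [div_le_iff₀ (by positivity)]
    have h4 := abs_nonneg y
    linarith

theorem good (D : ℕ) : ∃ N : ℕ, ∀ F G : Polynomial (Polynomial ℝ), Bdeg D F → Bdeg D G →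
    G ≠ 0 → ∃ g : Polynomial (Polynomial ℝ), g ≠ 0 ∧ Bdeg N g ∧
      ∀ Kc : Set (ℝ × ℝ), IsCompact Kc → (∀ p ∈ Kc, ev2 g p.1 p.2 ≠ 0) →
        ∃ M η : ℝ, 0 < η ∧ ∀ p ∈ Kc, ∀ y : ℝ, ev2 G p.1 y ≠ 0 →
          ev2 F p.1 y = p.2 * ev2 G p.1 y →
          |y| ≤ M ∧ η ≤ |ev2 G p.1 y| ∧ ev2 (wr F G) p.1 y ≠ 0 := by
  classical
  obtain ⟨N1, hN1⟩ := rel_low D
  refine ⟨N1 + N1 + (N1 + D + 1), fun F G hF hG hG0 => ?_⟩
  -- relation for the outer variable
  obtain ⟨a, ha0, haB, haR⟩ := hN1 F G Polynomial.X hF hG (good_bd_X (by omega)) hG0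
    Polynomial.X_ne_zero
  obtain ⟨e, he1, he2, he3⟩ : ∃ e : ℕ, e ≤ N1 ∧ a e ≠ 0 ∧ ∀ j, e < j → j ≤ N1 → a j = 0 := by
    refine ⟨Nat.findGreatest (fun j => a j ≠ 0) N1, Nat.findGreatest_le N1,
      Nat.findGreatest_spec (P := fun j => a j ≠ 0) (Nat.zero_le N1) ha0, fun j hj hjN => ?_⟩
    by_contra hne
    exact Nat.findGreatest_is_greatest hj hjN hne
  -- relation for `G`
  obtain ⟨b, hb0, hbB, hbR⟩ := hN1 F G G hF hG (good_bd_mono hG (by omega)) hG0 hG0
  -- relation for the Wronskian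
  obtain ⟨c, hc0, hcB, hcR⟩ : ∃ c : Polynomial (Polynomial ℝ), c ≠ 0 ∧ Bdeg (N1 + D + 1) c ∧
      ∀ s y : ℝ, ev2 G s y ≠ 0 → ev2 c s (ev2 F s y / ev2 G s y) ≠ 0 →
        ev2 (wr F G) s y ≠ 0 := by
    by_cases hw : wr F G = 0
    · obtain ⟨c, hc0, hcB, hcR⟩ := wr_zero D F G hF hG hG0 hw
      exact ⟨c, hc0, good_bd_mono hcB (by omega), fun s y h1 h2 => absurd (hcR s y h1) h2⟩
    · obtain ⟨c, hc0, hcB, hcR⟩ := hN1 F G (wr F G) hF hG (good_bd_wr hF hG) hG0 hw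
      refine ⟨c 0, hc0, good_bd_mono (hcB 0) (by omega), fun s y h1 h2 h3 => h2 ?_⟩
      have h4 := hcR s y h1
      rw [h3, Finset.sum_range_succ'] at h4
      have h5 : ∑ k ∈ Finset.range N1, ev2 (c (k + 1)) s (ev2 F s y / ev2 G s y) *
          (0 : ℝ) ^ (k + 1) = 0 := by
        refine Finset.sum_eq_zero (fun k _ => ?_)
        rw [pow_succ, mul_zero, mul_zero]
      rw [h5, pow_zero, mul_one, zero_add] at h4
      exact h4
  refine ⟨a e * b 0 * c, mul_ne_zero (mul_ne_zero he2 hb0) hc0,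
    good_bd_mul (good_bd_mul (haB e) (hbB 0)) hcB, fun Kc hK hne => ?_⟩
  have hne' : ∀ p ∈ Kc, ev2 (a e) p.1 p.2 ≠ 0 ∧ ev2 (b 0) p.1 p.2 ≠ 0 ∧ ev2 c p.1 p.2 ≠ 0 := by
    intro p hp
    have h1 := hne p hp
    rw [good_ev2_mul, good_ev2_mul] at h1
    exact ⟨left_ne_zero_of_mul (left_ne_zero_of_mul h1),
      right_ne_zero_of_mul (left_ne_zero_of_mul h1), right_ne_zero_of_mul h1⟩
  obtain ⟨η1, hη1, hl1⟩ := good_lower Kc hK (a e) (fun p hp => (hne' p hp).1)
  obtain ⟨η2, hη2, hl2⟩ := good_lower Kc hK (b 0) (fun p hp => (hne' p hp).2.1)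
  obtain ⟨M1, hM1, hu1⟩ := good_upper Kc hK a N1
  obtain ⟨M2, hM2, hu2⟩ := good_upper Kc hK b N1
  refine ⟨1 + e * M1 / η1, min 1 (η2 / (N1 * M2 + 1)), lt_min one_pos (by positivity), ?_⟩
  intro p hp y hGy hFy
  have hθ : ev2 F p.1 y / ev2 G p.1 y = p.2 := by
    rw [hFy]
    exact mul_div_cancel_right₀ _ hGy
  refine ⟨?_, ?_, ?_⟩
  · have h1 := haR p.1 y hGy
    rw [hθ, good_ev2_X] at h1
    refine good_root (fun j => ev2 (a j) p.1 p.2) e η1 M1 y hη1 hM1 (hl1 p hp)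
      (fun j hj => hu1 p hp j (by omega)) ?_
    rw [← h1]
    refine Finset.sum_subset (Finset.range_subset_range.2 (by omega)) (fun j hj hj' => ?_)
    rw [Finset.mem_range] at hj hj'
    rw [he3 j (by omega) (by omega), good_ev2_zero, zero_mul]
  · have h1 := hbR p.1 y hGy
    rw [hθ] at h1
    exact good_low (fun j => ev2 (b j) p.1 p.2) N1 η2 M2 _ hη2 hM2 (hl2 p hp)
      (fun j hj => hu2 p hp j hj) h1
  · refine hcR p.1 y hGy ?_
    rw [hθ]
    exact (hne' p hp).2.2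

end RC
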