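import Pool.Agent.Helper850.RF.Defs
import Pool.Agent.Helper850.RC.P_niceU
import Pool.Agent.Helper850.RC.P_dom_sum

set_option autoImplicit false

namespace RC
open Finset BigOperators


theorem kdom_pair : ∃ C : ℕ, ∀ (k N : ℕ), ∃ a : ℕ, ∀ (Λ : ℝ), 0 < Λ →
    ∀ (n : ℕ) (A B : ℕ → ℝ) (T : Finset ℕ)
      (c : (Fin k → Fin (N + 1)) → (Fin k → Fin (N + 1)) →
        (Fin k → Fin (N + 1)) → (Fin k → Fin (N + 1)) → ℝ),
      GenAB N Λ A B T → tow C (a * (n + 1)) ≤ T.card →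
      ∃ T' ⊆ T, T'.card = n ∧ ∀ α β α' β' : Fin k → Fin (N + 1), (α ≠ α' ∨ β ≠ β') →
        (∀ x : Fin k → ℕ, StrictMono x → (∀ l, x l ∈ T') →
          Λ / 2 ≤ c α β α' β' + ∑ l, ((((α l : ℕ) : ℝ) - ((α' l : ℕ) : ℝ)) * A (x l) +
            (((β l : ℕ) : ℝ) - ((β' l : ℕ) : ℝ)) * B (x l))) ∨
        (∀ x : Fin k → ℕ, StrictMono x → (∀ l, x l ∈ T') →
          c α β α' β' + ∑ l, ((((α l : ℕ) : ℝ) - ((α' l : ℕ) : ℝ)) * A (x l) +
            (((β l : ℕ) : ℝ) - ((β' l : ℕ) : ℝ)) * B (x l)) ≤ -(Λ / 2)) := by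
  obtain ⟨C, hC⟩ := niceU
  refine ⟨C, fun k N => ?_⟩
  obtain ⟨a, ha⟩ := hC (Fintype.card (Fin (2*N+1) × Fin (2*N+1)))
    (Fintype.card ((Fin k → Fin (N+1)) × (Fin k → Fin (N+1)) × (Fin k → Fin (N+1)) × (Fin k → Fin (N+1))))
    (2*((k:ℝ)+1)) (by have : (0:ℝ) ≤ k := k.cast_nonneg; linarith)
  refine ⟨a, fun Λ hΛ n A B T c hgen hT => ?_⟩
  have hsg : ∀ p : Fin (2*N+1) × Fin (2*N+1), ∃ s : ℝ, (s = 1 ∨ s = -1) ∧
      (((p.1:ℕ) ≠ N ∨ (p.2:ℕ) ≠ N) → ∀ i ∈ T, ∀ i' ∈ T, i < i' →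
        s * ((((p.1:ℕ):ℝ) - N) * A i + (((p.2:ℕ):ℝ) - N) * B i) + Λ ≤
          s * ((((p.1:ℕ):ℝ) - N) * A i' + (((p.2:ℕ):ℝ) - N) * B i')) := by
    intro p
    by_cases hp : (p.1:ℕ) ≠ N ∨ (p.2:ℕ) ≠ N
    · have h1 := p.1.2
      have h2 := p.2.2
      have := hgen (((p.1:ℕ):ℤ) - N) (((p.2:ℕ):ℤ) - N)
        (by rw [abs_le]; constructor <;> omega) (by rw [abs_le]; constructor <;> omega) (by omega)
      rcases this with h | h
      · refine ⟨1, Or.inl rfl, fun _ i hi i' hi' hlt => ?_⟩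
        have := h i hi i' hi' hlt
        push_cast at this
        linarith
      · refine ⟨-1, Or.inr rfl, fun _ i hi i' hi' hlt => ?_⟩
        have := h i hi i' hi' hlt
        push_cast at this
        linarith
    · exact ⟨1, Or.inl rfl, fun h => absurd h hp⟩
  choose sg hsg1 hsg2 using hsg
  set e := Fintype.equivFin (Fin (2*N+1) × Fin (2*N+1)) with he
  set eq := Fintype.equivFin ((Fin k → Fin (N+1)) × (Fin k → Fin (N+1)) × (Fin k → Fin (N+1)) × (Fin k → Fin (N+1))) with heq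
  let dif : Fin (N+1) → Fin (N+1) → Fin (2*N+1) := fun x y => ⟨(x:ℕ) + (N - (y:ℕ)), by have := x.2; have := y.2; omega⟩
  have hdif : ∀ x y : Fin (N+1), (((dif x y : Fin (2*N+1)) : ℕ) : ℝ) - N = ((x:ℕ):ℝ) - ((y:ℕ):ℝ) := by
    intro x y
    have hy : (y:ℕ) ≤ N := by have := y.2; omega
    show (((x:ℕ) + (N - (y:ℕ)) : ℕ) : ℝ) - N = _
    rw [Nat.cast_add, Nat.cast_sub hy]; ring
  have hdif0 : ∀ x y : Fin (N+1), ((dif x y : Fin (2*N+1)) : ℕ) = N ↔ x = y := by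
    intro x y
    have hy : (y:ℕ) ≤ N := by have := y.2; omega
    show (x:ℕ) + (N - (y:ℕ)) = N ↔ x = y
    rw [Fin.ext_iff]; omega
  let g : Fin (Fintype.card (Fin (2*N+1) × Fin (2*N+1))) → ℕ → ℝ := fun j i =>
    if ((e.symm j).1:ℕ) ≠ N ∨ ((e.symm j).2:ℕ) ≠ N then
      sg (e.symm j) * (((((e.symm j).1:ℕ):ℝ) - N) * A i + ((((e.symm j).2:ℕ):ℝ) - N) * B i)
    else Λ * i
  let cst : (Fin (Fintype.card (Fin (2*N+1) × Fin (2*N+1))) → ℝ) →
      Fin (Fintype.card ((Fin k → Fin (N+1)) × (Fin k → Fin (N+1)) × (Fin k → Fin (N+1)) × (Fin k → Fin (N+1)))) → ℝ :=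
    fun bv j => c (eq.symm j).1 (eq.symm j).2.1 (eq.symm j).2.2.1 (eq.symm j).2.2.2 +
      ∑ l, if (eq.symm j).1 l = (eq.symm j).2.2.1 l ∧ (eq.symm j).2.1 l = (eq.symm j).2.2.2 l then 0 else
        sg (dif ((eq.symm j).1 l) ((eq.symm j).2.2.1 l), dif ((eq.symm j).2.1 l) ((eq.symm j).2.2.2 l)) *
          bv (e (dif ((eq.symm j).1 l) ((eq.symm j).2.2.1 l), dif ((eq.symm j).2.1 l) ((eq.symm j).2.2.2 l)))
  obtain ⟨T', hT'T, hT'n, bv, σ, U, hσ, hgU, hUL, hSep, hCS⟩ := ha Λ hΛ n T g cst (by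
    intro j i hi i' hi' hlt
    simp only [g]
    split_ifs with h
    · exact hsg2 _ h i hi i' hi' hlt
    · have : (i:ℝ) + 1 ≤ i' := by exact_mod_cast hlt
      nlinarith) hT
  refine ⟨T', hT'T, hT'n, fun α β α' β' hne => ?_⟩
  let ix : Fin k → Fin (2*N+1) × Fin (2*N+1) := fun l => (dif (α l) (α' l), dif (β l) (β' l))
  let τ : Fin k → ℝ := fun l => if α l = α' l ∧ β l = β' l then 0 else sg (ix l) * σ (e (ix l))
  have key : ∀ x : Fin k → ℕ, c α β α' β' + ∑ l, ((((α l : ℕ) : ℝ) - ((α' l : ℕ) : ℝ)) * A (x l) +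
            (((β l : ℕ) : ℝ) - ((β' l : ℕ) : ℝ)) * B (x l)) =
      cst bv (eq (α, β, α', β')) + ∑ l, τ l * U (e (ix l)) (x l) := by
    intro x
    simp only [cst, Equiv.symm_apply_apply]
    rw [add_assoc, ← Finset.sum_add_distrib]
    congr 1
    apply Finset.sum_congr rfl
    intro l _
    by_cases h : α l = α' l ∧ β l = β' l
    · simp only [τ]
      rw [if_pos h, if_pos h, h.1, h.2]; ring
    · simp only [τ]
      rw [if_neg h, if_neg h]
      have h1 := hgU (e (ix l)) (x l)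
      simp only [g, Equiv.symm_apply_apply] at h1
      rw [if_pos (by
        simp only [ix]
        rw [Ne, Ne, hdif0, hdif0]
        tauto)] at h1
      simp only [ix, hdif] at h1
      have h2 : sg (dif (α l) (α' l), dif (β l) (β' l)) * sg (dif (α l) (α' l), dif (β l) (β' l)) = 1 := by
        rcases hsg1 (dif (α l) (α' l), dif (β l) (β' l)) with h | h <;> rw [h] <;> norm_num
      have h3 : (((α l : ℕ) : ℝ) - ((α' l : ℕ) : ℝ)) * A (x l) +
            (((β l : ℕ) : ℝ) - ((β' l : ℕ) : ℝ)) * B (x l) =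
          sg (dif (α l) (α' l), dif (β l) (β' l)) * (sg (dif (α l) (α' l), dif (β l) (β' l)) *
            ((((α l : ℕ) : ℝ) - ((α' l : ℕ) : ℝ)) * A (x l) +
            (((β l : ℕ) : ℝ) - ((β' l : ℕ) : ℝ)) * B (x l))) := by
        rw [← mul_assoc, h2, one_mul]
      rw [h3, h1]
      simp only [ix]
      ring
  have hd := dom_sum k _ (2*((k:ℝ)+1)) Λ le_rfl hΛ U T' hUL hSep (cst bv (eq (α, β, α', β')))
    (fun gg => hCS (eq (α, β, α', β')) gg) τ (by
      intro l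
      simp only [τ]
      split_ifs with h
      · exact Or.inl rfl
      · right
        rcases hsg1 (ix l) with h1 | h1 <;> rcases hσ (e (ix l)) with h2 | h2 <;> rw [h1, h2] <;> norm_num) (by
      by_contra hcon
      push Not at hcon
      have hall : ∀ l, α l = α' l ∧ β l = β' l := by
        intro l
        by_contra h
        have := hcon l
        simp only [τ] at this
        rw [if_neg h] at this
        rcases hsg1 (ix l) with h1 | h1 <;> rcases hσ (e (ix l)) with h2 | h2 <;> rw [h1, h2] at this <;> norm_num at this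
      rcases hne with h | h
      · exact h (funext fun l => (hall l).1)
      · exact h (funext fun l => (hall l).2)) (fun l => e (ix l))
  rcases hd with hd | hd
  · left
    intro x hx hxT
    rw [key x]
    exact hd x hx hxT
  · right
    intro x hx hxT
    rw [key x]
    exact hd x hx hxT

end RC
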