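import Pool.Agent.Helper850.RF.Defs
import Pool.Agent.Helper850.RF.P_kdom_pair

set_option autoImplicit false

namespace RC
open Finset BigOperators


theorem dom_sum_h298 {ι : Type} [Fintype ι] [DecidableEq ι] (f : ι → ℝ) (p : ι) (hp : f p ≠ 0)
    (δ : ℝ) (hδ0 : 0 ≤ δ) (hδ : δ * Fintype.card ι < 1)
    (h : ∀ q, q ≠ p → |f q| ≤ δ * |f p|) : ∑ q, f q ≠ 0 := by
  intro h0
  rw [← Finset.add_sum_erase _ _ (Finset.mem_univ p)] at h0
  have hpos : 0 < |f p| := abs_pos.mpr hp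
  have h1 : |f p| ≤ ∑ q ∈ Finset.univ.erase p, |f q| := by
    have h2 : f p = -∑ q ∈ Finset.univ.erase p, f q := by linarith
    calc |f p| = |∑ q ∈ Finset.univ.erase p, f q| := by rw [h2, abs_neg]
      _ ≤ _ := Finset.abs_sum_le_sum_abs _ _
  have h3 : ∑ q ∈ Finset.univ.erase p, |f q| ≤ ∑ _q ∈ Finset.univ.erase p, δ * |f p| :=
    Finset.sum_le_sum fun q hq => h q (Finset.ne_of_mem_erase hq)
  rw [Finset.sum_const, nsmul_eq_mul] at h3
  have h4 : ((Finset.univ.erase p).card : ℝ) ≤ Fintype.card ι := by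
    exact_mod_cast Finset.card_le_card (Finset.erase_subset p Finset.univ)
  have h5 : ((Finset.univ.erase p).card : ℝ) * (δ * |f p|) ≤ Fintype.card ι * (δ * |f p|) :=
    mul_le_mul_of_nonneg_right h4 (by positivity)
  have h6 : (Fintype.card ι : ℝ) * (δ * |f p|) < |f p| := by
    have : (Fintype.card ι : ℝ) * (δ * |f p|) = (δ * Fintype.card ι) * |f p| := by ring
    rw [this]
    nlinarith
  linarith

theorem term_h298 {k N : ℕ} (c : ℝ) (hc : c ≠ 0) (α β : Fin k → Fin (N + 1)) (u v : Fin k → ℝ) :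
    |c * ∏ l, (Real.exp (u l) ^ (α l : ℕ) * Real.exp (v l) ^ (β l : ℕ))| =
      Real.exp (Real.log |c| + ∑ l, (((α l : ℕ) : ℝ) * u l + ((β l : ℕ) : ℝ) * v l)) := by
  rw [abs_mul, Real.exp_add, Real.exp_log (abs_pos.mpr hc), Real.exp_sum]
  congr 1
  rw [abs_of_pos (Finset.prod_pos fun l _ => by positivity)]
  refine Finset.prod_congr rfl fun l _ => ?_
  rw [Real.exp_add, Real.exp_nat_mul, Real.exp_nat_mul]

theorem kdom : ∃ C : ℕ, ∀ (k N : ℕ), ∃ (Λ : ℝ) (a : ℕ), 0 < Λ ∧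
    ∀ (n : ℕ) (A B : ℕ → ℝ) (T : Finset ℕ)
      (c : (Fin k → Fin (N + 1)) → (Fin k → Fin (N + 1)) → ℝ), c ≠ 0 →
      GenAB N Λ A B T → tow C (a * (n + 1)) ≤ T.card →
      ∃ T' ⊆ T, T'.card = n ∧ ∀ x x' : Fin k → ℕ, StrictMono x → StrictMono x' →
        (∀ l, x l ∈ T') → (∀ l, x' l ∈ T') → ∀ τ ∈ Set.Icc (0 : ℝ) 1,
          qev c (fun l => Real.exp ((1 - τ) * A (x l) + τ * A (x' l)))
            (fun l => Real.exp ((1 - τ) * B (x l) + τ * B (x' l))) ≠ 0 := by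
  classical
  obtain ⟨C, hC⟩ := kdom_pair
  refine ⟨C, fun k N => ?_⟩
  obtain ⟨a, ha⟩ := hC k N
  set M : ℕ := Fintype.card ((Fin k → Fin (N + 1)) × (Fin k → Fin (N + 1))) with hM
  refine ⟨2 * ((M : ℝ) + 1), a, by positivity, ?_⟩
  intro n A B T c hc hG hT
  obtain ⟨T', hT', hn, hdom⟩ := ha (2 * ((M : ℝ) + 1)) (by positivity) n A B T
    (fun α β α' β' => Real.log |c α β| - Real.log |c α' β'|) hG hT
  refine ⟨T', hT', hn, ?_⟩
  intro x x' hx hx' hxT hxT' τ hτ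
  let L : ((Fin k → Fin (N + 1)) × (Fin k → Fin (N + 1))) → (Fin k → ℕ) → ℝ := fun p y =>
    Real.log |c p.1 p.2| + ∑ l, (((p.1 l : ℕ) : ℝ) * A (y l) + ((p.2 l : ℕ) : ℝ) * B (y l))
  obtain ⟨α0, hα0⟩ := Function.ne_iff.mp hc
  obtain ⟨β0, hβ0⟩ := Function.ne_iff.mp hα0
  let Sp : Finset ((Fin k → Fin (N + 1)) × (Fin k → Fin (N + 1))) :=
    Finset.univ.filter (fun p => c p.1 p.2 ≠ 0)
  have hSp : ∀ q, q ∈ Sp ↔ c q.1 q.2 ≠ 0 := by
    intro q
    simp [Sp]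
  obtain ⟨p, hp, hmax⟩ := Finset.exists_max_image Sp (fun p => L p x)
    ⟨(α0, β0), (hSp _).mpr (by simpa using hβ0)⟩
  have hLd : ∀ p q y, L p y - L q y = Real.log |c p.1 p.2| - Real.log |c q.1 q.2| +
      ∑ l, ((((p.1 l : ℕ) : ℝ) - ((q.1 l : ℕ) : ℝ)) * A (y l) +
            (((p.2 l : ℕ) : ℝ) - ((q.2 l : ℕ) : ℝ)) * B (y l)) := by
    intro p q y
    have e : ∑ l, ((((p.1 l : ℕ) : ℝ) - ((q.1 l : ℕ) : ℝ)) * A (y l) +
            (((p.2 l : ℕ) : ℝ) - ((q.2 l : ℕ) : ℝ)) * B (y l)) =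
        ∑ l, (((p.1 l : ℕ) : ℝ) * A (y l) + ((p.2 l : ℕ) : ℝ) * B (y l)) -
        ∑ l, (((q.1 l : ℕ) : ℝ) * A (y l) + ((q.2 l : ℕ) : ℝ) * B (y l)) := by
      rw [← Finset.sum_sub_distrib]
      refine Finset.sum_congr rfl fun l _ => ?_
      ring
    rw [e]
    simp only [L]
    ring
  have hkey : ∀ q ∈ Sp, q ≠ p → ∀ y : Fin k → ℕ, StrictMono y → (∀ l, y l ∈ T') →
      (M : ℝ) + 1 ≤ L p y - L q y := by
    intro q hq hqp
    have hne : p.1 ≠ q.1 ∨ p.2 ≠ q.2 := by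
      by_contra h
      have h' : p.1 = q.1 ∧ p.2 = q.2 := by
        constructor
        · by_contra h1
          exact h (Or.inl h1)
        · by_contra h1
          exact h (Or.inr h1)
      exact hqp (Prod.ext h'.1.symm h'.2.symm)
    rcases hdom p.1 p.2 q.1 q.2 hne with h | h
    · intro y hy hyT
      have h1 := h y hy hyT
      rw [hLd p q y]
      linarith
    · exfalso
      have h1 := h x hx hxT
      have h2 := hmax q hq
      have h3 := hLd p q x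
      have h4 : (0 : ℝ) ≤ M := Nat.cast_nonneg _
      linarith
  unfold qev
  rw [← Fintype.sum_prod_type' (f := fun (α β : Fin k → Fin (N + 1)) => c α β *
    ∏ l, (Real.exp ((1 - τ) * A (x l) + τ * A (x' l)) ^ (α l : ℕ) *
      Real.exp ((1 - τ) * B (x l) + τ * B (x' l)) ^ (β l : ℕ)))]
  have hLt : ∀ q : (Fin k → Fin (N + 1)) × (Fin k → Fin (N + 1)), c q.1 q.2 ≠ 0 →
      |c q.1 q.2 * ∏ l, (Real.exp ((1 - τ) * A (x l) + τ * A (x' l)) ^ (q.1 l : ℕ) *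
        Real.exp ((1 - τ) * B (x l) + τ * B (x' l)) ^ (q.2 l : ℕ))| =
      Real.exp ((1 - τ) * L q x + τ * L q x') := by
    intro q hq
    rw [term_h298 (c q.1 q.2) hq q.1 q.2]
    congr 1
    have e : ∑ l, (((q.1 l : ℕ) : ℝ) * ((1 - τ) * A (x l) + τ * A (x' l)) +
        ((q.2 l : ℕ) : ℝ) * ((1 - τ) * B (x l) + τ * B (x' l))) =
        (1 - τ) * ∑ l, (((q.1 l : ℕ) : ℝ) * A (x l) + ((q.2 l : ℕ) : ℝ) * B (x l)) +
        τ * ∑ l, (((q.1 l : ℕ) : ℝ) * A (x' l) + ((q.2 l : ℕ) : ℝ) * B (x' l)) := by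
      rw [Finset.mul_sum, Finset.mul_sum, ← Finset.sum_add_distrib]
      refine Finset.sum_congr rfl fun l _ => ?_
      ring
    rw [e]
    simp only [L]
    ring
  have hcp : c p.1 p.2 ≠ 0 := (hSp p).mp hp
  apply dom_sum_h298 _ p _ (Real.exp (-((M : ℝ) + 1))) (Real.exp_pos _).le
  · have h1 : (M : ℝ) + 1 + 1 ≤ Real.exp ((M : ℝ) + 1) := Real.add_one_le_exp _
    have h2 : Real.exp (-((M : ℝ) + 1)) * Real.exp ((M : ℝ) + 1) = 1 := by
      rw [← Real.exp_add]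
      simp
    have h3 : 0 < Real.exp (-((M : ℝ) + 1)) := Real.exp_pos _
    calc Real.exp (-((M : ℝ) + 1)) * (Fintype.card ((Fin k → Fin (N + 1)) × (Fin k → Fin (N + 1))) : ℕ)
        < Real.exp (-((M : ℝ) + 1)) * Real.exp ((M : ℝ) + 1) := by
          apply mul_lt_mul_of_pos_left _ h3
          rw [← hM]
          linarith
      _ = 1 := h2
  · intro q hq
    by_cases hcq : c q.1 q.2 = 0
    · simp only [hcq, zero_mul, abs_zero]
      positivity
    · have e1 := hLt q hcq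
      have e2 := hLt p hcp
      have h1 := hkey q ((hSp q).mpr hcq) hq x hx hxT
      have h2 := hkey q ((hSp q).mpr hcq) hq x' hx' hxT'
      rw [e1, e2, ← Real.exp_add]
      apply Real.exp_le_exp.mpr
      have h3 : (1 - τ) * ((M : ℝ) + 1) ≤ (1 - τ) * (L p x - L q x) :=
        mul_le_mul_of_nonneg_left h1 (by linarith [hτ.2])
      have h4 : τ * ((M : ℝ) + 1) ≤ τ * (L p x' - L q x') :=
        mul_le_mul_of_nonneg_left h2 hτ.1
      nlinarith
  · intro h0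
    have e2 := hLt p hcp
    rw [h0, abs_zero] at e2
    exact absurd e2.symm (Real.exp_pos _).ne'

end RC
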