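import Pool.Agent.Helper850.RF.Defs
import Pool.Agent.Helper850.RF.P_kdom

set_option autoImplicit false

namespace RC
open Finset BigOperators


theorem kdom1_ev (N : ℕ) (g : Polynomial (Polynomial ℝ)) (hB : Bdeg N g) (s t : ℝ) :
    qev (k := 1) (N := N) (fun α β => (g.coeff (β 0 : ℕ)).coeff (α 0 : ℕ)) (fun _ => s)
      (fun _ => t) = ev2 g s t := by
  have h1 : ev2 g s t = ∑ b : Fin (N + 1), (∑ a : Fin (N + 1),
      (g.coeff (b : ℕ)).coeff (a : ℕ) * s ^ (a : ℕ)) * t ^ (b : ℕ) := by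
    unfold ev2
    have hd : (g.map (Polynomial.evalRingHom s)).natDegree < N + 1 :=
      Nat.lt_succ_of_le (Polynomial.natDegree_map_le.trans hB.1)
    rw [Polynomial.eval_eq_sum_range' hd, Finset.sum_range]
    refine Finset.sum_congr rfl fun b _ => ?_
    rw [Polynomial.coeff_map, Polynomial.coe_evalRingHom,
      Polynomial.eval_eq_sum_range' (Nat.lt_succ_of_le (hB.2 b)), Finset.sum_range]
  rw [h1]
  unfold qev
  rw [Finset.sum_comm]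
  refine Fintype.sum_equiv (Equiv.funUnique (Fin 1) (Fin (N + 1))) _ _ fun β => ?_
  rw [Finset.sum_mul]
  refine Fintype.sum_equiv (Equiv.funUnique (Fin 1) (Fin (N + 1))) _ _ fun α => ?_
  rw [Fin.prod_univ_one]
  show (g.coeff (β 0 : ℕ)).coeff (α 0 : ℕ) * (s ^ (α 0 : ℕ) * t ^ (β 0 : ℕ)) =
    (g.coeff (β 0 : ℕ)).coeff (α 0 : ℕ) * s ^ (α 0 : ℕ) * t ^ (β 0 : ℕ)
  ring

theorem kdom1 : ∃ C : ℕ, ∀ (N : ℕ), ∃ (Λ : ℝ) (a : ℕ), 0 < Λ ∧
    ∀ (n : ℕ) (A B : ℕ → ℝ) (T : Finset ℕ) (g : Polynomial (Polynomial ℝ)), g ≠ 0 → Bdeg N g →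
      GenAB N Λ A B T → tow C (a * (n + 1)) ≤ T.card →
      ∃ T' ⊆ T, T'.card = n ∧ ∀ i ∈ T', ∀ i' ∈ T', ∀ τ ∈ Set.Icc (0 : ℝ) 1,
        ev2 g (Real.exp ((1 - τ) * A i + τ * A i')) (Real.exp ((1 - τ) * B i + τ * B i')) ≠ 0 := by
  obtain ⟨C, hC⟩ := kdom
  refine ⟨C, fun N => ?_⟩
  obtain ⟨Λ, a, hΛ, h⟩ := hC 1 N
  refine ⟨Λ, a, hΛ, fun n A B T g hg hB hG hT => ?_⟩
  have hc : (fun (α β : Fin 1 → Fin (N + 1)) => (g.coeff (β 0 : ℕ)).coeff (α 0 : ℕ)) ≠ 0 := by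
    intro h0
    have h1 : g.natDegree < N + 1 := Nat.lt_succ_of_le hB.1
    have h2 : (g.coeff g.natDegree).natDegree < N + 1 := Nat.lt_succ_of_le (hB.2 _)
    have h3 := congrFun (congrFun h0 (fun _ => ⟨_, h2⟩)) (fun _ => ⟨_, h1⟩)
    have h4 : (g.coeff g.natDegree).coeff ((g.coeff g.natDegree).natDegree) = 0 := h3
    have h5 : g.leadingCoeff.leadingCoeff = 0 := h4
    rw [Polynomial.leadingCoeff_eq_zero, Polynomial.leadingCoeff_eq_zero] at h5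
    exact hg h5
  obtain ⟨T', hT', hcard, h6⟩ := h n A B T _ hc hG hT
  refine ⟨T', hT', hcard, fun i hi i' hi' τ hτ => ?_⟩
  have h7 := h6 (fun _ => i) (fun _ => i') (Subsingleton.strictMono _) (Subsingleton.strictMono _)
    (fun _ => hi) (fun _ => hi') τ hτ
  rw [← kdom1_ev N g hB]
  exact h7

end RC
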