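import Pool.Agent.Helper850.RF.Defs

set_option autoImplicit false

namespace RC
open Finset BigOperators


theorem rank_le (D : ℕ) (F G : Polynomial (Polynomial ℝ)) (hF : Bdeg D F) (hG : Bdeg D G)
    (s θ y₀ : ℝ) :
    {y : ℝ | (ev2 G s y ≠ 0 ∧ ev2 F s y = θ * ev2 G s y) ∧ y < y₀}.ncard ≤ D := by
  obtain ⟨f, hf⟩ : ∃ f : Polynomial ℝ, f = F.map (Polynomial.evalRingHom s) := ⟨_, rfl⟩
  obtain ⟨g, hg⟩ : ∃ g : Polynomial ℝ, g = G.map (Polynomial.evalRingHom s) := ⟨_, rfl⟩
  have hfd : f.natDegree ≤ D := by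
    rw [hf]
    exact Polynomial.natDegree_map_le.trans hF.1
  have hgd : g.natDegree ≤ D := by
    rw [hg]
    exact Polynomial.natDegree_map_le.trans hG.1
  have hset : {y : ℝ | (ev2 G s y ≠ 0 ∧ ev2 F s y = θ * ev2 G s y) ∧ y < y₀} =
      {y : ℝ | (g.eval y ≠ 0 ∧ f.eval y = θ * g.eval y) ∧ y < y₀} := by
    rw [hf, hg]
    rfl
  rw [hset]
  by_cases hp : f - Polynomial.C θ * g = 0
  · have h1 : ({y : ℝ | (g.eval y ≠ 0 ∧ f.eval y = θ * g.eval y) ∧ y < y₀}).ncard = 0 := by
      by_cases hg0 : g = 0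
      · have h2 : {y : ℝ | (g.eval y ≠ 0 ∧ f.eval y = θ * g.eval y) ∧ y < y₀} = ∅ := by
          ext y
          simp [hg0]
        rw [h2, Set.ncard_empty]
      · apply Set.Infinite.ncard
        have h3 : (Set.Iio y₀ \ (g.roots.toFinset : Set ℝ)).Infinite :=
          (Set.Iio_infinite y₀).diff (Finset.finite_toSet _)
        refine h3.mono ?_
        rintro y ⟨hy1, hy2⟩
        refine ⟨⟨?_, ?_⟩, hy1⟩
        · intro h4
          apply hy2
          rw [Finset.mem_coe, Multiset.mem_toFinset, Polynomial.mem_roots hg0]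
          exact h4
        · have h5 := congrArg (Polynomial.eval y) hp
          simp only [Polynomial.eval_sub, Polynomial.eval_mul, Polynomial.eval_C,
            Polynomial.eval_zero] at h5
          linarith
    rw [h1]
    exact Nat.zero_le _
  · have hsub : {y : ℝ | (g.eval y ≠ 0 ∧ f.eval y = θ * g.eval y) ∧ y < y₀} ⊆
        ((f - Polynomial.C θ * g).roots.toFinset : Set ℝ) := by
      rintro y ⟨⟨_, hy2⟩, _⟩
      rw [Finset.mem_coe, Multiset.mem_toFinset, Polynomial.mem_roots hp]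
      show Polynomial.eval y _ = 0
      simp only [Polynomial.eval_sub, Polynomial.eval_mul, Polynomial.eval_C]
      linarith
    calc ({y : ℝ | (g.eval y ≠ 0 ∧ f.eval y = θ * g.eval y) ∧ y < y₀}).ncard
        ≤ ((f - Polynomial.C θ * g).roots.toFinset : Set ℝ).ncard :=
          Set.ncard_le_ncard hsub (Finset.finite_toSet _)
      _ = (f - Polynomial.C θ * g).roots.toFinset.card := Set.ncard_coe_finset _
      _ ≤ (f - Polynomial.C θ * g).roots.card := Multiset.toFinset_card_le _
      _ ≤ (f - Polynomial.C θ * g).natDegree := Polynomial.card_roots' _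
      _ ≤ max f.natDegree (Polynomial.C θ * g).natDegree := Polynomial.natDegree_sub_le _ _
      _ ≤ D := max_le hfd ((Polynomial.natDegree_C_mul_le _ _).trans hgd)

end RC
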