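import Pool.Agent.Helper850.RF.Defs

set_option autoImplicit false

namespace RC
open Finset BigOperators


theorem track1_gen (q q' g : ℝ → ℝ → ℝ) (hq : Continuous (fun p : ℝ × ℝ => q p.1 p.2))
    (hq' : Continuous (fun p : ℝ × ℝ => q' p.1 p.2)) (hg : Continuous (fun p : ℝ × ℝ => g p.1 p.2))
    (hd : ∀ τ y, HasDerivAt (q τ) (q' τ y) y) (τ₀ y₀ : ℝ) (h0 : q τ₀ y₀ = 0)
    (h1 : 0 < q' τ₀ y₀) (hg0 : g τ₀ y₀ ≠ 0) :
    ∃ δ₀ : ℝ, 0 < δ₀ ∧ ∀ δ : ℝ, 0 < δ → δ ≤ δ₀ → ∀ᶠ τ in nhds τ₀,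
      ∃! y : ℝ, (g τ y ≠ 0 ∧ q τ y = 0) ∧ |y - y₀| < δ := by
  have hopen : IsOpen {p : ℝ × ℝ | 0 < q' p.1 p.2 ∧ g p.1 p.2 ≠ 0} :=
    (isOpen_lt continuous_const hq').inter (isOpen_ne_fun hg continuous_const)
  obtain ⟨r, hr, hball⟩ := Metric.isOpen_iff.mp hopen (τ₀, y₀) ⟨h1, hg0⟩
  have hb : ∀ τ y, |τ - τ₀| < r → |y - y₀| < r → 0 < q' τ y ∧ g τ y ≠ 0 := by
    intro τ y h2 h3
    apply hball (show ((τ, y) : ℝ × ℝ) ∈ Metric.ball (τ₀, y₀) r from ?_)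
    rw [Metric.mem_ball, Prod.dist_eq, max_lt_iff]
    exact ⟨by rw [Real.dist_eq]; exact h2, by rw [Real.dist_eq]; exact h3⟩
  refine ⟨r / 2, by linarith, ?_⟩
  intro δ hδ hδ2
  have hmono : ∀ τ, |τ - τ₀| < r → StrictMonoOn (q τ) (Set.Icc (y₀ - δ) (y₀ + δ)) := by
    intro τ hτ
    refine strictMonoOn_of_deriv_pos (convex_Icc _ _) ?_ ?_
    · exact fun y _ => (hd τ y).continuousAt.continuousWithinAt
    · intro y hy
      rw [interior_Icc] at hy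
      rw [(hd τ y).deriv]
      refine (hb τ y hτ ?_).1
      rw [abs_lt]
      constructor <;> linarith [hy.1, hy.2]
  have hm0 := hmono τ₀ (by simpa using hr)
  have ha : q τ₀ (y₀ - δ / 2) < 0 := by
    rw [← h0]
    refine hm0 ⟨by linarith, by linarith⟩ ⟨by linarith, by linarith⟩ (by linarith)
  have hc : 0 < q τ₀ (y₀ + δ / 2) := by
    rw [← h0]
    refine hm0 ⟨by linarith, by linarith⟩ ⟨by linarith, by linarith⟩ (by linarith)
  have hcont : ∀ y, Continuous (fun τ => q τ y) := fun y =>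
    hq.comp (continuous_id.prodMk continuous_const)
  have e1 : ∀ᶠ τ in nhds τ₀, q τ (y₀ - δ / 2) < 0 :=
    (hcont _).continuousAt.eventually_lt continuousAt_const ha
  have e2 : ∀ᶠ τ in nhds τ₀, 0 < q τ (y₀ + δ / 2) :=
    continuousAt_const.eventually_lt (hcont _).continuousAt hc
  have e3 : ∀ᶠ τ in nhds τ₀, |τ - τ₀| < r := by
    filter_upwards [Metric.ball_mem_nhds τ₀ hr] with τ hτ
    rwa [Metric.mem_ball, Real.dist_eq] at hτ
  filter_upwards [e1, e2, e3] with τ h2 h3 h4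
  have hivt := intermediate_value_Icc (show y₀ - δ / 2 ≤ y₀ + δ / 2 by linarith)
    (show ContinuousOn (q τ) (Set.Icc (y₀ - δ / 2) (y₀ + δ / 2)) from
      fun y _ => (hd τ y).continuousAt.continuousWithinAt)
  obtain ⟨y, hy, hy0⟩ := hivt ⟨h2.le, h3.le⟩
  have hyabs : |y - y₀| < δ := by
    rw [abs_lt]
    constructor <;> linarith [hy.1, hy.2]
  refine ⟨y, ⟨⟨(hb τ y h4 (by linarith)).2, hy0⟩, hyabs⟩, ?_⟩
  rintro z ⟨⟨_, hz0⟩, hzabs⟩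
  have hz := abs_lt.mp hzabs
  have hy' := abs_lt.mp hyabs
  exact (hmono τ h4).injOn ⟨by linarith, by linarith⟩ ⟨by linarith, by linarith⟩
    (hz0.trans hy0.symm)

theorem track1_cont (F : Polynomial (Polynomial ℝ)) :
    Continuous (fun p : ℝ × ℝ => ev2 F p.1 p.2) := by
  have h1 : (fun p : ℝ × ℝ => ev2 F p.1 p.2) = fun p : ℝ × ℝ =>
      ∑ n ∈ Finset.range (F.natDegree + 1), (F.coeff n).eval p.1 * p.2 ^ n := by
    ext p
    unfold ev2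
    rw [Polynomial.eval_map, Polynomial.eval₂_eq_sum_range]
    rfl
  rw [h1]
  fun_prop

theorem track1_deriv (F : Polynomial (Polynomial ℝ)) (s y : ℝ) :
    HasDerivAt (fun y => ev2 F s y) (ev2 (Polynomial.derivative F) s y) y := by
  unfold ev2
  rw [← Polynomial.derivative_map]
  exact Polynomial.hasDerivAt _ y

theorem track1_wr (F G : Polynomial (Polynomial ℝ)) (s y : ℝ) :
    ev2 (wr F G) s y = ev2 (Polynomial.derivative F) s y * ev2 G s y -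
      ev2 F s y * ev2 (Polynomial.derivative G) s y := by
  unfold ev2 wr
  simp

theorem track1 (F G : Polynomial (Polynomial ℝ)) (ξ θ : ℝ → ℝ) (hξ : Continuous ξ)
    (hθ : Continuous θ) (τ₀ y₀ : ℝ) (hG : ev2 G (ξ τ₀) y₀ ≠ 0)
    (hF : ev2 F (ξ τ₀) y₀ = θ τ₀ * ev2 G (ξ τ₀) y₀) (hw : ev2 (wr F G) (ξ τ₀) y₀ ≠ 0) :
    ∃ δ₀ : ℝ, 0 < δ₀ ∧ ∀ δ : ℝ, 0 < δ → δ ≤ δ₀ → ∀ᶠ τ in nhds τ₀,
      ∃! y : ℝ, (ev2 G (ξ τ) y ≠ 0 ∧ ev2 F (ξ τ) y = θ τ * ev2 G (ξ τ) y) ∧ |y - y₀| < δ := by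
  have hθ1 : Continuous (fun p : ℝ × ℝ => θ p.1) := hθ.comp continuous_fst
  have hc : ∀ H : Polynomial (Polynomial ℝ), Continuous (fun p : ℝ × ℝ => ev2 H (ξ p.1) p.2) :=
    fun H => (track1_cont H).comp ((hξ.comp continuous_fst).prodMk continuous_snd)
  have hq : Continuous (fun p : ℝ × ℝ => ev2 F (ξ p.1) p.2 - θ p.1 * ev2 G (ξ p.1) p.2) :=
    (hc F).sub (hθ1.mul (hc G))
  have hq' : Continuous (fun p : ℝ × ℝ => ev2 (Polynomial.derivative F) (ξ p.1) p.2 -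
      θ p.1 * ev2 (Polynomial.derivative G) (ξ p.1) p.2) :=
    (hc _).sub (hθ1.mul (hc _))
  have hd : ∀ τ y, HasDerivAt (fun y => ev2 F (ξ τ) y - θ τ * ev2 G (ξ τ) y)
      (ev2 (Polynomial.derivative F) (ξ τ) y - θ τ * ev2 (Polynomial.derivative G) (ξ τ) y) y :=
    fun τ y => (track1_deriv F (ξ τ) y).sub ((track1_deriv G (ξ τ) y).const_mul (θ τ))
  have h0 : ev2 F (ξ τ₀) y₀ - θ τ₀ * ev2 G (ξ τ₀) y₀ = 0 := by rw [hF]; ring
  have hne : ev2 (Polynomial.derivative F) (ξ τ₀) y₀ -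
      θ τ₀ * ev2 (Polynomial.derivative G) (ξ τ₀) y₀ ≠ 0 := by
    intro h
    apply hw
    rw [track1_wr, hF]
    linear_combination (ev2 G (ξ τ₀) y₀) * h
  rcases lt_or_gt_of_ne hne with hlt | hgt
  · obtain ⟨δ₀, h1, h2⟩ := track1_gen
      (fun τ y => -(ev2 F (ξ τ) y - θ τ * ev2 G (ξ τ) y))
      (fun τ y => -(ev2 (Polynomial.derivative F) (ξ τ) y -
        θ τ * ev2 (Polynomial.derivative G) (ξ τ) y))
      (fun τ y => ev2 G (ξ τ) y) hq.neg hq'.neg (hc G) (fun τ y => (hd τ y).neg) τ₀ y₀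
      (by simp only [h0, neg_zero]) (by simpa using hlt) hG
    refine ⟨δ₀, h1, fun δ hδ hδ2 => ?_⟩
    filter_upwards [h2 δ hδ hδ2] with τ hτ
    have e : ∀ y, (ev2 F (ξ τ) y = θ τ * ev2 G (ξ τ) y) ↔
        -(ev2 F (ξ τ) y - θ τ * ev2 G (ξ τ) y) = 0 := by
      intro y
      rw [neg_eq_zero, sub_eq_zero]
    simp only [e]
    exact hτ
  · obtain ⟨δ₀, h1, h2⟩ := track1_gen
      (fun τ y => ev2 F (ξ τ) y - θ τ * ev2 G (ξ τ) y)
      (fun τ y => ev2 (Polynomial.derivative F) (ξ τ) y -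
        θ τ * ev2 (Polynomial.derivative G) (ξ τ) y)
      (fun τ y => ev2 G (ξ τ) y) hq hq' (hc G) hd τ₀ y₀ h0 hgt hG
    refine ⟨δ₀, h1, fun δ hδ hδ2 => ?_⟩
    filter_upwards [h2 δ hδ hδ2] with τ hτ
    have e : ∀ y, (ev2 F (ξ τ) y = θ τ * ev2 G (ξ τ) y) ↔
        ev2 F (ξ τ) y - θ τ * ev2 G (ξ τ) y = 0 := by
      intro y
      rw [sub_eq_zero]
    simp only [e]
    exact hτ

end RC
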