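import Pool.Agent.Helper850.RF.Defs

set_option autoImplicit false

namespace RC
open Finset BigOperators


theorem track2_cont (F : Polynomial (Polynomial ℝ)) : Continuous fun p : ℝ × ℝ => ev2 F p.1 p.2 := by
  have e : (fun p : ℝ × ℝ => ev2 F p.1 p.2) =
      fun p : ℝ × ℝ => ∑ i ∈ Finset.range (F.natDegree + 1), (F.coeff i).eval p.1 * p.2 ^ i := by
    funext p
    unfold ev2
    rw [Polynomial.eval_map, Polynomial.eval₂_eq_sum_range]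
    rfl
  rw [e]
  refine continuous_finset_sum _ fun i _ => ?_
  exact ((F.coeff i).continuous.comp continuous_fst).mul (continuous_snd.pow i)

theorem track2 (F G : Polynomial (Polynomial ℝ)) (ξ θ : ℝ → ℝ) (hξ : Continuous ξ)
    (hθ : Continuous θ) (M η : ℝ) (hη : 0 < η)
    (h : ∀ τ ∈ Set.Icc (0 : ℝ) 1, ∀ y : ℝ, ev2 G (ξ τ) y ≠ 0 →
      ev2 F (ξ τ) y = θ τ * ev2 G (ξ τ) y → |y| ≤ M ∧ η ≤ |ev2 G (ξ τ) y|)
    (τ₀ : ℝ) (hτ₀ : τ₀ ∈ Set.Icc (0 : ℝ) 1) (δ : ℝ) (hδ : 0 < δ) :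
    ∀ᶠ τ in nhdsWithin τ₀ (Set.Icc (0 : ℝ) 1), ∀ y : ℝ, ev2 G (ξ τ) y ≠ 0 →
      ev2 F (ξ τ) y = θ τ * ev2 G (ξ τ) y →
      ∃ y₀ : ℝ, (ev2 G (ξ τ₀) y₀ ≠ 0 ∧ ev2 F (ξ τ₀) y₀ = θ τ₀ * ev2 G (ξ τ₀) y₀) ∧
        |y - y₀| < δ := by
  by_contra hcon
  rw [Filter.not_eventually] at hcon
  obtain ⟨t, ht, htp⟩ := Filter.exists_seq_forall_of_frequently (hcon.and_eventually self_mem_nhdsWithin)
  have hex : ∀ n, ∃ y : ℝ, ev2 G (ξ (t n)) y ≠ 0 ∧ ev2 F (ξ (t n)) y = θ (t n) * ev2 G (ξ (t n)) y ∧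
      ∀ y₀ : ℝ, ev2 G (ξ τ₀) y₀ ≠ 0 → ev2 F (ξ τ₀) y₀ = θ τ₀ * ev2 G (ξ τ₀) y₀ → δ ≤ |y - y₀| := by
    intro n
    have h1 := (htp n).1
    push Not at h1
    obtain ⟨y, h2, h3, h4⟩ := h1
    exact ⟨y, h2, h3, fun y₀ h5 h6 => h4 y₀ ⟨h5, h6⟩⟩
  choose y hy1 hy2 hy3 using hex
  have hb := fun n => h (t n) (htp n).2 (y n) (hy1 n) (hy2 n)
  obtain ⟨z, _, φ, hφ, hlim⟩ := (isCompact_Icc (a := -M) (b := M)).tendsto_subseq
    (x := y) (fun n => abs_le.1 (hb n).1)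
  have htt : Filter.Tendsto (fun n => t (φ n)) Filter.atTop (nhds τ₀) :=
    (tendsto_nhdsWithin_iff.1 ht).1.comp hφ.tendsto_atTop
  have hG : Filter.Tendsto (fun n => ev2 G (ξ (t (φ n))) (y (φ n))) Filter.atTop (nhds (ev2 G (ξ τ₀) z)) :=
    ((track2_cont G).tendsto (ξ τ₀, z)).comp (((hξ.tendsto τ₀).comp htt).prodMk_nhds hlim)
  have hF : Filter.Tendsto (fun n => ev2 F (ξ (t (φ n))) (y (φ n))) Filter.atTop (nhds (ev2 F (ξ τ₀) z)) :=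
    ((track2_cont F).tendsto (ξ τ₀, z)).comp (((hξ.tendsto τ₀).comp htt).prodMk_nhds hlim)
  have hGz : η ≤ |ev2 G (ξ τ₀) z| :=
    ge_of_tendsto hG.abs (Filter.Eventually.of_forall fun n => (hb (φ n)).2)
  have hGz' : ev2 G (ξ τ₀) z ≠ 0 := by
    intro h0
    rw [h0, abs_zero] at hGz
    linarith
  have hFz : ev2 F (ξ τ₀) z = θ τ₀ * ev2 G (ξ τ₀) z := by
    refine tendsto_nhds_unique hF ?_
    have h1 := ((hθ.tendsto τ₀).comp htt).mul hG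
    refine h1.congr fun n => ?_
    exact (hy2 (φ n)).symm
  have h5 : Filter.Tendsto (fun n => |y (φ n) - z|) Filter.atTop (nhds |z - z|) :=
    (hlim.sub_const z).abs
  have h6 : δ ≤ |z - z| := ge_of_tendsto h5 (Filter.Eventually.of_forall fun n => hy3 (φ n) z hGz' hFz)
  rw [sub_self, abs_zero] at h6
  linarith

end RC
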