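import Pool.Agent.Helper850.RF.Defs
import Pool.Agent.Helper850.RF.P_abs_track
import Pool.Agent.Helper850.RF.P_track1
import Pool.Agent.Helper850.RF.P_track2

set_option autoImplicit false

namespace RC
open Finset BigOperators


theorem track (F G : Polynomial (Polynomial ℝ)) (ξ θ : ℝ → ℝ) (hξ : Continuous ξ)
    (hθ : Continuous θ) (M η : ℝ) (hη : 0 < η)
    (h : ∀ τ ∈ Set.Icc (0 : ℝ) 1, ∀ y : ℝ, ev2 G (ξ τ) y ≠ 0 →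
      ev2 F (ξ τ) y = θ τ * ev2 G (ξ τ) y →
      |y| ≤ M ∧ η ≤ |ev2 G (ξ τ) y| ∧ ev2 (wr F G) (ξ τ) y ≠ 0)
    (y₀ y₁ : ℝ) (hy0 : ev2 G (ξ 0) y₀ ≠ 0 ∧ ev2 F (ξ 0) y₀ = θ 0 * ev2 G (ξ 0) y₀)
    (hy1 : ev2 G (ξ 1) y₁ ≠ 0 ∧ ev2 F (ξ 1) y₁ = θ 1 * ev2 G (ξ 1) y₁)
    (hb : {y : ℝ | (ev2 G (ξ 0) y ≠ 0 ∧ ev2 F (ξ 0) y = θ 0 * ev2 G (ξ 0) y) ∧ y < y₀}.ncard =
      {y : ℝ | (ev2 G (ξ 1) y ≠ 0 ∧ ev2 F (ξ 1) y = θ 1 * ev2 G (ξ 1) y) ∧ y < y₁}.ncard) :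
    ∃ Y : ℝ → ℝ, ContinuousOn Y (Set.Icc (0 : ℝ) 1) ∧ Y 0 = y₀ ∧ Y 1 = y₁ ∧
      ∀ τ ∈ Set.Icc (0 : ℝ) 1, ev2 G (ξ τ) (Y τ) ≠ 0 ∧
        ev2 F (ξ τ) (Y τ) = θ τ * ev2 G (ξ τ) (Y τ) := by
  apply abs_track (fun τ => {y : ℝ | ev2 G (ξ τ) y ≠ 0 ∧ ev2 F (ξ τ) y = θ τ * ev2 G (ξ τ) y})
    ?_ ?_ ?_ y₀ y₁ hy0 hy1 hb
  · intro τ hτ
    by_cases hp : F.map (Polynomial.evalRingHom (ξ τ)) -
        Polynomial.C (θ τ) * G.map (Polynomial.evalRingHom (ξ τ)) = 0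
    · apply Set.Finite.subset Set.finite_empty
      rintro y ⟨hy1', hy2'⟩
      have h3 := (h τ hτ y hy1' hy2').2.2
      apply h3
      have h4 : F.map (Polynomial.evalRingHom (ξ τ)) =
        Polynomial.C (θ τ) * G.map (Polynomial.evalRingHom (ξ τ)) := sub_eq_zero.1 hp
      unfold ev2 wr
      rw [Polynomial.map_sub, Polynomial.map_mul, Polynomial.map_mul, ← Polynomial.derivative_map,
        ← Polynomial.derivative_map, h4, Polynomial.derivative_mul, Polynomial.derivative_C]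
      simp only [Polynomial.eval_sub, Polynomial.eval_mul, Polynomial.eval_add,
        Polynomial.eval_zero, Polynomial.eval_C]
      ring
    · apply Set.Finite.subset
        ((F.map (Polynomial.evalRingHom (ξ τ)) -
          Polynomial.C (θ τ) * G.map (Polynomial.evalRingHom (ξ τ))).roots.toFinset.finite_toSet)
      rintro y ⟨hy1', hy2'⟩
      rw [Finset.mem_coe, Multiset.mem_toFinset, Polynomial.mem_roots hp, Polynomial.IsRoot.def,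
        Polynomial.eval_sub, Polynomial.eval_mul, Polynomial.eval_C]
      unfold ev2 at hy2'
      rw [hy2', sub_self]
  · intro τ₀ hτ₀ y₀' hy
    obtain ⟨δ₀, h1, h2⟩ := track1 F G ξ θ hξ hθ τ₀ y₀' hy.1 hy.2 (h τ₀ hτ₀ y₀' hy.1 hy.2).2.2
    exact ⟨δ₀, h1, fun δ hδ hδ' => (h2 δ hδ hδ').filter_mono nhdsWithin_le_nhds⟩
  · intro τ₀ hτ₀ δ hδ
    have h5 := track2 F G ξ θ hξ hθ M η hη
      (fun τ hτ y a b => ⟨(h τ hτ y a b).1, (h τ hτ y a b).2.1⟩) τ₀ hτ₀ δ hδ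
    filter_upwards [h5] with τ hτ y hy
    exact hτ y hy.1 hy.2

end RC
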