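import Pool.Agent.Helper850.RF.Defs
import Pool.Agent.Helper850.RC.P_tow_mono
import Pool.Agent.Helper850.RC.P_tow_add
import Pool.Agent.Helper850.RC.P_tow_absorb
import Pool.Agent.Helper850.RC.P_tow_le_add
import Pool.Agent.Helper850.RF.P_rel_k
import Pool.Agent.Helper850.RF.P_good
import Pool.Agent.Helper850.RF.P_track
import Pool.Agent.Helper850.RF.P_kdom
import Pool.Agent.Helper850.RF.P_kdom1
import Pool.Agent.Helper850.RF.P_path_sign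
import Pool.Agent.Helper850.RF.P_rank_le

set_option autoImplicit false

namespace RC
open Finset BigOperators


theorem genHom : ∃ C : ℕ, ∀ (D k : ℕ), ∃ (N : ℕ) (Λ : ℝ) (a : ℕ), 0 < Λ ∧
    ∀ (n : ℕ) (T : Finset ℕ) (ξ y : ℕ → ℝ) (F G : Polynomial (Polynomial ℝ))
      (c : (Fin k → Fin ((D + 1) * (D + 1))) → ℝ), Bdeg D F → Bdeg D G →
      (∀ i ∈ T, 0 < ξ i ∧ ev2 G (ξ i) (y i) ≠ 0 ∧
        0 < ev2 F (ξ i) (y i) / ev2 G (ξ i) (y i)) →
      GenAB N Λ (fun i => Real.log (ξ i))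
        (fun i => Real.log (ev2 F (ξ i) (y i) / ev2 G (ξ i) (y i))) T →
      tow C (a * (n + 1)) ≤ T.card →
      ∃ T' ⊆ T, T'.card = n ∧ SignHom (kval (mon D ξ y) c) T' := by
  obtain ⟨C1, hC1⟩ := kdom1
  obtain ⟨C2, hC2⟩ := kdom
  refine ⟨C1 + C2, fun D k => ?_⟩
  obtain ⟨N1, hN1⟩ := good D
  obtain ⟨N2, hN2⟩ := rel_k D k
  obtain ⟨Λ1, a1, hΛ1, hk1⟩ := hC1 N1
  obtain ⟨Λ2, a2, hΛ2, hk2⟩ := hC2 k N2
  obtain ⟨a', ha'⟩ := tow_absorb C2 a1 (a2 * (D + 1))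
  refine ⟨max N1 N2, max Λ1 Λ2, a' + 1, lt_max_of_lt_left hΛ1, ?_⟩
  intro n T ξ y F G c hF hG hpos hgen hcard
  have hself : ∀ C x : ℕ, x ≤ tow C x := by
    intro C x
    have := tow_le_add 0 C x
    simpa [tow] using this
  have hTn : n + 1 ≤ T.card := by
    refine le_trans ?_ hcard
    refine le_trans ?_ (hself _ _)
    nlinarith [Nat.zero_le (a' * (n + 1))]
  by_cases hc : c = 0
  · obtain ⟨T', hT', hcT'⟩ := Finset.exists_subset_card_eq (show n ≤ T.card by omega)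
    refine ⟨T', hT', hcT', 0, ?_⟩
    intro x _ _
    subst hc
    simp [kval]
  have hTne : T.Nonempty := Finset.card_pos.mp (by omega)
  obtain ⟨i0, hi0⟩ := hTne
  have hG0 : G ≠ 0 := by
    rintro rfl
    apply (hpos i0 hi0).2.1
    simp [ev2]
  obtain ⟨gg, hgg0, hggB, hgood⟩ := hN1 F G hF hG hG0
  obtain ⟨gk, hgk0, hrel⟩ := hN2 F G hF hG hG0 c hc
  set A : ℕ → ℝ := fun i => Real.log (ξ i) with hA
  set B : ℕ → ℝ := fun i => Real.log (ev2 F (ξ i) (y i) / ev2 G (ξ i) (y i)) with hB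
  have hexpA : ∀ i ∈ T, Real.exp (A i) = ξ i := fun i hi => Real.exp_log (hpos i hi).1
  have hexpB : ∀ i ∈ T, Real.exp (B i) = ev2 F (ξ i) (y i) / ev2 G (ξ i) (y i) :=
    fun i hi => Real.exp_log (hpos i hi).2.2
  have hmono : ∀ (N' : ℕ) (Λ' : ℝ) (T' : Finset ℕ), N' ≤ max N1 N2 → Λ' ≤ max Λ1 Λ2 → T' ⊆ T →
      GenAB N' Λ' A B T' := by
    intro N' Λ' T' hN' hΛ' hT' α β hα hβ hne
    have hN'' : (N' : ℤ) ≤ ((max N1 N2 : ℕ) : ℤ) := by exact_mod_cast hN'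
    rcases hgen α β (hα.trans hN'') (hβ.trans hN'') hne with h | h
    · left
      intro i hi i' hi' hii
      have := h i (hT' hi) i' (hT' hi') hii
      linarith
    · right
      intro i hi i' hi' hii
      have := h i (hT' hi) i' (hT' hi') hii
      linarith
  -- step 1
  have hs1 : tow C1 (a1 * (tow C2 (a2 * ((D + 1) * n + 1)) + 1)) ≤ T.card := by
    refine le_trans ?_ hcard
    rw [← tow_add]
    apply tow_mono
    have h1 : a2 * ((D + 1) * n + 1) ≤ a2 * (D + 1) * (n + 1) := by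
      rw [mul_assoc]
      apply Nat.mul_le_mul_left
      nlinarith [Nat.zero_le D]
    have h2 := tow_mono C2 _ _ h1
    have h3 := ha' n
    have h4 : a1 * (tow C2 (a2 * ((D + 1) * n + 1)) + 1) ≤
        a1 * (tow C2 (a2 * (D + 1) * (n + 1)) + 1) := Nat.mul_le_mul_left _ (by omega)
    have h5 : tow C2 (a' * (n + 1)) ≤ tow C2 ((a' + 1) * (n + 1)) :=
      tow_mono _ _ _ (Nat.mul_le_mul_right _ (by omega))
    exact h4.trans (h3.trans h5)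
  obtain ⟨T1, hT1, hcT1, h1⟩ := hk1 _ A B T gg hgg0 hggB
    (hmono N1 Λ1 T (le_max_left _ _) (le_max_left _ _) (Finset.Subset.refl _)) hs1
  -- step 2
  obtain ⟨T2, hT2, hcT2, h2⟩ := hk2 ((D + 1) * n) A B T1 (gk 0) hgk0
    (hmono N2 Λ2 T1 (le_max_right _ _) (le_max_right _ _) hT1) (by rw [hcT1])
  -- step 3
  obtain ⟨r, hr, hrc⟩ := Finset.exists_le_card_fiber_of_mul_le_card_of_maps_to
    (s := T2) (t := Finset.range (D + 1)) (n := n)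
    (f := fun i => {y' : ℝ | (ev2 G (ξ i) y' ≠ 0 ∧ ev2 F (ξ i) y' =
      (ev2 F (ξ i) (y i) / ev2 G (ξ i) (y i)) * ev2 G (ξ i) y') ∧ y' < y i}.ncard)
    (fun i _ => Finset.mem_range.mpr (Nat.lt_succ_of_le (rank_le D F G hF hG _ _ _)))
    ⟨0, by simp⟩ (by rw [Finset.card_range, hcT2])
  obtain ⟨T3, hT3, hcT3⟩ := Finset.exists_subset_card_eq hrc
  have hT32 : T3 ⊆ T2 := fun i hi => (Finset.mem_filter.mp (hT3 hi)).1
  have hT3r : ∀ i ∈ T3, {y' : ℝ | (ev2 G (ξ i) y' ≠ 0 ∧ ev2 F (ξ i) y' =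
      (ev2 F (ξ i) (y i) / ev2 G (ξ i) (y i)) * ev2 G (ξ i) y') ∧ y' < y i}.ncard = r :=
    fun i hi => (Finset.mem_filter.mp (hT3 hi)).2
  have hT3T : T3 ⊆ T := fun i hi => hT1 (hT2 (hT32 hi))
  refine ⟨T3, hT3T, hcT3, ?_⟩
  by_cases hex : ∃ x0 : Fin k → ℕ, StrictMono x0 ∧ ∀ l, x0 l ∈ T3
  swap
  · refine ⟨0, fun x hx hxT => absurd ⟨x, hx, hxT⟩ hex⟩
  obtain ⟨x0, hx0, hx0T⟩ := hex
  refine ⟨SignType.sign (kval (mon D ξ y) c x0), fun x hx hxT => ?_⟩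
  have hE0 : ∀ (i i' : ℕ) (Q : ℕ → ℝ), Real.exp ((1 - 0) * Q i + 0 * Q i') = Real.exp (Q i) := by
    intro i i' Q
    congr 1
    ring
  have hE1 : ∀ (i i' : ℕ) (Q : ℕ → ℝ), Real.exp ((1 - 1) * Q i + 1 * Q i') = Real.exp (Q i') := by
    intro i i' Q
    congr 1
    ring
  have hcon : ∀ (i i' : ℕ) (Q : ℕ → ℝ),
      Continuous (fun τ : ℝ => Real.exp ((1 - τ) * Q i + τ * Q i')) := by
    intro i i' Q
    fun_prop
  have key : ∀ l : Fin k, ∃ Y : ℝ → ℝ, ContinuousOn Y (Set.Icc (0 : ℝ) 1) ∧ Y 0 = y (x l) ∧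
      Y 1 = y (x0 l) ∧ ∀ τ ∈ Set.Icc (0 : ℝ) 1,
        ev2 G (Real.exp ((1 - τ) * A (x l) + τ * A (x0 l))) (Y τ) ≠ 0 ∧
        ev2 F (Real.exp ((1 - τ) * A (x l) + τ * A (x0 l))) (Y τ) =
          Real.exp ((1 - τ) * B (x l) + τ * B (x0 l)) *
            ev2 G (Real.exp ((1 - τ) * A (x l) + τ * A (x0 l))) (Y τ) := by
    intro l
    have hm := hT3T (hxT l)
    have hm0 := hT3T (hx0T l)
    obtain ⟨M, η, hη, hMη⟩ := hgood ((fun τ : ℝ =>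
      (Real.exp ((1 - τ) * A (x l) + τ * A (x0 l)),
        Real.exp ((1 - τ) * B (x l) + τ * B (x0 l)))) '' Set.Icc (0 : ℝ) 1)
      (isCompact_Icc.image ((hcon _ _ A).prodMk (hcon _ _ B)))
      (by
        rintro p ⟨τ, hτ, rfl⟩
        exact h1 _ (hT2 (hT32 (hxT l))) _ (hT2 (hT32 (hx0T l))) τ hτ)
    refine track F G _ _ (hcon (x l) (x0 l) A) (hcon (x l) (x0 l) B) M η hη ?_ _ _ ?_ ?_ ?_
    · intro τ hτ y' hy1 hy2
      exact hMη _ ⟨τ, hτ, rfl⟩ y' hy1 hy2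
    · rw [hE0, hE0, hexpA _ hm, hexpB _ hm]
      exact ⟨(hpos _ hm).2.1, by rw [div_mul_cancel₀ _ (hpos _ hm).2.1]⟩
    · rw [hE1, hE1, hexpA _ hm0, hexpB _ hm0]
      exact ⟨(hpos _ hm0).2.1, by rw [div_mul_cancel₀ _ (hpos _ hm0).2.1]⟩
    · rw [hE0, hE0, hE1, hE1, hexpA _ hm, hexpB _ hm, hexpA _ hm0, hexpB _ hm0,
        hT3r _ (hxT l), hT3r _ (hx0T l)]
  choose Y hY1 hY2 hY3 hY4 using key
  have hps := path_sign D k N2 F G c gk hrel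
    (fun l τ => Real.exp ((1 - τ) * A (x l) + τ * A (x0 l)))
    (fun l τ => Real.exp ((1 - τ) * B (x l) + τ * B (x0 l))) Y
    (fun l => hcon _ _ A) hY1 (fun l τ hτ => (hY4 l τ hτ).1) (fun l τ hτ => (hY4 l τ hτ).2)
    (fun τ hτ => h2 x x0 hx hx0 (fun l => hT32 (hxT l)) (fun l => hT32 (hx0T l)) τ hτ)
  have e0 : (fun l : Fin k => Real.exp ((1 - 0) * A (x l) + 0 * A (x0 l))) =
      fun l => ξ (x l) := by
    funext l
    rw [hE0, hexpA _ (hT3T (hxT l))]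
  have e1 : (fun l : Fin k => Real.exp ((1 - 1) * A (x l) + 1 * A (x0 l))) =
      fun l => ξ (x0 l) := by
    funext l
    rw [hE1, hexpA _ (hT3T (hx0T l))]
  have e2 : (fun l : Fin k => Y l 0) = fun l => y (x l) := funext hY2
  have e3 : (fun l : Fin k => Y l 1) = fun l => y (x0 l) := funext hY3
  rw [e0, e1, e2, e3] at hps
  exact hps

end RC
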