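import Pool.Agent.Helper850.RF.Defs

set_option autoImplicit false

namespace RC
open Finset BigOperators


theorem cr_bound (K ε : ℝ) (hK : 4 ≤ K) (hε : 0 < ε) (hε1 : ε ≤ 1) (ρ θ : Fin 4 → ℝ)
    (X : Fin 4 → ℝ) (hX : ∀ i, 3 / ε ≤ X i) (hX' : Monotone X)
    (a b c d : ℝ) (hdet : a * d - b * c ≠ 0) (hden : ∀ i, a + b * ρ i ≠ 0)
    (hθ : ∀ i, θ i = (c + d * ρ i) / (a + b * ρ i)) (hθ0 : ∀ i, 0 < θ i)
    (hgrow : ∀ i j : Fin 4, i < j → K * θ i ≤ θ j)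
    (h1 : ∀ i : Fin 4, i ≠ 3 → |ρ i| ≤ Real.exp (ε * X i))
    (h2 : ∀ i j : Fin 4, i < j → Real.exp (-(ε * X i)) ≤ |ρ i - ρ j|) :
    Real.log (θ 2 / θ 1) ≤ 5 * ε * X 2 := by
  have hdiff : ∀ i j, θ i - θ j =
      (a * d - b * c) * (ρ i - ρ j) / ((a + b * ρ i) * (a + b * ρ j)) := by
    intro i j
    have hi := hden i
    have hj := hden j
    rw [hθ i, hθ j, div_sub_div _ _ hi hj]
    congr 1
    ring
  have hid : (θ 3 - θ 0) * (θ 2 - θ 1) * ((ρ 0 - ρ 1) * (ρ 2 - ρ 3)) =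
      (θ 0 - θ 1) * (θ 2 - θ 3) * ((ρ 3 - ρ 0) * (ρ 2 - ρ 1)) := by
    have e0 := hden 0
    have e1 := hden 1
    have e2 := hden 2
    have e3 := hden 3
    rw [hdiff 3 0, hdiff 2 1, hdiff 0 1, hdiff 2 3]
    field_simp
  have hg01 := hgrow 0 1 (by decide)
  have hg12 := hgrow 1 2 (by decide)
  have hg23 := hgrow 2 3 (by decide)
  have p0 := hθ0 0
  have p1 := hθ0 1
  have p2 := hθ0 2
  have p3 := hθ0 3
  have l01 : 4 * θ 0 ≤ θ 1 := le_trans (mul_le_mul_of_nonneg_right hK p0.le) hg01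
  have l12 : 4 * θ 1 ≤ θ 2 := le_trans (mul_le_mul_of_nonneg_right hK p1.le) hg12
  have l23 : 4 * θ 2 ≤ θ 3 := le_trans (mul_le_mul_of_nonneg_right hK p2.le) hg23
  have habs := congrArg abs hid
  rw [abs_mul, abs_mul, abs_mul, abs_mul, abs_mul, abs_mul] at habs
  have a30 : |θ 3 - θ 0| = θ 3 - θ 0 := abs_of_pos (by linarith)
  have a21 : |θ 2 - θ 1| = θ 2 - θ 1 := abs_of_pos (by linarith)
  have a01 : |θ 0 - θ 1| = θ 1 - θ 0 := by rw [abs_sub_comm]; exact abs_of_pos (by linarith)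
  have a23 : |θ 2 - θ 3| = θ 3 - θ 2 := by rw [abs_sub_comm]; exact abs_of_pos (by linarith)
  rw [a30, a21, a01, a23] at habs
  -- the size
  set E : ℝ := Real.exp (ε * X 2) with hE
  have hEpos : 0 < E := Real.exp_pos _
  have hx2 : 3 ≤ ε * X 2 := by
    have := hX 2
    rw [div_le_iff₀ hε] at this
    linarith
  have hE12 : 12 ≤ E := by
    have h3 : Real.exp 3 ≤ E := Real.exp_le_exp.mpr hx2
    have h4 : Real.exp 3 = Real.exp 1 ^ 3 := by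
      rw [← Real.exp_nat_mul]; norm_num
    have h5 : (2.7 : ℝ) ≤ Real.exp 1 := le_trans (by norm_num) Real.exp_one_gt_d9.le
    have h6 : (2.7 : ℝ) ^ 3 ≤ Real.exp 1 ^ 3 := pow_le_pow_left₀ (by norm_num) h5 3
    rw [h4] at h3
    norm_num at h6
    linarith
  have x02 : X 0 ≤ X 2 := hX' (by decide)
  have x12 : X 1 ≤ X 2 := hX' (by decide)
  have r0 : |ρ 0| ≤ E := le_trans (h1 0 (by decide))
    (Real.exp_le_exp.mpr (mul_le_mul_of_nonneg_left x02 hε.le))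
  have r1 : |ρ 1| ≤ E := le_trans (h1 1 (by decide))
    (Real.exp_le_exp.mpr (mul_le_mul_of_nonneg_left x12 hε.le))
  have r2 : |ρ 2| ≤ E := h1 2 (by decide)
  have s01 : E⁻¹ ≤ |ρ 0 - ρ 1| := by
    refine le_trans ?_ (h2 0 1 (by decide))
    rw [hE, ← Real.exp_neg]
    exact Real.exp_le_exp.mpr (by nlinarith)
  have s23 : E⁻¹ ≤ |ρ 2 - ρ 3| := by
    refine le_trans ?_ (h2 2 3 (by decide))
    rw [hE, ← Real.exp_neg]
  have u21 : |ρ 2 - ρ 1| ≤ 2 * E := by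
    have := abs_sub (ρ 2) (ρ 1)
    linarith
  have u20 : |ρ 2 - ρ 0| ≤ 2 * E := by
    have := abs_sub (ρ 2) (ρ 0)
    linarith
  have u30 : |ρ 3 - ρ 0| ≤ |ρ 2 - ρ 3| + 2 * E := by
    have h := abs_sub_le (ρ 3) (ρ 2) (ρ 0)
    rw [abs_sub_comm (ρ 3) (ρ 2)] at h
    linarith
  set R : ℝ := |ρ 2 - ρ 3| with hR
  have hRE : 1 ≤ R * E := by
    have := mul_le_mul_of_nonneg_right s23 hEpos.le
    rwa [inv_mul_cancel₀ hEpos.ne'] at this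
  have hRpos : 0 < R := by
    by_contra hneg
    rw [not_lt] at hneg
    have : R * E ≤ 0 := mul_nonpos_of_nonpos_of_nonneg hneg hEpos.le
    linarith
  have hP : 1 ≤ |ρ 0 - ρ 1| * E := by
    have := mul_le_mul_of_nonneg_right s01 hEpos.le
    rwa [inv_mul_cancel₀ hEpos.ne'] at this
  have u30' : |ρ 3 - ρ 0| ≤ 3 * E ^ 2 * R := by
    have e1 : 2 * E ≤ 2 * E ^ 2 * R := by nlinarith
    have e2 : R ≤ E ^ 2 * R := by
      have : 1 ≤ E ^ 2 := by nlinarith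
      nlinarith
    linarith
  -- first step
  have key1 : (θ 2 - θ 1) * (|ρ 0 - ρ 1| * R) ≤ (θ 1 - θ 0) * (|ρ 3 - ρ 0| * |ρ 2 - ρ 1|) := by
    have q1 : 0 < θ 3 - θ 2 := by linarith
    have q2 : θ 3 - θ 2 ≤ θ 3 - θ 0 := by linarith
    have q3 : 0 ≤ (θ 2 - θ 1) * (|ρ 0 - ρ 1| * R) :=
      mul_nonneg (by linarith) (mul_nonneg (abs_nonneg _) hRpos.le)
    have q4 : (θ 3 - θ 2) * ((θ 2 - θ 1) * (|ρ 0 - ρ 1| * R)) ≤
        (θ 3 - θ 2) * ((θ 1 - θ 0) * (|ρ 3 - ρ 0| * |ρ 2 - ρ 1|)) := by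
      calc (θ 3 - θ 2) * ((θ 2 - θ 1) * (|ρ 0 - ρ 1| * R))
          ≤ (θ 3 - θ 0) * ((θ 2 - θ 1) * (|ρ 0 - ρ 1| * R)) :=
            mul_le_mul_of_nonneg_right q2 q3
        _ = (θ 3 - θ 0) * (θ 2 - θ 1) * (|ρ 0 - ρ 1| * R) := by ring
        _ = (θ 1 - θ 0) * (θ 3 - θ 2) * (|ρ 3 - ρ 0| * |ρ 2 - ρ 1|) := habs
        _ = (θ 3 - θ 2) * ((θ 1 - θ 0) * (|ρ 3 - ρ 0| * |ρ 2 - ρ 1|)) := by ring
    exact le_of_mul_le_mul_left q4 q1
  have key2 : (θ 1 - θ 0) * (|ρ 3 - ρ 0| * |ρ 2 - ρ 1|) ≤ θ 1 * (3 * E ^ 2 * R * (2 * E)) := by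
    have q1 : |ρ 3 - ρ 0| * |ρ 2 - ρ 1| ≤ 3 * E ^ 2 * R * (2 * E) :=
      mul_le_mul u30' u21 (abs_nonneg _) (by positivity)
    exact mul_le_mul (by linarith) q1 (by positivity) p1.le
  have key3 : θ 2 - θ 1 ≤ 6 * E ^ 4 * θ 1 := by
    have q0 : 0 < θ 2 - θ 1 := by linarith
    have q1 : (θ 2 - θ 1) * R ≤ (6 * E ^ 4 * θ 1) * R := by
      calc (θ 2 - θ 1) * R = (θ 2 - θ 1) * R * 1 := by ring
        _ ≤ (θ 2 - θ 1) * R * (|ρ 0 - ρ 1| * E) :=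
            mul_le_mul_of_nonneg_left hP (by positivity)
        _ = (θ 2 - θ 1) * (|ρ 0 - ρ 1| * R) * E := by ring
        _ ≤ θ 1 * (3 * E ^ 2 * R * (2 * E)) * E :=
            mul_le_mul_of_nonneg_right (le_trans key1 key2) hEpos.le
        _ = (6 * E ^ 4 * θ 1) * R := by ring
    exact le_of_mul_le_mul_right q1 hRpos
  have key4 : θ 2 ≤ E ^ 5 * θ 1 := by
    have q1 : θ 2 ≤ 12 * E ^ 4 * θ 1 := by linarith
    have q2 : 12 * E ^ 4 * θ 1 ≤ E * E ^ 4 * θ 1 := by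
      have : 0 ≤ E ^ 4 * θ 1 := by positivity
      nlinarith
    calc θ 2 ≤ 12 * E ^ 4 * θ 1 := q1
      _ ≤ E * E ^ 4 * θ 1 := q2
      _ = E ^ 5 * θ 1 := by ring
  have key5 : θ 2 / θ 1 ≤ E ^ 5 := by
    rw [div_le_iff₀ p1]
    exact key4
  calc Real.log (θ 2 / θ 1) ≤ Real.log (E ^ 5) :=
        Real.log_le_log (by positivity) key5
    _ = 5 * ε * X 2 := by
        rw [Real.log_pow, hE, Real.log_exp]
        push_cast
        ring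

end RC
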