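import Pool.Agent.Helper850.RF.Defs
import Pool.Agent.Helper850.RC.P_tow_mono
import Pool.Agent.Helper850.RC.P_tow_add
import Pool.Agent.Helper850.RC.P_tow_absorb
import Pool.Agent.Helper850.RC.P_tow_le_add
import Pool.Agent.Helper850.RC.P_ramseyP
import Pool.Agent.Helper850.RC.P_cr_true
import Pool.Agent.Helper850.RC.P_flag

set_option autoImplicit false

namespace RC
open Finset BigOperators


theorem m2flag_nd (S : Finset ℕ) (F : Fin 2 → ℕ → ℝ)
    (h : ∀ i ∈ S, ∀ i' ∈ S, i < i' → F 0 i * F 1 i' ≠ F 1 i * F 0 i') : NonDeg F S := by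
  have key : ∀ i ∈ S, ∀ i' ∈ S, i < i' → ∀ p : Fin 2 → ℝ, comb F p i = 0 → comb F p i' = 0 →
      p = 0 := by
    intro i hi i' hi' hlt p h1 h2
    unfold comb at h1 h2
    rw [Fin.sum_univ_two] at h1 h2
    have hdet : F 0 i * F 1 i' - F 1 i * F 0 i' ≠ 0 := sub_ne_zero.mpr (h i hi i' hi' hlt)
    have h0 : p 0 * (F 0 i * F 1 i' - F 1 i * F 0 i') = 0 := by
      linear_combination (F 1 i') * h1 - (F 1 i) * h2
    have h1' : p 1 * (F 0 i * F 1 i' - F 1 i * F 0 i') = 0 := by
      linear_combination (F 0 i) * h2 - (F 0 i') * h1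
    have e0 : p 0 = 0 := by
      rcases mul_eq_zero.mp h0 with h' | h'
      · exact h'
      · exact absurd h' hdet
    have e1 : p 1 = 0 := by
      rcases mul_eq_zero.mp h1' with h' | h'
      · exact h'
      · exact absurd h' hdet
    funext j
    fin_cases j
    · exact e0
    · exact e1
  intro E hE hcard p hp
  rw [Finset.card_eq_two] at hcard
  obtain ⟨x, y, hxy, rfl⟩ := hcard
  have hx : x ∈ S := hE (by simp)
  have hy : y ∈ S := hE (by simp)
  have px := hp x (by simp)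
  have py := hp y (by simp)
  rcases lt_or_gt_of_ne hxy with hlt | hlt
  · exact key x hx y hy hlt p px py
  · exact key y hy x hx hlt p py px

theorem m2flag : ∃ C : ℕ, ∀ (K : ℝ), 1 ≤ K → ∃ a : ℕ, ∀ (n : ℕ) (S : Finset ℕ)
    (F : Fin 2 → ℕ → ℝ), (∀ i ∈ S, ∀ i' ∈ S, i < i' → F 0 i * F 1 i' ≠ F 1 i * F 0 i') →
    tow C (a * (n + 1)) ≤ S.card →
    ∃ T ⊆ S, T.card = n ∧ ∃ p : Fin 2 → Fin 2 → ℝ, LinearIndependent ℝ p ∧
      (∀ r, ∀ i ∈ T, 0 < comb F (p r) i) ∧ Grow K (fun r => comb F (p r)) T := by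
  obtain ⟨C, hC⟩ := ramseyP 4
  refine ⟨C, ?_⟩
  intro K hK
  obtain ⟨a, ha⟩ := hC Unit
  obtain ⟨n0, hn0⟩ := cr_true 2 K
  refine ⟨a * (n0 + 5), ?_⟩
  intro n S F hF hS
  have hND := m2flag_nd S F hF
  have hsz : tow C (a * ((n0 + 4 * n + 4) + 1)) ≤ S.card := by
    refine le_trans (tow_mono C _ _ ?_) hS
    have : (n0 + 4 * n + 4) + 1 ≤ (n0 + 5) * (n + 1) := by nlinarith [Nat.zero_le (n0 * n), Nat.zero_le n]
    calc a * ((n0 + 4 * n + 4) + 1) ≤ a * ((n0 + 5) * (n + 1)) := Nat.mul_le_mul_left _ this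
      _ = a * (n0 + 5) * (n + 1) := by ring
  obtain ⟨T₁, hT₁S, hT₁c, hT₁⟩ := ha (n0 + 4 * n + 4) S hsz
    (fun _ w => CRge (m := 2) K F 0 (by omega) w)
  have hND1 : NonDeg F T₁ := fun E hE hc p hp => hND E (hE.trans hT₁S) hc p hp
  have hun := hT₁ ()
  have hCR : ∀ (r : ℕ) (hr : r + 3 < 2 + 2) (w : Fin (2 + 2) → ℕ), StrictMono w →
      (∀ l, w l ∈ T₁) → CRge K F r hr w := by
    intro r hr
    have hr0 : r = 0 := by omega
    subst hr0
    exact hn0 F T₁ hND1 (by omega) 0 hr hun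
  obtain ⟨M, hMT, hMc, p, hG, hli⟩ := flag 2 (by norm_num) K hK F T₁ hND1 (by omega) hCR
  have hMc' : 4 * n ≤ M.card := by omega
  classical
  obtain ⟨y, -, hy⟩ := Finset.exists_le_card_fiber_of_mul_le_card_of_maps_to
    (s := M) (t := (Finset.univ : Finset (Fin 2 → Bool)))
    (f := fun i => (fun r => decide (0 < comb F (p r) i))) (n := n)
    (fun _ _ => Finset.mem_univ _) Finset.univ_nonempty (by
      have : (Finset.univ : Finset (Fin 2 → Bool)).card = 4 := by simp
      rw [this]; exact hMc')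
  obtain ⟨T, hTsub, hTc⟩ := Finset.exists_subset_card_eq hy
  have hTM : ∀ i ∈ T, i ∈ M := fun i hi => (Finset.mem_filter.mp (hTsub hi)).1
  have hTy : ∀ i ∈ T, ∀ r, decide (0 < comb F (p r) i) = y r := fun i hi r =>
    congrFun (Finset.mem_filter.mp (hTsub hi)).2 r
  let w : Fin 2 → ℝˣ := fun r => if y r then 1 else -1
  have hcomb : ∀ r i, comb F ((w • p) r) i = (w r : ℝ) * comb F (p r) i := by
    intro r i
    unfold comb
    rw [Finset.mul_sum]
    refine Finset.sum_congr rfl fun j _ => ?_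
    have : (w • p) r j = (w r : ℝ) * p r j := by
      simp [Units.smul_def]
    rw [this]
    ring
  refine ⟨T, fun i hi => hT₁S (hMT (hTM i hi)), hTc, w • p, hli.units_smul w, ?_, ?_⟩
  · intro r i hi
    rw [hcomb]
    have h1 := hTy i hi r
    have hne := hG.1 r i (hTM i hi)
    simp only at hne
    by_cases hyr : y r = true
    · rw [hyr] at h1
      have hpos := of_decide_eq_true h1
      have hw : (w r : ℝ) = 1 := by simp [w, hyr]
      rw [hw, one_mul]
      exact hpos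
    · have hyf : y r = false := by simpa using hyr
      rw [hyf] at h1
      have hneg := of_decide_eq_false h1
      have hw : (w r : ℝ) = -1 := by simp [w, hyf]
      rw [hw]
      have : comb F (p r) i < 0 := lt_of_le_of_ne (not_lt.mp hneg) hne
      linarith
  · refine ⟨?_, ?_⟩
    · intro r i hi
      simp only
      rw [hcomb]
      exact mul_ne_zero (Units.ne_zero _) (hG.1 r i (hTM i hi))
    · intro r q hrq i hi i' hi' hii
      simp only
      rw [hcomb, hcomb, hcomb, hcomb, mul_div_mul_left _ _ (Units.ne_zero (w q)),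
        mul_div_mul_left _ _ (Units.ne_zero (w r))]
      exact hG.2 r q hrq i (hTM i hi) i' (hTM i' hi') hii

end RC
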