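import Pool.Agent.Helper850.RF.Defs
import Pool.Agent.Helper850.RC.P_tow_mono
import Pool.Agent.Helper850.RC.P_tow_add
import Pool.Agent.Helper850.RC.P_tow_absorb
import Pool.Agent.Helper850.RC.P_tow_le_add
import Pool.Agent.Helper850.RF.P_m2flag
import Pool.Agent.Helper850.RF.P_cr_bound

set_option autoImplicit false

namespace RC
open Finset BigOperators


theorem genS_aux (N : ℕ) (Λ ε K₀ K : ℝ) (hΛ : 0 < Λ) (hε : 0 < ε) (hε1 : ε ≤ 1)
    (hεN : 20 * ε * ((N : ℝ) + 1) = 1) (hK₀ : 4 * Λ + 2 ≤ K₀) (hK₀' : 3 / ε ≤ K₀)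
    (hK : 4 ≤ K) (hKΛ : Real.exp Λ ≤ K) (n : ℕ) (X F G : ℕ → ℝ) (T₁ : Finset ℕ)
    (hL : Lac K₀ X T₁) (hS : Sprd ε X F G T₁) (hcard : T₁.card = n + 2)
    (p : Fin 2 → Fin 2 → ℝ) (hp : LinearIndependent ℝ p)
    (hpos : ∀ r, ∀ i ∈ T₁, 0 < comb ![G, F] (p r) i)
    (hG : Grow K (fun r => comb ![G, F] (p r)) T₁) :
    ∃ T' ⊆ T₁, T'.card = n ∧
      (∀ i ∈ T', 0 < p 0 0 * G i + p 0 1 * F i ∧ 0 < p 1 0 * G i + p 1 1 * F i) ∧
      GenAB N Λ X (fun i => Real.log ((p 1 0 * G i + p 1 1 * F i) /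
        (p 0 0 * G i + p 0 1 * F i))) T' := by
  have hcomb : ∀ r i, comb ![G, F] (p r) i = p r 0 * G i + p r 1 * F i := by
    intro r i
    simp [comb, Fin.sum_univ_two]
  obtain ⟨θ, hθdef⟩ : ∃ θ : ℕ → ℝ, θ = fun i => (p 1 0 * G i + p 1 1 * F i) /
        (p 0 0 * G i + p 0 1 * F i) := ⟨_, rfl⟩
  have hp0 : ∀ i ∈ T₁, 0 < p 0 0 * G i + p 0 1 * F i := fun i hi => by
    rw [← hcomb]; exact hpos 0 i hi
  have hp1 : ∀ i ∈ T₁, 0 < p 1 0 * G i + p 1 1 * F i := fun i hi => by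
    rw [← hcomb]; exact hpos 1 i hi
  have hθ0 : ∀ i ∈ T₁, 0 < θ i := fun i hi => by
    rw [hθdef]; exact div_pos (hp1 i hi) (hp0 i hi)
  have hgrow : ∀ i ∈ T₁, ∀ i' ∈ T₁, i < i' → K * θ i ≤ θ i' := by
    intro i hi i' hi' hii
    have h1 := hG.2 0 1 (by decide) i hi i' hi' hii
    simp only [hcomb] at h1
    have h2 : (p 1 0 * G i' + p 1 1 * F i') / (p 1 0 * G i + p 1 1 * F i) *
        ((p 0 0 * G i + p 0 1 * F i) / (p 0 0 * G i' + p 0 1 * F i')) = θ i' / θ i := by
      rw [hθdef]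
      have a1 := (hp0 i hi).ne'
      have a2 := (hp0 i' hi').ne'
      have a3 := (hp1 i hi).ne'
      field_simp
    rw [h2, le_div_iff₀ (hθ0 i hi)] at h1
    exact h1
  have hX0 : ∀ i ∈ T₁, 0 < X i := fun i hi => by
    have := hL.1 i hi
    linarith
  have hX2 : ∀ i ∈ T₁, ∀ i' ∈ T₁, i < i' → 2 * X i ≤ X i' := by
    intro i hi i' hi' hii
    have h1 := hL.2 i hi i' hi' hii
    have h2 := hX0 i hi
    nlinarith
  have hdet : p 0 0 * p 1 1 - p 0 1 * p 1 0 ≠ 0 := by
    intro h0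
    have hpe : p = ![p 0, p 1] := by
      funext r
      fin_cases r <;> rfl
    rw [hpe, LinearIndependent.pair_iff] at hp
    have h1 := hp (p 1 1) (-(p 0 1)) (by
      funext j
      fin_cases j
      · simp; linarith
      · simp; ring)
    have h2 := hp (p 1 0) (-(p 0 0)) (by
      funext j
      fin_cases j
      · simp; ring
      · simp; linarith)
    have h3 := hp 0 1 (by
      funext j
      fin_cases j
      · simp [h2.1]
      · simp [h1.1])
    exact one_ne_zero h3.2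
  have hne : T₁.Nonempty := by
    rw [← Finset.card_pos]; omega
  have hmm : T₁.min' hne < T₁.max' hne := T₁.min'_lt_max'_of_card (by omega)
  obtain ⟨T', hT'def⟩ : ∃ T' : Finset ℕ, T' = (T₁.erase (T₁.min' hne)).erase (T₁.max' hne) :=
    ⟨_, rfl⟩
  have hT'sub : T' ⊆ T₁ := by
    rw [hT'def]
    exact (Finset.erase_subset _ _).trans (Finset.erase_subset _ _)
  have hT'card : T'.card = n := by
    rw [hT'def, Finset.card_erase_of_mem, Finset.card_erase_of_mem (T₁.min'_mem hne), hcard]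
    · rfl
    · exact Finset.mem_erase.2 ⟨hmm.ne', T₁.max'_mem hne⟩
  have hT'lt : ∀ i ∈ T', T₁.min' hne < i ∧ i < T₁.max' hne := by
    intro i hi
    rw [hT'def, Finset.mem_erase, Finset.mem_erase] at hi
    exact ⟨lt_of_le_of_ne (T₁.min'_le i hi.2.2) (Ne.symm hi.2.1),
      lt_of_le_of_ne (T₁.le_max' i hi.2.2) hi.1⟩
  -- the increments of log θ
  have hD : ∀ i ∈ T', ∀ i' ∈ T', i < i' →
      Λ ≤ Real.log (θ i') - Real.log (θ i) ∧
      Real.log (θ i') - Real.log (θ i) ≤ 5 * ε * X i' := by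
    intro i hi i' hi' hii
    have hi1 := hT'sub hi
    have hi1' := hT'sub hi'
    constructor
    · have h1 := hgrow i hi1 i' hi1' hii
      have h2 := hθ0 i hi1
      have h3 := hθ0 i' hi1'
      rw [← Real.log_div h3.ne' h2.ne', Real.le_log_iff_exp_le (div_pos h3 h2), le_div_iff₀ h2]
      nlinarith
    · have hwm : ∀ j : Fin 4, (![T₁.min' hne, i, i', T₁.max' hne] : Fin 4 → ℕ) j ∈ T₁ := by
        intro j
        fin_cases j
        · exact T₁.min'_mem hne
        · exact hi1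
        · exact hi1'
        · exact T₁.max'_mem hne
      have hws : StrictMono (![T₁.min' hne, i, i', T₁.max' hne] : Fin 4 → ℕ) := by
        rw [Fin.strictMono_iff_lt_succ]
        intro j
        fin_cases j
        · exact (hT'lt i hi).1
        · exact hii
        · exact (hT'lt i' hi').2
      obtain ⟨w, hw⟩ : ∃ w : Fin 4 → ℕ, w = ![T₁.min' hne, i, i', T₁.max' hne] := ⟨_, rfl⟩
      rw [← hw] at hwm hws
      have hw1 : w 1 = i := by rw [hw]; rfl
      have hw2 : w 2 = i' := by rw [hw]; rfl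
      have hcr := cr_bound K ε hK hε hε1 (fun j => F (w j) / G (w j)) (fun j => θ (w j))
        (fun j => X (w j)) (fun j => hK₀'.trans (hL.1 _ (hwm j)))
        (by
          intro j j' hjj
          rcases hjj.lt_or_eq with h | h
          · have h1 := hX2 _ (hwm j) _ (hwm j') (hws h)
            have h2 := hX0 _ (hwm j)
            show X (w j) ≤ X (w j')
            linarith
          · rw [h])
        (p 0 0) (p 0 1) (p 1 0) (p 1 1) hdet
        (by
          intro j h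
          have h1 := hp0 _ (hwm j)
          have h2 := (hS.1 _ (hwm j)).1
          have h3 : p 0 0 * G (w j) + p 0 1 * F (w j) =
              G (w j) * (p 0 0 + p 0 1 * (F (w j) / G (w j))) := by
            field_simp
          rw [h3, h, mul_zero] at h1
          exact lt_irrefl _ h1)
        (by
          intro j
          have h2 := (hS.1 _ (hwm j)).1
          show θ (w j) = _
          rw [hθdef]
          have h3 : p 0 0 * G (w j) + p 0 1 * F (w j) =
              G (w j) * (p 0 0 + p 0 1 * (F (w j) / G (w j))) := by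
            field_simp
          have h4 : p 1 0 * G (w j) + p 1 1 * F (w j) =
              G (w j) * (p 1 0 + p 1 1 * (F (w j) / G (w j))) := by
            field_simp
          simp only
          rw [h3, h4, mul_div_mul_left _ _ h2])
        (fun j => hθ0 _ (hwm j))
        (fun j j' hjj => hgrow _ (hwm j) _ (hwm j') (hws hjj))
        (fun j _ => (hS.1 _ (hwm j)).2)
        (fun j j' hjj => hS.2 _ (hwm j) _ (hwm j') (hws hjj))
      simp only [hw1, hw2] at hcr
      rw [Real.log_div (hθ0 i' hi1').ne' (hθ0 i hi1).ne'] at hcr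
      exact hcr
  refine ⟨T', hT'sub, hT'card, fun i hi => ⟨hp0 i (hT'sub hi), hp1 i (hT'sub hi)⟩, ?_⟩
  have hN0 : (0 : ℝ) ≤ N := Nat.cast_nonneg N
  -- the key estimate
  have hkey : ∀ i ∈ T', ∀ i' ∈ T', i < i' → ∀ α β : ℝ, 1 ≤ α → |β| ≤ N →
      Λ ≤ α * (X i' - X i) + β * (Real.log (θ i') - Real.log (θ i)) := by
    intro i hi i' hi' hii α β hα hβ
    obtain ⟨h1, h2⟩ := hD i hi i' hi' hii
    have h3 := hX2 i (hT'sub hi) i' (hT'sub hi') hii
    have h4 := hX0 i' (hT'sub hi')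
    have h5 := hL.1 i' (hT'sub hi')
    have h6 : X i' / 2 ≤ α * (X i' - X i) := by nlinarith
    have h7 : |β * (Real.log (θ i') - Real.log (θ i))| ≤ N * (5 * ε * X i') := by
      rw [abs_mul, abs_of_nonneg (by linarith : 0 ≤ Real.log (θ i') - Real.log (θ i))]
      exact mul_le_mul hβ h2 (by linarith) hN0
    have h8 : (N : ℝ) * (5 * ε * X i') ≤ X i' / 4 := by
      have h9 : (N : ℝ) * (5 * ε) ≤ 1 / 4 := by nlinarith
      nlinarith
    have h9 := (abs_le.1 h7).1
    linarith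
  intro α β hα hβ hne0
  have hαN : |(α : ℝ)| ≤ N := by exact_mod_cast hα
  have hβN : |(β : ℝ)| ≤ N := by exact_mod_cast hβ
  rcases lt_trichotomy α 0 with h | h | h
  · right
    intro i hi i' hi' hii
    have h1 : (1 : ℝ) ≤ ((-α : ℤ) : ℝ) := by exact_mod_cast (by omega : (1 : ℤ) ≤ -α)
    have h2 := hkey i hi i' hi' hii ((-α : ℤ) : ℝ) ((-β : ℤ) : ℝ) h1 (by
      push_cast; rw [abs_neg]; exact hβN)
    push_cast at h2
    have e1 : Real.log ((p 1 0 * G i + p 1 1 * F i) / (p 0 0 * G i + p 0 1 * F i)) =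
        Real.log (θ i) := by rw [hθdef]
    have e2 : Real.log ((p 1 0 * G i' + p 1 1 * F i') / (p 0 0 * G i' + p 0 1 * F i')) =
        Real.log (θ i') := by rw [hθdef]
    simp only
    rw [e1, e2]
    linarith
  · have hb : β ≠ 0 := by
      rcases hne0 with h' | h'
      · exact absurd h h'
      · exact h'
    rcases lt_or_gt_of_ne hb with hb | hb
    · right
      intro i hi i' hi' hii
      obtain ⟨h1, -⟩ := hD i hi i' hi' hii
      have h2 : (β : ℝ) ≤ -1 := by exact_mod_cast (by omega : β ≤ -1)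
      have e1 : Real.log ((p 1 0 * G i + p 1 1 * F i) / (p 0 0 * G i + p 0 1 * F i)) =
          Real.log (θ i) := by rw [hθdef]
      have e2 : Real.log ((p 1 0 * G i' + p 1 1 * F i') / (p 0 0 * G i' + p 0 1 * F i')) =
          Real.log (θ i') := by rw [hθdef]
      simp only
      rw [e1, e2, h]
      push_cast
      nlinarith
    · left
      intro i hi i' hi' hii
      obtain ⟨h1, -⟩ := hD i hi i' hi' hii
      have h2 : (1 : ℝ) ≤ β := by exact_mod_cast (by omega : 1 ≤ β)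
      have e1 : Real.log ((p 1 0 * G i + p 1 1 * F i) / (p 0 0 * G i + p 0 1 * F i)) =
          Real.log (θ i) := by rw [hθdef]
      have e2 : Real.log ((p 1 0 * G i' + p 1 1 * F i') / (p 0 0 * G i' + p 0 1 * F i')) =
          Real.log (θ i') := by rw [hθdef]
      simp only
      rw [e1, e2, h]
      push_cast
      nlinarith
  · left
    intro i hi i' hi' hii
    have h1 : (1 : ℝ) ≤ (α : ℝ) := by exact_mod_cast (by omega : (1 : ℤ) ≤ α)
    have h2 := hkey i hi i' hi' hii (α : ℝ) (β : ℝ) h1 hβN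
    have e1 : Real.log ((p 1 0 * G i + p 1 1 * F i) / (p 0 0 * G i + p 0 1 * F i)) =
        Real.log (θ i) := by rw [hθdef]
    have e2 : Real.log ((p 1 0 * G i' + p 1 1 * F i') / (p 0 0 * G i' + p 0 1 * F i')) =
        Real.log (θ i') := by rw [hθdef]
    simp only
    rw [e1, e2]
    linarith

theorem genS : ∃ C : ℕ, ∀ (N : ℕ) (Λ : ℝ), 0 < Λ → ∃ (ε K₀ : ℝ) (a : ℕ), 0 < ε ∧ ε ≤ 1 ∧
    1 ≤ K₀ ∧ ∀ (n : ℕ) (X F G : ℕ → ℝ) (T : Finset ℕ), Lac K₀ X T → Sprd ε X F G T →
      tow C (a * (n + 1)) ≤ T.card →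
      ∃ T' ⊆ T, T'.card = n ∧ ∃ p q : Fin 2 → ℝ,
        (∀ i ∈ T', 0 < p 0 * G i + p 1 * F i ∧ 0 < q 0 * G i + q 1 * F i) ∧
        GenAB N Λ X (fun i => Real.log ((q 0 * G i + q 1 * F i) / (p 0 * G i + p 1 * F i))) T' := by
  obtain ⟨C, hC⟩ := m2flag
  refine ⟨C, fun N Λ hΛ => ?_⟩
  have hN0 : (0 : ℝ) ≤ N := Nat.cast_nonneg N
  obtain ⟨a1, ha1⟩ := hC (Real.exp Λ + 4) (by have := Real.exp_pos Λ; linarith)
  refine ⟨1 / (20 * ((N : ℝ) + 1)), 4 * Λ + 60 * ((N : ℝ) + 1), 3 * a1, by positivity, ?_, ?_, ?_⟩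
  · rw [div_le_one (by positivity)]
    linarith
  · linarith
  intro n X F G T hL hS hcard
  obtain ⟨T₁, hT₁, hT₁c, p, hp, hpos, hG⟩ := ha1 (n + 2) T ![G, F] (by
      intro i hi i' hi' hii h
      have h1 := hS.2 i hi i' hi' hii
      have h2 := (hS.1 i hi).1
      have h3 := (hS.1 i' hi').1
      have h4 : F i / G i = F i' / G i' := by
        rw [div_eq_div_iff h2 h3]
        have h5 : G i * F i' = F i * G i' := h
        linarith
      rw [h4, sub_self, abs_zero] at h1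
      exact absurd h1 (not_le.2 (Real.exp_pos _)))
    (le_trans (tow_mono _ _ _ (by nlinarith)) hcard)
  have hL1 : Lac (4 * Λ + 60 * ((N : ℝ) + 1)) X T₁ :=
    ⟨fun i hi => hL.1 i (hT₁ hi), fun i hi i' hi' hii => hL.2 i (hT₁ hi) i' (hT₁ hi') hii⟩
  have hS1 : Sprd (1 / (20 * ((N : ℝ) + 1))) X F G T₁ :=
    ⟨fun i hi => hS.1 i (hT₁ hi), fun i hi i' hi' hii => hS.2 i (hT₁ hi) i' (hT₁ hi') hii⟩
  obtain ⟨T', hT', hT'c, h1, h2⟩ := genS_aux N Λ (1 / (20 * ((N : ℝ) + 1)))
    (4 * Λ + 60 * ((N : ℝ) + 1)) (Real.exp Λ + 4) hΛ (by positivity)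
    (by rw [div_le_one (by positivity)]; linarith)
    (by field_simp) (by linarith)
    (by
      have e : 3 / (1 / (20 * ((N : ℝ) + 1))) = 60 * ((N : ℝ) + 1) := by
        field_simp
        ring
      rw [e]
      linarith)
    (by have := Real.exp_pos Λ; linarith) (by linarith) n X F G T₁ hL1 hS1 hT₁c p hp hpos hG
  exact ⟨T', hT'.trans hT₁, hT'c, p 0, p 1, h1, h2⟩

end RC
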