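import Pool.Agent.Helper850.RF.Defs

set_option autoImplicit false

namespace RC
open Finset BigOperators


theorem flag_insert (t : ℕ) (δ S : ℝ) (hδ : 0 < δ) (X : ℕ → ℝ) (G : Fin t → ℕ → ℝ)
    (F : ℕ → ℝ) (T : Finset ℕ) (hX : ∀ i ∈ T, 0 < X i) (hG : Flagd δ S X G T)
    (hF : ∀ i ∈ T, F i ≠ 0 ∧ |Real.log (F i)| ≤ S * X i)
    (h : ∀ j, (∀ i ∈ T, Real.log (G j i) + δ * X i ≤ Real.log (F i)) ∨
      (∀ i ∈ T, Real.log (F i) + δ * X i ≤ Real.log (G j i))) :
    ∃ G' : Fin (t + 1) → ℕ → ℝ, Flagd δ S X G' T ∧ (∀ j, G' j = F ∨ ∃ l, G' j = G l) ∧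
      (∃ j, G' j = F) ∧ ∀ l, ∃ j, G' j = G l := by
  classical
  set P : Fin t → Prop := fun j => ∀ i ∈ T, Real.log (G j i) + δ * X i ≤ Real.log (F i) with hP
  have hdown : ∀ j l : Fin t, j ≤ l → P l → P j := by
    intro j l hjl hl
    rcases eq_or_lt_of_le hjl with h1 | h1
    · rw [h1]; exact hl
    · intro i hi
      have h2 := hG.2 j l h1 i hi
      have h3 := hl i hi
      have h4 : 0 < δ * X i := mul_pos hδ (hX i hi)
      linarith
  have hex : ∃ p : ℕ, ∀ j : Fin t, P j → j.val < p := ⟨t, fun j _ => j.isLt⟩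
  set p := Nat.find hex with hp
  have hp1 : ∀ j : Fin t, P j → j.val < p := Nat.find_spec hex
  have hpt : p ≤ t := Nat.find_min' hex (fun j _ => j.isLt)
  have hp2 : ∀ j : Fin t, j.val < p → P j := by
    intro j hj
    by_contra hcon
    have : p ≤ j.val := by
      apply Nat.find_min' hex
      intro l hl
      by_contra hlt
      push Not at hlt
      exact hcon (hdown j l hlt hl)
    omega
  set q : Fin (t + 1) := ⟨p, by omega⟩ with hq
  refine ⟨q.insertNth (α := fun _ => ℕ → ℝ) F G, ⟨?_, ?_⟩, ?_, ⟨q, ?_⟩, ?_⟩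
  · intro a
    rcases Fin.eq_self_or_eq_succAbove q a with ha | ⟨j, ha⟩
    · rw [ha, Fin.insertNth_apply_same]; exact hF
    · rw [ha, Fin.insertNth_apply_succAbove]; exact hG.1 j
  · intro a b hab
    rcases Fin.eq_self_or_eq_succAbove q a with ha | ⟨j, ha⟩
    · rcases Fin.eq_self_or_eq_succAbove q b with hb | ⟨l, hb⟩
      · rw [ha, hb] at hab; exact absurd hab (lt_irrefl _)
      · subst ha
        rw [hb] at hab ⊢
        rw [Fin.insertNth_apply_same, Fin.insertNth_apply_succAbove]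
        rw [Fin.lt_succAbove_iff_le_castSucc] at hab
        have h1 : p ≤ l.val := hab
        rcases h l with h2 | h2
        · have := hp1 l h2
          omega
        · exact h2
    · rcases Fin.eq_self_or_eq_succAbove q b with hb | ⟨l, hb⟩
      · subst hb
        rw [ha] at hab ⊢
        rw [Fin.insertNth_apply_same, Fin.insertNth_apply_succAbove]
        rw [Fin.succAbove_lt_iff_castSucc_lt] at hab
        have h1 : j.val < p := hab
        exact hp2 j h1
      · rw [ha, hb] at hab ⊢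
        rw [Fin.insertNth_apply_succAbove, Fin.insertNth_apply_succAbove]
        exact hG.2 j l (Fin.succAbove_lt_succAbove_iff.1 hab)
  · intro a
    rcases Fin.eq_self_or_eq_succAbove q a with ha | ⟨j, ha⟩
    · left; rw [ha, Fin.insertNth_apply_same]
    · right; exact ⟨j, by rw [ha, Fin.insertNth_apply_succAbove]⟩
  · rw [Fin.insertNth_apply_same]
  · intro l
    exact ⟨q.succAbove l, by rw [Fin.insertNth_apply_succAbove]⟩

end RC
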