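import Pool.Agent.Helper850.RF.Defs
import Pool.Agent.Helper850.RF.P_lac_mono

set_option autoImplicit false

namespace RC
open Finset BigOperators


theorem mod_gap (t : ℕ) (S ε : ℝ) (hS : 1 ≤ S) (hε : 0 < ε) (hε1 : ε ≤ 1) :
    ∃ (K₀ : ℝ) (b : ℕ), 1 ≤ K₀ ∧ ∀ (ν R j : ℕ) (X : ℕ → ℝ) (G : Fin t → ℕ → ℝ) (T : Finset ℕ)
      (F : ℕ → ℝ), Lac K₀ X T → Flagd (ε / 8) (2 * S) X G T →
      (∀ i ∈ T, F i ≠ 0 ∧ |Real.log (F i)| ≤ 2 * S * X i) →
      (∀ l : Fin t, l.val < j → ∀ i ∈ T, ∀ i' ∈ T, i < i' →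
        ε / 4 * X i + ε / 4 * X i' ≤ |(Real.log (F i) - Real.log (G l i)) -
          (Real.log (F i') - Real.log (G l i'))|) →
      (∀ l : Fin t, j ≤ l.val → ∀ i ∈ T, Real.log (F i) + ε / 2 * X i ≤ Real.log (G l i)) →
      (ν + 2) ^ b ≤ T.card → Out S ε X G F T ν R := by
  have hK : 1 ≤ 32 * S / ε := by
    rw [le_div_iff₀ hε]
    linarith
  refine ⟨32 * S / ε, t + 1, hK, ?_⟩
  intro ν R j X G T F hL hG hF h1 h2 hcard
  classical
  have hTpos : 0 < T.card := lt_of_lt_of_le (pow_pos (by omega) _) hcard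
  have hTne : T.Nonempty := Finset.card_pos.mp hTpos
  have hXpos : ∀ i ∈ T, 0 < X i := fun i hi => lt_of_lt_of_le (by linarith) (hL.1 i hi)
  obtain ⟨i₀, hi₀, hmin⟩ : ∃ i₀ ∈ T, ∀ i ∈ T, i₀ ≤ i :=
    ⟨T.min' hTne, T.min'_mem hTne, fun i hi => T.min'_le i hi⟩
  have hkey : ∀ l : Fin t, l.val < j → ∀ i ∈ T.erase i₀,
      ε / 8 * X i ≤ |Real.log (F i) - Real.log (G l i)| := by
    intro l hl i hi
    obtain ⟨hne, hiT⟩ := Finset.mem_erase.mp hi
    have hlt : i₀ < i := lt_of_le_of_ne (hmin i hiT) (Ne.symm hne)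
    have ha := h1 l hl i₀ hi₀ i hiT hlt
    have hb := hL.2 i₀ hi₀ i hiT hlt
    have hX0 := hXpos i₀ hi₀
    have hc : 4 * S * X i₀ ≤ ε / 8 * X i := by
      rw [div_mul_eq_mul_div, div_le_iff₀ hε] at hb
      nlinarith
    have hd : |Real.log (F i₀) - Real.log (G l i₀)| ≤ 4 * S * X i₀ := by
      have e1 := (hF i₀ hi₀).2
      have e2 := (hG.1 l i₀ hi₀).2
      have e3 := abs_sub (Real.log (F i₀)) (Real.log (G l i₀))
      linarith
    have he := abs_sub (Real.log (F i₀) - Real.log (G l i₀)) (Real.log (F i) - Real.log (G l i))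
    have hf : 0 < ε / 4 * X i₀ := by positivity
    linarith
  have hcard2 : (Finset.univ : Finset (Fin t → Bool)).card * ν ≤ (T.erase i₀).card := by
    rw [Finset.card_erase_of_mem hi₀, Finset.card_univ, Fintype.card_fun, Fintype.card_bool,
      Fintype.card_fin]
    have e1 : 2 ^ t * (ν + 2) ≤ (ν + 2) ^ (t + 1) := by
      rw [pow_succ]
      exact Nat.mul_le_mul_right _ (Nat.pow_le_pow_left (by omega) t)
    have e2 : 1 ≤ 2 ^ t := Nat.one_le_two_pow
    have e3 : 2 ^ t * (ν + 2) = 2 ^ t * ν + 2 ^ t * 2 := by ring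
    omega
  obtain ⟨y, -, hy⟩ := Finset.exists_le_card_fiber_of_mul_le_card_of_maps_to
    (s := T.erase i₀) (t := (Finset.univ : Finset (Fin t → Bool)))
    (f := fun i l => decide (0 ≤ Real.log (F i) - Real.log (G l i)))
    (fun a _ => Finset.mem_univ _) Finset.univ_nonempty hcard2
  obtain ⟨T', hT', hT'c⟩ := Finset.exists_subset_card_eq hy
  have hT'T : T' ⊆ T := by
    intro i hi
    exact Finset.mem_of_mem_erase (Finset.mem_filter.mp (hT' hi)).1
  refine Or.inr (Or.inl ⟨T', hT'T, hT'c, 1, fun _ => 0, one_ne_zero, ?_, ?_⟩)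
  · intro i hi
    have e : (1 : ℝ) * F i + comb G (fun _ => 0) i = F i := by
      simp [comb]
    rw [e]
    exact hF i (hT'T hi)
  · intro l
    have e : ∀ i, (1 : ℝ) * F i + comb G (fun _ => 0) i = F i := by
      intro i
      simp [comb]
    simp only [e]
    by_cases hl : l.val < j
    · by_cases hyl : y l = true
      · left
        intro i hi
        obtain ⟨hi1, hi2⟩ := Finset.mem_filter.mp (hT' hi)
        have h3 := congrFun hi2 l
        simp only [hyl, decide_eq_true_eq] at h3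
        have h4 := hkey l hl i hi1
        rw [abs_of_nonneg h3] at h4
        linarith
      · right
        intro i hi
        obtain ⟨hi1, hi2⟩ := Finset.mem_filter.mp (hT' hi)
        have h3 := congrFun hi2 l
        have h5 : ¬ (0 ≤ Real.log (F i) - Real.log (G l i)) := by
          intro h6
          apply hyl
          rw [← h3]
          simpa using h6
        have h4 := hkey l hl i hi1
        rw [abs_of_neg (not_le.mp h5)] at h4
        linarith
    · right
      intro i hi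
      have h3 := h2 l (not_lt.mp hl) i (hT'T hi)
      have h4 := hXpos i (hT'T hi)
      nlinarith

end RC
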