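import Pool.Agent.Helper850.RF.Defs
import Pool.Agent.Helper850.RF.P_lac_mono
import Pool.Agent.Helper850.RF.P_interp_coeff

set_option autoImplicit false

namespace RC
open Finset BigOperators


theorem interp_ex (t : ℕ) (ε S : ℝ) (hε : 0 < ε) (hε1 : ε ≤ 1) (hS : 1 ≤ S) :
    ∃ K₀ : ℝ, 1 ≤ K₀ ∧ ∀ (X : ℕ → ℝ) (G : Fin t → ℕ → ℝ) (T : Finset ℕ),
      Lac K₀ X T → Flagd ε (2 * S) X G T →
      ∀ J ⊆ T, J.card = t → ∀ v : ℕ → ℝ, ∃ c : Fin t → ℝ, ∀ q ∈ J, comb G c q = v q := by
  obtain ⟨K₀, hK₀, hcoef⟩ := interp_coeff t ε S hε hε1 hS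
  refine ⟨K₀, hK₀, fun X G T hL hF J hJ hcard v => ?_⟩
  rcases Finset.eq_empty_or_nonempty J with hJe | hJne
  · exact ⟨fun _ => 0, fun q hq => by rw [hJe] at hq; simp at hq⟩
  let L : (Fin t → ℝ) →ₗ[ℝ] (↥J → ℝ) :=
    { toFun := fun c q => comb G c q.1
      map_add' := fun c c' => by
        funext q
        simp only [comb, Pi.add_apply, add_mul, Finset.sum_add_distrib]
      map_smul' := fun a c => by
        funext q
        simp only [comb, Pi.smul_apply, smul_eq_mul, RingHom.id_apply, Finset.mul_sum]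
        refine Finset.sum_congr rfl fun j _ => by ring }
  have hLapp : ∀ c (q : ↥J), L c q = comb G c q.1 := fun c q => rfl
  have hinj : Function.Injective L := by
    rw [injective_iff_map_eq_zero]
    intro c hc
    funext j
    have h1 := hcoef X G T hL hF J hJ hcard (J.max' hJne) (hJ (J.max'_mem hJne))
      (fun q hq => J.le_max' q hq) c 0 le_rfl (fun q hq => by
        have h2 : L c ⟨q, hq⟩ = 0 := by rw [hc]; rfl
        rw [hLapp] at h2
        have h3 : comb G c q = 0 := h2
        rw [h3, abs_zero]) j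
    rw [zero_mul] at h1
    exact abs_nonpos_iff.mp h1
  have hrank : Module.finrank ℝ (Fin t → ℝ) = Module.finrank ℝ (↥J → ℝ) := by
    rw [Module.finrank_fintype_fun_eq_card, Module.finrank_fintype_fun_eq_card, Fintype.card_fin,
      Fintype.card_coe, hcard]
  have hsurj := (LinearMap.injective_iff_surjective_of_finrank_eq_finrank hrank).mp hinj
  obtain ⟨c, hc⟩ := hsurj (fun q => v q.1)
  refine ⟨c, fun q hq => ?_⟩
  have := congrFun hc ⟨q, hq⟩
  rw [hLapp] at this
  exact this

end RC
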