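import Pool.Agent.Helper850.RF.Defs
import Pool.Agent.Helper850.RF.P_lac_mono
import Pool.Agent.Helper850.RF.P_interp_val
import Pool.Agent.Helper850.RF.P_interp_ex

set_option autoImplicit false

namespace RC
open Finset BigOperators


theorem nodep_low (t : ℕ) (ε S : ℝ) (hε : 0 < ε) (hε1 : ε ≤ 1) (hS : 1 ≤ S) :
    ∃ K₀ : ℝ, 1 ≤ K₀ ∧ ∀ (X : ℕ → ℝ) (G : Fin t → ℕ → ℝ) (T : Finset ℕ) (F : ℕ → ℝ),
      Lac K₀ X T → Flagd ε (2 * S) X G T → NoDep (72 * S) X G F 0 T →
      ∀ A ⊆ T, A.card = t + 1 → ∀ r ∈ A, (∀ q ∈ A, q ≤ r) → ∀ (c : Fin t → ℝ) (h' : ℝ),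
        (∀ i ∈ A, |F i + comb G c i| ≤ Real.exp (h' + S * X i)) → -(81 * S * X r) ≤ h' := by
  obtain ⟨K1, hK1, H1⟩ := interp_val t ε S hε hε1 hS
  obtain ⟨K2, hK2, H2⟩ := interp_ex t ε S hε hε1 hS
  refine ⟨max K1 K2, hK1.trans (le_max_left _ _), ?_⟩
  intro X G T F hL hF hN A hAT hAc r hrA hmax c h' hb
  have hL1 : Lac K1 X T := lac_mono K1 _ hK1 (le_max_left _ _) X T T (Subset.refl _) hL
  have hL2 : Lac K2 X T := lac_mono K2 _ hK2 (le_max_right _ _) X T T (Subset.refl _) hL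
  have hX1 : ∀ i ∈ T, 1 ≤ X i := fun i hi => hK1.trans (hL1.1 i hi)
  have hmono : ∀ i ∈ T, ∀ i' ∈ T, i ≤ i' → X i ≤ X i' := by
    intro i hi i' hi' h
    rcases h.eq_or_lt with h | h
    · rw [h]
    · have h1 := hL1.2 i hi i' hi' h
      have h2 : 1 * X i ≤ K1 * X i := mul_le_mul_of_nonneg_right hK1 (by linarith [hX1 i hi])
      linarith
  have hrT := hAT hrA
  have hJT : A.erase r ⊆ T := (Finset.erase_subset _ _).trans hAT
  have hJc : (A.erase r).card = t := by
    rw [Finset.card_erase_of_mem hrA, hAc]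
    rfl
  have hJlt : ∀ q ∈ A.erase r, q < r := by
    intro q hq
    rw [Finset.mem_erase] at hq
    exact lt_of_le_of_ne (hmax q hq.2) hq.1
  obtain ⟨c0, hc0⟩ := H2 X G T hL2 hF (A.erase r) hJT hJc (fun q => -(F q + comb G c q))
  obtain ⟨y, hy⟩ : ∃ y, y = S * X r := ⟨_, rfl⟩
  have hy1 : 1 ≤ y := by
    rw [hy]
    nlinarith [hX1 r hrT]
  have hS0 : 0 ≤ S := by linarith
  have hM : ∀ q ∈ A.erase r, |comb G c0 q| ≤ Real.exp (h' + S * X r) := by
    intro q hq
    rw [hc0 q hq, abs_neg]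
    refine (hb q (Finset.mem_of_mem_erase hq)).trans ?_
    apply Real.exp_le_exp.2
    have := mul_le_mul_of_nonneg_left (hmono q (hJT hq) r hrT (hJlt q hq).le) hS0
    linarith
  have h1 := H1 X G T hL1 hF (A.erase r) hJT hJc r hrT (fun q hq => (hJlt q hq).le) c0
    (Real.exp (h' + S * X r)) (Real.exp_pos _).le hM r hrT le_rfl
  have hcomb : ∀ i, comb G (c + c0) i = comb G c i + comb G c0 i := by
    intro i
    unfold comb
    rw [← Finset.sum_add_distrib]
    apply Finset.sum_congr rfl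
    intro j _
    rw [Pi.add_apply]
    ring
  have h2 := hN (A.erase r) hJT hJc r hrT hJlt (c + c0) (by
    intro q hq
    rw [hcomb, hc0 q hq]
    ring)
  rw [hcomb] at h2
  have h3 := hb r hrA
  have e7 : 7 * S * X r = 7 * y := by rw [hy]; ring
  have e72 : (0 : ℝ) - 72 * S * X r = -72 * y := by rw [hy]; ring
  have e81 : -(81 * S * X r) = -81 * y := by rw [hy]; ring
  rw [e7, ← hy] at h1
  rw [e72] at h2
  rw [← hy] at h3
  rw [e81]
  have h4 : |F r + (comb G c r + comb G c0 r)| ≤ |F r + comb G c r| + |comb G c0 r| := by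
    rw [← add_assoc]
    exact abs_add_le _ _
  have h5 : Real.exp (h' + y) + Real.exp (h' + y) * Real.exp (7 * y) ≤ Real.exp (h' + 9 * y) := by
    have a1 : 1 ≤ Real.exp (7 * y) := Real.one_le_exp (by linarith)
    have a2 : 2 ≤ Real.exp y := by
      have := Real.add_one_le_exp y
      linarith
    have a3 : Real.exp (h' + 9 * y) = Real.exp (h' + y) * (Real.exp (7 * y) * Real.exp y) := by
      rw [← Real.exp_add, ← Real.exp_add]
      congr 1
      ring
    rw [a3]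
    have a4 : 0 < Real.exp (h' + y) := Real.exp_pos _
    have a5 : 1 + Real.exp (7 * y) ≤ Real.exp (7 * y) * Real.exp y := by nlinarith
    calc Real.exp (h' + y) + Real.exp (h' + y) * Real.exp (7 * y)
        = Real.exp (h' + y) * (1 + Real.exp (7 * y)) := by ring
      _ ≤ _ := mul_le_mul_of_nonneg_left a5 a4.le
  have h6 : Real.exp (-72 * y) ≤ Real.exp (h' + 9 * y) := by linarith
  have h7 := Real.exp_le_exp.1 h6
  linarith

end RC
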