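import Pool.Agent.Helper850.RF.Defs
import Pool.Agent.Helper850.RF.P_lac_mono
import Pool.Agent.Helper850.RF.P_ivl
import Pool.Agent.Helper850.RF.P_nodep_low

set_option autoImplicit false

namespace RC
open Finset BigOperators


theorem mr_size (t ν N : ℕ) :
    1 + ν * (ν + ν * (N + t + 1)) ≤ ((ν + 2) * (N + 2)) ^ (t + 5) := by
  obtain ⟨x, hx⟩ : ∃ x, x = (ν + 2) * (N + 2) := ⟨_, rfl⟩
  rw [← hx]
  have hx4 : 4 ≤ x := by rw [hx]; nlinarith
  have hν : ν ≤ x := by rw [hx]; nlinarith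
  have hN : N + 2 ≤ x := by rw [hx]; nlinarith
  have ht : t + 1 ≤ x ^ t := by
    calc t + 1 ≤ 2 ^ t := Nat.lt_two_pow_self
      _ ≤ x ^ t := Nat.pow_le_pow_left (by omega) t
  have h1 : N + t + 1 ≤ x ^ (t + 1) := by
    rw [pow_succ]
    calc N + t + 1 ≤ (t + 1) * (N + 2) := by nlinarith
      _ ≤ x ^ t * x := Nat.mul_le_mul ht hN
  have hp : ∀ n, 1 ≤ x ^ n := fun n => Nat.one_le_pow _ _ (by omega)
  have h2 : ν * (N + t + 1) ≤ x ^ (t + 2) := by
    calc ν * (N + t + 1) ≤ x * x ^ (t + 1) := Nat.mul_le_mul hν h1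
      _ = x ^ (t + 2) := by ring
  have h3 : ν ≤ x ^ (t + 2) := by
    calc ν ≤ x := hν
      _ = x * 1 := by ring
      _ ≤ x * x ^ (t + 1) := Nat.mul_le_mul_left _ (hp _)
      _ = x ^ (t + 2) := by ring
  have h4 : ν + ν * (N + t + 1) ≤ x ^ (t + 3) := by
    calc ν + ν * (N + t + 1) ≤ x ^ (t + 2) + x ^ (t + 2) := Nat.add_le_add h3 h2
      _ = 2 * x ^ (t + 2) := by ring
      _ ≤ x * x ^ (t + 2) := Nat.mul_le_mul_right _ (by omega)
      _ = x ^ (t + 3) := by ring
  calc 1 + ν * (ν + ν * (N + t + 1)) ≤ x ^ (t + 4) + x * x ^ (t + 3) :=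
        Nat.add_le_add (hp _) (Nat.mul_le_mul hν h4)
    _ = 2 * x ^ (t + 4) := by ring
    _ ≤ x * x ^ (t + 4) := Nat.mul_le_mul_right _ (by omega)
    _ = x ^ (t + 5) := by ring

theorem mr_split (a b : ℕ) : ∀ (T : Finset ℕ), T.card = a + b →
    ∃ A ⊆ T, ∃ B ⊆ T, A.card = a ∧ B.card = b ∧ ∀ i ∈ A, ∀ j ∈ B, i < j := by
  induction a with
  | zero =>
    intro T h
    exact ⟨∅, Finset.empty_subset _, T, Finset.Subset.refl _, rfl, by omega, by simp⟩
  | succ a ih =>
    intro T h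
    have hne : T.Nonempty := Finset.card_pos.1 (by omega)
    obtain ⟨A, hA, B, hB, hAc, hBc, hAB⟩ := ih (T.erase (T.min' hne))
      (by rw [Finset.card_erase_of_mem (T.min'_mem hne)]; omega)
    refine ⟨insert (T.min' hne) A, ?_, B, hB.trans (Finset.erase_subset _ _), ?_, hBc, ?_⟩
    · intro i hi
      rcases Finset.mem_insert.1 hi with rfl | hi
      · exact T.min'_mem hne
      · exact Finset.mem_of_mem_erase (hA hi)
    · rw [Finset.card_insert_of_notMem, hAc]
      intro hmem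
      exact (Finset.mem_erase.1 (hA hmem)).1 rfl
    · intro i hi j hj
      rcases Finset.mem_insert.1 hi with rfl | hi
      · have h1 := Finset.mem_erase.1 (hB hj)
        exact lt_of_le_of_ne (T.min'_le j h1.2) (Ne.symm h1.1)
      · exact hAB i hi j hj

theorem mr_comb_zero {t : ℕ} (G : Fin t → ℕ → ℝ) (i : ℕ) : comb G 0 i = 0 := by
  simp [comb]

theorem mr_comb_single {t : ℕ} (G : Fin t → ℕ → ℝ) (l : Fin t) (a : ℝ) (i : ℕ) :
    comb G (Pi.single l a) i = a * G l i := by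
  unfold comb
  rw [Finset.sum_eq_single l]
  · rw [Pi.single_eq_same]
  · intro j _ hj
    rw [Pi.single_eq_of_ne hj, zero_mul]
  · intro h
    exact absurd (Finset.mem_univ _) h

theorem mod_res (t : ℕ) (S ε : ℝ) (hS : 1 ≤ S) (hε : 0 < ε) (hε1 : ε ≤ 1) :
    ∃ (K₀ : ℝ) (b : ℕ), 1 ≤ K₀ ∧ ∀ (ν N R : ℕ) (X : ℕ → ℝ) (G : Fin t → ℕ → ℝ) (T : Finset ℕ)
      (F : ℕ → ℝ) (l : Fin t) (κ : ℝ), R ≤ ν → Lac K₀ X T → Flagd (ε / 8) (2 * S) X G T →
      (∀ i ∈ T, F i ≠ 0 ∧ |Real.log (F i)| ≤ 2 * S * X i) → NoDep (72 * S) X G F 0 T →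
      (∀ i ∈ T, |Real.log (F i) - Real.log (G l i) - κ| ≤ ε / 4 * X i) →
      ((ν + 2) * (N + 2)) ^ b ≤ T.card →
      Out S ε X G F T ν R ∨
      ∃ T' ⊆ T, T'.card = N ∧ ∃ c : Fin t → ℝ,
        (∀ i ∈ T', F i + comb G c i ≠ 0 ∧ |Real.log (F i + comb G c i)| ≤ 2 * S * X i) ∧
        ∀ i ∈ T', Real.log (F i + comb G c i) + ε / 2 * X i ≤ Real.log (G l i) := by
  obtain ⟨K1, hK1, hlow⟩ := nodep_low t (ε / 8) S (by positivity) (by linarith) hS
  refine ⟨max K1 (max (81 * S) (4 * (4 * S + 1) / ε)), t + 5, le_trans hK1 (le_max_left _ _), ?_⟩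
  intro ν N R X G T F l κ hRν hL hFl hF hND hκ hcard
  obtain ⟨K₀, hK₀⟩ : ∃ K₀, K₀ = max K1 (max (81 * S) (4 * (4 * S + 1) / ε)) := ⟨_, rfl⟩
  rw [← hK₀] at hL
  have hK₀1 : K1 ≤ K₀ := by rw [hK₀]; exact le_max_left _ _
  have hK₀2 : 81 * S ≤ K₀ := by
    rw [hK₀]; exact le_trans (le_max_left _ _) (le_max_right _ _)
  have hK₀3 : 4 * (4 * S + 1) / ε ≤ K₀ := by
    rw [hK₀]; exact le_trans (le_max_right _ _) (le_max_right _ _)
  have hK₀4 : 4 * S + 1 ≤ ε / 4 * K₀ := by
    rw [div_le_iff₀ hε] at hK₀3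
    linarith
  have hXpos : ∀ i ∈ T, 0 < X i := fun i hi => lt_of_lt_of_le (by linarith) (hL.1 i hi)
  have hLlow := lac_mono K1 K₀ hK1 hK₀1 X T T (Finset.Subset.refl _) hL
  have hsz := mr_size t ν N
  have hcard1 : 1 + ν * (ν + ν * (N + t + 1)) ≤ T.card := le_trans hsz hcard
  have hTne : T.Nonempty := Finset.card_pos.1 (by omega)
  obtain ⟨i₀, hi₀, hi₀min⟩ : ∃ i₀ ∈ T, ∀ i ∈ T, i₀ ≤ i :=
    ⟨T.min' hTne, T.min'_mem hTne, fun i hi => T.min'_le i hi⟩
  have hGl : ∀ i ∈ T, G l i ≠ 0 := fun i hi => (hFl.1 l i hi).1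
  have hκ0 : |κ| ≤ (4 * S + 1) * X i₀ := by
    have h1 := abs_le.1 (hκ i₀ hi₀)
    have h2 := abs_le.1 (hF i₀ hi₀).2
    have h3 := abs_le.1 (hFl.1 l i₀ hi₀).2
    have h4 := hXpos i₀ hi₀
    have h5 : ε / 4 * X i₀ ≤ X i₀ := by nlinarith
    rw [abs_le]
    constructor <;> nlinarith [h1.1, h1.2, h2.1, h2.2, h3.1, h3.2]
  have hT1lt : ∀ i ∈ T.erase i₀, i₀ < i := fun i hi =>
    lt_of_le_of_ne (hi₀min i (Finset.mem_of_mem_erase hi)) (Finset.ne_of_mem_erase hi).symm
  have hκi : ∀ i ∈ T.erase i₀, |κ| ≤ ε / 4 * X i := by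
    intro i hi
    have hiT := Finset.mem_of_mem_erase hi
    have h1 := hL.2 i₀ hi₀ i hiT (hT1lt i hi)
    have h2 := hXpos i₀ hi₀
    calc |κ| ≤ (4 * S + 1) * X i₀ := hκ0
      _ ≤ ε / 4 * K₀ * X i₀ := mul_le_mul_of_nonneg_right hK₀4 h2.le
      _ = ε / 4 * (K₀ * X i₀) := by ring
      _ ≤ ε / 4 * X i := mul_le_mul_of_nonneg_left h1 (by positivity)
  have hρ : ∀ i ∈ T.erase i₀, |F i / G l i| ≤ Real.exp (ε * X i) := by
    intro i hi
    have hiT := Finset.mem_of_mem_erase hi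
    have h1 := abs_le.1 (hκi i hi)
    have h2 := abs_le.1 (hκ i hiT)
    have h3 := hXpos i hiT
    rw [← Real.exp_log_eq_abs (div_ne_zero (hF i hiT).1 (hGl i hiT)),
      Real.log_div (hF i hiT).1 (hGl i hiT)]
    apply Real.exp_le_exp.2
    have h4 : 0 < ε * X i := by positivity
    linarith [h1.2, h2.2]
  have hcardE : (T.erase i₀).card = T.card - 1 := Finset.card_erase_of_mem hi₀
  rcases ivl ν (ν + ν * (N + t + 1)) (T.erase i₀) (fun i => F i / G l i)
    (fun i => Real.exp (-(ε * X i))) (fun i _ => (Real.exp_pos _).le) (by omega) with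
    ⟨T', hT', hT'c, hsep⟩ | ⟨T₂, hT₂, hT₂c, c₀, hclose⟩
  · left
    right; right; right
    refine ⟨T', hT'.trans (Finset.erase_subset _ _), hT'c, 1, 0, l, one_ne_zero, ?_⟩
    simp only [mr_comb_zero, one_mul, add_zero]
    refine ⟨fun i hi => ⟨hGl i (Finset.mem_of_mem_erase (hT' hi)), hρ i (hT' hi)⟩, ?_⟩
    intro i hi i' hi' hii
    have := hsep i hi i' hi' hii
    have h2 := Real.exp_pos (-(ε * X i'))
    linarith
  · obtain ⟨c, hc⟩ : ∃ c : Fin t → ℝ, c = Pi.single l (-c₀) := ⟨_, rfl⟩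
    have hcomb : ∀ i, comb G c i = -c₀ * G l i := fun i => by rw [hc, mr_comb_single]
    have hT₂T : T₂ ⊆ T := hT₂.trans (Finset.erase_subset _ _)
    have hF'le : ∀ i ∈ T₂, |F i + comb G c i| ≤ |G l i| * Real.exp (-(ε * X i)) := by
      intro i hi
      have hg := hGl i (hT₂T hi)
      have h1 : F i + comb G c i = G l i * (F i / G l i - c₀) := by
        rw [hcomb]
        field_simp
        ring
      rw [h1, abs_mul]
      exact mul_le_mul_of_nonneg_left (hclose i hi) (abs_nonneg _)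
    by_cases hZ : ν ≤ (T₂.filter (fun i => F i + comb G c i = 0)).card
    · left; left
      obtain ⟨T', hT', hT'c⟩ := Finset.exists_subset_card_eq hZ
      refine ⟨T', fun i hi => hT₂T (Finset.mem_filter.1 (hT' hi)).1, hT'c, c, ?_⟩
      intro i hi
      exact (Finset.mem_filter.1 (hT' hi)).2
    · have hT₃card : ν * (N + t + 1) ≤ (T₂.filter (fun i => ¬ (F i + comb G c i = 0))).card := by
        have := Finset.card_filter_add_card_filter_not (s := T₂)
          (fun i => F i + comb G c i = 0)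
        omega
      have hlogle : ∀ i ∈ T₂, F i + comb G c i ≠ 0 →
          Real.log (F i + comb G c i) ≤ Real.log (G l i) - ε * X i := by
        intro i hi hne
        have hg := hGl i (hT₂T hi)
        have h1 := hF'le i hi
        have h2 := Real.log_le_log (abs_pos.2 hne) h1
        rw [Real.log_abs, Real.log_mul (abs_ne_zero.2 hg) (Real.exp_pos _).ne', Real.log_abs,
          Real.log_exp] at h2
        linarith
      rcases ivl ν (N + t + 1) (T₂.filter (fun i => ¬ (F i + comb G c i = 0)))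
        (fun i => Real.log (F i + comb G c i)) (fun i => S * X i)
        (fun i hi => by
          have := hXpos i (hT₂T (Finset.mem_filter.1 hi).1)
          positivity) hT₃card with ⟨T', hT', hT'c, hsep⟩ | ⟨T₄, hT₄, hT₄c, h', hclose'⟩
      · left
        right; right; left
        obtain ⟨Q, hQ, hQc⟩ := Finset.exists_subset_card_eq (show R ≤ T'.card by omega)
        refine ⟨Q, fun i hi => hT₂T (Finset.mem_filter.1 (hT' (hQ hi))).1, hQc, c, ?_, ?_⟩
        · intro i hi
          exact (Finset.mem_filter.1 (hT' (hQ hi))).2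
        · intro i hi i' hi' hii
          have := hsep i (hQ hi) i' (hQ hi') hii
          simp only at this ⊢
          linarith
      · right
        obtain ⟨A, hA, B, hB, hAc, hBc, hAB⟩ := mr_split (t + 1) N T₄ (by omega)
        have hT₄2 : ∀ i ∈ T₄, i ∈ T₂ := fun i hi => (Finset.mem_filter.1 (hT₄ hi)).1
        have hT₄n : ∀ i ∈ T₄, F i + comb G c i ≠ 0 := fun i hi => (Finset.mem_filter.1 (hT₄ hi)).2
        have hAne : A.Nonempty := Finset.card_pos.1 (by omega)
        obtain ⟨r, hr, hrmax⟩ : ∃ r ∈ A, ∀ q ∈ A, q ≤ r :=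
          ⟨A.max' hAne, A.max'_mem hAne, fun q hq => A.le_max' q hq⟩
        have hrT : r ∈ T := hT₂T (hT₄2 r (hA hr))
        have hlo := hlow X G T F hLlow hFl hND A (fun i hi => hT₂T (hT₄2 i (hA hi))) hAc r hr
          hrmax c h' (by
            intro i hi
            rw [← Real.exp_log_eq_abs (hT₄n i (hA hi))]
            apply Real.exp_le_exp.2
            have := (abs_le.1 (hclose' i (hA hi))).2
            linarith)
        have hXr := hXpos r hrT
        have hhi : h' ≤ 3 * S * X r := by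
          have h1 := (abs_le.1 (hclose' r (hA hr))).1
          have h2 := hlogle r (hT₄2 r (hA hr)) (hT₄n r (hA hr))
          have h3 := (abs_le.1 (hFl.1 l r hrT).2).2
          have h4 : 0 < ε * X r := by positivity
          nlinarith
        refine ⟨B, fun i hi => hT₂T (hT₄2 i (hB hi)), hBc, c, ?_, ?_⟩
        · intro i hi
          have hiT := hT₂T (hT₄2 i (hB hi))
          have hri := hAB r hr i hi
          have h1 := hL.2 r hrT i hiT hri
          have h2 := abs_le.1 (hclose' i (hB hi))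
          have h3 : 81 * S * X r ≤ X i :=
            le_trans (mul_le_mul_of_nonneg_right hK₀2 hXr.le) h1
          have hXi := hXpos i hiT
          have h5 : X i ≤ S * X i := by nlinarith
          refine ⟨hT₄n i (hB hi), ?_⟩
          have h6 : 0 ≤ S * X r := by positivity
          rw [abs_le]
          constructor
          · linarith [h2.1]
          · linarith [h2.2]
        · intro i hi
          have hiT := hT₂T (hT₄2 i (hB hi))
          have h1 := hlogle i (hT₄2 i (hB hi)) (hT₄n i (hB hi))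
          have hXi := hXpos i hiT
          have h2 : 0 < ε * X i := by positivity
          linarith

end RC
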