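import Pool.Agent.Helper850.RF.Defs
import Pool.Agent.Helper850.RF.P_lac_mono
import Pool.Agent.Helper850.RF.P_ivl
import Pool.Agent.Helper850.RF.P_mod_res
import Pool.Agent.Helper850.RF.P_mod_gap

set_option autoImplicit false

namespace RC
open Finset BigOperators


theorem ms_out_mono {t : ℕ} {S ε : ℝ} {X : ℕ → ℝ} {G : Fin t → ℕ → ℝ} {F : ℕ → ℝ} {T T' : Finset ℕ}
    {ν R : ℕ} (hT : T' ⊆ T) (h : Out S ε X G F T' ν R) : Out S ε X G F T ν R := by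
  rcases h with ⟨Q, hQ, h⟩ | ⟨Q, hQ, h⟩ | ⟨Q, hQ, h⟩ | ⟨Q, hQ, h⟩
  · exact Or.inl ⟨Q, hQ.trans hT, h⟩
  · exact Or.inr (Or.inl ⟨Q, hQ.trans hT, h⟩)
  · exact Or.inr (Or.inr (Or.inl ⟨Q, hQ.trans hT, h⟩))
  · exact Or.inr (Or.inr (Or.inr ⟨Q, hQ.trans hT, h⟩))

theorem ms_flag_mono {t : ℕ} {ε S : ℝ} {X : ℕ → ℝ} {G : Fin t → ℕ → ℝ} {T T' : Finset ℕ}
    (hT : T' ⊆ T) (h : Flagd ε S X G T) : Flagd ε S X G T' :=
  ⟨fun j i hi => h.1 j i (hT hi), fun j l hjl i hi => h.2 j l hjl i (hT hi)⟩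

theorem ms_nodep_mono {t : ℕ} {K : ℝ} {X : ℕ → ℝ} {G : Fin t → ℕ → ℝ} {F : ℕ → ℝ} {h : ℝ}
    {T T' : Finset ℕ} (hT : T' ⊆ T) (hN : NoDep K X G F h T) : NoDep K X G F h T' :=
  fun J hJ hc i hi hq c hz => hN J (hJ.trans hT) hc i (hT hi) hq c hz

theorem mod_step (t : ℕ) (S ε : ℝ) (hS : 1 ≤ S) (hε : 0 < ε) (hε1 : ε ≤ 1) :
    ∃ (K₀ : ℝ) (b : ℕ), 1 ≤ K₀ ∧ ∀ (ν N R j : ℕ) (X : ℕ → ℝ) (G : Fin t → ℕ → ℝ)
      (T : Finset ℕ) (F : ℕ → ℝ), R ≤ ν → Lac K₀ X T → Flagd (ε / 8) (2 * S) X G T →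
      (∀ i ∈ T, F i ≠ 0 ∧ |Real.log (F i)| ≤ 2 * S * X i) → NoDep (72 * S) X G F 0 T →
      (∀ l : Fin t, j ≤ l.val → ∀ i ∈ T, Real.log (F i) + ε / 2 * X i ≤ Real.log (G l i)) →
      ((ν + 2) * (N + 2)) ^ b ≤ T.card →
      Out S ε X G F T ν R ∨
      ∃ l : Fin t, l.val < j ∧ ∃ T' ⊆ T, T'.card = N ∧ ∃ c : Fin t → ℝ,
        (∀ i ∈ T', F i + comb G c i ≠ 0 ∧ |Real.log (F i + comb G c i)| ≤ 2 * S * X i) ∧
        ∀ l' : Fin t, l.val ≤ l'.val → ∀ i ∈ T',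
          Real.log (F i + comb G c i) + ε / 2 * X i ≤ Real.log (G l' i) := by
  obtain ⟨K1, b1, hK1, hres⟩ := mod_res t S ε hS hε hε1
  obtain ⟨K2, b2, hK2, hgap⟩ := mod_gap t S ε hS hε hε1
  refine ⟨max K1 K2, t * b1 + b2, le_max_of_le_left hK1, ?_⟩
  intro ν N R j X G T F hRν hLac hFl hF hND hbig hcard
  have hX : ∀ i ∈ T, 0 ≤ X i := fun i hi =>
    (zero_le_one.trans (le_max_of_le_left hK1)).trans (hLac.1 i hi)
  by_contra hcon
  push Not at hcon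
  obtain ⟨hcon1, hcon2⟩ := hcon
  obtain ⟨B, hB⟩ : ∃ B : ℕ, B = ((ν + 2) * (N + 2)) ^ b1 := ⟨_, rfl⟩
  have hB1 : 1 ≤ B := by
    rw [hB]
    exact Nat.one_le_pow _ _ (by positivity)
  have key : ∀ m : ℕ, m ≤ t → ∃ T' ⊆ T, B ^ (t - m) * (ν + 2) ^ b2 ≤ T'.card ∧
      ∀ l : Fin t, l.val < m → l.val < j → ∀ i ∈ T', ∀ i' ∈ T', i < i' →
        ε / 4 * X i + ε / 4 * X i' ≤ |(Real.log (F i) - Real.log (G l i)) -
          (Real.log (F i') - Real.log (G l i'))| := by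
    intro m
    induction m with
    | zero =>
      intro _
      refine ⟨T, Finset.Subset.refl _, ?_, ?_⟩
      · refine le_trans ?_ hcard
        rw [Nat.sub_zero, hB, ← pow_mul, pow_add, mul_comm b1 t]
        apply Nat.mul_le_mul_left
        apply Nat.pow_le_pow_left
        exact Nat.le_mul_of_pos_right _ (by positivity)
      · intro l hl
        exact absurd hl (Nat.not_lt_zero _)
    | succ m ih =>
      intro hm
      obtain ⟨T₁, hT₁, hc₁, hs₁⟩ := ih (by omega)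
      have e1 : t - m = (t - (m + 1)) + 1 := by omega
      by_cases hmj : m < j
      · have hc2 : (B ^ (t - (m + 1)) * (ν + 2) ^ b2) * B ≤ T₁.card := by
          refine le_trans (le_of_eq ?_) hc₁
          rw [e1, pow_succ]
          ring
        rcases ivl (B ^ (t - (m + 1)) * (ν + 2) ^ b2) B T₁
          (fun i => Real.log (F i) - Real.log (G ⟨m, by omega⟩ i)) (fun i => ε / 4 * X i)
          (fun i hi => mul_nonneg (by linarith) (hX i (hT₁ hi))) hc2 with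
          ⟨T₂, hT₂, hc₂, hs₂⟩ | ⟨T₂, hT₂, hc₂, κ, hs₂⟩
        · refine ⟨T₂, hT₂.trans hT₁, hc₂.ge, ?_⟩
          intro l hl hlj i hi i' hi' hii'
          rcases Nat.lt_succ_iff_lt_or_eq.1 hl with h | h
          · exact hs₁ l h hlj i (hT₂ hi) i' (hT₂ hi') hii'
          · have hl' : l = ⟨m, by omega⟩ := Fin.ext h
            rw [hl']
            exact hs₂ i hi i' hi' hii'
        · exfalso
          have hT₂T : T₂ ⊆ T := hT₂.trans hT₁
          rcases hres ν N R X G T₂ F ⟨m, by omega⟩ κ hRν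
            (lac_mono K1 (max K1 K2) hK1 (le_max_left _ _) X T T₂ hT₂T hLac)
            (ms_flag_mono hT₂T hFl) (fun i hi => hF i (hT₂T hi)) (ms_nodep_mono hT₂T hND)
            hs₂ (by rw [hc₂, hB]) with h | ⟨T₃, hT₃, hc₃, c, h1, h2⟩
          · exact hcon1 (ms_out_mono hT₂T h)
          · obtain ⟨l', hl', i, hi, hlt⟩ := hcon2 ⟨m, by omega⟩ hmj T₃ (hT₃.trans hT₂T) hc₃ c h1
            have h3 := h2 i hi
            rcases eq_or_lt_of_le hl' with h | h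
            · have e2 : l' = ⟨m, by omega⟩ := Fin.ext h.symm
              rw [e2] at hlt
              exact absurd h3 (not_le.2 hlt)
            · have h4 := hFl.2 ⟨m, by omega⟩ l' h i (hT₂T (hT₃ hi))
              have h5 : 0 ≤ ε / 8 * X i := mul_nonneg (by linarith) (hX i (hT₂T (hT₃ hi)))
              linarith
      · refine ⟨T₁, hT₁, le_trans ?_ hc₁, ?_⟩
        · rw [e1, pow_succ]
          have h1 : B ^ (t - (m + 1)) * 1 ≤ B ^ (t - (m + 1)) * B := Nat.mul_le_mul_left _ hB1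
          rw [mul_one] at h1
          exact Nat.mul_le_mul_right _ h1
        · intro l hl hlj i hi i' hi' hii'
          exact hs₁ l (by omega) hlj i hi i' hi' hii'
  obtain ⟨T', hT', hc', hs'⟩ := key t le_rfl
  rw [Nat.sub_self, pow_zero, one_mul] at hc'
  exact hcon1 (ms_out_mono hT' (hgap ν R j X G T' F
    (lac_mono K2 (max K1 K2) hK2 (le_max_right _ _) X T T' hT' hLac) (ms_flag_mono hT' hFl)
    (fun i hi => hF i (hT' hi)) (fun l hl => hs' l l.2 hl)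
    (fun l hl i hi => hbig l hl i (hT' hi)) hc'))

end RC
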