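import Pool.Agent.Helper850.RF.Defs

set_option autoImplicit false

namespace RC
open Finset BigOperators


lemma comb_add' {t : ℕ} (G : Fin t → ℕ → ℝ) (c c' : Fin t → ℝ) (i : ℕ) :
    comb G (c + c') i = comb G c i + comb G c' i := by
  unfold comb
  rw [← Finset.sum_add_distrib]
  exact Finset.sum_congr rfl fun j _ => by rw [Pi.add_apply]; ring

theorem nodep_shift (t : ℕ) (K h : ℝ) (X : ℕ → ℝ) (G : Fin t → ℕ → ℝ) (F : ℕ → ℝ)
    (T T' : Finset ℕ) (hT : T' ⊆ T) (c : Fin t → ℝ) (hN : NoDep K X G F h T) :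
    NoDep K X G (fun i => F i + comb G c i) h T' := by
  intro J hJ hc i hi hlt c' h0
  have h1 := hN J (hJ.trans hT) hc i (hT hi) hlt (c + c') (fun q hq => by
    rw [comb_add', ← add_assoc]; exact h0 q hq)
  rw [comb_add', ← add_assoc] at h1
  exact h1

end RC
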