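import Pool.Agent.Helper850.RF.Defs

set_option autoImplicit false

namespace RC
open Finset BigOperators


theorem out_shift (t : ℕ) (S ε : ℝ) (X : ℕ → ℝ) (G : Fin t → ℕ → ℝ) (F F' : ℕ → ℝ)
    (T T' : Finset ℕ) (ν R : ℕ) (hT : T' ⊆ T) (σ : ℝ) (hσ : σ ≠ 0) (c : Fin t → ℝ)
    (hF : ∀ i, F' i = σ * (F i + comb G c i)) (h : Out S ε X G F' T' ν R) :
    Out S ε X G F T ν R := by
  have hcomb : ∀ (a b : ℝ) (p q : Fin t → ℝ) (i : ℕ),
      comb G (fun j => a * p j + b * q j) i = a * comb G p i + b * comb G q i := by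
    intro a b p q i
    unfold comb
    rw [Finset.mul_sum, Finset.mul_sum, ← Finset.sum_add_distrib]
    exact Finset.sum_congr rfl fun j _ => by ring
  have e1 : ∀ (c' : Fin t → ℝ) (i : ℕ), F' i + comb G c' i =
      σ * (F i + comb G (fun j => 1 * c j + σ⁻¹ * c' j) i) := by
    intro c' i
    rw [hF, hcomb]
    field_simp
    ring
  have e2 : ∀ (s : ℝ) (c' : Fin t → ℝ) (i : ℕ), s * F' i + comb G c' i =
      (s * σ) * F i + comb G (fun j => (s * σ) * c j + 1 * c' j) i := by
    intro s c' i
    rw [hF, hcomb]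
    ring
  rcases h with h | h | h | h
  · left
    obtain ⟨T1, hT1, hc1, c', h1⟩ := h
    refine ⟨T1, hT1.trans hT, hc1, fun j => 1 * c j + σ⁻¹ * c' j, fun i hi => ?_⟩
    have := h1 i hi
    rw [e1] at this
    exact (mul_eq_zero.1 this).resolve_left hσ
  · right; left
    obtain ⟨T1, hT1, hc1, s, c', hs, h1, h2⟩ := h
    refine ⟨T1, hT1.trans hT, hc1, s * σ, fun j => (s * σ) * c j + 1 * c' j, mul_ne_zero hs hσ, ?_, ?_⟩
    · intro i hi
      rw [← e2]
      exact h1 i hi
    · intro j
      rcases h2 j with h3 | h3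
      · left
        intro i hi
        rw [← e2]
        exact h3 i hi
      · right
        intro i hi
        rw [← e2]
        exact h3 i hi
  · right; right; left
    obtain ⟨Q, hQ, hc1, c', h1, h2⟩ := h
    refine ⟨Q, hQ.trans hT, hc1, fun j => 1 * c j + σ⁻¹ * c' j, ?_, ?_⟩
    · intro i hi h0
      have := h1 i hi
      simp only [e1] at this
      exact this (by beta_reduce at h0; rw [h0, mul_zero])
    · intro i hi i' hi' hii
      have h3 := h2 i hi i' hi' hii
      have h4 := h1 i hi
      have h5 := h1 i' hi'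
      simp only [e1] at h3 h4 h5
      have h6 := right_ne_zero_of_mul h4
      have h7 := right_ne_zero_of_mul h5
      rw [Real.log_mul hσ h6, Real.log_mul hσ h7] at h3
      have e8 : ∀ a b d : ℝ, a + b - (a + d) = b - d := fun a b d => by ring
      rw [e8] at h3
      exact h3
  · right; right; right
    obtain ⟨T1, hT1, hc1, s, c', j, hs, h1⟩ := h
    refine ⟨T1, hT1.trans hT, hc1, s * σ, fun j => (s * σ) * c j + 1 * c' j, j, mul_ne_zero hs hσ, ?_⟩
    have e3 : (fun i => s * F' i + comb G c' i) =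
        (fun i => (s * σ) * F i + comb G (fun j => (s * σ) * c j + 1 * c' j) i) := by
      funext i
      exact e2 s c' i
    rw [← e3]
    exact h1

end RC
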