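import Pool.Agent.Helper850.RF.Defs
import Pool.Agent.Helper850.RF.P_lac_mono
import Pool.Agent.Helper850.RF.P_out_shift
import Pool.Agent.Helper850.RF.P_nodep_shift
import Pool.Agent.Helper850.RF.P_mod_step

set_option autoImplicit false

namespace RC
open Finset BigOperators


/-- the statement of the induction for the level `j` -/
def MLStmt (t : ℕ) (S ε K₀ : ℝ) (j b : ℕ) : Prop :=
  ∀ (ν R : ℕ) (X : ℕ → ℝ) (G : Fin t → ℕ → ℝ)
      (T : Finset ℕ) (F : ℕ → ℝ), R ≤ ν → Lac K₀ X T → Flagd (ε / 8) (2 * S) X G T →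
      (∀ i ∈ T, F i ≠ 0 ∧ |Real.log (F i)| ≤ 2 * S * X i) → NoDep (72 * S) X G F 0 T →
      (∀ l : Fin t, j ≤ l.val → ∀ i ∈ T, Real.log (F i) + ε / 2 * X i ≤ Real.log (G l i)) →
      (ν + 2) ^ b ≤ T.card → Out S ε X G F T ν R

theorem MLStmt_mono (t : ℕ) (S ε K₀ : ℝ) (j b b' : ℕ) (hb : b ≤ b') (h : MLStmt t S ε K₀ j b) :
    MLStmt t S ε K₀ j b' := by
  intro ν R X G T F h1 h2 h3 h4 h5 h6 h7
  exact h ν R X G T F h1 h2 h3 h4 h5 h6 ((Nat.pow_le_pow_right (by omega) hb).trans h7)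

theorem MLStmt_step (t : ℕ) (S ε K₀ : ℝ) (hK : 1 ≤ K₀) (b₀ : ℕ)
    (hstep : ∀ (ν N R j : ℕ) (X : ℕ → ℝ) (G : Fin t → ℕ → ℝ)
      (T : Finset ℕ) (F : ℕ → ℝ), R ≤ ν → Lac K₀ X T → Flagd (ε / 8) (2 * S) X G T →
      (∀ i ∈ T, F i ≠ 0 ∧ |Real.log (F i)| ≤ 2 * S * X i) → NoDep (72 * S) X G F 0 T →
      (∀ l : Fin t, j ≤ l.val → ∀ i ∈ T, Real.log (F i) + ε / 2 * X i ≤ Real.log (G l i)) →
      ((ν + 2) * (N + 2)) ^ b₀ ≤ T.card →
      Out S ε X G F T ν R ∨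
      ∃ l : Fin t, l.val < j ∧ ∃ T' ⊆ T, T'.card = N ∧ ∃ c : Fin t → ℝ,
        (∀ i ∈ T', F i + comb G c i ≠ 0 ∧ |Real.log (F i + comb G c i)| ≤ 2 * S * X i) ∧
        ∀ l' : Fin t, l.val ≤ l'.val → ∀ i ∈ T',
          Real.log (F i + comb G c i) + ε / 2 * X i ≤ Real.log (G l' i))
    (j B : ℕ) (hB : ∀ j' < j, MLStmt t S ε K₀ j' B) : MLStmt t S ε K₀ j ((B + 3) * b₀) := by
  intro ν R X G T F h1 h2 h3 h4 h5 h6 h7
  have hcard : ((ν + 2) * ((ν + 2) ^ B + 2)) ^ b₀ ≤ T.card := by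
    refine le_trans ?_ h7
    rw [pow_mul]
    apply Nat.pow_le_pow_left
    have e1 : 1 ≤ (ν + 2) ^ B := Nat.one_le_pow _ _ (by omega)
    have e2 : 4 ≤ (ν + 2) ^ 2 := by nlinarith
    calc (ν + 2) * ((ν + 2) ^ B + 2) ≤ (ν + 2) * ((ν + 2) ^ B * 4) := by
          apply Nat.mul_le_mul_left
          omega
      _ ≤ (ν + 2) * ((ν + 2) ^ B * (ν + 2) ^ 2) := by
          apply Nat.mul_le_mul_left
          apply Nat.mul_le_mul_left
          exact e2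
      _ = (ν + 2) ^ (B + 3) := by ring
  rcases hstep ν ((ν + 2) ^ B) R j X G T F h1 h2 h3 h4 h5 h6 hcard with h | ⟨l, hl, T', hT', hc', c, hc1, hc2⟩
  · exact h
  · have hout : Out S ε X G (fun i => F i + comb G c i) T' ν R := by
      apply hB l.val hl ν R X G T' (fun i => F i + comb G c i) h1 (lac_mono K₀ K₀ hK le_rfl X T T' hT' h2)
      · exact ⟨fun j i hi => h3.1 j i (hT' hi), fun j l hjl i hi => h3.2 j l hjl i (hT' hi)⟩
      · exact hc1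
      · exact nodep_shift t (72 * S) 0 X G F T T' hT' c h5
      · exact hc2
      · exact hc'.ge
    exact out_shift t S ε X G F (fun i => F i + comb G c i) T T' ν R hT' 1 one_ne_zero c
      (fun i => (one_mul _).symm) hout

theorem mod_loop (t : ℕ) (S ε : ℝ) (hS : 1 ≤ S) (hε : 0 < ε) (hε1 : ε ≤ 1) :
    ∃ (K₀ : ℝ) (b : ℕ), 1 ≤ K₀ ∧ ∀ (ν R : ℕ) (X : ℕ → ℝ) (G : Fin t → ℕ → ℝ)
      (T : Finset ℕ) (F : ℕ → ℝ), R ≤ ν → Lac K₀ X T → Flagd (ε / 8) (2 * S) X G T →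
      (∀ i ∈ T, F i ≠ 0 ∧ |Real.log (F i)| ≤ 2 * S * X i) → NoDep (72 * S) X G F 0 T →
      (ν + 2) ^ b ≤ T.card → Out S ε X G F T ν R := by
  obtain ⟨K₀, b₀, hK, hstep⟩ := mod_step t S ε hS hε hε1
  have key : ∀ j : ℕ, ∃ B : ℕ, ∀ j' < j, MLStmt t S ε K₀ j' B := by
    intro j
    induction j with
    | zero => exact ⟨0, fun j' hj' => absurd hj' (Nat.not_lt_zero _)⟩
    | succ j ih =>
      obtain ⟨B, hB⟩ := ih
      refine ⟨max B ((B + 3) * b₀), fun j' hj' => ?_⟩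
      rcases Nat.lt_succ_iff_lt_or_eq.1 hj' with h | h
      · exact MLStmt_mono t S ε K₀ j' _ _ (le_max_left _ _) (hB j' h)
      · subst h
        exact MLStmt_mono t S ε K₀ j' _ _ (le_max_right _ _) (MLStmt_step t S ε K₀ hK b₀ hstep j' B hB)
  obtain ⟨B, hB⟩ := key (t + 1)
  refine ⟨K₀, B, hK, ?_⟩
  intro ν R X G T F h1 h2 h3 h4 h5 h6
  refine hB t (Nat.lt_succ_self t) ν R X G T F h1 h2 h3 h4 h5 ?_ h6
  intro l hl
  exact absurd l.2 (not_lt.2 hl)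

end RC
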