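import Pool.Agent.Helper850.RF.Defs
import Pool.Agent.Helper850.RF.P_lac_mono
import Pool.Agent.Helper850.RF.P_ivl
import Pool.Agent.Helper850.RF.P_chain
import Pool.Agent.Helper850.RF.P_out_shift
import Pool.Agent.Helper850.RF.P_mod_loop

set_option autoImplicit false

namespace RC
open Finset BigOperators


theorem stage_comb_zero {m : ℕ} (F : Fin m → ℕ → ℝ) (i : ℕ) : comb F (fun _ => 0) i = 0 := by
  unfold comb
  simp

theorem stage_comb_smul {m : ℕ} (F : Fin m → ℕ → ℝ) (a : ℝ) (c : Fin m → ℝ) (i : ℕ) :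
    comb F (fun j => a * c j) i = a * comb F c i := by
  unfold comb
  rw [Finset.mul_sum]
  exact Finset.sum_congr rfl fun j _ => by ring

theorem stage_tame_mono {S : ℝ} {X F : ℕ → ℝ} {T T' : Finset ℕ} (h : Wild S X F T)
    (hT : T' ⊆ T) : Wild S X F T' :=
  ⟨fun i hi => h.1 i (hT hi), fun i hi i' hi' hlt => h.2 i (hT hi) i' (hT hi') hlt⟩

theorem stage_flagd_mono {t : ℕ} {ε S : ℝ} {X : ℕ → ℝ} {G : Fin t → ℕ → ℝ} {T T' : Finset ℕ}
    (h : Flagd ε S X G T) (hT : T' ⊆ T) : Flagd ε S X G T' :=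
  ⟨fun j i hi => h.1 j i (hT hi), fun j l hjl i hi => h.2 j l hjl i (hT hi)⟩

theorem stage_num (ν R bm bc : ℕ) :
    ν + ν * ((ν + 2) ^ bm + ν + 2) ^ (bc * (R + 2)) ≤
      (ν + 2) ^ ((2 + 2 * (bm + 2) * bc) * (R + 1)) := by
  have hy : 2 ≤ ν + 2 := by omega
  have hy1 : 1 ≤ ν + 2 := by omega
  have h1 : (ν + 2) ^ bm + ν + 2 ≤ (ν + 2) ^ (bm + 2) := by
    have e1 : (ν + 2) ^ bm ≤ (ν + 2) ^ (bm + 1) := Nat.pow_le_pow_right hy1 (by omega)
    have e2 : (ν + 2) ^ 1 ≤ (ν + 2) ^ (bm + 1) := Nat.pow_le_pow_right hy1 (by omega)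
    have e3 : 2 * (ν + 2) ^ (bm + 1) ≤ (ν + 2) * (ν + 2) ^ (bm + 1) :=
      Nat.mul_le_mul_right _ hy
    have e4 : (ν + 2) * (ν + 2) ^ (bm + 1) = (ν + 2) ^ (bm + 2) := by
      rw [← pow_succ']
    rw [pow_one] at e2
    omega
  have h2 : ((ν + 2) ^ bm + ν + 2) ^ (bc * (R + 2)) ≤
      (ν + 2) ^ ((2 * (bm + 2) * bc) * (R + 1)) := by
    calc ((ν + 2) ^ bm + ν + 2) ^ (bc * (R + 2)) ≤ ((ν + 2) ^ (bm + 2)) ^ (bc * (R + 2)) :=
          Nat.pow_le_pow_left h1 _
      _ = (ν + 2) ^ ((bm + 2) * (bc * (R + 2))) := by rw [← pow_mul]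
      _ ≤ _ := by
          apply Nat.pow_le_pow_right hy1
          have : R + 2 ≤ 2 * (R + 1) := by omega
          calc (bm + 2) * (bc * (R + 2)) ≤ (bm + 2) * (bc * (2 * (R + 1))) := by gcongr
            _ = _ := by ring
  set Z := (ν + 2) ^ ((2 * (bm + 2) * bc) * (R + 1)) with hZ
  have hZ1 : 1 ≤ Z := Nat.one_le_pow _ _ (by omega)
  calc ν + ν * ((ν + 2) ^ bm + ν + 2) ^ (bc * (R + 2)) ≤ ν + ν * Z := by gcongr
    _ ≤ (ν + 2) * ((ν + 2) * Z) := by nlinarith [Nat.zero_le ν, Nat.zero_le (ν * Z)]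
    _ = (ν + 2) ^ (2 + (2 * (bm + 2) * bc) * (R + 1)) := by rw [hZ]; ring
    _ ≤ _ := by
        apply Nat.pow_le_pow_right hy1
        nlinarith [Nat.zero_le R]

theorem stage (t : ℕ) (ht : 1 ≤ t) (S ε : ℝ) (hS : 1 ≤ S) (hε : 0 < ε) (hε1 : ε ≤ 1) :
    ∃ (K₀ : ℝ) (b : ℕ), 1 ≤ K₀ ∧ ∀ (ν R : ℕ) (X : ℕ → ℝ) (G : Fin t → ℕ → ℝ)
      (T : Finset ℕ) (F : ℕ → ℝ), R ≤ ν → Lac K₀ X T → Flagd (ε / 8) (2 * S) X G T →
      (ν + 2) ^ (b * (R + 1)) ≤ T.card → Out S ε X G F T ν R := by
  classical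
  obtain ⟨K₁, bm, hK₁, Hm⟩ := mod_loop t S ε hS hε hε1
  obtain ⟨K₂, bc, hK₂, Hc⟩ := chain t ht (ε / 8) S (by linarith) (by linarith) hS
  refine ⟨max K₁ K₂, 2 + 2 * (bm + 2) * bc, le_max_of_le_left hK₁, ?_⟩
  intro ν R X G T F hRν hL hG hcard
  have hX1 : ∀ i ∈ T, 1 ≤ X i := fun i hi =>
    (hK₁.trans (le_max_left _ _)).trans (hL.1 i hi)
  have hnum := (stage_num ν R bm bc).trans hcard
  have hF0 : (fun i => F i + comb G (fun _ => 0) i) = F := by
    funext i
    rw [stage_comb_zero, add_zero]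
  by_cases hA : ν ≤ (T.filter (fun i => F i = 0)).card
  · obtain ⟨T', hT', hc⟩ := Finset.exists_subset_card_eq hA
    refine Or.inl ⟨T', hT'.trans (Finset.filter_subset _ _), hc, fun _ => 0, ?_⟩
    intro i hi
    rw [stage_comb_zero, add_zero]
    exact (Finset.mem_filter.1 (hT' hi)).2
  · have hsplit := Finset.card_filter_add_card_filter_not (s := T) (fun i => F i = 0)
    have hT1 : ν * ((ν + 2) ^ bm + ν + 2) ^ (bc * (R + 2)) ≤
        (T.filter (fun i => ¬ F i = 0)).card := by omega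
    have hT1sub : T.filter (fun i => ¬ F i = 0) ⊆ T := Finset.filter_subset _ _
    rcases ivl ν (((ν + 2) ^ bm + ν + 2) ^ (bc * (R + 2))) (T.filter (fun i => ¬ F i = 0))
      (fun i => Real.log (F i)) (fun i => S * X i)
      (fun i hi => mul_nonneg (by linarith) (by linarith [hX1 i (hT1sub hi)])) hT1 with
      ⟨T', hT', hc, hsep⟩ | ⟨T₂, hT₂, hc, h, hh⟩
    · obtain ⟨Q, hQ, hQc⟩ := Finset.exists_subset_card_eq (hc.symm ▸ hRν : R ≤ T'.card)
      refine Or.inr (Or.inr (Or.inl ⟨Q, (hQ.trans hT').trans hT1sub, hQc, fun _ => 0, ?_⟩))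
      rw [hF0]
      refine ⟨fun i hi => (Finset.mem_filter.1 (hT' (hQ hi))).2, ?_⟩
      intro i hi i' hi' hlt
      have := hsep i (hQ hi) i' (hQ hi') hlt
      rw [mul_add]
      exact this
    · have hT₂T : T₂ ⊆ T := hT₂.trans hT1sub
      have hTame : Tame S X F h T₂ := fun i hi =>
        ⟨(Finset.mem_filter.1 (hT₂ hi)).2, hh i hi⟩
      have hL2 : Lac K₂ X T₂ := lac_mono K₂ (max K₁ K₂) hK₂ (le_max_right _ _) X T T₂ hT₂T hL
      have hν₁ : ν ≤ (ν + 2) ^ bm + ν := by omega
      rcases Hc (R + 1) ((ν + 2) ^ bm + ν) X G T₂ F h hL2 (stage_flagd_mono hG hT₂T) hTame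
        (by rw [hc]) with
        ⟨T', hT', hc', c, h', ht', hnd⟩ | ⟨T', hT', hc', c, hz⟩ | ⟨T', hT', hc', c, hw⟩ |
        ⟨Q, hQ, E, hE, hQc, hEc, c, hE1, hQ1, hQ2⟩
      · have hT'T : T' ⊆ T := hT'.trans hT₂T
        have hσ : Real.exp (-h') ≠ 0 := (Real.exp_pos _).ne'
        refine out_shift t S ε X G F (fun i => Real.exp (-h') * (F i + comb G c i)) T T' ν R hT'T
          (Real.exp (-h')) hσ c (fun _ => rfl) ?_
        refine Hm ν R X G T' _ hRν
          (lac_mono K₁ (max K₁ K₂) hK₁ (le_max_left _ _) X T T' hT'T hL)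
          (stage_flagd_mono hG hT'T) ?_ ?_ (by rw [hc']; omega)
        · intro i hi
          obtain ⟨g1, g2⟩ := ht' i hi
          have g1' : F i + comb G c i ≠ 0 := g1
          refine ⟨mul_ne_zero hσ g1', ?_⟩
          show |Real.log (Real.exp (-h') * (F i + comb G c i))| ≤ 2 * S * X i
          rw [Real.log_mul hσ g1', Real.log_exp]
          have g2' : |Real.log (F i + comb G c i) - h'| ≤ S * X i := g2
          have e : -h' + Real.log (F i + comb G c i) = Real.log (F i + comb G c i) - h' := by ring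
          rw [e]
          refine g2'.trans ?_
          have := hX1 i (hT'T hi)
          nlinarith
        · intro J hJ hJc i hi hlt c' hc0
          have hexp : Real.exp (-h') * Real.exp h' = 1 := by
            rw [← Real.exp_add]; simp
          have key : ∀ q, Real.exp (-h') * ((F q + comb G c q) +
              comb G (fun j => Real.exp h' * c' j) q) =
              Real.exp (-h') * (F q + comb G c q) + comb G c' q := by
            intro q
            rw [stage_comb_smul, mul_add, ← mul_assoc, hexp, one_mul]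
          have h5 := hnd J hJ hJc i hi hlt (fun j => Real.exp h' * c' j) (by
            intro q hq
            have h6 := hc0 q hq
            have h7 : Real.exp (-h') * ((F q + comb G c q) +
              comb G (fun j => Real.exp h' * c' j) q) = 0 := by
              rw [key q]
              exact h6
            exact (mul_eq_zero.1 h7).resolve_left hσ)
          have h5' : Real.exp (h' - 72 * S * X i) ≤ |(F i + comb G c i) +
              comb G (fun j => Real.exp h' * c' j) i| := h5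
          show Real.exp (0 - 72 * S * X i) ≤ |Real.exp (-h') * (F i + comb G c i) + comb G c' i|
          rw [← key i, abs_mul, abs_of_pos (Real.exp_pos _)]
          have e : Real.exp (0 - 72 * S * X i) = Real.exp (-h') * Real.exp (h' - 72 * S * X i) := by
            rw [← Real.exp_add]
            congr 1
            ring
          rw [e]
          exact mul_le_mul_of_nonneg_left h5' (Real.exp_pos _).le
      · obtain ⟨T'', hT'', hc''⟩ := Finset.exists_subset_card_eq (hc'.symm ▸ hν₁ : ν ≤ T'.card)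
        exact Or.inl ⟨T'', (hT''.trans hT').trans hT₂T, hc'', c, fun i hi => hz i (hT'' hi)⟩
      · obtain ⟨T'', hT'', hc''⟩ := Finset.exists_subset_card_eq
          (hc'.symm ▸ (hRν.trans hν₁) : R ≤ T'.card)
        exact Or.inr (Or.inr (Or.inl ⟨T'', (hT''.trans hT').trans hT₂T, hc'', c,
          stage_tame_mono hw hT''⟩))
      · have hQne : Q.Nonempty := by
          rw [← Finset.card_pos, hQc]
          omega
        have hmax := Q.max'_mem hQne
        have hQ'sub : Q.erase (Q.max' hQne) ⊆ Q := Finset.erase_subset _ _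
        refine Or.inr (Or.inr (Or.inl ⟨Q.erase (Q.max' hQne), (hQ'sub.trans hQ).trans hT₂T, ?_, c,
          ?_, ?_⟩))
        · rw [Finset.card_erase_of_mem hmax, hQc]
          omega
        · intro q hq
          have hqQ := hQ'sub hq
          have hlt : q < Q.max' hQne := lt_of_le_of_ne (Q.le_max' q hqQ) (Finset.ne_of_mem_erase hq)
          exact (hQ2 q hqQ _ hmax hlt).1
        · intro q hq q' hq' hlt
          have hqQ := hQ'sub hq
          have hq'Q := hQ'sub hq'
          have hlt' : q' < Q.max' hQne :=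
            lt_of_le_of_ne (Q.le_max' q' hq'Q) (Finset.ne_of_mem_erase hq')
          obtain ⟨g1, g2⟩ := hQ2 q hqQ q' hq'Q hlt
          have g3 := (hQ2 q' hq'Q _ hmax hlt').1
          have g4 : Real.log |F q' + comb G c q'| + 9 * S * X q' ≤ Real.log |F q + comb G c q| := by
            have := Real.log_le_log (mul_pos (abs_pos.2 g3) (Real.exp_pos _)) g2
            rwa [Real.log_mul (abs_pos.2 g3).ne' (Real.exp_pos _).ne', Real.log_exp] at this
          rw [Real.log_abs, Real.log_abs] at g4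
          have hXq := hX1 q (hT₂T (hQ hqQ))
          have hXq' := hX1 q' (hT₂T (hQ hq'Q))
          have hle : X q ≤ X q' := by
            have h8 := hL.2 q (hT₂T (hQ hqQ)) q' (hT₂T (hQ hq'Q)) hlt
            have h9 : 1 ≤ max K₁ K₂ := hK₁.trans (le_max_left _ _)
            nlinarith
          have h10 : S * (X q + X q') ≤ 9 * S * X q' := by nlinarith
          refine le_trans ?_ (le_abs_self _)
          show S * (X q + X q') ≤ Real.log (F q + comb G c q) - Real.log (F q' + comb G c q')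
          linarith

end RC
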