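import Pool.Agent.Helper850.RF.Defs
import Pool.Agent.Helper850.RF.P_lac_mono
import Pool.Agent.Helper850.RF.P_stage
import Pool.Agent.Helper850.RF.P_flag_insert

set_option autoImplicit false

namespace RC
open Finset BigOperators


/-- span membership on a set of indices -/
def phSp {n : ℕ} (P : ℕ → Prop) (G : Fin n → ℕ → ℝ) (f : ℕ → ℝ) : Prop :=
  ∃ c : Fin n → ℝ, ∀ i, P i → f i = comb G c i

theorem phSp_mem {n : ℕ} (P : ℕ → Prop) (G : Fin n → ℕ → ℝ) (j : Fin n) : phSp P G (G j) := by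
  refine ⟨Pi.single j 1, fun i _ => ?_⟩
  unfold comb
  rw [Finset.sum_eq_single j]
  · simp
  · intro l _ hl
    rw [Pi.single_eq_of_ne hl, zero_mul]
  · intro h
    exact absurd (Finset.mem_univ j) h

theorem phSp_add {n : ℕ} {P : ℕ → Prop} {G : Fin n → ℕ → ℝ} {f g : ℕ → ℝ} (hf : phSp P G f)
    (hg : phSp P G g) : phSp P G (fun i => f i + g i) := by
  obtain ⟨c, hc⟩ := hf
  obtain ⟨d, hd⟩ := hg
  refine ⟨c + d, fun i hi => ?_⟩
  simp only
  rw [hc i hi, hd i hi]
  unfold comb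
  rw [← Finset.sum_add_distrib]
  exact Finset.sum_congr rfl fun j _ => by rw [Pi.add_apply]; ring

theorem phSp_smul {n : ℕ} {P : ℕ → Prop} {G : Fin n → ℕ → ℝ} {f : ℕ → ℝ} (s : ℝ)
    (hf : phSp P G f) : phSp P G (fun i => s * f i) := by
  obtain ⟨c, hc⟩ := hf
  refine ⟨fun j => s * c j, fun i hi => ?_⟩
  simp only
  rw [hc i hi]
  unfold comb
  rw [Finset.mul_sum]
  exact Finset.sum_congr rfl fun j _ => by ring

theorem phSp_zero {n : ℕ} {P : ℕ → Prop} {G : Fin n → ℕ → ℝ} : phSp P G (fun _ => 0) := by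
  refine ⟨0, fun i _ => ?_⟩
  unfold comb
  simp

theorem phSp_comb {n t : ℕ} {P : ℕ → Prop} {G : Fin n → ℕ → ℝ} {H : Fin t → ℕ → ℝ}
    (hH : ∀ l, phSp P G (H l)) (c : Fin t → ℝ) : phSp P G (comb H c) := by
  have key : ∀ s : Finset (Fin t), phSp P G (fun i => ∑ l ∈ s, c l * H l i) := by
    intro s
    induction s using Finset.induction_on with
    | empty =>
      simp only [Finset.sum_empty]
      exact phSp_zero
    | insert a s ha ih =>
      simp only [Finset.sum_insert ha]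
      exact phSp_add (phSp_smul _ (hH a)) ih
  exact key Finset.univ

theorem ph_stage (S ε : ℝ) (hS : 1 ≤ S) (hε : 0 < ε) (hε1 : ε ≤ 1) (n : ℕ) :
    ∃ (K₀ : ℝ) (b : ℕ), 1 ≤ K₀ ∧ ∀ t : ℕ, 1 ≤ t → t ≤ n →
      ∀ (ν R : ℕ) (X : ℕ → ℝ) (G : Fin t → ℕ → ℝ)
      (T : Finset ℕ) (F : ℕ → ℝ), R ≤ ν → Lac K₀ X T → Flagd (ε / 8) (2 * S) X G T →
      (ν + 2) ^ (b * (R + 1)) ≤ T.card → Out S ε X G F T ν R := by
  induction n with
  | zero => exact ⟨1, 0, le_rfl, fun t h1 h2 => by omega⟩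
  | succ n ih =>
    obtain ⟨K1, b1, hK1, h1⟩ := ih
    obtain ⟨K2, b2, hK2, h2⟩ := stage (n + 1) (by omega) S ε hS hε hε1
    refine ⟨max K1 K2, max b1 b2, le_trans hK1 (le_max_left _ _), ?_⟩
    intro t ht htn ν R X G T F hR hL hG hcard
    rcases Nat.lt_or_ge n t with h | h
    · have : t = n + 1 := by omega
      subst this
      refine h2 ν R X G T F hR (lac_mono K2 _ hK2 (le_max_right _ _) X T T (Finset.Subset.refl _) hL)
        hG (le_trans (Nat.pow_le_pow_right (by omega) ?_) hcard)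
      exact Nat.mul_le_mul_right _ (le_max_right _ _)
    · refine h1 t ht h ν R X G T F hR
        (lac_mono K1 _ hK1 (le_max_left _ _) X T T (Finset.Subset.refl _) hL)
        hG (le_trans (Nat.pow_le_pow_right (by omega) ?_) hcard)
      exact Nat.mul_le_mul_right _ (le_max_left _ _)

theorem ph_flag_mono {t : ℕ} {ε S : ℝ} {X : ℕ → ℝ} {G : Fin t → ℕ → ℝ} {T T' : Finset ℕ}
    (h : Flagd ε S X G T) (hT : T' ⊆ T) : Flagd ε S X G T' :=
  ⟨fun j i hi => h.1 j i (hT hi), fun j l hjl i hi => h.2 j l hjl i (hT hi)⟩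

theorem ph_arith (ν R bs bA a : ℕ) : ((ν + 2) ^ (bs * (R + 1)) + ν + 2) ^ ((bA * (R + 1)) ^ a) ≤
    (ν + 2) ^ (((bA + bs + 2) * (R + 1)) ^ (a + 1)) := by
  set u := ν + 2 with hu
  set e := bs * (R + 1) with he
  have h1 : u ^ e + ν + 2 ≤ u ^ (e + 2) := by
    have h2 : u ^ e ≤ u ^ (e + 1) := Nat.pow_le_pow_right (by omega) (by omega)
    have h3 : u ≤ u ^ (e + 1) := by
      calc u = u ^ 1 := (pow_one u).symm
        _ ≤ u ^ (e + 1) := Nat.pow_le_pow_right (by omega) (by omega)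
    have h4 : u ^ (e + 2) = u * u ^ (e + 1) := by ring
    have h5 : 2 * u ^ (e + 1) ≤ u * u ^ (e + 1) := Nat.mul_le_mul_right _ (by omega)
    rw [h4]
    omega
  have h6 : (e + 2) * (bA * (R + 1)) ^ a ≤ ((bA + bs + 2) * (R + 1)) ^ (a + 1) := by
    rw [pow_succ']
    apply Nat.mul_le_mul
    · rw [he]
      nlinarith
    · apply Nat.pow_le_pow_left
      apply Nat.mul_le_mul_right
      omega
  calc (u ^ e + ν + 2) ^ ((bA * (R + 1)) ^ a) ≤ (u ^ (e + 2)) ^ ((bA * (R + 1)) ^ a) :=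
        Nat.pow_le_pow_left h1 _
    _ = u ^ ((e + 2) * (bA * (R + 1)) ^ a) := (pow_mul _ _ _).symm
    _ ≤ _ := Nat.pow_le_pow_right (by omega) h6

theorem phase1_aux (m : ℕ) (S ε : ℝ) (hS : 1 ≤ S) (hε : 0 < ε) (hε1 : ε ≤ 1)
    (A : Finset (Fin m)) :
    ∃ (K₀ : ℝ) (b : ℕ), 1 ≤ K₀ ∧ ∀ (ν R : ℕ) (X : ℕ → ℝ) (Φ : Fin m → ℕ → ℝ)
      (T : Finset ℕ) (j₀ : Fin m), R ≤ ν → Lac K₀ X T → (∀ i ∈ T, Φ j₀ i = 1) →
      (ν + 2) ^ ((b * (R + 1)) ^ A.card) ≤ T.card →
      (∃ T' ⊆ T, T'.card = ν ∧ ∃ t : ℕ, 1 ≤ t ∧ t ≤ A.card + 1 ∧ ∃ G : Fin t → ℕ → ℝ,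
        Flagd (ε / 8) (2 * S) X G T' ∧ (∀ j, ∃ p : Fin m → ℝ, ∀ i, G j i = comb Φ p i) ∧
        ∀ r ∈ A, ∃ c : Fin t → ℝ, ∀ i ∈ T', Φ r i = comb G c i) ∨
      (∃ Q ⊆ T, Q.card = R ∧ ∃ p : Fin m → ℝ, Wild S X (comb Φ p) Q) ∨
      (∃ T' ⊆ T, T'.card = ν ∧ ∃ p q : Fin m → ℝ, Sprd ε X (comb Φ p) (comb Φ q) T') := by
  induction A using Finset.induction_on with
  | empty =>
    refine ⟨1, 0, le_rfl, ?_⟩
    intro ν R X Φ T j₀ hR hL hΦ hcard
    rw [Finset.card_empty, pow_zero, pow_one] at hcard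
    left
    obtain ⟨T', hT', hT'c⟩ := Finset.exists_subset_card_eq (show ν ≤ T.card by omega)
    refine ⟨T', hT', hT'c, 1, le_rfl, by simp, fun _ => Φ j₀, ⟨?_, ?_⟩, ?_, ?_⟩
    · intro j i hi
      show Φ j₀ i ≠ 0 ∧ |Real.log (Φ j₀ i)| ≤ 2 * S * X i
      rw [hΦ i (hT' hi)]
      refine ⟨one_ne_zero, ?_⟩
      rw [Real.log_one, abs_zero]
      have := hL.1 i (hT' hi)
      positivity
    · intro j l hjl
      exact absurd hjl (by rw [Subsingleton.elim j l]; exact lt_irrefl _)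
    · intro j
      obtain ⟨p, hp⟩ := phSp_mem (fun _ => True) Φ j₀
      exact ⟨p, fun i => hp i trivial⟩
    · intro r hr
      exact absurd hr (Finset.notMem_empty r)
  | insert r A hr ih =>
    obtain ⟨KA, bA, hKA, hA⟩ := ih
    obtain ⟨Ks, bs, hKs, hs⟩ := ph_stage S ε hS hε hε1 (A.card + 1)
    refine ⟨max KA Ks, bA + bs + 2, le_trans hKA (le_max_left _ _), ?_⟩
    intro ν R X Φ T j₀ hR hL hΦ hcard
    rw [Finset.card_insert_of_notMem hr] at hcard ⊢
    have hLA : Lac KA X T := lac_mono KA _ hKA (le_max_left _ _) X T T (Finset.Subset.refl _) hL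
    have hmain := hA ((ν + 2) ^ (bs * (R + 1)) + ν) R X Φ T j₀ (by omega) hLA hΦ
      (le_trans (ph_arith ν R bs bA A.card) hcard)
    rcases hmain with h1 | h1 | h1
    · obtain ⟨T₁, hT₁, hT₁c, t, ht1, htA, G, hG, hp, hspan⟩ := h1
      choose p hp using hp
      have hL1 : Lac Ks X T₁ := lac_mono Ks _ hKs (le_max_right _ _) X T T₁ hT₁ hL
      have hout := hs t ht1 htA ν R X G T₁ (Φ r) hR hL1 hG (by rw [hT₁c]; omega)
      have hΦG : ∀ c : Fin t → ℝ, phSp (fun _ => True) Φ (comb G c) := fun c =>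
        phSp_comb (fun l => ⟨p l, fun i _ => hp l i⟩) c
      rcases hout with h2 | h2 | h2 | h2
      · obtain ⟨T', hT', hT'c, c, hc⟩ := h2
        left
        refine ⟨T', hT'.trans hT₁, hT'c, t, ht1, by omega, G, ph_flag_mono hG hT',
          fun j => ⟨p j, hp j⟩, ?_⟩
        intro r' hr'
        rcases Finset.mem_insert.1 hr' with rfl | hr'
        · refine ⟨-c, fun i hi => ?_⟩
          have h3 := hc i hi
          have h4 : comb G (-c) i = - comb G c i := by
            unfold comb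
            rw [← Finset.sum_neg_distrib]
            exact Finset.sum_congr rfl fun j _ => by rw [Pi.neg_apply]; ring
          rw [h4]
          linarith
        · obtain ⟨c', hc'⟩ := hspan r' hr'
          exact ⟨c', fun i hi => hc' i (hT' hi)⟩
      · obtain ⟨T', hT', hT'c, s, c, hs0, hF, hcmp⟩ := h2
        left
        have hXpos : ∀ i ∈ T', 0 < X i := fun i hi => by
          have := hL1.1 i (hT' hi)
          linarith
        obtain ⟨G', hG', hG'1, ⟨jF, hjF⟩, hG'3⟩ := flag_insert t (ε / 8) (2 * S) (by linarith) X G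
          (fun i => s * Φ r i + comb G c i) T' hXpos (ph_flag_mono hG hT') hF hcmp
        have hGG' : ∀ l, phSp (fun i => i ∈ T') G' (G l) := by
          intro l
          obtain ⟨j, hj⟩ := hG'3 l
          rw [← hj]
          exact phSp_mem _ _ _
        refine ⟨T', hT'.trans hT₁, hT'c, t + 1, by omega, by omega, G', hG', ?_, ?_⟩
        · intro j
          rcases hG'1 j with h3 | ⟨l, h3⟩
          · have h4 : phSp (fun _ => True) Φ (fun i => s * Φ r i + comb G c i) :=
              phSp_add (phSp_smul s (phSp_mem _ _ r)) (hΦG c)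
            obtain ⟨q, hq⟩ := h4
            refine ⟨q, fun i => ?_⟩
            rw [h3]
            exact hq i trivial
          · exact ⟨p l, fun i => by rw [h3]; exact hp l i⟩
        · intro r' hr'
          rcases Finset.mem_insert.1 hr' with rfl | hr'
          · have h4 : phSp (fun i => i ∈ T') G' (fun i => s * Φ r' i + comb G c i) := by
              rw [← hjF]
              exact phSp_mem _ _ _
            have h5 : phSp (fun i => i ∈ T') G'
                (fun i => s⁻¹ * ((s * Φ r' i + comb G c i) + (-1) * comb G c i)) :=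
              phSp_smul _ (phSp_add h4 (phSp_smul (-1) (phSp_comb hGG' c)))
            obtain ⟨c', hc'⟩ := h5
            refine ⟨c', fun i hi => ?_⟩
            rw [← hc' i hi]
            field_simp
            ring
          · obtain ⟨c', hc'⟩ := hspan r' hr'
            obtain ⟨c'', hc''⟩ := phSp_comb hGG' c'
            refine ⟨c'', fun i hi => ?_⟩
            rw [← hc'' i hi]
            exact hc' i (hT' hi)
      · obtain ⟨Q, hQ, hQc, c, hW⟩ := h2
        right; left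
        obtain ⟨q, hq⟩ := phSp_add (phSp_mem (fun _ => True) Φ r) (hΦG c)
        refine ⟨Q, hQ.trans hT₁, hQc, q, ?_⟩
        have : comb Φ q = fun i => Φ r i + comb G c i := funext fun i => (hq i trivial).symm
        rw [this]
        exact hW
      · obtain ⟨T', hT', hT'c, s, c, j, hs0, hW⟩ := h2
        right; right
        obtain ⟨q, hq⟩ := phSp_add (phSp_smul s (phSp_mem (fun _ => True) Φ r)) (hΦG c)
        refine ⟨T', hT'.trans hT₁, hT'c, q, p j, ?_⟩
        have e1 : comb Φ q = fun i => s * Φ r i + comb G c i := funext fun i => (hq i trivial).symm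
        have e2 : comb Φ (p j) = G j := funext fun i => (hp j i).symm
        rw [e1, e2]
        exact hW
    · right; left
      exact h1
    · obtain ⟨T₁, hT₁, hT₁c, p, q, hS1, hS2⟩ := h1
      right; right
      obtain ⟨T', hT', hT'c⟩ := Finset.exists_subset_card_eq (show ν ≤ T₁.card by omega)
      exact ⟨T', hT'.trans hT₁, hT'c, p, q, fun i hi => hS1 i (hT' hi),
        fun i hi i' hi' hlt => hS2 i (hT' hi) i' (hT' hi') hlt⟩

end RC
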