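import Pool.Agent.Helper850.RF.Defs
import Pool.Agent.Helper850.RF.P_phase1_aux

set_option autoImplicit false

namespace RC
open Finset BigOperators


theorem phase1 (m : ℕ) (S ε : ℝ) (hS : 1 ≤ S) (hε : 0 < ε) (hε1 : ε ≤ 1) :
    ∃ (K₀ : ℝ) (b : ℕ), 1 ≤ K₀ ∧ ∀ (ν R : ℕ) (X : ℕ → ℝ) (Φ : Fin m → ℕ → ℝ)
      (T : Finset ℕ) (j₀ : Fin m), R ≤ ν → Lac K₀ X T → (∀ i ∈ T, Φ j₀ i = 1) →
      (ν + 2) ^ ((b * (R + 1)) ^ m) ≤ T.card →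
      (∃ T' ⊆ T, T'.card = ν ∧ ∃ t : ℕ, t ≤ m + 1 ∧ ∃ G : Fin t → ℕ → ℝ,
        Flagd (ε / 8) (2 * S) X G T' ∧
        ∀ r, ∃ c : Fin t → ℝ, ∀ i ∈ T', Φ r i = comb G c i) ∨
      (∃ Q ⊆ T, Q.card = R ∧ ∃ p : Fin m → ℝ, Wild S X (comb Φ p) Q) ∨
      (∃ T' ⊆ T, T'.card = ν ∧ ∃ p q : Fin m → ℝ, Sprd ε X (comb Φ p) (comb Φ q) T') := by
  obtain ⟨K₀, b, hK, hmain⟩ := phase1_aux m S ε hS hε hε1 Finset.univ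
  rw [Finset.card_fin] at hmain
  refine ⟨K₀, b, hK, ?_⟩
  intro ν R X Φ T j₀ hR hL h1 hT
  rcases hmain ν R X Φ T j₀ hR hL h1 hT with ⟨T', hT', hc, t, ht1, ht2, G, hG, hG2, hr⟩ | h | h
  · exact Or.inl ⟨T', hT', hc, t, ht2, G, hG, fun r => hr r (Finset.mem_univ r)⟩
  · exact Or.inr (Or.inl h)
  · exact Or.inr (Or.inr h)

end RC
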