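import Pool.Agent.Helper850.RF.Defs
import Pool.Agent.Helper850.RC.P_tow_mono
import Pool.Agent.Helper850.RC.P_tow_add
import Pool.Agent.Helper850.RC.P_tow_absorb
import Pool.Agent.Helper850.RC.P_tow_le_add

set_option autoImplicit false

namespace RC
open Finset BigOperators


theorem tow_comp (C₁ C₂ a₁ a₂ b : ℕ) : ∃ a' : ℕ, ∀ n m : ℕ,
    m ≤ tow C₂ (a₂ * (n + 1)) →
    tow C₁ (a₁ * (b * m + b + 1)) ≤ tow (C₁ + C₂) (a' * (n + 1)) := by
  obtain ⟨a', h⟩ := tow_absorb C₂ (a₁ * (b + 1)) a₂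
  refine ⟨a', fun n m hm => ?_⟩
  rw [← tow_add]
  apply tow_mono
  refine le_trans ?_ (h n)
  rw [mul_assoc]
  apply Nat.mul_le_mul_left
  calc b * m + b + 1 ≤ (b + 1) * (m + 1) := by nlinarith
    _ ≤ (b + 1) * (tow C₂ (a₂ * (n + 1)) + 1) := Nat.mul_le_mul_left _ (by omega)

end RC
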