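import Pool.Agent.Helper850.RF.Defs
import Pool.Agent.Helper850.RC.P_tow_mono
import Pool.Agent.Helper850.RC.P_tow_add
import Pool.Agent.Helper850.RC.P_tow_absorb
import Pool.Agent.Helper850.RC.P_tow_le_add

set_option autoImplicit false

namespace RC
open Finset BigOperators


theorem tow_thresh (C m b a : ℕ) : ∃ a' : ℕ, ∀ n ν R : ℕ,
    ν ≤ tow C (a * (n + 1)) → R ≤ tow C (a * (n + 1)) →
    (ν + 2) ^ ((b * (R + 1)) ^ m) ≤ tow (C + 2) (a' * (n + 1)) := by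
  obtain ⟨a', ha'⟩ := tow_absorb C (2 * (m + 1) * (b + 2)) a
  refine ⟨a', fun n ν R hν hR => ?_⟩
  have hP := ha' n
  generalize tow C (a * (n + 1)) = P at hν hR hP
  have e1 : (ν + 2) ^ ((b * (R + 1)) ^ m) ≤ (P + 2) ^ ((b * (P + 1)) ^ m) := by
    calc (ν + 2) ^ ((b * (R + 1)) ^ m) ≤ (P + 2) ^ ((b * (R + 1)) ^ m) :=
          Nat.pow_le_pow_left (by omega) _
      _ ≤ (P + 2) ^ ((b * (P + 1)) ^ m) :=
          Nat.pow_le_pow_right (by omega)
            (Nat.pow_le_pow_left (Nat.mul_le_mul_left b (by omega)) m)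
  have e2 : (P + 2) ^ ((b * (P + 1)) ^ m) ≤ 2 ^ ((P + 2) * (b * (P + 1)) ^ m) := by
    rw [pow_mul]
    exact Nat.pow_le_pow_left Nat.lt_two_pow_self.le _
  have e3 : (P + 2) * (b * (P + 1)) ^ m ≤ ((b + 2) * (P + 2)) ^ (m + 1) := by
    rw [pow_succ, mul_comm]
    apply Nat.mul_le_mul
    · exact Nat.pow_le_pow_left (Nat.mul_le_mul (by omega) (by omega)) m
    · nlinarith
  have e4 : ((b + 2) * (P + 2)) ^ (m + 1) ≤ 2 ^ (((b + 2) * (P + 2)) * (m + 1)) := by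
    rw [pow_mul]
    exact Nat.pow_le_pow_left Nat.lt_two_pow_self.le _
  have e5 : ((b + 2) * (P + 2)) * (m + 1) ≤ tow C (a' * (n + 1)) := by
    refine le_trans ?_ hP
    calc ((b + 2) * (P + 2)) * (m + 1) = ((m + 1) * (b + 2)) * (P + 2) := by ring
      _ ≤ ((m + 1) * (b + 2)) * (2 * (P + 1)) := Nat.mul_le_mul_left _ (by omega)
      _ = 2 * (m + 1) * (b + 2) * (P + 1) := by ring
  have e6 : tow (C + 2) (a' * (n + 1)) = 2 ^ (2 ^ (tow C (a' * (n + 1)))) := by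
    first
      | rfl
      | simp [tow]
  rw [e6]
  exact e1.trans (e2.trans (Nat.pow_le_pow_right (by omega)
    (e3.trans (e4.trans (Nat.pow_le_pow_right (by omega) e5)))))

end RC
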