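import Pool.Agent.Helper850.RF.Defs
import Pool.Agent.Helper850.RC.P_tow_mono
import Pool.Agent.Helper850.RC.P_tow_add
import Pool.Agent.Helper850.RC.P_tow_absorb
import Pool.Agent.Helper850.RC.P_tow_le_add
import Pool.Agent.Helper850.RF.P_genHom
import Pool.Agent.Helper850.RF.P_lac_mono
import Pool.Agent.Helper850.RF.P_phase1
import Pool.Agent.Helper850.RF.P_tow_thresh
import Pool.Agent.Helper850.RF.P_tow_comp
import Pool.Agent.Helper850.RF.P_flag_hom
import Pool.Agent.Helper850.RF.P_genB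
import Pool.Agent.Helper850.RF.P_genS
import Pool.Agent.Helper850.RF.P_conv

set_option autoImplicit false

namespace RC
open Finset BigOperators


theorem comb_lin845 {m : ℕ} (F : Fin m → ℕ → ℝ) (a b : ℝ) (p q : Fin m → ℝ) (i : ℕ) :
    comb F (a • q + b • p) i = a * comb F q i + b * comb F p i := by
  simp only [comb, Pi.add_apply, Pi.smul_apply, smul_eq_mul, add_mul, Finset.sum_add_distrib,
    Finset.mul_sum, mul_assoc]

theorem comb_neg845 {m : ℕ} (F : Fin m → ℕ → ℝ) (p : Fin m → ℝ) (i : ℕ) :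
    comb F (-p) i = - comb F p i := by
  simp only [comb, Pi.neg_apply, neg_mul, Finset.sum_neg_distrib]

theorem ev2_one845 (s y : ℝ) : ev2 1 s y = 1 := by
  simp [ev2]

theorem Bdeg_one845 (D : ℕ) : Bdeg D 1 := by
  constructor
  · simp
  · intro n
    rw [Polynomial.coeff_one]
    split_ifs <;> simp

theorem size845 (C_h C_B C_S C_f a_h a_B a_S a_f : ℕ) : ∃ a₁ : ℕ, ∀ n : ℕ,
    tow C_B (a_B * (tow C_h (a_h * (n + 1)) + 1)) + tow C_S (a_S * (tow C_h (a_h * (n + 1)) + 1)) +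
      tow C_f (a_f * (n + 1)) ≤ tow (C_h + C_B + C_S + C_f) (a₁ * (n + 1)) := by
  obtain ⟨x, hx⟩ := tow_comp C_B C_h a_B a_h 1
  obtain ⟨z, hz⟩ := tow_comp C_S C_h a_S a_h 1
  obtain ⟨a₁, ha₁⟩ := tow_absorb (C_h + C_B + C_S + C_f) 3 (x + z + a_f)
  refine ⟨a₁, fun n => ?_⟩
  have h1 : tow C_B (a_B * (tow C_h (a_h * (n + 1)) + 1)) ≤
      tow (C_h + C_B + C_S + C_f) ((x + z + a_f) * (n + 1)) := by
    refine (tow_mono _ _ _ ?_).trans ((hx n _ le_rfl).trans ?_)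
    · exact Nat.mul_le_mul_left _ (by omega)
    · have e : C_h + C_B + C_S + C_f = (C_B + C_h) + (C_S + C_f) := by ring
      rw [e]
      exact (tow_le_add _ _ _).trans (tow_mono _ _ _ (Nat.mul_le_mul_right _ (by omega)))
  have h2 : tow C_S (a_S * (tow C_h (a_h * (n + 1)) + 1)) ≤
      tow (C_h + C_B + C_S + C_f) ((x + z + a_f) * (n + 1)) := by
    refine (tow_mono _ _ _ ?_).trans ((hz n _ le_rfl).trans ?_)
    · exact Nat.mul_le_mul_left _ (by omega)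
    · have e : C_h + C_B + C_S + C_f = (C_S + C_h) + (C_B + C_f) := by ring
      rw [e]
      exact (tow_le_add _ _ _).trans (tow_mono _ _ _ (Nat.mul_le_mul_right _ (by omega)))
  have h3 : tow C_f (a_f * (n + 1)) ≤
      tow (C_h + C_B + C_S + C_f) ((x + z + a_f) * (n + 1)) := by
    have e : C_h + C_B + C_S + C_f = C_f + (C_h + C_B + C_S) := by ring
    rw [e]
    exact (tow_le_add _ _ _).trans (tow_mono _ _ _ (Nat.mul_le_mul_right _ (by omega)))
  have h4 := ha₁ n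
  omega

theorem core : ∃ C : ℕ, ∀ (D k : ℕ), ∃ (K : ℝ) (a : ℕ), 1 ≤ K ∧
    ∀ (n : ℕ) (T : Finset ℕ) (ξ y : ℕ → ℝ) (c : (Fin k → Fin ((D + 1) * (D + 1))) → ℝ),
      (∀ i ∈ T, 0 < ξ i) → Lac K (fun i => Real.log (ξ i)) T → tow C (a * (n + 1)) ≤ T.card →
      ∃ T' ⊆ T, T'.card = n ∧ SignHom (kval (mon D ξ y) c) T' := by
  obtain ⟨C_h, hh⟩ := genHom
  obtain ⟨C_B, hB⟩ := genB
  obtain ⟨C_S, hS⟩ := genS
  obtain ⟨C_f, hf⟩ := flag_hom
  refine ⟨C_h + C_B + C_S + C_f + 2, fun D k => ?_⟩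
  obtain ⟨N, Λ, a_h, hΛ, hh⟩ := hh D k
  obtain ⟨S, K_B, a_B, hS1, hKB, hB⟩ := hB N Λ hΛ
  obtain ⟨ε, K_S, a_S, hε, hε1, hKS, hS⟩ := hS N Λ hΛ
  obtain ⟨K_1, b, hK1, hp⟩ := phase1 ((D + 1) * (D + 1)) S ε hS1 hε hε1
  obtain ⟨K_f, a_f, hKf, hf⟩ := hf ((D + 1) * (D + 1)) k (ε / 8) (2 * S) (by positivity) (by linarith)
  obtain ⟨a₁, ha₁⟩ := size845 C_h C_B C_S C_f a_h a_B a_S a_f
  obtain ⟨a', ha'⟩ := tow_thresh (C_h + C_B + C_S + C_f) ((D + 1) * (D + 1)) b a₁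
  refine ⟨max (max K_B K_S) (max K_1 K_f), a', le_trans hKB ((le_max_left _ _).trans (le_max_left _ _)), ?_⟩
  intro n T ξ y c hξ hL hT
  have lB : K_B ≤ max (max K_B K_S) (max K_1 K_f) := (le_max_left _ _).trans (le_max_left _ _)
  have lS : K_S ≤ max (max K_B K_S) (max K_1 K_f) := (le_max_right _ _).trans (le_max_left _ _)
  have l1 : K_1 ≤ max (max K_B K_S) (max K_1 K_f) := (le_max_left _ _).trans (le_max_right _ _)
  have lf : K_f ≤ max (max K_B K_S) (max K_1 K_f) := (le_max_right _ _).trans (le_max_right _ _)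
  have hs := ha₁ n
  set n_h := tow C_h (a_h * (n + 1)) with hnh
  set R := tow C_B (a_B * (n_h + 1)) with hR
  set ν := R + tow C_S (a_S * (n_h + 1)) + tow C_f (a_f * (n + 1)) with hν
  have hRν : R ≤ ν := by omega
  have hcard := (ha' n ν R hs (hRν.trans hs)).trans hT
  have hD : 0 < (D + 1) * (D + 1) := by positivity
  have hone : ∀ i ∈ T, mon D ξ y ⟨0, hD⟩ i = 1 := by
    intro i _
    simp [mon]
  rcases hp ν R (fun i => Real.log (ξ i)) (mon D ξ y) T ⟨0, hD⟩ hRν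
    (lac_mono _ _ hK1 l1 _ _ _ (Finset.Subset.refl _) hL) hone hcard with
    ⟨T', hT', hc', t, ht, G, hG, hr⟩ | ⟨Q, hQ, hcQ, p, hw⟩ | ⟨T', hT', hc', p, q, hsp⟩
  · obtain ⟨T'', hT'', hc'', hsg⟩ := hf n t ht (fun i => Real.log (ξ i)) G (mon D ξ y) T' c
      (lac_mono _ _ hKf lf _ _ _ hT' hL) hG hr (by rw [hc']; omega)
    exact ⟨T'', hT''.trans hT', hc'', hsg⟩
  · obtain ⟨Q', hQ', hcQ', hsg, hgen⟩ := hB n_h (fun i => Real.log (ξ i)) (comb (mon D ξ y) p) Q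
      (lac_mono _ _ hKB lB _ _ _ hQ hL) hw (by rw [hcQ])
    have main : ∃ F : Polynomial (Polynomial ℝ), Bdeg D F ∧ (∀ i ∈ Q', 0 < ev2 F (ξ i) (y i)) ∧
        ∀ i, Real.log (ev2 F (ξ i) (y i)) = Real.log (comb (mon D ξ y) p i) := by
      rcases hsg with hsg | hsg
      · obtain ⟨F, hF, hF'⟩ := conv D p
        refine ⟨F, hF, fun i hi => ?_, fun i => ?_⟩
        · rw [← hF']; exact hsg i hi
        · rw [← hF']
      · obtain ⟨F, hF, hF'⟩ := conv D (-p)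
        refine ⟨F, hF, fun i hi => ?_, fun i => ?_⟩
        · rw [← hF', comb_neg845]; have := hsg i hi; linarith
        · rw [← hF', comb_neg845, Real.log_neg_eq_log]
    obtain ⟨F, hF, hFp, hFl⟩ := main
    obtain ⟨T'', hT'', hc'', hsg'⟩ := hh n Q' ξ y F 1 c hF (Bdeg_one845 D)
      (fun i hi => ⟨hξ i (hQ (hQ' hi)), by rw [ev2_one845]; exact one_ne_zero, by
        rw [ev2_one845, div_one]; exact hFp i hi⟩)
      (by
        have e : (fun i => Real.log (ev2 F (ξ i) (y i) / ev2 1 (ξ i) (y i))) =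
            fun i => Real.log (comb (mon D ξ y) p i) := by
          funext i
          rw [ev2_one845, div_one, hFl]
        rw [e]; exact hgen) (by rw [hcQ'])
    exact ⟨T'', hT''.trans (hQ'.trans hQ), hc'', hsg'⟩
  · obtain ⟨T1, hT1, hc1, p', q', hpos, hgen⟩ := hS n_h (fun i => Real.log (ξ i))
      (comb (mon D ξ y) p) (comb (mon D ξ y) q) T'
      (lac_mono _ _ hKS lS _ _ _ hT' hL) hsp (by rw [hc']; omega)
    obtain ⟨F₁, hF₁, hF₁'⟩ := conv D (q' 0 • q + q' 1 • p)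
    obtain ⟨G₁, hG₁, hG₁'⟩ := conv D (p' 0 • q + p' 1 • p)
    have eF : ∀ i, ev2 F₁ (ξ i) (y i) = q' 0 * comb (mon D ξ y) q i + q' 1 * comb (mon D ξ y) p i := by
      intro i; rw [← hF₁', comb_lin845]
    have eG : ∀ i, ev2 G₁ (ξ i) (y i) = p' 0 * comb (mon D ξ y) q i + p' 1 * comb (mon D ξ y) p i := by
      intro i; rw [← hG₁', comb_lin845]
    obtain ⟨T'', hT'', hc'', hsg'⟩ := hh n T1 ξ y F₁ G₁ c hF₁ hG₁
      (fun i hi => ⟨hξ i (hT' (hT1 hi)), by rw [eG]; exact (hpos i hi).1.ne', by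
        rw [eF, eG]; exact div_pos (hpos i hi).2 (hpos i hi).1⟩)
      (by
        have e : (fun i => Real.log (ev2 F₁ (ξ i) (y i) / ev2 G₁ (ξ i) (y i))) =
            fun i => Real.log ((q' 0 * comb (mon D ξ y) q i + q' 1 * comb (mon D ξ y) p i) /
              (p' 0 * comb (mon D ξ y) q i + p' 1 * comb (mon D ξ y) p i)) := by
          funext i
          rw [eF, eG]
        rw [e]; exact hgen) (by rw [hc1])
    exact ⟨T'', hT''.trans (hT1.trans hT'), hc'', hsg'⟩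

end RC
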