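import Pool.Agent.Helper850.RF.Defs
import Pool.Agent.Helper850.RF.P_core

set_option autoImplicit false

namespace RC
open Finset BigOperators


theorem core_rev : ∃ C : ℕ, ∀ (D k : ℕ), ∃ (K : ℝ) (a : ℕ), 1 ≤ K ∧
    ∀ (n : ℕ) (T : Finset ℕ) (ξ y : ℕ → ℝ) (c : (Fin k → Fin ((D + 1) * (D + 1))) → ℝ),
      (∀ i ∈ T, 0 < ξ i) →
      ((∀ i ∈ T, K ≤ Real.log (ξ i)) ∧
        ∀ i ∈ T, ∀ i' ∈ T, i < i' → K * Real.log (ξ i') ≤ Real.log (ξ i)) →
      tow C (a * (n + 1)) ≤ T.card →
      ∃ T' ⊆ T, T'.card = n ∧ SignHom (kval (mon D ξ y) c) T' := by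
  obtain ⟨C, hC⟩ := core
  refine ⟨C, fun D k => ?_⟩
  obtain ⟨K, a, hK, h⟩ := hC D k
  refine ⟨K, a, hK, ?_⟩
  intro n T ξ y c hpos hlac hcard
  set M := T.sup id with hM
  have hle : ∀ i ∈ T, i ≤ M := fun i hi => Finset.le_sup (f := id) hi
  have hinj : Set.InjOn (fun i => M - i) (T : Set ℕ) := by
    intro i hi j hj hij
    have h1 := hle i hi
    have h2 := hle j hj
    simp only at hij
    omega
  have hmem : ∀ i' ∈ T.image (fun i => M - i), i' ≤ M ∧ M - i' ∈ T := by
    intro i' hi'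
    obtain ⟨i, hi, rfl⟩ := Finset.mem_image.1 hi'
    have h1 := hle i hi
    refine ⟨Nat.sub_le _ _, ?_⟩
    have h2 : M - (M - i) = i := by omega
    rw [h2]
    exact hi
  obtain ⟨T2, hT2, hT2c, s, hs⟩ := h n (T.image (fun i => M - i)) (fun i => ξ (M - i))
    (fun i => y (M - i)) (fun J => c (fun l => J (Fin.rev l)))
    (by
      intro i' hi'
      exact hpos _ (hmem i' hi').2)
    (by
      refine ⟨fun i' hi' => hlac.1 _ (hmem i' hi').2, ?_⟩
      intro i hi i' hi' hii
      have h1 := hmem i hi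
      have h2 := hmem i' hi'
      exact hlac.2 _ h2.2 _ h1.2 (by omega))
    (by rwa [Finset.card_image_of_injOn hinj])
  refine ⟨T2.image (fun i => M - i), ?_, ?_, s, ?_⟩
  · intro i hi
    obtain ⟨j, hj, rfl⟩ := Finset.mem_image.1 hi
    exact (hmem j (hT2 hj)).2
  · rw [Finset.card_image_of_injOn, hT2c]
    intro i hi j hj hij
    have h1 := (hmem i (hT2 hi)).1
    have h2 := (hmem j (hT2 hj)).1
    simp only at hij
    omega
  · intro x hx hxT
    have hxM : ∀ l, x l ≤ M ∧ M - x l ∈ T2 := by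
      intro l
      obtain ⟨j, hj, hjl⟩ := Finset.mem_image.1 (hxT l)
      have h1 := (hmem j (hT2 hj)).1
      refine ⟨by omega, ?_⟩
      have h2 : M - x l = j := by omega
      rw [h2]
      exact hj
    have h3 := hs (fun l => M - x (Fin.rev l)) (by
      intro l l' hll
      have h4 : Fin.rev l' < Fin.rev l := Fin.rev_lt_rev.2 hll
      have h5 := hx h4
      have h6 := (hxM (Fin.rev l)).1
      have h7 := (hxM (Fin.rev l')).1
      show M - x (Fin.rev l) < M - x (Fin.rev l')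
      omega) (fun l => (hxM (Fin.rev l)).2)
    rw [← h3]
    congr 1
    unfold kval
    rw [← Equiv.sum_comp ((Fin.revPerm (n := k)).arrowCongr (Equiv.refl (Fin ((D + 1) * (D + 1)))))]
    apply Finset.sum_congr rfl
    intro J _
    have e1 : ((Fin.revPerm (n := k)).arrowCongr (Equiv.refl (Fin ((D + 1) * (D + 1))))) J =
        fun l => J (Fin.rev l) := rfl
    rw [e1]
    congr 1
    rw [← Equiv.prod_comp (Fin.revPerm (n := k))]
    apply Finset.prod_congr rfl
    intro l _
    show mon D ξ y (J (Fin.rev (Fin.rev l))) (x (Fin.rev l)) = _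
    rw [Fin.rev_rev]
    unfold mon
    have e2 : M - (M - x (Fin.rev l)) = x (Fin.rev l) := by
      have := (hxM (Fin.rev l)).1
      omega
    simp only [e2]

end RC
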