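import Pool.Agent.Helper850.RF.Defs
import Pool.Agent.Helper850.RF.P_span_change

set_option autoImplicit false

namespace RC
open Finset BigOperators


theorem comb_mon_aux (D b : ℕ) (hb : b < D + 1) (ξ y : ℕ → ℝ) (q : Polynomial ℝ)
    (hq : q.natDegree ≤ D) (i : ℕ) :
    comb (mon D ξ y) (fun j => if (j : ℕ) % (D + 1) = b then q.coeff ((j : ℕ) / (D + 1)) else 0) i =
      q.eval (ξ i) * y i ^ b := by
  unfold comb mon
  rw [← Equiv.sum_comp finProdFinEquiv, Fintype.sum_prod_type]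
  have h1 : ∀ (a' b' : Fin (D + 1)), ((finProdFinEquiv (a', b') : Fin ((D + 1) * (D + 1))) : ℕ) / (D + 1)
      = a' := by
    intro a' b'
    rw [finProdFinEquiv_apply_val]
    simp only
    rw [Nat.add_mul_div_left _ _ (Nat.succ_pos D), Nat.div_eq_of_lt b'.2, Nat.zero_add]
  have h2 : ∀ (a' b' : Fin (D + 1)), ((finProdFinEquiv (a', b') : Fin ((D + 1) * (D + 1))) : ℕ) % (D + 1)
      = b' := by
    intro a' b'
    rw [finProdFinEquiv_apply_val]
    simp only
    rw [Nat.add_mul_mod_self_left, Nat.mod_eq_of_lt b'.2]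
  simp only [h1, h2]
  have h3 : ∀ a' : Fin (D + 1), ∑ b' : Fin (D + 1),
      (if (b' : ℕ) = b then q.coeff (a' : ℕ) else 0) * (ξ i ^ (a' : ℕ) * y i ^ (b' : ℕ)) =
      q.coeff (a' : ℕ) * ξ i ^ (a' : ℕ) * y i ^ b := by
    intro a'
    rw [Finset.sum_eq_single (⟨b, hb⟩ : Fin (D + 1))]
    · simp only [if_true]; ring
    · intro b' _ hne
      have : (b' : ℕ) ≠ b := fun h => hne (Fin.ext h)
      rw [if_neg this, zero_mul]
    · intro h; exact absurd (Finset.mem_univ _) h
  simp only [h3]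
  rw [← Finset.sum_mul, Polynomial.eval_eq_sum_range' (Nat.lt_succ_of_le hq), Finset.sum_range]

theorem mobius_change (D k : ℕ) (x y : ℕ → ℝ) (p : Fin 2 → Fin 2 → ℝ)
    (hp : LinearIndependent ℝ p) (T : Finset ℕ)
    (hT : ∀ r, ∀ i ∈ T, 0 < p r 0 + p r 1 * x i)
    (c : (Fin k → Fin ((D + 1) * (D + 1))) → ℝ) :
    ∃ c' : (Fin k → Fin ((D + 1) * (D + 1))) → ℝ, ∀ z : Fin k → ℕ, (∀ l, z l ∈ T) →
      SignType.sign (kval (mon D x y) c z) =
        SignType.sign (kval (mon D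
          (fun i => (p 1 0 + p 1 1 * x i) / (p 0 0 + p 0 1 * x i)) y) c' z) := by
  classical
  have hdet : p 0 0 * p 1 1 - p 0 1 * p 1 0 ≠ 0 := by
    intro h0
    rw [Fintype.linearIndependent_iff] at hp
    -- the vectors are dependent
    have e1 := hp ![p 1 1, - p 0 1] (by
      rw [Fin.sum_univ_two]
      funext j
      simp only [Matrix.cons_val_zero, Matrix.cons_val_one, Pi.add_apply, Pi.smul_apply,
        smul_eq_mul, Pi.zero_apply]
      fin_cases j
      · simp only [Fin.zero_eta, Fin.isValue]; linarith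
      · simp only [Fin.mk_one, Fin.isValue]; ring)
    have e2 := hp ![p 1 0, - p 0 0] (by
      rw [Fin.sum_univ_two]
      funext j
      simp only [Matrix.cons_val_zero, Matrix.cons_val_one, Pi.add_apply, Pi.smul_apply,
        smul_eq_mul, Pi.zero_apply]
      fin_cases j
      · simp only [Fin.zero_eta, Fin.isValue]; ring
      · simp only [Fin.mk_one, Fin.isValue]; linarith)
    have a1 : p 1 1 = 0 := by simpa using e1 0
    have a2 : p 0 1 = 0 := by simpa using e1 1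
    have a3 : p 1 0 = 0 := by simpa using e2 0
    have a4 : p 0 0 = 0 := by simpa using e2 1
    have e3 := hp ![1, 0] (by
      rw [Fin.sum_univ_two]
      funext j
      simp only [Matrix.cons_val_zero, Matrix.cons_val_one, Pi.add_apply, Pi.smul_apply,
        smul_eq_mul, Pi.zero_apply]
      fin_cases j
      · simp only [Fin.zero_eta, Fin.isValue]; rw [a4, a3]; ring
      · simp only [Fin.mk_one, Fin.isValue]; rw [a2, a1]; ring)
    have := e3 0
    simp at this
  set Δ := p 0 0 * p 1 1 - p 0 1 * p 1 0 with hΔ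
  set G0 : ℕ → ℝ := fun i => p 0 0 + p 0 1 * x i with hG0
  set G1 : ℕ → ℝ := fun i => p 1 0 + p 1 1 * x i with hG1
  set ξ : ℕ → ℝ := fun i => (p 1 0 + p 1 1 * x i) / (p 0 0 + p 0 1 * x i) with hξ
  have hG0pos : ∀ i ∈ T, 0 < G0 i := fun i hi => hT 0 i hi
  set α := p 1 1 / Δ
  set β := - p 0 1 / Δ
  set γ := - p 1 0 / Δ
  set δ := p 0 0 / Δ
  have hone : ∀ i ∈ T, 1 = G0 i * (α + β * ξ i) := by
    intro i hi
    have h1 := (hG0pos i hi).ne'
    have h2 : G0 i * ξ i = G1 i := by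
      change G0 i * (G1 i / G0 i) = G1 i
      rw [← mul_div_assoc, mul_div_cancel_left₀ _ h1]
    have h3 : G0 i * (α + β * ξ i) = α * G0 i + β * (G0 i * ξ i) := by ring
    rw [h3, h2]
    simp only [α, β, hG0, hG1]
    field_simp
    rw [hΔ]; ring
  have hx : ∀ i ∈ T, x i = G0 i * (γ + δ * ξ i) := by
    intro i hi
    have h1 := (hG0pos i hi).ne'
    have h2 : G0 i * ξ i = G1 i := by
      change G0 i * (G1 i / G0 i) = G1 i
      rw [← mul_div_assoc, mul_div_cancel_left₀ _ h1]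
    have h3 : G0 i * (γ + δ * ξ i) = γ * G0 i + δ * (G0 i * ξ i) := by ring
    rw [h3, h2]
    simp only [γ, δ, hG0, hG1]
    field_simp
    rw [hΔ]; ring
  let Φ : Fin ((D + 1) * (D + 1)) → ℕ → ℝ := fun r i => mon D x y r i / G0 i ^ D
  have hspan : ∀ r, ∃ P : Fin ((D + 1) * (D + 1)) → ℝ, ∀ i ∈ T, Φ r i = comb (mon D ξ y) P i := by
    intro r
    have hr : (r : ℕ) / (D + 1) ≤ D := by
      have := r.2
      exact Nat.lt_succ_iff.mp (Nat.div_lt_of_lt_mul this)
    have hb : (r : ℕ) % (D + 1) < D + 1 := Nat.mod_lt _ (Nat.succ_pos D)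
    let q : Polynomial ℝ := (Polynomial.C γ + Polynomial.C δ * Polynomial.X) ^ ((r : ℕ) / (D + 1)) *
      (Polynomial.C α + Polynomial.C β * Polynomial.X) ^ (D - (r : ℕ) / (D + 1))
    have hlin : ∀ u v : ℝ, (Polynomial.C u + Polynomial.C v * Polynomial.X).natDegree ≤ 1 := by
      intro u v
      compute_degree
    have hq : q.natDegree ≤ D := by
      refine Polynomial.natDegree_mul_le.trans ?_
      have h1 := Polynomial.natDegree_pow_le_of_le ((r : ℕ) / (D + 1)) (hlin γ δ)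
      have h2 := Polynomial.natDegree_pow_le_of_le (D - (r : ℕ) / (D + 1)) (hlin α β)
      omega
    refine ⟨fun j => if (j : ℕ) % (D + 1) = (r : ℕ) % (D + 1) then
      q.coeff ((j : ℕ) / (D + 1)) else 0, fun i hi => ?_⟩
    · rw [comb_mon_aux D _ hb ξ y q hq i]
      have h1 := (hG0pos i hi).ne'
      have hqe : q.eval (ξ i) = (γ + δ * ξ i) ^ ((r : ℕ) / (D + 1)) *
          (α + β * ξ i) ^ (D - (r : ℕ) / (D + 1)) := by
        simp [q]
      rw [hqe]
      change x i ^ ((r : ℕ) / (D + 1)) * y i ^ ((r : ℕ) % (D + 1)) / G0 i ^ D = _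
      have h4 : x i ^ ((r : ℕ) / (D + 1)) = G0 i ^ ((r : ℕ) / (D + 1)) *
          (γ + δ * ξ i) ^ ((r : ℕ) / (D + 1)) := by
        rw [← mul_pow, ← hx i hi]
      have h5 : G0 i ^ (D - (r : ℕ) / (D + 1)) * (α + β * ξ i) ^ (D - (r : ℕ) / (D + 1)) = 1 := by
        rw [← mul_pow, ← hone i hi, one_pow]
      have h6 : G0 i ^ D = G0 i ^ ((r : ℕ) / (D + 1)) * G0 i ^ (D - (r : ℕ) / (D + 1)) := by
        rw [← pow_add]; congr 1; omega
      rw [h4, h6, div_eq_iff (by positivity)]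
      calc _ = G0 i ^ ((r : ℕ) / (D + 1)) * (γ + δ * ξ i) ^ ((r : ℕ) / (D + 1)) *
            y i ^ ((r : ℕ) % (D + 1)) * 1 := by ring
        _ = _ := by rw [← h5]; ring
  obtain ⟨c', hc'⟩ := span_change _ _ k Φ (mon D ξ y) T c hspan
  refine ⟨c', fun z hz => ?_⟩
  rw [← hc' z hz]
  have hkv : kval (mon D x y) c z = (∏ l, G0 (z l) ^ D) * kval Φ c z := by
    unfold kval
    rw [Finset.mul_sum]
    refine Finset.sum_congr rfl (fun J _ => ?_)
    have h1 : ∏ l, Φ (J l) (z l) = (∏ l, mon D x y (J l) (z l)) / ∏ l, G0 (z l) ^ D := by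
      rw [← Finset.prod_div_distrib]
    rw [h1]
    have h2 : ∏ l, G0 (z l) ^ D ≠ 0 := by
      rw [Finset.prod_ne_zero_iff]
      intro l _
      exact pow_ne_zero _ (hG0pos _ (hz l)).ne'
    field_simp
  have hpos : 0 < ∏ l, G0 (z l) ^ D := by
    apply Finset.prod_pos
    intro l _
    exact pow_pos (hG0pos _ (hz l)) _
  rw [hkv, sign_mul, sign_pos hpos, one_mul]

end RC
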