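import Pool.Agent.Helper850.RF.Defs
import Pool.Agent.Helper850.RC.P_tow_mono
import Pool.Agent.Helper850.RC.P_tow_add
import Pool.Agent.Helper850.RC.P_tow_absorb
import Pool.Agent.Helper850.RC.P_tow_le_add
import Pool.Agent.Helper850.RC.P_exp_contr_family
import Pool.Agent.Helper850.RF.P_tow_comp
import Pool.Agent.Helper850.RF.P_m2flag

set_option autoImplicit false

namespace RC
open Finset BigOperators


theorem step0_li1 (p : Fin 2 → Fin 2 → ℝ) (hp : LinearIndependent ℝ p) (c : ℝ) (hc : c ≠ 0) :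
    LinearIndependent ℝ (![p 0, c • p 1] : Fin 2 → Fin 2 → ℝ) := by
  rw [Fintype.linearIndependent_iff] at hp ⊢
  intro g hg
  have h := hp ![g 0, g 1 * c] (by
    rw [Fin.sum_univ_two] at hg ⊢
    simpa [mul_smul] using hg)
  intro i
  fin_cases i
  · simpa using h 0
  · have h1 := h 1
    simp only [Matrix.cons_val_one, Matrix.cons_val_zero, Matrix.cons_val_fin_one] at h1
    exact (mul_eq_zero.1 h1).resolve_right hc

theorem step0_li2 (p : Fin 2 → Fin 2 → ℝ) (hp : LinearIndependent ℝ p) (c : ℝ) (hc : c ≠ 0) :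
    LinearIndependent ℝ (![p 1, c • p 0] : Fin 2 → Fin 2 → ℝ) := by
  rw [Fintype.linearIndependent_iff] at hp ⊢
  intro g hg
  have h := hp ![g 1 * c, g 0] (by
    rw [Fin.sum_univ_two] at hg ⊢
    rw [add_comm] at hg
    simpa [mul_smul] using hg)
  intro i
  fin_cases i
  · simpa using h 1
  · have h1 := h 0
    simp only [Matrix.cons_val_one, Matrix.cons_val_zero, Matrix.cons_val_fin_one] at h1
    exact (mul_eq_zero.1 h1).resolve_right hc

theorem step0 : ∃ C : ℕ, ∀ (K : ℝ), 1 ≤ K → ∃ a : ℕ, ∀ (n : ℕ) (S : Finset ℕ) (x : ℕ → ℝ),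
    (∀ i ∈ S, ∀ i' ∈ S, i < i' → x i ≠ x i') → tow C (a * (n + 1)) ≤ S.card →
    ∃ T ⊆ S, T.card = n ∧ ∃ p : Fin 2 → Fin 2 → ℝ, LinearIndependent ℝ p ∧
      (∀ r, ∀ i ∈ T, 0 < p r 0 + p r 1 * x i) ∧
      (Lac K (fun i => Real.log ((p 1 0 + p 1 1 * x i) / (p 0 0 + p 0 1 * x i))) T ∨
        ((∀ i ∈ T, K ≤ Real.log ((p 1 0 + p 1 1 * x i) / (p 0 0 + p 0 1 * x i))) ∧
          ∀ i ∈ T, ∀ i' ∈ T, i < i' →
            K * Real.log ((p 1 0 + p 1 1 * x i') / (p 0 0 + p 0 1 * x i')) ≤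
              Real.log ((p 1 0 + p 1 1 * x i) / (p 0 0 + p 0 1 * x i)))) := by
  obtain ⟨C1, hC1⟩ := m2flag
  obtain ⟨C2, hC2⟩ := exp_contr_family
  refine ⟨C1 + C2, fun K hK => ?_⟩
  have hK0 : 0 < K := lt_of_lt_of_le one_pos hK
  obtain ⟨a1, ha1⟩ := hC1 (Real.exp K) (Real.one_le_exp hK0.le)
  obtain ⟨a2, ha2⟩ := hC2 1 K hK
  obtain ⟨a, ha⟩ := tow_comp C1 C2 a1 (2 * a2) 1
  refine ⟨a, fun n S x hx hS => ?_⟩
  have hm : tow C2 (a2 * (n + 1 + 1)) ≤ tow C2 (2 * a2 * (n + 1)) :=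
    tow_mono _ _ _ (by nlinarith [Nat.zero_le a2, Nat.zero_le n, Nat.zero_le (a2 * n)])
  have hS1 : tow C1 (a1 * (tow C2 (a2 * (n + 1 + 1)) + 1)) ≤ S.card := by
    refine le_trans (tow_mono _ _ _ ?_) (le_trans (ha n _ hm) hS)
    exact Nat.mul_le_mul_left _ (by omega)
  obtain ⟨T1, hT1S, hT1c, p, hpli, hpos, hgrow⟩ := ha1 (tow C2 (a2 * (n + 1 + 1))) S
    ![fun _ => 1, x] (by
      intro i hi i' hi' hii'
      have := hx i hi i' hi' hii'
      simp only [Matrix.cons_val_zero, Matrix.cons_val_one, Matrix.cons_val_fin_one, one_mul, mul_one]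
      exact fun h => this h.symm) hS1
  have hcomb : ∀ r i, comb ![fun _ => 1, x] (p r) i = p r 0 + p r 1 * x i := by
    intro r i
    simp [comb, Fin.sum_univ_two]
  simp only [hcomb] at hpos
  set G : Fin 2 → ℕ → ℝ := fun r i => p r 0 + p r 1 * x i with hG
  have hGpos : ∀ r, ∀ i ∈ T1, 0 < G r i := hpos
  set A : ℕ → ℝ := fun i => Real.log (G 1 i / G 0 i) with hA
  have hgr : ∀ i ∈ T1, ∀ i' ∈ T1, i < i' → A i + K ≤ A i' := by
    intro i hi i' hi' hii'
    have h := hgrow.2 0 1 (by decide) i hi i' hi' hii'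
    simp only [hcomb] at h
    change Real.exp K ≤ (G 1 i' / G 1 i) * (G 0 i / G 0 i') at h
    have g1 := hGpos 1 i hi
    have g0 := hGpos 0 i hi
    have g1' := hGpos 1 i' hi'
    have g0' := hGpos 0 i' hi'
    have e : (G 1 i' / G 1 i) * (G 0 i / G 0 i') = (G 1 i' / G 0 i') / (G 1 i / G 0 i) := by
      field_simp
    rw [e] at h
    have h2 := Real.log_le_log (Real.exp_pos K) h
    rw [Real.log_exp, Real.log_div (by positivity) (by positivity)] at h2
    change K ≤ A i' - A i at h2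
    linarith
  obtain ⟨T2, hT2, hT2c, hEC⟩ := ha2 (n + 1) T1 (fun _ => A) (by
    intro _ i hi i' hi' hii'
    have := hgr i hi i' hi' hii'
    linarith) (by rw [hT1c])
  have hne : T2.Nonempty := by
    rw [← Finset.card_pos, hT2c]
    exact Nat.succ_pos n
  have hmono : ∀ i ∈ T2, ∀ i' ∈ T2, i < i' → A i + K ≤ A i' :=
    fun i hi i' hi' h => hgr i (hT2 hi) i' (hT2 hi') h
  rcases hEC 0 with hE | hE
  · set i0 := T2.min' hne with hi0
    have hi0m : i0 ∈ T2 := Finset.min'_mem _ _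
    have g1 := hGpos 1 i0 (hT2 hi0m)
    have g0 := hGpos 0 i0 (hT2 hi0m)
    set c : ℝ := (G 1 i0 / G 0 i0)⁻¹ with hc
    have hcpos : 0 < c := by positivity
    have hlt : ∀ i ∈ T2.erase i0, i ∈ T2 ∧ i0 < i := by
      intro i hi
      rw [Finset.mem_erase] at hi
      exact ⟨hi.2, lt_of_le_of_ne (Finset.min'_le _ _ hi.2) (Ne.symm hi.1)⟩
    have hX : ∀ i ∈ T2, Real.log (((![p 0, c • p 1] : Fin 2 → Fin 2 → ℝ) 1 0 +
        (![p 0, c • p 1] : Fin 2 → Fin 2 → ℝ) 1 1 * x i) /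
        ((![p 0, c • p 1] : Fin 2 → Fin 2 → ℝ) 0 0 +
        (![p 0, c • p 1] : Fin 2 → Fin 2 → ℝ) 0 1 * x i)) = A i - A i0 := by
      intro i hi
      have g1i := hGpos 1 i (hT2 hi)
      have g0i := hGpos 0 i (hT2 hi)
      have e : ((![p 0, c • p 1] : Fin 2 → Fin 2 → ℝ) 1 0 +
        (![p 0, c • p 1] : Fin 2 → Fin 2 → ℝ) 1 1 * x i) /
        ((![p 0, c • p 1] : Fin 2 → Fin 2 → ℝ) 0 0 +
        (![p 0, c • p 1] : Fin 2 → Fin 2 → ℝ) 0 1 * x i) = (G 1 i / G 0 i) / (G 1 i0 / G 0 i0) := by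
        simp only [Matrix.cons_val_zero, Matrix.cons_val_one, Matrix.cons_val_fin_one, Pi.smul_apply,
          smul_eq_mul]
        have e2 : c * p 1 0 + c * p 1 1 * x i = c * G 1 i := by rw [hG]; ring
        have e3 : p 0 0 + p 0 1 * x i = G 0 i := rfl
        rw [e2, e3, hc]
        rw [div_eq_mul_inv (G 1 i / G 0 i), mul_div_assoc, mul_comm]
      rw [e, Real.log_div (by positivity) (by positivity)]
    refine ⟨T2.erase i0, (Finset.erase_subset _ _).trans (hT2.trans hT1S),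
      by rw [Finset.card_erase_of_mem hi0m, hT2c]; rfl,
      ![p 0, c • p 1], step0_li1 p hpli c hcpos.ne', ?_, Or.inl ?_⟩
    · intro r i hi
      have hi2 := hT2 (hlt i hi).1
      have g1i := hGpos 1 i hi2
      have g0i := hGpos 0 i hi2
      fin_cases r
      · exact g0i
      · have e2 : c * p 1 0 + c * p 1 1 * x i = c * G 1 i := by rw [hG]; ring
        show 0 < c * p 1 0 + c * p 1 1 * x i
        rw [e2]
        positivity
    · refine ⟨fun i hi => ?_, fun i hi i' hi' hii' => ?_⟩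
      · obtain ⟨h1, h2⟩ := hlt i hi
        simp only
        rw [hX i h1]
        have := hmono i0 hi0m i h1 h2
        linarith
      · obtain ⟨h1, h2⟩ := hlt i hi
        obtain ⟨h1', h2'⟩ := hlt i' hi'
        simp only
        rw [hX i h1, hX i' h1']
        have h3 := hE i0 hi0m i h1 i' h1' h2 hii'
        have h4 := hmono i0 hi0m i h1 h2
        linarith
  · set i0 := T2.max' hne with hi0
    have hi0m : i0 ∈ T2 := Finset.max'_mem _ _
    have g1 := hGpos 1 i0 (hT2 hi0m)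
    have g0 := hGpos 0 i0 (hT2 hi0m)
    set c : ℝ := G 1 i0 / G 0 i0 with hc
    have hcpos : 0 < c := by positivity
    have hlt : ∀ i ∈ T2.erase i0, i ∈ T2 ∧ i < i0 := by
      intro i hi
      rw [Finset.mem_erase] at hi
      exact ⟨hi.2, lt_of_le_of_ne (Finset.le_max' _ _ hi.2) hi.1⟩
    have hX : ∀ i ∈ T2, Real.log (((![p 1, c • p 0] : Fin 2 → Fin 2 → ℝ) 1 0 +
        (![p 1, c • p 0] : Fin 2 → Fin 2 → ℝ) 1 1 * x i) /
        ((![p 1, c • p 0] : Fin 2 → Fin 2 → ℝ) 0 0 +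
        (![p 1, c • p 0] : Fin 2 → Fin 2 → ℝ) 0 1 * x i)) = A i0 - A i := by
      intro i hi
      have g1i := hGpos 1 i (hT2 hi)
      have g0i := hGpos 0 i (hT2 hi)
      have e : ((![p 1, c • p 0] : Fin 2 → Fin 2 → ℝ) 1 0 +
        (![p 1, c • p 0] : Fin 2 → Fin 2 → ℝ) 1 1 * x i) /
        ((![p 1, c • p 0] : Fin 2 → Fin 2 → ℝ) 0 0 +
        (![p 1, c • p 0] : Fin 2 → Fin 2 → ℝ) 0 1 * x i) = (G 1 i0 / G 0 i0) / (G 1 i / G 0 i) := by
        simp only [Matrix.cons_val_zero, Matrix.cons_val_one, Matrix.cons_val_fin_one, Pi.smul_apply,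
          smul_eq_mul]
        have e2 : c * p 0 0 + c * p 0 1 * x i = c * G 0 i := by rw [hG]; ring
        have e3 : p 1 0 + p 1 1 * x i = G 1 i := rfl
        rw [e2, e3, hc]
        field_simp
      rw [e, Real.log_div (by positivity) (by positivity)]
    refine ⟨T2.erase i0, (Finset.erase_subset _ _).trans (hT2.trans hT1S),
      by rw [Finset.card_erase_of_mem hi0m, hT2c]; rfl,
      ![p 1, c • p 0], step0_li2 p hpli c hcpos.ne', ?_, Or.inr ⟨?_, ?_⟩⟩
    · intro r i hi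
      have hi2 := hT2 (hlt i hi).1
      have g1i := hGpos 1 i hi2
      have g0i := hGpos 0 i hi2
      fin_cases r
      · exact g1i
      · have e2 : c * p 0 0 + c * p 0 1 * x i = c * G 0 i := by rw [hG]; ring
        show 0 < c * p 0 0 + c * p 0 1 * x i
        rw [e2]
        positivity
    · intro i hi
      obtain ⟨h1, h2⟩ := hlt i hi
      rw [hX i h1]
      have := hmono i h1 i0 hi0m h2
      linarith
    · intro i hi i' hi' hii'
      obtain ⟨h1, h2⟩ := hlt i hi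
      obtain ⟨h1', h2'⟩ := hlt i' hi'
      rw [hX i h1, hX i' h1']
      have h3 := hE i h1 i' h1' i0 hi0m hii' h2'
      have h4 := hmono i' h1' i0 hi0m h2'
      linarith

end RC
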