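import Pool.Agent.Helper850.RF.Defs
import Pool.Agent.Helper850.RC.P_tow_mono
import Pool.Agent.Helper850.RC.P_tow_add
import Pool.Agent.Helper850.RC.P_tow_absorb
import Pool.Agent.Helper850.RC.P_tow_le_add
import Pool.Agent.Helper850.RF.P_tow_comp
import Pool.Agent.Helper850.RF.P_core
import Pool.Agent.Helper850.RF.P_core_rev
import Pool.Agent.Helper850.RF.P_step0
import Pool.Agent.Helper850.RF.P_mobius_change

set_option autoImplicit false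

namespace RC
open Finset BigOperators


theorem dist_case : ∃ C : ℕ, ∀ (D k : ℕ), ∃ a : ℕ, ∀ (n : ℕ) (S : Finset ℕ) (x y : ℕ → ℝ)
    (c : (Fin k → Fin ((D + 1) * (D + 1))) → ℝ),
    (∀ i ∈ S, ∀ i' ∈ S, i < i' → x i ≠ x i') → tow C (a * (n + 1)) ≤ S.card →
    ∃ T ⊆ S, T.card = n ∧ SignHom (kval (mon D x y) c) T := by
  obtain ⟨C₁, hC₁⟩ := core
  obtain ⟨C₂, hC₂⟩ := core_rev
  obtain ⟨C₀, hC₀⟩ := step0
  refine ⟨C₀ + (C₁ + C₂), fun D k => ?_⟩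
  obtain ⟨K₁, a₁, hK₁, h₁⟩ := hC₁ D k
  obtain ⟨K₂, a₂, hK₂, h₂⟩ := hC₂ D k
  obtain ⟨a₀, h₀⟩ := hC₀ (max K₁ K₂) (hK₁.trans (le_max_left _ _))
  obtain ⟨a', ha'⟩ := tow_comp C₀ (C₁ + C₂) a₀ (a₁ + a₂) 1
  refine ⟨a', fun n S x y c hx hcard => ?_⟩
  set m : ℕ := max (tow C₁ (a₁ * (n + 1))) (tow C₂ (a₂ * (n + 1))) with hm
  have hm1 : m ≤ tow (C₁ + C₂) ((a₁ + a₂) * (n + 1)) := by
    refine max_le ?_ ?_
    · refine (tow_le_add C₁ C₂ _).trans (tow_mono _ _ _ ?_)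
      exact Nat.mul_le_mul_right _ (Nat.le_add_right _ _)
    · have h3 := tow_le_add C₂ C₁ (a₂ * (n + 1))
      rw [Nat.add_comm C₂ C₁] at h3
      refine h3.trans (tow_mono _ _ _ ?_)
      exact Nat.mul_le_mul_right _ (Nat.le_add_left _ _)
  have h3 : tow C₀ (a₀ * (m + 1)) ≤ S.card := by
    refine le_trans ?_ ((ha' n m hm1).trans hcard)
    refine tow_mono _ _ _ (Nat.mul_le_mul_left _ ?_)
    omega
  obtain ⟨T₁, hT₁S, hT₁c, p, hp, hpos, halt⟩ := h₀ m S x hx h3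
  obtain ⟨c', hc'⟩ := mobius_change D k x y p hp T₁ hpos c
  have hξ : ∀ i ∈ T₁, 0 < (p 1 0 + p 1 1 * x i) / (p 0 0 + p 0 1 * x i) := fun i hi =>
    div_pos (hpos 1 i hi) (hpos 0 i hi)
  have hfin : ∀ T' ⊆ T₁, SignHom (kval (mon D
      (fun i => (p 1 0 + p 1 1 * x i) / (p 0 0 + p 0 1 * x i)) y) c') T' →
      SignHom (kval (mon D x y) c) T' := by
    rintro T' hT' ⟨s, hs⟩
    refine ⟨s, fun z hz hzT => ?_⟩
    rw [hc' z fun l => hT' (hzT l)]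
    exact hs z hz hzT
  have hKpos : 0 < max K₁ K₂ := lt_of_lt_of_le one_pos (hK₁.trans (le_max_left _ _))
  rcases halt with hL | hL
  · obtain ⟨T', hT', hT'c, hSH⟩ := h₁ n T₁
      (fun i => (p 1 0 + p 1 1 * x i) / (p 0 0 + p 0 1 * x i)) y c' hξ
      ⟨fun i hi => (le_max_left _ _).trans (hL.1 i hi), fun i hi i' hi' hii => by
        refine le_trans ?_ (hL.2 i hi i' hi' hii)
        exact mul_le_mul_of_nonneg_right (le_max_left _ _) (hKpos.le.trans (hL.1 i hi))⟩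
      (by rw [hT₁c]; exact le_max_left _ _)
    exact ⟨T', hT'.trans hT₁S, hT'c, hfin T' hT' hSH⟩
  · obtain ⟨T', hT', hT'c, hSH⟩ := h₂ n T₁
      (fun i => (p 1 0 + p 1 1 * x i) / (p 0 0 + p 0 1 * x i)) y c' hξ
      ⟨fun i hi => (le_max_right _ _).trans (hL.1 i hi), fun i hi i' hi' hii => by
        refine le_trans ?_ (hL.2 i hi i' hi' hii)
        exact mul_le_mul_of_nonneg_right (le_max_right _ _) (hKpos.le.trans (hL.1 i' hi'))⟩
      (by rw [hT₁c]; exact le_max_right _ _)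
    exact ⟨T', hT'.trans hT₁S, hT'c, hfin T' hT' hSH⟩

end RC
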