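import Pool.Agent.Helper850.RF.Defs
import Pool.Agent.Helper850.RC.P_tow_mono
import Pool.Agent.Helper850.RC.P_tow_add
import Pool.Agent.Helper850.RC.P_tow_absorb
import Pool.Agent.Helper850.RC.P_tow_le_add
import Pool.Agent.Helper850.RC.P_stage2
import Pool.Agent.Helper850.RF.P_tow_thresh
import Pool.Agent.Helper850.RF.P_tow_comp
import Pool.Agent.Helper850.RF.P_span_change
import Pool.Agent.Helper850.RF.P_m2flag

set_option autoImplicit false

namespace RC
open Finset BigOperators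


theorem eq_case_le_tow (C x : ℕ) : x ≤ tow C x := by
  have h := tow_le_add 0 C x
  rw [Nat.zero_add] at h
  exact h

theorem eq_case_grow {D : ℕ} {K : ℝ} (hK : 1 ≤ K) {G : Fin 2 → ℕ → ℝ} {T : Finset ℕ}
    (hpos : ∀ r, ∀ i ∈ T, 0 < G r i) (hG : Grow K G T) :
    Grow K (fun (a : Fin (D + 1)) i => G 0 i ^ (D - (a : ℕ)) * G 1 i ^ (a : ℕ)) T := by
  constructor
  · intro r i hi
    have h0 := hpos 0 i hi
    have h1 := hpos 1 i hi
    positivity
  · intro p q hpq i hi i' hi' hii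
    have hr := hG.2 0 1 (by decide) i hi i' hi' hii
    have h0 := hpos 0 i hi
    have h1 := hpos 1 i hi
    have h0' := hpos 0 i' hi'
    have h1' := hpos 1 i' hi'
    obtain ⟨a, ha⟩ := p
    obtain ⟨b, hb⟩ := q
    have hab : a < b := hpq
    obtain ⟨d, rfl⟩ : ∃ d, b = a + (d + 1) := ⟨b - a - 1, by omega⟩
    obtain ⟨e, he⟩ : ∃ e, D = a + (d + 1) + e := ⟨D - (a + (d + 1)), by omega⟩
    subst he
    have e1 : a + (d + 1) + e - (a + (d + 1)) = e := by omega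
    have e2 : a + (d + 1) + e - a = d + 1 + e := by omega
    have key : (G 0 i' ^ e * G 1 i' ^ (a + (d + 1)) / (G 0 i ^ e * G 1 i ^ (a + (d + 1)))) *
        (G 0 i ^ (d + 1 + e) * G 1 i ^ a / (G 0 i' ^ (d + 1 + e) * G 1 i' ^ a)) =
        ((G 1 i' / G 1 i) * (G 0 i / G 0 i')) ^ (d + 1) := by
      rw [mul_pow, div_pow, div_pow]
      field_simp
      ring
    change K ≤ (G 0 i' ^ (a + (d + 1) + e - (a + (d + 1))) * G 1 i' ^ (a + (d + 1)) /
      (G 0 i ^ (a + (d + 1) + e - (a + (d + 1))) * G 1 i ^ (a + (d + 1)))) *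
        (G 0 i ^ (a + (d + 1) + e - a) * G 1 i ^ a /
          (G 0 i' ^ (a + (d + 1) + e - a) * G 1 i' ^ a))
    rw [e1, e2, key]
    calc K = K ^ 1 := (pow_one K).symm
      _ ≤ K ^ (d + 1) := pow_le_pow_right₀ hK (by omega)
      _ ≤ _ := pow_le_pow_left₀ (by linarith) hr _

theorem eq_case_hom (D b : ℕ) (hb : b ≤ D) (α₀ α₁ β₀ β₁ : ℝ) :
    ∃ q : Fin (D + 1) → ℝ, ∀ u v : ℝ, 0 < u →
      (β₀ * u + β₁ * v) ^ b * (α₀ * u + α₁ * v) ^ (D - b) =
        ∑ a : Fin (D + 1), q a * (u ^ (D - (a : ℕ)) * v ^ (a : ℕ)) := by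
  let pol : Polynomial ℝ := (Polynomial.C β₀ + Polynomial.C β₁ * Polynomial.X) ^ b *
    (Polynomial.C α₀ + Polynomial.C α₁ * Polynomial.X) ^ (D - b)
  have hlin : ∀ s t : ℝ, (Polynomial.C s + Polynomial.C t * Polynomial.X).natDegree ≤ 1 := by
    intro s t
    rw [add_comm]
    exact Polynomial.natDegree_linear_le
  have hdeg : pol.natDegree < D + 1 := by
    have h1 : pol.natDegree ≤ b * 1 + (D - b) * 1 :=
      Polynomial.natDegree_mul_le.trans (add_le_add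
        (Polynomial.natDegree_pow_le.trans (Nat.mul_le_mul_left b (hlin _ _)))
        (Polynomial.natDegree_pow_le.trans (Nat.mul_le_mul_left (D - b) (hlin _ _))))
    omega
  refine ⟨fun a => pol.coeff a, fun u v hu => ?_⟩
  have h1 := Polynomial.eval_eq_sum_range' hdeg (v / u)
  have h2 : u ^ D * pol.eval (v / u) =
      (β₀ * u + β₁ * v) ^ b * (α₀ * u + α₁ * v) ^ (D - b) := by
    have e : u ^ D = u ^ b * u ^ (D - b) := by
      rw [← pow_add]
      congr 1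
      omega
    have e3 : pol.eval (v / u) = (β₀ + β₁ * (v / u)) ^ b * (α₀ + α₁ * (v / u)) ^ (D - b) := by
      simp [pol]
    rw [e3, e]
    have e4 : u ^ b * u ^ (D - b) * ((β₀ + β₁ * (v / u)) ^ b * (α₀ + α₁ * (v / u)) ^ (D - b)) =
      (u * (β₀ + β₁ * (v / u))) ^ b * (u * (α₀ + α₁ * (v / u))) ^ (D - b) := by
      rw [mul_pow, mul_pow]
      ring
    rw [e4]
    congr 2 <;> field_simp
  rw [← h2, h1, Finset.mul_sum, Finset.sum_range]
  refine Finset.sum_congr rfl fun a _ => ?_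
  have ha : (a : ℕ) ≤ D := by
    have := a.2
    omega
  have e5 : u ^ D = u ^ (D - (a : ℕ)) * u ^ (a : ℕ) := by
    rw [← pow_add]
    congr 1
    omega
  rw [e5, div_pow]
  field_simp

theorem eq_case_inv (p : Fin 2 → Fin 2 → ℝ) (hp : LinearIndependent ℝ p) (F : Fin 2 → ℕ → ℝ) :
    ∀ r, ∃ q : Fin 2 → ℝ, ∀ i, F r i = q 0 * comb F (p 0) i + q 1 * comb F (p 1) i := by
  intro r
  let A : Matrix (Fin 2) (Fin 2) ℝ := Matrix.of p
  have hA : IsUnit A := Matrix.linearIndependent_rows_iff_isUnit.1 hp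
  have hdet : IsUnit A.det := (Matrix.isUnit_iff_isUnit_det A).1 hA
  have hinv : A⁻¹ * A = 1 := Matrix.nonsing_inv_mul A hdet
  refine ⟨fun s => A⁻¹ r s, fun i => ?_⟩
  have h : ∀ j, A⁻¹ r 0 * p 0 j + A⁻¹ r 1 * p 1 j = (1 : Matrix (Fin 2) (Fin 2) ℝ) r j := by
    intro j
    rw [← hinv, Matrix.mul_apply, Fin.sum_univ_two]
    rfl
  have h0 := h 0
  have h1 := h 1
  unfold comb
  rw [Fin.sum_univ_two, Fin.sum_univ_two]
  have e : A⁻¹ r 0 * (p 0 0 * F 0 i + p 0 1 * F 1 i) + A⁻¹ r 1 * (p 1 0 * F 0 i + p 1 1 * F 1 i) =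
      (A⁻¹ r 0 * p 0 0 + A⁻¹ r 1 * p 1 0) * F 0 i +
        (A⁻¹ r 0 * p 0 1 + A⁻¹ r 1 * p 1 1) * F 1 i := by ring
  rw [e, h0, h1]
  have hfin : ∀ r : Fin 2, F r i = (1 : Matrix (Fin 2) (Fin 2) ℝ) r 0 * F 0 i +
      (1 : Matrix (Fin 2) (Fin 2) ℝ) r 1 * F 1 i := by
    intro r
    match r with
    | 0 => simp
    | 1 => simp
  exact hfin r

theorem eq_case : ∃ C : ℕ, ∀ (D k : ℕ), ∃ a : ℕ, ∀ (n : ℕ) (S : Finset ℕ) (x y : ℕ → ℝ)
    (c : (Fin k → Fin ((D + 1) * (D + 1))) → ℝ), (∀ i ∈ S, ∀ i' ∈ S, x i = x i') →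
    tow C (a * (n + 1)) ≤ S.card →
    ∃ T ⊆ S, T.card = n ∧ SignHom (kval (mon D x y) c) T := by
  classical
  obtain ⟨C1, hC1⟩ := stage2
  obtain ⟨C2, hC2⟩ := m2flag
  refine ⟨C2 + C1 + 2, fun D k => ?_⟩
  obtain ⟨a1, K, hK, h1⟩ := hC1 (D + 1) k
  obtain ⟨a2, h2⟩ := hC2 K hK
  obtain ⟨a3, h3⟩ := tow_comp C2 C1 a2 a1 1
  obtain ⟨a', h4⟩ := tow_thresh (C2 + C1) 1 1 (max a3 1)
  refine ⟨a', fun n S x y c hx hS => ?_⟩
  obtain ⟨n', hn'⟩ : ∃ n', n' = tow C1 (a1 * (n + 1)) := ⟨_, rfl⟩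
  obtain ⟨N, hN⟩ : ∃ N, N = tow C2 (a2 * (n' + 1)) := ⟨_, rfl⟩
  have hNle : N ≤ tow (C2 + C1) (max a3 1 * (n + 1)) := by
    rw [hN]
    refine (tow_mono C2 _ _ (Nat.mul_le_mul_left a2 (by omega : n' + 1 ≤ 1 * n' + 1 + 1))).trans ?_
    refine (h3 n n' hn'.le).trans ?_
    exact tow_mono _ _ _ (Nat.mul_le_mul_right _ (le_max_left _ _))
  have hnle : n ≤ tow (C2 + C1) (max a3 1 * (n + 1)) := by
    refine le_trans ?_ (eq_case_le_tow (C2 + C1) _)
    have : 1 * (n + 1) ≤ max a3 1 * (n + 1) := Nat.mul_le_mul_right _ (le_max_right _ _)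
    omega
  have hprod : N * n ≤ S.card := by
    refine le_trans ?_ ((h4 n N n hNle hnle).trans hS)
    rw [pow_one, one_mul, pow_succ', ]
    refine Nat.mul_le_mul (by omega) ?_
    calc n ≤ 2 ^ n := Nat.lt_two_pow_self.le
      _ ≤ (N + 2) ^ n := Nat.pow_le_pow_left (by omega) n
  have hSne : S.Nonempty := by
    rw [← Finset.card_pos]
    refine lt_of_lt_of_le ?_ hS
    change 0 < tow (C2 + C1 + 1 + 1) _
    exact Nat.two_pow_pos _
  by_cases hcard : (S.image y).card ≤ N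
  · obtain ⟨w, hw, hfib⟩ := Finset.exists_le_card_fiber_of_mul_le_card_of_maps_to
      (s := S) (t := S.image y) (f := y) (n := n) (fun i hi => Finset.mem_image_of_mem y hi)
      (hSne.image y) ((Nat.mul_le_mul_right n hcard).trans hprod)
    obtain ⟨T, hT, hTn⟩ := Finset.exists_subset_card_eq hfib
    obtain ⟨i₀, hi₀, hyi₀⟩ := Finset.mem_image.1 hw
    have hTS : T ⊆ S := hT.trans (Finset.filter_subset _ _)
    refine ⟨T, hTS, hTn, SignType.sign (kval (mon D x y) c (fun _ => i₀)), fun z _ hz => ?_⟩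
    congr 1
    unfold kval
    refine Finset.sum_congr rfl fun J _ => ?_
    congr 1
    refine Finset.prod_congr rfl fun l _ => ?_
    have e1 : x (z l) = x i₀ := hx _ (hTS (hz l)) _ hi₀
    have e2 : y (z l) = y i₀ := by
      rw [hyi₀]
      exact (Finset.mem_filter.1 (hT (hz l))).2
    unfold mon
    rw [e1, e2]
  · have hg : ∀ w : ℝ, ∃ i : ℕ, w ∈ S.image y → i ∈ S ∧ y i = w := by
      intro w
      by_cases hw : w ∈ S.image y
      · obtain ⟨i, hi, hi'⟩ := Finset.mem_image.1 hw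
        exact ⟨i, fun _ => ⟨hi, hi'⟩⟩
      · exact ⟨0, fun h => absurd h hw⟩
    choose g hg using hg
    have hginj : Set.InjOn g (S.image y) := by
      intro w hw w' hw' hww
      rw [← (hg w hw).2, ← (hg w' hw').2, hww]
    have hS'card : ((S.image y).image g).card = (S.image y).card :=
      Finset.card_image_of_injOn hginj
    have hS'S : (S.image y).image g ⊆ S := by
      intro i hi
      obtain ⟨w, hw, rfl⟩ := Finset.mem_image.1 hi
      exact (hg w hw).1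
    have hyinj : ∀ i ∈ (S.image y).image g, ∀ i' ∈ (S.image y).image g, y i = y i' → i = i' := by
      intro i hi i' hi' h
      obtain ⟨w, hw, rfl⟩ := Finset.mem_image.1 hi
      obtain ⟨w', hw', rfl⟩ := Finset.mem_image.1 hi'
      rw [(hg w hw).2, (hg w' hw').2] at h
      rw [h]
    obtain ⟨T', hT'S, hT'n, p, hp, hppos, hpG⟩ := h2 n' ((S.image y).image g)
      ![fun _ => 1, y] (by
        intro i hi i' hi' hii h
        have h' : y i' = y i := by simpa using h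
        exact hii.ne (hyinj i hi i' hi' h'.symm)) (by
        rw [hS'card, ← hN]
        omega)
    have hT'S0 : T' ⊆ S := hT'S.trans hS'S
    have hH := eq_case_grow (D := D) hK (G := fun r => comb ![fun _ => 1, y] (p r)) hppos hpG
    obtain ⟨i₀, hi₀⟩ := hSne
    obtain ⟨α, hα⟩ := eq_case_inv p hp ![fun _ => 1, y] 0
    obtain ⟨β, hβ⟩ := eq_case_inv p hp ![fun _ => 1, y] 1
    obtain ⟨c', hc'⟩ := span_change ((D + 1) * (D + 1)) (D + 1) k (mon D x y)
      (fun (a : Fin (D + 1)) i => comb ![fun _ => 1, y] (p 0) i ^ (D - (a : ℕ)) *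
        comb ![fun _ => 1, y] (p 1) i ^ (a : ℕ)) T' c (by
      intro r
      have hb : (r : ℕ) % (D + 1) ≤ D := by
        have := Nat.mod_lt (r : ℕ) (show D + 1 > 0 by omega)
        omega
      obtain ⟨q, hq⟩ := eq_case_hom D ((r : ℕ) % (D + 1)) hb (α 0) (α 1) (β 0) (β 1)
      refine ⟨fun a => x i₀ ^ ((r : ℕ) / (D + 1)) * q a, fun i hi => ?_⟩
      have hqi := hq (comb ![fun _ => 1, y] (p 0) i) (comb ![fun _ => 1, y] (p 1) i)
        (hppos 0 i hi)
      have hone : α 0 * comb ![fun _ => 1, y] (p 0) i + α 1 * comb ![fun _ => 1, y] (p 1) i = 1 :=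
        (hα i).symm
      have hyy : β 0 * comb ![fun _ => 1, y] (p 0) i + β 1 * comb ![fun _ => 1, y] (p 1) i = y i :=
        (hβ i).symm
      rw [hone, hyy, one_pow, mul_one] at hqi
      unfold mon
      rw [hx i (hT'S0 hi) i₀ hi₀, hqi, Finset.mul_sum]
      unfold comb
      refine Finset.sum_congr rfl fun a _ => ?_
      ring)
    obtain ⟨T, hT, hTn, s, hs⟩ := h1 n T' _ c' hH (by rw [hT'n, ← hn'])
    refine ⟨T, hT.trans hT'S0, hTn, s, fun z hz hzT => ?_⟩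
    rw [hc' z fun l => hT (hzT l)]
    exact hs z hz hzT

end RC
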