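import Pool.Agent.Helper850.RF.Defs
import Pool.Agent.Helper850.RC.P_tow_mono
import Pool.Agent.Helper850.RC.P_tow_add
import Pool.Agent.Helper850.RC.P_tow_absorb
import Pool.Agent.Helper850.RC.P_tow_le_add
import Pool.Agent.Helper850.RC.P_ramseyP

set_option autoImplicit false

namespace RC
open Finset BigOperators


theorem genB_pair (i i' : ℕ) (h : i < i') : StrictMono ![i, i'] := by
  intro a b hab
  fin_cases a <;> fin_cases b <;> simp_all

theorem genB_key (N : ℕ) (Λ : ℝ) (hΛ : 0 < Λ) (X u : ℕ → ℝ) (T : Finset ℕ)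
    (hL : Lac (Λ + 2) X T)
    (hm : ∀ i ∈ T, ∀ i' ∈ T, i < i' → ((N : ℝ) + 2) * (X i + X i') ≤ u i' - u i) :
    GenAB N Λ X u T ∧ GenAB N Λ X (fun i => - u i) T := by
  have hX : ∀ i ∈ T, ∀ i' ∈ T, i < i' → 0 < X i ∧ X i + Λ ≤ X i' ∧ Λ + 2 ≤ X i' := by
    intro i hi i' hi' h
    have h1 := hL.1 i hi
    have h2 := hL.1 i' hi'
    have h3 := hL.2 i hi i' hi' h
    refine ⟨by linarith, ?_, h2⟩
    nlinarith
  have hN : (0:ℝ) ≤ N := Nat.cast_nonneg N
  have hbd : ∀ α : ℤ, |α| ≤ (N : ℤ) → ∀ i ∈ T, ∀ i' ∈ T, i < i' →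
      |(α : ℝ) * (X i' - X i)| ≤ N * X i' := by
    intro α hα i hi i' hi' h
    obtain ⟨h1, h2, h3⟩ := hX i hi i' hi' h
    rw [abs_mul]
    have hα' : |(α : ℝ)| ≤ N := by
      rw [← Int.cast_abs]
      exact_mod_cast hα
    have h4 : |X i' - X i| ≤ X i' := by
      rw [abs_of_nonneg (by linarith)]
      linarith
    exact mul_le_mul hα' h4 (abs_nonneg _) hN
  -- main estimate
  have main : ∀ α β : ℤ, |α| ≤ (N : ℤ) → 0 < β → ∀ i ∈ T, ∀ i' ∈ T, i < i' →
      Λ ≤ (α : ℝ) * (X i' - X i) + (β : ℝ) * (u i' - u i) := by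
    intro α β hα hβ i hi i' hi' h
    obtain ⟨h1, h2, h3⟩ := hX i hi i' hi' h
    have h4 := (abs_le.mp (hbd α hα i hi i' hi' h)).1
    have h5 := hm i hi i' hi' h
    have h6 : (1:ℝ) ≤ β := by exact_mod_cast hβ
    have h7 : (0:ℝ) ≤ u i' - u i := le_trans (mul_nonneg (by linarith) (by linarith)) h5
    have h8 : u i' - u i ≤ (β : ℝ) * (u i' - u i) := by nlinarith
    have h9 : ((N : ℝ) + 2) * (X i + X i') = N * X i + 2 * X i + N * X i' + 2 * X i' := by ring
    have h10 : 0 ≤ (N : ℝ) * X i := by positivity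
    linarith
  have posneg : ∀ α : ℤ, |α| ≤ (N : ℤ) → α ≠ 0 →
      (∀ i ∈ T, ∀ i' ∈ T, i < i' → (α : ℝ) * X i + Λ ≤ (α : ℝ) * X i') ∨
      (∀ i ∈ T, ∀ i' ∈ T, i < i' → (α : ℝ) * X i' + Λ ≤ (α : ℝ) * X i) := by
    intro α _ h0
    rcases lt_or_gt_of_ne h0 with hneg | hpos
    · right
      intro i hi i' hi' h
      obtain ⟨h1, h2, h3⟩ := hX i hi i' hi' h
      have : (α : ℝ) ≤ -1 := by exact_mod_cast (by omega : α ≤ -1)
      nlinarith
    · left
      intro i hi i' hi' h
      obtain ⟨h1, h2, h3⟩ := hX i hi i' hi' h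
      have : (1 : ℝ) ≤ α := by exact_mod_cast (by omega : 1 ≤ α)
      nlinarith
  have hneg : ∀ α : ℤ, |α| ≤ (N : ℤ) → |(-α)| ≤ (N : ℤ) := by
    intro α h; rwa [abs_neg]
  constructor
  · intro α β hα hβ hne
    rcases lt_trichotomy β 0 with hb | hb | hb
    · right
      intro i hi i' hi' h
      have := main (-α) (-β) (hneg α hα) (by omega) i hi i' hi' h
      push_cast at this
      linarith
    · subst hb
      have hα0 : α ≠ 0 := by
        rcases hne with h | h
        · exact h
        · exact absurd rfl h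
      rcases posneg α hα hα0 with h | h
      · left
        intro i hi i' hi' hii
        have := h i hi i' hi' hii
        push_cast
        linarith
      · right
        intro i hi i' hi' hii
        have := h i hi i' hi' hii
        push_cast
        linarith
    · left
      intro i hi i' hi' h
      have := main α β hα hb i hi i' hi' h
      linarith
  · intro α β hα hβ hne
    rcases lt_trichotomy β 0 with hb | hb | hb
    · left
      intro i hi i' hi' h
      have := main α (-β) hα (by omega) i hi i' hi' h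
      push_cast at this
      linarith
    · subst hb
      have hα0 : α ≠ 0 := by
        rcases hne with h | h
        · exact h
        · exact absurd rfl h
      rcases posneg α hα hα0 with h | h
      · left
        intro i hi i' hi' hii
        have := h i hi i' hi' hii
        push_cast
        linarith
      · right
        intro i hi i' hi' hii
        have := h i hi i' hi' hii
        push_cast
        linarith
    · right
      intro i hi i' hi' h
      have := main (-α) β (hneg α hα) hb i hi i' hi' h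
      push_cast at this
      linarith

theorem genB : ∃ C : ℕ, ∀ (N : ℕ) (Λ : ℝ), 0 < Λ → ∃ (S K₀ : ℝ) (a : ℕ), 1 ≤ S ∧ 1 ≤ K₀ ∧
    ∀ (n : ℕ) (X F : ℕ → ℝ) (Q : Finset ℕ), Lac K₀ X Q → Wild S X F Q →
      tow C (a * (n + 1)) ≤ Q.card →
      ∃ Q' ⊆ Q, Q'.card = n ∧ ((∀ i ∈ Q', 0 < F i) ∨ (∀ i ∈ Q', F i < 0)) ∧
        GenAB N Λ X (fun i => Real.log (F i)) Q' := by
  obtain ⟨C, hC⟩ := ramseyP 2
  refine ⟨C, fun N Λ hΛ => ?_⟩
  obtain ⟨a, ha⟩ := hC Bool
  have hN : (0:ℝ) ≤ N := Nat.cast_nonneg N
  refine ⟨(N : ℝ) + 2, Λ + 2, 2 * a, by linarith, by linarith, ?_⟩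
  intro n X F Q hL hW hcard
  have hcard' : tow C (a * (n + 1 + 1)) ≤ Q.card := by
    refine le_trans (tow_mono C _ _ ?_) hcard
    nlinarith [Nat.zero_le a, Nat.zero_le n, Nat.zero_le (a * n)]
  obtain ⟨T, hTQ, hTc, hT⟩ := ha (n + 1) Q hcard'
    (fun b x => if b then Real.log (F (x 0)) < Real.log (F (x 1)) else 0 < F (x 0))
  have hTne : T.Nonempty := by
    rw [← Finset.card_pos, hTc]; omega
  set M := T.max' hTne with hM
  have hMT : M ∈ T := Finset.max'_mem T hTne
  have hsub : T.erase M ⊆ T := Finset.erase_subset M T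
  have hlt : ∀ i ∈ T.erase M, i < M := by
    intro i hi
    exact lt_of_le_of_ne (Finset.le_max' T i (hsub hi)) (Finset.ne_of_mem_erase hi)
  refine ⟨T.erase M, hsub.trans hTQ, ?_, ?_, ?_⟩
  · rw [Finset.card_erase_of_mem hMT, hTc]; rfl
  · rcases hT false with h | h
    · left
      intro i hi
      have := h ![i, M] (genB_pair i M (hlt i hi)) (by
        intro l; fin_cases l
        · exact hsub hi
        · exact hMT)
      simpa using this
    · right
      intro i hi
      have := h ![i, M] (genB_pair i M (hlt i hi)) (by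
        intro l; fin_cases l
        · exact hsub hi
        · exact hMT)
      have h0 : F i ≠ 0 := hW.1 i (hTQ (hsub hi))
      have h1 : F i ≤ 0 := by simpa using this
      exact lt_of_le_of_ne h1 h0
  · have hL' : Lac (Λ + 2) X (T.erase M) :=
      ⟨fun i hi => hL.1 i (hTQ (hsub hi)), fun i hi i' hi' h => hL.2 i (hTQ (hsub hi)) i' (hTQ (hsub hi')) h⟩
    rcases hT true with h | h
    · refine (genB_key N Λ hΛ X (fun i => Real.log (F i)) (T.erase M) hL' ?_).1
      intro i hi i' hi' hii
      have h1 := h ![i, i'] (genB_pair i i' hii) (by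
        intro l; fin_cases l
        · exact hsub hi
        · exact hsub hi')
      have h2 : Real.log (F i) < Real.log (F i') := by simpa using h1
      have h3 := hW.2 i (hTQ (hsub hi)) i' (hTQ (hsub hi')) hii
      rw [abs_of_neg (by linarith)] at h3
      show _ ≤ Real.log (F i') - Real.log (F i)
      linarith
    · have h4 := (genB_key N Λ hΛ X (fun i => - Real.log (F i)) (T.erase M) hL' ?_).2
      · simpa using h4
      intro i hi i' hi' hii
      have h1 := h ![i, i'] (genB_pair i i' hii) (by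
        intro l; fin_cases l
        · exact hsub hi
        · exact hsub hi')
      have h2 : Real.log (F i') ≤ Real.log (F i) := by simpa using h1
      have h3 := hW.2 i (hTQ (hsub hi)) i' (hTQ (hsub hi')) hii
      rw [abs_of_nonneg (by linarith)] at h3
      show _ ≤ - Real.log (F i') - - Real.log (F i)
      linarith

end RC
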