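import Pool.Agent.Helper850.RF.Defs

set_option autoImplicit false

namespace RC
open Finset BigOperators


theorem path_sign (D k N : ℕ) (F G : Polynomial (Polynomial ℝ))
    (c : (Fin k → Fin ((D + 1) * (D + 1))) → ℝ)
    (g : ℕ → (Fin k → Fin (N + 1)) → (Fin k → Fin (N + 1)) → ℝ)
    (hrel : ∀ s y : Fin k → ℝ, (∀ l, ev2 G (s l) (y l) ≠ 0) →
      ∑ j ∈ Finset.range (N + 1),
        qev (g j) s (fun l => ev2 F (s l) (y l) / ev2 G (s l) (y l)) * fev D c s y ^ j = 0)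
    (ξ θ Y : Fin k → ℝ → ℝ) (hξ : ∀ l, Continuous (ξ l))
    (hY : ∀ l, ContinuousOn (Y l) (Set.Icc (0 : ℝ) 1))
    (hG : ∀ l, ∀ τ ∈ Set.Icc (0 : ℝ) 1, ev2 G (ξ l τ) (Y l τ) ≠ 0)
    (hF : ∀ l, ∀ τ ∈ Set.Icc (0 : ℝ) 1, ev2 F (ξ l τ) (Y l τ) = θ l τ * ev2 G (ξ l τ) (Y l τ))
    (hg : ∀ τ ∈ Set.Icc (0 : ℝ) 1, qev (g 0) (fun l => ξ l τ) (fun l => θ l τ) ≠ 0) :
    SignType.sign (fev D c (fun l => ξ l 0) (fun l => Y l 0)) =
      SignType.sign (fev D c (fun l => ξ l 1) (fun l => Y l 1)) := by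
  set φ : ℝ → ℝ := fun τ => fev D c (fun l => ξ l τ) (fun l => Y l τ) with hφ
  have hcont : ContinuousOn φ (Set.Icc (0 : ℝ) 1) := by
    simp only [hφ, fev]
    refine continuousOn_finset_sum _ fun J _ => ContinuousOn.mul continuousOn_const ?_
    refine continuousOn_finset_prod _ fun l _ => ContinuousOn.mul ?_ ?_
    · exact ((hξ l).continuousOn).pow _
    · exact (hY l).pow _
  have hne : ∀ τ ∈ Set.Icc (0 : ℝ) 1, φ τ ≠ 0 := by
    intro τ hτ h0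
    have h1 := hrel (fun l => ξ l τ) (fun l => Y l τ) (fun l => hG l τ hτ)
    have h2 : (fun l => ev2 F (ξ l τ) (Y l τ) / ev2 G (ξ l τ) (Y l τ)) = fun l => θ l τ := by
      funext l
      rw [hF l τ hτ, mul_div_assoc, div_self (hG l τ hτ), mul_one]
    have h3 : fev D c (fun l => ξ l τ) (fun l => Y l τ) = 0 := h0
    simp only [h2, h3] at h1
    rw [Finset.sum_range_succ'] at h1
    simp only [pow_succ, mul_zero, Finset.sum_const_zero, zero_add, pow_zero, mul_one] at h1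
    exact hg τ hτ h1
  have h0 : φ 0 ≠ 0 := hne 0 ⟨le_refl _, zero_le_one⟩
  have h1 : φ 1 ≠ 0 := hne 1 ⟨zero_le_one, le_refl _⟩
  show SignType.sign (φ 0) = SignType.sign (φ 1)
  rcases lt_or_gt_of_ne h0 with h0' | h0' <;> rcases lt_or_gt_of_ne h1 with h1' | h1'
  · rw [sign_neg h0', sign_neg h1']
  · exfalso
    obtain ⟨τ, hτ, h⟩ := intermediate_value_Icc zero_le_one hcont ⟨h0'.le, h1'.le⟩
    exact hne τ hτ h
  · exfalso
    obtain ⟨τ, hτ, h⟩ := intermediate_value_Icc' zero_le_one hcont ⟨h1'.le, h0'.le⟩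
    exact hne τ hτ h
  · rw [sign_pos h0', sign_pos h1']

end RC
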