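import Pool.Agent.Helper850.RF.Defs
import Pool.Agent.Helper850.RC.P_tow_mono
import Pool.Agent.Helper850.RC.P_tow_add
import Pool.Agent.Helper850.RC.P_tow_absorb
import Pool.Agent.Helper850.RC.P_tow_le_add
import Pool.Agent.Helper850.RF.P_tow_thresh
import Pool.Agent.Helper850.RF.P_eq_case
import Pool.Agent.Helper850.RF.P_dist_case

set_option autoImplicit false

namespace RC
open Finset BigOperators


theorem plane : ∃ C : ℕ, ∀ (D k : ℕ), ∃ a : ℕ, ∀ (n : ℕ) (S : Finset ℕ) (x y : ℕ → ℝ)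
    (c : (Fin k → Fin ((D + 1) * (D + 1))) → ℝ), tow C (a * (n + 1)) ≤ S.card →
    ∃ T ⊆ S, T.card = n ∧ SignHom (kval (mon D x y) c) T := by
  classical
  obtain ⟨C1, h1⟩ := eq_case
  obtain ⟨C2, h2⟩ := dist_case
  refine ⟨max C1 C2 + 2, fun D k => ?_⟩
  obtain ⟨a1, h1⟩ := h1 D k
  obtain ⟨a2, h2⟩ := h2 D k
  obtain ⟨a', ha'⟩ := tow_thresh (max C1 C2) 1 2 (max a1 a2)
  refine ⟨a', fun n S x y c hS => ?_⟩
  obtain ⟨N, hN⟩ : ∃ N, N = tow (max C1 C2) (max a1 a2 * (n + 1)) := ⟨_, rfl⟩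
  have hN1 : tow C1 (a1 * (n + 1)) ≤ N := by
    rw [hN]
    refine (tow_mono C1 _ _ (Nat.mul_le_mul_right _ (le_max_left a1 a2))).trans ?_
    obtain ⟨d, hd⟩ := Nat.exists_eq_add_of_le (le_max_left C1 C2)
    rw [hd]
    exact tow_le_add _ _ _
  have hN2 : tow C2 (a2 * (n + 1)) ≤ N := by
    rw [hN]
    refine (tow_mono C2 _ _ (Nat.mul_le_mul_right _ (le_max_right a1 a2))).trans ?_
    obtain ⟨d, hd⟩ := Nat.exists_eq_add_of_le (le_max_right C1 C2)
    rw [hd]
    exact tow_le_add _ _ _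
  have hbig : (N + 2) ^ 2 ≤ S.card := by
    refine le_trans ?_ hS
    have := ha' n N 0 hN.le (Nat.zero_le _)
    simpa using this
  by_cases hv : ∃ v : ℝ, N ≤ (S.filter (fun i => x i = v)).card
  · obtain ⟨v, hv⟩ := hv
    obtain ⟨T, hT, hTc, hTs⟩ := h1 n (S.filter (fun i => x i = v)) x y c
      (fun i hi i' hi' => by
        rw [(Finset.mem_filter.1 hi).2, (Finset.mem_filter.1 hi').2]) (hN1.trans hv)
    exact ⟨T, hT.trans (Finset.filter_subset _ _), hTc, hTs⟩
  · push Not at hv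
    have hcard : S.card ≤ (S.image x).card * N := by
      rw [Finset.card_eq_sum_card_image x S]
      refine (Finset.sum_le_card_nsmul _ _ N fun v _ => (hv v).le).trans ?_
      simp
    have himg : N ≤ (S.image x).card := by
      by_contra hlt
      push Not at hlt
      have : (S.image x).card * N ≤ N * N := Nat.mul_le_mul_right _ hlt.le
      nlinarith
    obtain ⟨u, hu, himgu, hinj⟩ := (Set.surjOn_image x (S : Set ℕ)).exists_subset_injOn_image_eq
    have hfin : u.Finite := S.finite_toSet.subset hu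
    obtain ⟨S', hS'⟩ : ∃ S' : Finset ℕ, (S' : Set ℕ) = u := ⟨hfin.toFinset, by simp⟩
    subst hS'
    have hS'S : S' ⊆ S := by exact_mod_cast hu
    have hc : (S.image x).card = S'.card := by
      rw [← Finset.card_image_of_injOn himgu]
      congr 1
      have : ((S'.image x : Finset ℝ) : Set ℝ) = ((S.image x : Finset ℝ) : Set ℝ) := by
        push_cast
        exact hinj
      exact (Finset.coe_injective this).symm
    obtain ⟨T, hT, hTc, hTs⟩ := h2 n S' x y c
      (fun i hi i' hi' hlt heq => hlt.ne (himgu hi hi' heq)) (hN2.trans (himg.trans hc.le))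
    exact ⟨T, hT.trans hS'S, hTc, hTs⟩

end RC
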