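import Pool.Agent.Helper850.RF.Defs

set_option autoImplicit false

namespace RC
open Finset BigOperators


theorem poly_fev (D k : ℕ) (f : MvPolynomial (Fin k × Fin 2) ℝ)
    (hf : ∀ z, f.degreeOf z ≤ D) :
    ∃ c : (Fin k → Fin ((D + 1) * (D + 1))) → ℝ, ∀ p : Fin k → Fin 2 → ℝ,
      MvPolynomial.eval (fun z : Fin k × Fin 2 => p z.1 z.2) f =
        fev D c (fun l => p l 0) (fun l => p l 1) := by
  classical
  obtain ⟨E, hE0, hE1⟩ : ∃ E : (Fin k → Fin ((D + 1) * (D + 1))) → (Fin k × Fin 2 →₀ ℕ),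
      (∀ J l, E J (l, 0) = (J l : ℕ) / (D + 1)) ∧ (∀ J l, E J (l, 1) = (J l : ℕ) % (D + 1)) :=
    ⟨fun J => Finsupp.equivFunOnFinite.symm
      (fun z => if z.2 = 0 then (J z.1 : ℕ) / (D + 1) else (J z.1 : ℕ) % (D + 1)),
      fun J l => by simp, fun J l => by simp⟩
  have hinj : Function.Injective E := by
    intro J J' h
    funext l
    apply Fin.ext
    have h0 : (J l : ℕ) / (D + 1) = (J' l : ℕ) / (D + 1) := by rw [← hE0, ← hE0, h]
    have h1 : (J l : ℕ) % (D + 1) = (J' l : ℕ) % (D + 1) := by rw [← hE1, ← hE1, h]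
    rw [← Nat.div_add_mod (J l : ℕ) (D + 1), ← Nat.div_add_mod (J' l : ℕ) (D + 1), h0, h1]
  have hsub : f.support ⊆ Finset.univ.image E := by
    intro e he
    rw [Finset.mem_image]
    have hle : ∀ z, e z ≤ D := fun z => (MvPolynomial.monomial_le_degreeOf z he).trans (hf z)
    refine ⟨fun l => ⟨e (l, 0) * (D + 1) + e (l, 1), ?_⟩, Finset.mem_univ _, ?_⟩
    · have h0 := hle (l, 0)
      have h1 := hle (l, 1)
      nlinarith
    · ext ⟨l, b⟩
      have h1 := hle (l, 1)
      have hb : b = 0 ∨ b = 1 := by omega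
      rcases hb with rfl | rfl
      · rw [hE0]
        simp only
        rw [Nat.add_comm, Nat.add_mul_div_right _ _ (Nat.succ_pos D), Nat.div_eq_of_lt (by omega),
          Nat.zero_add]
      · rw [hE1]
        simp only
        rw [Nat.add_comm, Nat.add_mul_mod_self_right, Nat.mod_eq_of_lt (by omega)]
  refine ⟨fun J => f.coeff (E J), fun p => ?_⟩
  rw [MvPolynomial.eval_eq', fev]
  have h2 : ∀ J, ∏ z : Fin k × Fin 2, p z.1 z.2 ^ (E J z) =
      ∏ l, (p l 0 ^ ((J l : ℕ) / (D + 1)) * p l 1 ^ ((J l : ℕ) % (D + 1))) := by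
    intro J
    rw [Fintype.prod_prod_type]
    apply Finset.prod_congr rfl
    intro l _
    rw [Fin.prod_univ_two, hE0, hE1]
  simp only [← h2]
  rw [Finset.sum_subset hsub]
  · rw [Finset.sum_image (fun _ _ _ _ h => hinj h)]
  · intro e _ he
    rw [MvPolynomial.notMem_support_iff.1 he, zero_mul]
end RC
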